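import Pool.Agent.H73.CO.NgS

/-!
# Module Alg: the planar invariants (about 120 lines)

PROOFS.
* `cos_iff`: `Complex.cos_eq_cos_iff`.
* `QP_iff`: `QP z = QP w ↔ Complex.cos z = Complex.cos w`. If `w = ± z + 2 k π` then `QP w = QP z` (periodicity and parity of `sin`, `cos`). Conversely, `cos z.re = cos w.re` gives
  `w.re = σ z.re + 2 k π`, `σ = ±1` (`Real.cos_eq_cos_iff`), so `sin w.re = σ sin z.re`. If `sin z.re ≠ 0`: `w.im σ sin z.re = z.im sin z.re`, `w.im = σ z.im`, `w = σ z + 2 k π`. If `sin z.re = 0`: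
  `w.im² = z.im²`, `w.im = σ' z.im`, and `σ' z.re - σ z.re ∈ 2 π ℤ` because `z.re ∈ π ℤ`.
* `QQ_ph`: `F (c θ) = cos θ`, `⟪ρ c', g (c θ)⟫ = ⟪ρ c', -(sin θ • c')⟫ = -(ρ sin θ)`, `‖ρ c'‖² = ρ²`.
* `ph_change`: `w = ± z + 2 k π` by `cos_iff`; `c' ` from `ng_add`, `ng_neg` and `ph_add`, `ph_neg`.
* `ph_TN`: `c θ ∈ N`, `gc_tan`, `Tan.smul`.
-/

set_option autoImplicit false

open scoped ContDiff Topology RealInnerProductSpace
open Set Filter

namespace Pool.Agent.H73.CO

open Pool.Agent.H57.NL Pool.Agent.H2.TG Pool.Agent.H2.TI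

variable {m n : ℕ} {N : Set (E m)} {Pr : E m → (E m →L[ℝ] E m)} {F : E m → ℝ}
  {g : E m → E m}

variable {c : ℝ → E m}

theorem cos_iff {z w : ℂ} : Complex.cos z = Complex.cos w ↔
    ∃ k : ℤ, w = z + ((k * (2 * Real.pi) : ℝ) : ℂ) ∨ w = -z + ((k * (2 * Real.pi) : ℝ) : ℂ) := by
  rw [Complex.cos_eq_cos_iff]
  constructor
  · rintro ⟨k, h | h⟩
    · refine ⟨k, Or.inl ?_⟩
      rw [h]
      push_cast
      ring
    · refine ⟨k, Or.inr ?_⟩
      rw [h]
      push_cast
      ring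
  · rintro ⟨k, h | h⟩
    · refine ⟨k, Or.inl ?_⟩
      rw [h]
      push_cast
      ring
    · refine ⟨k, Or.inr ?_⟩
      rw [h]
      push_cast
      ring

private lemma Alg_cos (z : ℂ) : Complex.cos z =
    ⟨Real.cos z.re * Real.cosh z.im, -(Real.sin z.re * Real.sinh z.im)⟩ := by
  rw [Complex.cos_eq]
  apply Complex.ext
  · simp [← Complex.ofReal_cos, ← Complex.ofReal_cosh, ← Complex.ofReal_sin, ← Complex.ofReal_sinh]
  · simp [← Complex.ofReal_cos, ← Complex.ofReal_cosh, ← Complex.ofReal_sin, ← Complex.ofReal_sinh]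

theorem QP_iff {z w : ℂ} : QP z = QP w ↔ Complex.cos z = Complex.cos w := by
  constructor
  · intro h
    simp only [QP, Prod.mk.injEq] at h
    obtain ⟨h1, h2, h3⟩ := h
    rw [Alg_cos, Alg_cos]
    have h4 : z.im * Real.sin z.re = w.im * Real.sin w.re := neg_injective h2
    rcases sq_eq_sq_iff_eq_or_eq_neg.1 h3 with h5 | h5
    · rw [h5] at h4 ⊢
      rw [h1]
      rcases eq_or_ne w.im 0 with h6 | h6
      · rw [h6]
        simp
      · rw [mul_left_cancel₀ h6 h4]
    · rw [h5] at h4 ⊢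
      rw [h1, Real.cosh_neg, Real.sinh_neg]
      rcases eq_or_ne w.im 0 with h6 | h6
      · rw [h6]
        simp
      · have h7 : Real.sin w.re = -Real.sin z.re := by
          apply mul_left_cancel₀ h6
          linarith
        rw [h7]
        apply Complex.ext <;> simp
  · intro h
    obtain ⟨k, hk | hk⟩ := cos_iff.1 h
    · have hre : w.re = z.re + k * (2 * Real.pi) := by rw [hk]; simp
      have him : w.im = z.im := by rw [hk]; simp
      simp only [QP]
      rw [hre, him, Real.cos_add_int_mul_two_pi, Real.sin_add_int_mul_two_pi]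
    · have hre : w.re = -z.re + k * (2 * Real.pi) := by rw [hk]; simp
      have him : w.im = -z.im := by rw [hk]; simp
      simp only [QP]
      rw [hre, him, Real.cos_add_int_mul_two_pi, Real.sin_add_int_mul_two_pi, Real.cos_neg,
        Real.sin_neg, neg_mul_neg, neg_sq]

theorem QQ_ph (hc : NG N Pr F g c) (z : ℂ) : QQ F g (ph c z) = QP z := by
  have h1 := hc.unit z.re
  simp only [QQ, ph, QP, Prod.mk.injEq]
  refine ⟨hc.lev _, ?_, ?_⟩
  · rw [hc.gr, inner_neg_right, inner_smul_left, inner_smul_right, real_inner_self_eq_norm_sq, h1]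
    simp
  · rw [norm_smul, h1, mul_one, Real.norm_eq_abs, sq_abs]

theorem ph_change (hc : NG N Pr F g c) {z w : ℂ} (hzw : Complex.cos z = Complex.cos w) :
    ∃ c', NG N Pr F g c' ∧ ph c' w = ph c z := by
  obtain ⟨k, hk | hk⟩ := cos_iff.1 hzw
  · refine ⟨_, ng_add hc (-k), ?_⟩
    rw [ph_add, hk]
    congr 1
    push_cast
    ring
  · refine ⟨_, ng_add (ng_neg hc) (-k), ?_⟩
    rw [ph_add (fun θ => c (-θ)), ph_neg, hk]
    congr 1
    push_cast
    ring

theorem ph_TN (hc : NG N Pr F g c) (z : ℂ) : ph c z ∈ TN N :=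
  ⟨hc.mem _, Tan.smul (gc_tan hc.gc z.re) z.im⟩

theorem ph_smooth (hc : NG N Pr F g c) : ContDiff ℝ ∞ (ph c) := by
  have hd : ContDiff ℝ ∞ (deriv c) := by
    have h := hc.smooth
    exact (contDiff_infty_iff_deriv.1 h).2
  have hre : ContDiff ℝ ∞ (fun z : ℂ => z.re) := Complex.reCLM.contDiff
  have him : ContDiff ℝ ∞ (fun z : ℂ => z.im) := Complex.imCLM.contDiff
  exact (hc.smooth.comp hre).prodMk (him.smul (hd.comp hre))

end Pool.Agent.H73.CO
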