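import Pool.Agent.H73.CO.DefsG
import Pool.Agent.H2.TI.ITan

/-!
# Module Bas: first derivatives of `F` and `g` (about 90 lines)

PROOFS. Let `q ∈ N`, `v ∈ Tan N q`, `γ` a curve with `γ 0 = q`, `γ s ∈ N` near `0`, `HasDerivAt γ v 0`.
* `TD.dF`: `F ∘ γ` has derivative `fderiv ℝ F q v` at `0` (`F` is smooth). By `grad` (`IsDifferential`: `F y - F q - ⟪g q, y - q⟫ = o(y - q)`
  within `N`; compose with `γ`: `Tendsto γ (𝓝 0) (𝓝[N] q)`, and `γ s - q = O(s)`) the derivative of `F ∘ γ` at `0` is also `⟪g q, v⟫`.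
  Uniqueness of derivatives.
* `TD.abs_le`: `0 ≤ ‖g q‖² = 1 - F q ²`.
* `TD.dgg`: `s ↦ ‖g (γ s)‖² = 1 - F (γ s)²` near `0`; derivatives at `0`: `2 ⟪fderiv ℝ g q v, g q⟫ = -2 F q ⟪g q, v⟫` (`TD.dF`).
-/

set_option autoImplicit false

open scoped ContDiff Topology RealInnerProductSpace
open Set Filter

namespace Pool.Agent.H73.CO

open Pool.Agent.H57.NL Pool.Agent.H2.TG Pool.Agent.H2.TI

variable {m n : ℕ} {N : Set (E m)} {Pr : E m → (E m →L[ℝ] E m)} {F : E m → ℝ}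
  {g : E m → E m}

private lemma bas_comp (h : TD n N Pr F g) {γ : ℝ → E m} {v : E m} (hd : HasDerivAt γ v 0) :
    HasDerivAt (fun s => F (γ s)) (fderiv ℝ F (γ 0) v) 0 :=
  ((h.trans.smooth.differentiable (by simp) (γ 0)).hasFDerivAt).comp_hasDerivAt (0 : ℝ) hd

theorem TD.dF (h : TD n N Pr F g) {q v : E m} (hq : q ∈ N) (hv : v ∈ Tan N q) :
    fderiv ℝ F q v = ⟪g q, v⟫ := by
  obtain ⟨γ, h0, hS, hd⟩ := hv
  subst h0
  have H1 := bas_comp h hd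
  have hT : Tendsto γ (𝓝 0) (𝓝[N] (γ 0)) := tendsto_nhdsWithin_iff.2 ⟨hd.continuousAt, hS⟩
  have o1 : (fun s => F (γ s) - F (γ 0) - ⟪g (γ 0), γ s - γ 0⟫) =o[𝓝 0]
      fun s => γ s - γ 0 := (h.trans.grad (γ 0) hq).comp_tendsto hT
  have o2 : (fun s => γ s - γ 0) =O[𝓝 0] fun s : ℝ => s - 0 := hd.hasFDerivAt.isBigO_sub
  have o3 := o1.trans_isBigO o2
  have h3 : HasDerivAt (fun s => F (γ s) - ⟪g (γ 0), γ s - γ 0⟫) 0 0 := by
    rw [hasDerivAt_iff_isLittleO]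
    refine o3.congr_left fun s => ?_
    simp only [sub_self, inner_zero_right, sub_zero, smul_zero]
    ring
  have h4 : HasDerivAt (fun s => ⟪g (γ 0), γ s - γ 0⟫) ⟪g (γ 0), v⟫ 0 := by
    exact (innerSL ℝ (g (γ 0))).hasFDerivAt.comp_hasDerivAt (0 : ℝ) (hd.sub_const (γ 0))
  have h6 := h3.add h4
  have H2 : HasDerivAt (fun s => F (γ s)) ⟪g (γ 0), v⟫ 0 := by
    have e : (fun s => F (γ s)) = (fun s => F (γ s) - ⟪g (γ 0), γ s - γ 0⟫) +
        fun s => ⟪g (γ 0), γ s - γ 0⟫ := by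
      funext s
      simp
    rw [e]
    simpa using h6
  exact H1.unique H2

theorem TD.abs_le (h : TD n N Pr F g) {q : E m} (hq : q ∈ N) : |F q| ≤ 1 := by
  have h1 := h.trans.norm q hq
  have h2 : F q ^ 2 ≤ 1 := by
    have := sq_nonneg ‖g q‖
    linarith
  exact (sq_le_one_iff_abs_le_one (F q)).1 h2

theorem TD.dgg (h : TD n N Pr F g) {q v : E m} (hq : q ∈ N) (hv : v ∈ Tan N q) :
    ⟪fderiv ℝ g q v, g q⟫ = -(F q * ⟪g q, v⟫) := by
  have hdF := h.dF hq hv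
  obtain ⟨γ, h0, hS, hd⟩ := hv
  subst h0
  have H1 := bas_comp h hd
  rw [hdF] at H1
  have H2 : HasDerivAt (fun s => g (γ s)) (fderiv ℝ g (γ 0) v) 0 :=
    ((h.smooth.differentiable (by simp) (γ 0)).hasFDerivAt).comp_hasDerivAt (0 : ℝ) hd
  have H3 : HasDerivAt (fun s => ‖g (γ s)‖ ^ 2) (2 * ⟪g (γ 0), fderiv ℝ g (γ 0) v⟫) 0 :=
    H2.norm_sq
  have H4 : HasDerivAt (fun s => 1 - F (γ s) ^ 2) (-(2 * F (γ 0) * ⟪g (γ 0), v⟫)) 0 := by
    have h5 := (H1.pow 2).const_sub 1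
    simpa using h5
  have e : (fun s => ‖g (γ s)‖ ^ 2) =ᶠ[𝓝 0] fun s => 1 - F (γ s) ^ 2 := by
    filter_upwards [hS] with s hs
    exact h.trans.norm _ hs
  have H5 := H3.unique (H4.congr_of_eventuallyEq e)
  rw [real_inner_comm] at H5
  linarith

end Pool.Agent.H73.CO
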