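import Pool.Agent.H73.CO.DefsC
import Pool.Agent.H99.TW.TLocSub

/-!
# Module CiA: the circle (about 200 lines)

PROOFS. (`EuclideanSpace.inner_eq_star_dotProduct`/`PiLp.inner_apply`, `Fin.sum_univ_two`, `EuclideanSpace.norm_eq`, `simp`.)
* `cc_norm`, `dd_norm`, `cc_dd`, `JJ_cc`, `cc_der`, `dd_der`, `cc_smooth`, `dd_smooth`, `JJ_smooth`: computations. `cc_sub`: addition formulas.
* `exists_cc`: a unit vector is `(cos t, sin t)` (`Complex.arg` of `x 0 + i x 1`, or `Real`: `Complex.cos_arg`, `Complex.sin_arg`).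
* `cc_eq_iff`: `cc s = cc t` iff `s - t ∈ 2 π ℤ` (`Real.Angle` or `Complex.exp_eq_exp_iff_exists_int`).
* `gh1_spec`: for `z = ph1 w` with `⟪z.1, cc θ₀⟫ > 0`: with `w.re = θ₀ + a + 2 π k`, `|a| < π/2` (`cos (w.re - θ₀) > 0`), `⟪cc w.re, dd θ₀⟫ = sin (w.re - θ₀) = sin a`, `arcsin (sin a) = a`, so `gh1 θ₀ z = w - 2 π k`.
* `gh1_smooth`: near a point with `⟪z.1, dd θ₀⟫ ∈ (-1, 1)` (`Real.contDiffAt_arcsin`).
* `circ_sub`: `locSub` (H99/TW) with `S = univ : Set ℝ`, `F = cc`, `G x = θ₀ + arcsin ⟪x, dd θ₀⟫` at `y = cc θ₀`. `IsSubmfd 1 univ` in `ℝ`: `OpenPartialHomeomorph.refl`, `A = ⊤`.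
* `circ_mfd`: `sub`; `closed`: preimage of a point under a continuous map; `conn`: image of `ℝ` under `cc`; `inv`, `cocpt`: `Γ = ⊥`, `R = 1`.
* `circ_tan`: tangent vectors at `cc t` are the multiples of `dd t`: `c ↦ cc (t + c s)`; conversely a curve on the circle has `⟪γ, γ'⟫ = 0`, so `v = ⟪v, dd t⟫ • dd t` (orthonormal basis `cc t, dd t`).
* `TN_N1`: `z ∈ TN N1` iff `z = ph1 w` for some `w`.
-/

set_option autoImplicit false

open scoped ContDiff Topology RealInnerProductSpace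
open Set Filter

namespace Pool.Agent.H73.CO

open Pool.Agent.H57.NL Pool.Agent.H2.TG Pool.Agent.H2.TI

private lemma CiA_inner (x y : E 2) : ⟪x, y⟫ = x 0 * y 0 + x 1 * y 1 := by
  rw [PiLp.inner_apply, Fin.sum_univ_two]
  simp [mul_comm]

private lemma CiA_norm (x : E 2) : ‖x‖ ^ 2 = x 0 ^ 2 + x 1 ^ 2 := by
  rw [← real_inner_self_eq_norm_sq, CiA_inner]
  ring

private lemma CiA_ext {x y : E 2} (h0 : x 0 = y 0) (h1 : x 1 = y 1) : x = y := by
  ext i
  fin_cases i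
  · exact h0
  · exact h1

private lemma CiA_c0 (t : ℝ) : cc t 0 = Real.cos t := by simp [cc]
private lemma CiA_c1 (t : ℝ) : cc t 1 = Real.sin t := by simp [cc]
private lemma CiA_d0 (t : ℝ) : dd t 0 = -Real.sin t := by simp [dd]
private lemma CiA_d1 (t : ℝ) : dd t 1 = Real.cos t := by simp [dd]
private lemma CiA_j0 (x : E 2) : JJ x 0 = -x 1 := by simp [JJ]
private lemma CiA_j1 (x : E 2) : JJ x 1 = x 0 := by simp [JJ]

private lemma CiA_arc {x : ℝ} {θ : ℝ} (h : 0 < Real.cos (x - θ)) :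
    ∃ k : ℤ, θ + Real.arcsin (Real.sin (x - θ)) = x + k * (2 * Real.pi) := by
  have hπ := Real.pi_pos
  set k : ℤ := round ((x - θ) / (2 * Real.pi)) with hk
  have h1 : |(x - θ) / (2 * Real.pi) - k| ≤ 1 / 2 := abs_sub_round _
  set a : ℝ := x - θ - k * (2 * Real.pi) with ha
  have h2 : |a| ≤ Real.pi := by
    have e : a = ((x - θ) / (2 * Real.pi) - k) * (2 * Real.pi) := by
      rw [ha]
      field_simp
    rw [e, abs_mul, abs_of_pos (by positivity : (0 : ℝ) < 2 * Real.pi)]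
    nlinarith
  have h3 : Real.cos a = Real.cos (x - θ) := Real.cos_sub_int_mul_two_pi _ _
  have h4 : Real.sin a = Real.sin (x - θ) := Real.sin_sub_int_mul_two_pi _ _
  have h5 : |a| < Real.pi / 2 := by
    by_contra hn
    have h6 := Real.cos_nonpos_of_pi_div_two_le_of_le (not_lt.1 hn)
      (by linarith : |a| ≤ Real.pi + Real.pi / 2)
    rw [Real.cos_abs, h3] at h6
    linarith
  obtain ⟨h7, h8⟩ := abs_lt.1 h5
  refine ⟨-k, ?_⟩
  rw [← h4, Real.arcsin_sin h7.le h8.le, ha]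
  push_cast
  ring

private lemma CiA_arc0 {x θ : ℝ} (h : |x - θ| < Real.pi / 2) :
    θ + Real.arcsin (Real.sin (x - θ)) = x := by
  obtain ⟨h7, h8⟩ := abs_lt.1 h
  rw [Real.arcsin_sin h7.le h8.le]
  ring


theorem cc_norm (t : ℝ) : ‖cc t‖ = 1 := by
  have h := CiA_norm (cc t)
  rw [CiA_c0, CiA_c1, Real.cos_sq_add_sin_sq] at h
  exact (pow_eq_one_iff_of_nonneg (norm_nonneg _) two_ne_zero).1 h

theorem dd_norm (t : ℝ) : ‖dd t‖ = 1 := by
  have h := CiA_norm (dd t)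
  rw [CiA_d0, CiA_d1, neg_sq, Real.sin_sq_add_cos_sq] at h
  exact (pow_eq_one_iff_of_nonneg (norm_nonneg _) two_ne_zero).1 h

theorem cc_dd (s t : ℝ) : ⟪cc s, dd t⟫ = Real.sin (s - t) ∧ ⟪cc s, cc t⟫ = Real.cos (s - t) ∧
    ⟪dd s, dd t⟫ = Real.cos (s - t) := by
  refine ⟨?_, ?_, ?_⟩
  · rw [CiA_inner, CiA_c0, CiA_c1, CiA_d0, CiA_d1, Real.sin_sub]
    ring
  · rw [CiA_inner, CiA_c0, CiA_c1, CiA_c0, CiA_c1, Real.cos_sub]
  · rw [CiA_inner, CiA_d0, CiA_d1, CiA_d0, CiA_d1, Real.cos_sub]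
    ring

theorem JJ_cc (t : ℝ) : JJ (cc t) = dd t := by
  refine CiA_ext ?_ ?_
  · rw [CiA_j0, CiA_c1, CiA_d0]
  · rw [CiA_j1, CiA_c0, CiA_d1]

theorem cc_der (t : ℝ) : HasDerivAt cc (dd t) t ∧ HasDerivAt dd (-cc t) t := by
  have e1 : cc = fun t => Real.cos t • cc 0 + Real.sin t • dd 0 := by
    funext t
    refine CiA_ext ?_ ?_ <;>
      simp [CiA_c0, CiA_c1, CiA_d0, CiA_d1]
  have e2 : dd = fun t => (-Real.sin t) • cc 0 + Real.cos t • dd 0 := by
    funext t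
    refine CiA_ext ?_ ?_ <;>
      simp [CiA_c0, CiA_c1, CiA_d0, CiA_d1]
  have e3 : dd t = (-Real.sin t) • cc 0 + Real.cos t • dd 0 := congrFun e2 t
  have e4 : -cc t = (-Real.cos t) • cc 0 + (-Real.sin t) • dd 0 := by
    rw [congrFun e1 t, neg_add, neg_smul, neg_smul]
  constructor
  · have h1 : HasDerivAt (fun t => Real.cos t • cc 0 + Real.sin t • dd 0)
        ((-Real.sin t) • cc 0 + Real.cos t • dd 0) t :=
      ((Real.hasDerivAt_cos t).smul_const (cc 0)).add ((Real.hasDerivAt_sin t).smul_const (dd 0))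
    rw [e3]
    exact h1.congr_of_eventuallyEq (Eventually.of_forall fun s => congrFun e1 s)
  · have h1 : HasDerivAt (fun t => (-Real.sin t) • cc 0 + Real.cos t • dd 0)
        ((-Real.cos t) • cc 0 + (-Real.sin t) • dd 0) t :=
      ((Real.hasDerivAt_sin t).neg.smul_const (cc 0)).add
        ((Real.hasDerivAt_cos t).smul_const (dd 0))
    rw [e4]
    exact h1.congr_of_eventuallyEq (Eventually.of_forall fun s => congrFun e2 s)

theorem cc_smooth : ContDiff ℝ ∞ cc ∧ ContDiff ℝ ∞ dd ∧ ContDiff ℝ ∞ JJ ∧ ContDiff ℝ ∞ ph1 := by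
  have e1 : cc = fun t => Real.cos t • cc 0 + Real.sin t • dd 0 := by
    funext t
    refine CiA_ext ?_ ?_ <;>
      simp [CiA_c0, CiA_c1, CiA_d0, CiA_d1]
  have e2 : dd = fun t => (-Real.sin t) • cc 0 + Real.cos t • dd 0 := by
    funext t
    refine CiA_ext ?_ ?_ <;>
      simp [CiA_c0, CiA_c1, CiA_d0, CiA_d1]
  have e3 : JJ = fun x : E 2 => (-x 1) • cc 0 + x 0 • dd 0 := by
    funext x
    refine CiA_ext ?_ ?_ <;>
      simp [CiA_c0, CiA_c1, CiA_d0, CiA_d1, CiA_j0, CiA_j1]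
  have p0 : ContDiff ℝ ∞ fun x : E 2 => x 0 := (EuclideanSpace.proj (𝕜 := ℝ) (0 : Fin 2)).contDiff
  have p1 : ContDiff ℝ ∞ fun x : E 2 => x 1 := (EuclideanSpace.proj (𝕜 := ℝ) (1 : Fin 2)).contDiff
  have s1 : ContDiff ℝ ∞ cc := by
    rw [e1]
    exact (Real.contDiff_cos.smul contDiff_const).add (Real.contDiff_sin.smul contDiff_const)
  have s2 : ContDiff ℝ ∞ dd := by
    rw [e2]
    exact (Real.contDiff_sin.neg.smul contDiff_const).add (Real.contDiff_cos.smul contDiff_const)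
  refine ⟨s1, s2, ?_, ?_⟩
  · rw [e3]
    exact (p1.neg.smul contDiff_const).add (p0.smul contDiff_const)
  · have hr : ContDiff ℝ ∞ fun w : ℂ => w.re := Complex.reCLM.contDiff
    have hi : ContDiff ℝ ∞ fun w : ℂ => w.im := Complex.imCLM.contDiff
    exact (s1.comp hr).prodMk (hi.smul (s2.comp hr))

theorem exists_cc {x : E 2} (hx : x ∈ N1) : ∃ t, x = cc t := by
  have h1 := CiA_norm x
  have h2 : ‖x‖ = 1 := hx
  rw [h2, one_pow] at h1
  have h3 : ‖(⟨x 0, x 1⟩ : ℂ)‖ = 1 := by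
    have h4 := Complex.sq_norm (⟨x 0, x 1⟩ : ℂ)
    rw [Complex.normSq_mk] at h4
    have h5 : ‖(⟨x 0, x 1⟩ : ℂ)‖ ^ 2 = 1 := by linarith
    exact (pow_eq_one_iff_of_nonneg (norm_nonneg _) two_ne_zero).1 h5
  have h6 : (⟨x 0, x 1⟩ : ℂ) ≠ 0 := by
    intro h
    rw [h, norm_zero] at h3
    exact zero_ne_one h3
  refine ⟨Complex.arg ⟨x 0, x 1⟩, CiA_ext ?_ ?_⟩
  · rw [CiA_c0, Complex.cos_arg h6, h3, div_one]
  · rw [CiA_c1, Complex.sin_arg, h3, div_one]

theorem cc_eq_iff {s t : ℝ} : cc s = cc t ↔ ∃ k : ℤ, t = s + k * (2 * Real.pi) := by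
  constructor
  · intro h
    have h0 := congrArg (fun x : E 2 => x 0) h
    have h1 := congrArg (fun x : E 2 => x 1) h
    simp only [CiA_c0, CiA_c1] at h0 h1
    obtain ⟨k, hk⟩ := Real.Angle.angle_eq_iff_two_pi_dvd_sub.1 (Real.Angle.cos_sin_inj h0.symm h1.symm)
    exact ⟨k, by linarith⟩
  · rintro ⟨k, rfl⟩
    refine CiA_ext ?_ ?_
    · rw [CiA_c0, CiA_c0, Real.cos_add_int_mul_two_pi]
    · rw [CiA_c1, CiA_c1, Real.sin_add_int_mul_two_pi]

theorem ph1_eq_iff {v w : ℂ} : ph1 v = ph1 w ↔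
    ∃ k : ℤ, w = v + ((k * (2 * Real.pi) : ℝ) : ℂ) := by
  have hdd : ∀ (s : ℝ) (k : ℤ), dd (s + k * (2 * Real.pi)) = dd s := fun s k =>
    CiA_ext (by rw [CiA_d0, CiA_d0, Real.sin_add_int_mul_two_pi])
      (by rw [CiA_d1, CiA_d1, Real.cos_add_int_mul_two_pi])
  constructor
  · intro h
    have h0 : cc v.re = cc w.re := congrArg Prod.fst h
    have h1 : v.im • dd v.re = w.im • dd w.re := congrArg Prod.snd h
    obtain ⟨k, hk⟩ := cc_eq_iff.1 h0
    rw [hk, hdd, ← sub_eq_zero, ← sub_smul, smul_eq_zero] at h1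
    have h2 : dd v.re ≠ 0 := by
      intro h
      have := dd_norm v.re
      rw [h, norm_zero] at this
      exact zero_ne_one this
    have h3 := h1.resolve_right h2
    refine ⟨k, Complex.ext ?_ ?_⟩
    · simp only [Complex.add_re, Complex.ofReal_re]
      exact hk
    · simp only [Complex.add_im, Complex.ofReal_im]
      linarith
  · rintro ⟨k, rfl⟩
    unfold ph1
    simp only [Complex.add_re, Complex.ofReal_re, Complex.add_im, Complex.ofReal_im, add_zero]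
    rw [hdd, (cc_eq_iff (s := v.re)).2 ⟨k, rfl⟩]

theorem gh1_spec {θ₀ : ℝ} {w : ℂ} (h : 0 < ⟪(ph1 w).1, cc θ₀⟫) :
    ∃ k : ℤ, gh1 θ₀ (ph1 w) = w + ((k * (2 * Real.pi) : ℝ) : ℂ) := by
  have h1 : 0 < Real.cos (w.re - θ₀) := by
    have h2 : ⟪(ph1 w).1, cc θ₀⟫ = Real.cos (w.re - θ₀) := (cc_dd w.re θ₀).2.1
    rwa [h2] at h
  obtain ⟨k, hk⟩ := CiA_arc h1
  refine ⟨k, Complex.ext ?_ ?_⟩
  · simp only [Complex.add_re, Complex.ofReal_re]
    rw [← hk]
    show θ₀ + Real.arcsin ⟪cc w.re, dd θ₀⟫ = _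
    rw [(cc_dd w.re θ₀).1]
  · simp only [Complex.add_im, Complex.ofReal_im, add_zero]
    show ⟪w.im • dd w.re, JJ (cc w.re)⟫ = w.im
    rw [JJ_cc, real_inner_smul_left, (cc_dd w.re w.re).2.2, sub_self, Real.cos_zero, mul_one]

theorem gh1_smooth (w : ℂ) : ∀ᶠ z in 𝓝 (ph1 w), ContDiffAt ℝ ∞ (gh1 w.re) z := by
  have hc : Continuous fun z : E 2 × E 2 => ⟪z.1, dd w.re⟫ :=
    continuous_fst.inner continuous_const
  have h0 : ⟪(ph1 w).1, dd w.re⟫ = 0 := by
    show ⟪cc w.re, dd w.re⟫ = 0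
    rw [(cc_dd w.re w.re).1, sub_self, Real.sin_zero]
  have h1 : ∀ᶠ z : E 2 × E 2 in 𝓝 (ph1 w), |⟪z.1, dd w.re⟫| < 1 := by
    refine (isOpen_lt hc.abs continuous_const).mem_nhds ?_
    show |⟪(ph1 w).1, dd w.re⟫| < 1
    rw [h0, abs_zero]
    exact one_pos
  filter_upwards [h1] with z hz
  obtain ⟨a1, a2⟩ := abs_lt.1 hz
  have e : gh1 w.re = fun z : E 2 × E 2 => ((w.re + Real.arcsin ⟪z.1, dd w.re⟫ : ℝ) : ℂ) +
      ((⟪z.2, JJ z.1⟫ : ℝ) : ℂ) * Complex.I := by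
    funext z
    exact Complex.mk_eq_add_mul_I _ _
  rw [e]
  have b1 : ContDiffAt ℝ ∞ (fun z : E 2 × E 2 => ⟪z.1, dd w.re⟫) z :=
    (contDiff_fst.inner ℝ contDiff_const).contDiffAt
  have b2 : ContDiffAt ℝ ∞ (fun z : E 2 × E 2 => w.re + Real.arcsin ⟪z.1, dd w.re⟫) z :=
    contDiffAt_const.add ((Real.contDiffAt_arcsin (by linarith) (by linarith)).comp z b1)
  have b3 : ContDiffAt ℝ ∞ (fun z : E 2 × E 2 => ⟪z.2, JJ z.1⟫) z :=
    (contDiff_snd.inner ℝ (cc_smooth.2.2.1.comp contDiff_fst)).contDiffAt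
  exact (Complex.ofRealCLM.contDiff.contDiffAt.comp z b2).add
    ((Complex.ofRealCLM.contDiff.contDiffAt.comp z b3).mul contDiffAt_const)

theorem gh1_ph1 (w : ℂ) : ∀ᶠ v in 𝓝 w, gh1 w.re (ph1 v) = v := by
  have h1 : ∀ᶠ v : ℂ in 𝓝 w, |v.re - w.re| < Real.pi / 2 := by
    refine (isOpen_lt ((Complex.continuous_re.sub continuous_const).abs)
      continuous_const).mem_nhds ?_
    show |w.re - w.re| < Real.pi / 2
    rw [sub_self, abs_zero]
    have := Real.pi_pos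
    linarith
  filter_upwards [h1] with v hv
  refine Complex.ext ?_ ?_
  · show w.re + Real.arcsin ⟪cc v.re, dd w.re⟫ = v.re
    rw [(cc_dd v.re w.re).1]
    exact CiA_arc0 hv
  · show ⟪v.im • dd v.re, JJ (cc v.re)⟫ = v.im
    rw [JJ_cc, real_inner_smul_left, (cc_dd v.re v.re).2.2, sub_self, Real.cos_zero, mul_one]

theorem circ_mfd : ClosedMfd 1 N1 ⊥ := by
  have hN : N1 = range cc := by
    ext x
    constructor
    · intro hx
      obtain ⟨t, rfl⟩ := exists_cc hx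
      exact ⟨t, rfl⟩
    · rintro ⟨t, rfl⟩
      exact cc_norm t
  have hu : IsSubmfd 1 (univ : Set ℝ) := by
    intro x _
    refine ⟨OpenPartialHomeomorph.refl ℝ, ⊤, mem_univ _, contDiffOn_id, contDiffOn_id, ?_,
      fun y _ => ?_⟩
    · rw [finrank_top]
      exact Module.finrank_self ℝ
    · exact ⟨fun _ => Submodule.mem_top, fun _ => mem_univ _⟩
  refine ⟨?_, ?_, ?_, ?_, ?_⟩
  · refine Pool.Agent.H99.TW.locSub hu fun y hy => ?_
    obtain ⟨t, rfl⟩ := exists_cc hy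
    have hc : Continuous fun x : E 2 => ⟪x, dd t⟫ := continuous_id.inner continuous_const
    have hc2 : Continuous fun x : E 2 => ⟪x, cc t⟫ := continuous_id.inner continuous_const
    have h0 : ⟪cc t, dd t⟫ = 0 := by
      rw [(cc_dd t t).1, sub_self, Real.sin_zero]
    have hg : t + Real.arcsin ⟪cc t, dd t⟫ = t := by
      rw [h0, Real.arcsin_zero, add_zero]
    refine ⟨cc, fun x => t + Real.arcsin ⟪x, dd t⟫, mem_univ _, ?_, ?_, ?_, ?_, ?_⟩
    · show cc (t + Real.arcsin ⟪cc t, dd t⟫) = cc t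
      rw [hg]
    · exact Eventually.of_forall fun x => cc_smooth.1.contDiffAt
    · have h1 : ∀ᶠ z : E 2 in 𝓝 (cc t), |⟪z, dd t⟫| < 1 := by
        refine (isOpen_lt hc.abs continuous_const).mem_nhds ?_
        show |⟪cc t, dd t⟫| < 1
        rw [h0, abs_zero]
        exact one_pos
      filter_upwards [h1] with z hz
      obtain ⟨a1, a2⟩ := abs_lt.1 hz
      have b1 : ContDiffAt ℝ ∞ (fun z : E 2 => ⟪z, dd t⟫) z :=
        (contDiff_id.inner ℝ contDiff_const).contDiffAt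
      exact contDiffAt_const.add
        ((Real.contDiffAt_arcsin (by linarith) (by linarith)).comp z b1)
    · show ∀ᶠ x in 𝓝 (t + Real.arcsin ⟪cc t, dd t⟫), x ∈ univ → cc x ∈ N1 ∧
        t + Real.arcsin ⟪cc x, dd t⟫ = x
      rw [hg]
      have h1 : ∀ᶠ v : ℝ in 𝓝 t, |v - t| < Real.pi / 2 := by
        refine (isOpen_lt ((continuous_id.sub continuous_const).abs)
          continuous_const).mem_nhds ?_
        show |t - t| < Real.pi / 2
        rw [sub_self, abs_zero]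
        have := Real.pi_pos
        linarith
      filter_upwards [h1] with v hv _
      refine ⟨cc_norm v, ?_⟩
      rw [(cc_dd v t).1]
      exact CiA_arc0 hv
    · have h1 : ∀ᶠ z : E 2 in 𝓝 (cc t), 0 < ⟪z, cc t⟫ := by
        refine (isOpen_lt continuous_const hc2).mem_nhds ?_
        show 0 < ⟪cc t, cc t⟫
        rw [(cc_dd t t).2.1, sub_self, Real.cos_zero]
        exact one_pos
      filter_upwards [h1] with z hz hzN
      refine ⟨mem_univ _, ?_⟩
      obtain ⟨s, rfl⟩ := exists_cc hzN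
      rw [(cc_dd s t).2.1] at hz
      obtain ⟨k, hk⟩ := CiA_arc hz
      show cc (t + Real.arcsin ⟪cc s, dd t⟫) = cc s
      rw [(cc_dd s t).1, hk]
      exact (cc_eq_iff.2 ⟨k, rfl⟩).symm
  · exact isClosed_eq continuous_norm continuous_const
  · rw [hN]
    exact isConnected_range cc_smooth.1.continuous
  · intro g hg q hq
    rw [AddSubgroup.mem_bot] at hg
    rw [hg, add_zero]
    exact hq
  · refine ⟨1, fun q hq => ⟨0, AddSubgroup.zero_mem _, ?_⟩⟩
    rw [add_zero]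
    exact le_of_eq hq

theorem circ_tan (t : ℝ) {v : E 2} : v ∈ Tan N1 (cc t) ↔ ∃ r : ℝ, v = r • dd t := by
  constructor
  · rintro ⟨γ, h0, h1, h2⟩
    have h3 : HasDerivAt (fun s => ⟪γ s, γ s⟫) (⟪γ 0, v⟫ + ⟪v, γ 0⟫) 0 := h2.inner ℝ h2
    have h4 : HasDerivAt (fun s => ⟪γ s, γ s⟫) 0 0 := by
      refine (hasDerivAt_const (0 : ℝ) (1 : ℝ)).congr_of_eventuallyEq ?_
      filter_upwards [h1] with s hs
      have h5 : ‖γ s‖ = 1 := hs
      rw [real_inner_self_eq_norm_sq, h5, one_pow]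
    have h5 := h3.unique h4
    rw [h0, real_inner_comm] at h5
    have h6 : ⟪v, cc t⟫ = 0 := by
      have h7 := real_inner_comm v (cc t)
      linarith
    refine ⟨⟪v, dd t⟫, ?_⟩
    have h8 := Real.cos_sq_add_sin_sq t
    rw [CiA_inner, CiA_c0, CiA_c1] at h6
    refine CiA_ext ?_ ?_
    · rw [PiLp.smul_apply, smul_eq_mul, CiA_inner, CiA_d0, CiA_d1]
      linear_combination Real.cos t * h6 - v 0 * h8
    · rw [PiLp.smul_apply, smul_eq_mul, CiA_inner, CiA_d0, CiA_d1]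
      linear_combination Real.sin t * h6 - v 1 * h8
  · rintro ⟨r, rfl⟩
    refine ⟨fun s => cc (t + r * s), by simp, Eventually.of_forall fun s => cc_norm _, ?_⟩
    have h1 : HasDerivAt (fun s : ℝ => t + r * s) r 0 := by
      have := ((hasDerivAt_id (0 : ℝ)).const_mul r).const_add t
      simpa using this
    have h2 : HasDerivAt cc (dd t) (t + r * 0) := by
      rw [mul_zero, add_zero]
      exact (cc_der t).1
    exact h2.scomp (0 : ℝ) h1

theorem TN_N1 {z : E 2 × E 2} : z ∈ TN N1 ↔ ∃ w : ℂ, z = ph1 w := by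
  constructor
  · rintro ⟨h1, h2⟩
    obtain ⟨t, ht⟩ := exists_cc h1
    rw [ht] at h2
    obtain ⟨r, hr⟩ := (circ_tan t).1 h2
    exact ⟨⟨t, r⟩, Prod.ext ht hr⟩
  · rintro ⟨w, rfl⟩
    exact ⟨cc_norm _, (circ_tan _).2 ⟨w.im, rfl⟩⟩

end Pool.Agent.H73.CO
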