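import Pool.Agent.H73.CO.CiB
import Pool.Agent.H2.TI.IMain
import Pool.Agent.H86.PL.Par

/-!
# Module CiC: the isotopy on `T*S¹` and its lift (about 200 lines)

PROOFS.
* `circ_iso`: `iso_main circ_mfd` with `V = JJ` (`cc_smooth`; tangent: `JJ (cc t) = dd t`, `circ_tan`), `circ_lag`, `EmbN JJ S`: `inj`: `z = ph1 v`, `z' = ph1 w`, `z.1 = z'.1`, `⟪z.2, JJ z.1⟫ = v.im`: so `z.2 = z'.2`. `imm`: `(0, b) ∈ Tan S z`: `b` is a multiple of `dd` (`S ⊆ TN N1`, take the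
  curve `γ` in `S`: `(γ s).2 = r s • JJ (γ s).1`, `r s = ⟪(γ s).2, JJ (γ s).1⟫`, derivative at `0` with `(γ' ).1 = 0`: `b = r' • JJ z.1`), so `⟪b, JJ z.1⟫ = r' = 0` gives `b = 0`.
* `circ_lift`: `x (s, t) = (Ψ s (ph1 t)).1`, in `N1` (`SympDiffeo.maps`), smooth. `θ (s, t) = t + ∫₀ˢ ⟪∂_σ x (σ, t), JJ (x (σ, t))⟫ dσ` (smooth: `contDiff_prim` of `H86/PL/Par`).
  `cc (θ (s, t)) = x (s, t)`: both `u = x` and `u = cc θ` satisfy `∂_s u = λ JJ u` with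
  `λ = ⟪∂_s x, JJ x⟫` (`∂_s x` is a multiple of `JJ x`, since `x ∈ N1`), same value at `s = 0` (`Ψ 0 = id`); the derivative of `⟪x, cc θ⟫` is `0` (`JJ` is skew), its value at `0` is `1`.
  `γ t = ⟨θ (1, t), ⟪(Ψ 1 (ph1 t)).2, JJ (x (1, t))⟫⟩`: smooth, `ph1 (γ t) = Ψ 1 (ph1 t)` (a point of `TN N1` is determined by `x` and `⟪p, JJ x⟫`, `TN_N1`). `γ (t + 2 π) = γ t + 2 π`: `x`, hence the integrand, is `2 π`-periodic in `t`.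
-/

set_option autoImplicit false

open scoped ContDiff Topology RealInnerProductSpace
open Set Filter

namespace Pool.Agent.H73.CO

open Pool.Agent.H57.NL Pool.Agent.H2.TG Pool.Agent.H2.TI

private lemma cic_skew (x y : E 2) : ⟪JJ x, y⟫ + ⟪x, JJ y⟫ = 0 := by
  simp only [JJ, PiLp.inner_apply, Fin.sum_univ_two, RCLike.inner_apply, conj_trivial]
  simp

private lemma cic_dd (t : ℝ) : ⟪dd t, dd t⟫ = 1 := by
  rw [(cc_dd t t).2.2, sub_self, Real.cos_zero]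

private lemma cic_ph1 (w : ℂ) : (ph1 w).1 = cc w.re ∧ (ph1 w).2 = w.im • JJ (cc w.re) ∧
    ⟪(ph1 w).2, JJ (ph1 w).1⟫ = w.im := by
  refine ⟨rfl, ?_, ?_⟩
  · rw [JJ_cc]
    rfl
  · show ⟪w.im • dd w.re, JJ (cc w.re)⟫ = w.im
    rw [JJ_cc, real_inner_smul_left, cic_dd, mul_one]

private lemma cic_emb {Γ : Set ℂ} : EmbN JJ (ph1 '' Γ) := by
  refine ⟨?_, ?_⟩
  · rintro _ ⟨v, hv, rfl⟩ _ ⟨w, hw, rfl⟩ h1 h2
    rw [(cic_ph1 v).2.2, (cic_ph1 w).2.2] at h2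
    refine Prod.ext h1 ?_
    rw [(cic_ph1 v).2.1, (cic_ph1 w).2.1, h2]
    have h3 : cc v.re = cc w.re := h1
    rw [h3]
  · rintro z hz b ⟨γ, h0, hS, hd⟩ hb
    have hd1 : HasDerivAt (fun s => (γ s).1) 0 0 :=
      (ContinuousLinearMap.fst ℝ (E 2) (E 2)).hasFDerivAt.comp_hasDerivAt (0 : ℝ) hd
    have hd2 : HasDerivAt (fun s => (γ s).2) b 0 :=
      (ContinuousLinearMap.snd ℝ (E 2) (E 2)).hasFDerivAt.comp_hasDerivAt (0 : ℝ) hd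
    have hJ : HasFDerivAt JJ (fderiv ℝ JJ (γ 0).1) (γ 0).1 :=
      (cc_smooth.2.2.1.differentiable (by simp) _).hasFDerivAt
    have hd3 : HasDerivAt (fun s => JJ (γ s).1) 0 0 := by
      have := hJ.comp_hasDerivAt (0 : ℝ) hd1
      rw [map_zero] at this
      exact this
    have hr : HasDerivAt (fun s => ⟪(γ s).2, JJ (γ s).1⟫) 0 0 := by
      have := hd2.inner ℝ hd3
      rw [inner_zero_right, h0, hb, add_zero] at this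
      exact this
    have h4 : HasDerivAt (fun s => ⟪(γ s).2, JJ (γ s).1⟫ • JJ (γ s).1) 0 0 := by
      have := hr.smul hd3
      rw [smul_zero, zero_smul, add_zero] at this
      exact this
    have h5 : (fun s => (γ s).2) =ᶠ[𝓝 0] fun s => ⟪(γ s).2, JJ (γ s).1⟫ • JJ (γ s).1 := by
      filter_upwards [hS] with s hs
      obtain ⟨v, hv, hvs⟩ := hs
      rw [← hvs, (cic_ph1 v).2.2]
      exact (cic_ph1 v).2.1
    exact hd2.unique (h4.congr_of_eventuallyEq h5)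

theorem circ_iso {Γ : Set ℂ} {f : ℂ → ℝ} (h : PlaneSet Γ f) :
    ∃ (Ψ Ψ' : ℝ → E 2 × E 2 → E 2 × E 2) (H : ℝ → E 2 × E 2 → ℝ), HamIso N1 Ψ Ψ' H ∧
      Ψ 1 '' {z | z.1 ∈ N1 ∧ z.2 = 0} = ph1 '' Γ := by
  obtain ⟨f₁, hL⟩ := circ_lag h
  obtain ⟨Ψ, Ψ', H, h1, h2, -⟩ := iso_main circ_mfd cc_smooth.2.2.1 (by
    intro q hq
    obtain ⟨t, rfl⟩ := exists_cc hq
    rw [circ_tan, JJ_cc]
    exact ⟨1, (one_smul ℝ _).symm⟩) hL cic_emb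
  exact ⟨Ψ, Ψ', H, h1, h2⟩

/-- The base point of the flow line. -/
private noncomputable def cic_x (Ψ : ℝ → E 2 × E 2 → E 2 × E 2) (p : ℝ × ℝ) : E 2 :=
  (Ψ p.2 (ph1 (p.1 : ℂ))).1

/-- The angular velocity. -/
private noncomputable def cic_f (Ψ : ℝ → E 2 × E 2 → E 2 × E 2) (p : ℝ × ℝ) : ℝ :=
  ⟪deriv (fun s => cic_x Ψ (p.1, s)) p.2, JJ (cic_x Ψ p)⟫

private lemma cic_x_smooth {Ψ Ψ' : ℝ → E 2 × E 2 → E 2 × E 2} {H : ℝ → E 2 × E 2 → ℝ}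
    (h : HamIso N1 Ψ Ψ' H) : ContDiff ℝ ∞ fun p : ℝ × ℝ => Ψ p.2 (ph1 (p.1 : ℂ)) :=
  h.smooth.comp (contDiff_snd.prodMk (cc_smooth.2.2.2.comp
    (Complex.ofRealCLM.contDiff.comp contDiff_fst)))

private lemma cic_x_der {Ψ Ψ' : ℝ → E 2 × E 2 → E 2 × E 2} {H : ℝ → E 2 × E 2 → ℝ}
    (h : HamIso N1 Ψ Ψ' H) (t s : ℝ) :
    HasDerivAt (fun s => cic_x Ψ (t, s)) (fderiv ℝ (cic_x Ψ) (t, s) (0, 1)) s := by
  have h1 : HasFDerivAt (cic_x Ψ) (fderiv ℝ (cic_x Ψ) (t, s)) (t, s) :=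
    ((contDiff_fst.comp (cic_x_smooth h)).differentiable (by simp) _).hasFDerivAt
  have h2 : HasDerivAt (fun s : ℝ => ((t, s) : ℝ × ℝ)) ((0 : ℝ), (1 : ℝ)) s :=
    (hasDerivAt_const s t).prodMk (hasDerivAt_id s)
  exact h1.comp_hasDerivAt s h2

private lemma cic_f_smooth {Ψ Ψ' : ℝ → E 2 × E 2 → E 2 × E 2} {H : ℝ → E 2 × E 2 → ℝ}
    (h : HamIso N1 Ψ Ψ' H) : ContDiff ℝ ∞ (cic_f Ψ) := by
  have hx : ContDiff ℝ ∞ (cic_x Ψ) := contDiff_fst.comp (cic_x_smooth h)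
  have h1 : cic_f Ψ = fun p : ℝ × ℝ => ⟪fderiv ℝ (cic_x Ψ) p (0, 1), JJ (cic_x Ψ p)⟫ := by
    funext p
    show ⟪deriv (fun s => cic_x Ψ (p.1, s)) p.2, JJ (cic_x Ψ p)⟫ = _
    rw [(cic_x_der h p.1 p.2).deriv]
  rw [h1]
  exact ((hx.fderiv_right (m := ∞) (by simp)).clm_apply contDiff_const).inner ℝ
    (cc_smooth.2.2.1.comp hx)

private lemma cic_ph1_mem (t : ℝ) : ph1 (t : ℂ) ∈ TN N1 := TN_N1.2 ⟨_, rfl⟩

private lemma cic_mem {Ψ Ψ' : ℝ → E 2 × E 2 → E 2 × E 2} {H : ℝ → E 2 × E 2 → ℝ}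
    (h : HamIso N1 Ψ Ψ' H) (p : ℝ × ℝ) : cic_x Ψ p ∈ N1 :=
  ((h.diffeo p.2).maps _ (cic_ph1_mem p.1)).1

private lemma cic_x_der' {Ψ Ψ' : ℝ → E 2 × E 2 → E 2 × E 2} {H : ℝ → E 2 × E 2 → ℝ}
    (h : HamIso N1 Ψ Ψ' H) (t s : ℝ) :
    HasDerivAt (fun s => cic_x Ψ (t, s)) (cic_f Ψ (t, s) • JJ (cic_x Ψ (t, s))) s := by
  have h1 := cic_x_der h t s
  have h2 : fderiv ℝ (cic_x Ψ) (t, s) (0, 1) = cic_f Ψ (t, s) • JJ (cic_x Ψ (t, s)) := by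
    obtain ⟨u, hu⟩ := exists_cc (cic_mem h (t, s))
    have h3 : fderiv ℝ (cic_x Ψ) (t, s) (0, 1) ∈ Tan N1 (cc u) := by
      refine ⟨fun τ => cic_x Ψ (t, s + τ), ?_, ?_, ?_⟩
      · show cic_x Ψ (t, s + 0) = cc u
        rw [add_zero, hu]
      · exact Eventually.of_forall fun τ => cic_mem h (t, s + τ)
      · have h4 : HasDerivAt (fun τ : ℝ => s + τ) 1 0 := by
          simpa using (hasDerivAt_id (0 : ℝ)).const_add s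
        have h5 : HasDerivAt (fun s => cic_x Ψ (t, s)) (fderiv ℝ (cic_x Ψ) (t, s) (0, 1))
            ((fun τ : ℝ => s + τ) 0) := by
          show HasDerivAt _ _ (s + 0)
          rw [add_zero]
          exact h1
        have h6 := h5.scomp (0 : ℝ) h4
        rw [one_smul] at h6
        exact h6
    obtain ⟨r, hr⟩ := circ_tan u |>.1 h3
    have h7 : cic_f Ψ (t, s) = r := by
      show ⟪deriv (fun s => cic_x Ψ (t, s)) s, JJ (cic_x Ψ (t, s))⟫ = r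
      rw [h1.deriv, hr, hu, JJ_cc, real_inner_smul_left, cic_dd, mul_one]
    rw [h7, hu, JJ_cc, hr]
  rw [← h2]
  exact h1

/-- The angle. -/
private noncomputable def cic_th (Ψ : ℝ → E 2 × E 2 → E 2 × E 2) (p : ℝ × ℝ) : ℝ :=
  p.1 + ∫ τ in (0 : ℝ)..p.2, cic_f Ψ (p.1, τ)

private lemma cic_th_eq {Ψ Ψ' : ℝ → E 2 × E 2 → E 2 × E 2} {H : ℝ → E 2 × E 2 → ℝ}
    (h : HamIso N1 Ψ Ψ' H) (t s : ℝ) : cc (cic_th Ψ (t, s)) = cic_x Ψ (t, s) := by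
  have hfc : Continuous fun τ : ℝ => cic_f Ψ (t, τ) :=
    (cic_f_smooth h).continuous.comp (by fun_prop)
  have hth : ∀ s, HasDerivAt (fun s => cic_th Ψ (t, s)) (cic_f Ψ (t, s)) s := by
    intro s
    exact (intervalIntegral.integral_hasDerivAt_right (hfc.intervalIntegrable _ _)
      hfc.stronglyMeasurable.stronglyMeasurableAtFilter hfc.continuousAt).const_add t
  have hcc : ∀ s, HasDerivAt (fun s => cc (cic_th Ψ (t, s)))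
      (cic_f Ψ (t, s) • dd (cic_th Ψ (t, s))) s := fun s =>
    HasDerivAt.scomp (h := fun s => cic_th Ψ (t, s)) s (cc_der (cic_th Ψ (t, s))).1 (hth s)
  have hA : ∀ s, HasDerivAt (fun s => ⟪cic_x Ψ (t, s), cc (cic_th Ψ (t, s))⟫) 0 s := by
    intro s
    have h1 := (cic_x_der' h t s).inner ℝ (hcc s)
    have h2 : ⟪cic_x Ψ (t, s), cic_f Ψ (t, s) • dd (cic_th Ψ (t, s))⟫ +
        ⟪cic_f Ψ (t, s) • JJ (cic_x Ψ (t, s)), cc (cic_th Ψ (t, s))⟫ = 0 := by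
      rw [real_inner_smul_left, real_inner_smul_right, ← JJ_cc, ← mul_add, add_comm,
        cic_skew, mul_zero]
    rw [h2] at h1
    exact h1
  have h3 := is_const_of_deriv_eq_zero (fun s => (hA s).differentiableAt)
    (fun s => (hA s).deriv) s 0
  have h4 : cic_th Ψ (t, 0) = t := by
    show t + ∫ τ in (0 : ℝ)..0, cic_f Ψ (t, τ) = t
    rw [intervalIntegral.integral_same, add_zero]
  have h5 : cic_x Ψ (t, 0) = cc t := by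
    show (Ψ 0 (ph1 (t : ℂ))).1 = cc t
    rw [h.zero _ (cic_ph1_mem t)]
    rfl
  simp only [h4, h5, (cc_dd t t).2.1, sub_self, Real.cos_zero] at h3
  have h6 := (inner_eq_one_iff_of_norm_eq_one (𝕜 := ℝ) (cic_mem h (t, s))
    (cc_norm (cic_th Ψ (t, s)))).1 h3
  exact h6.symm

theorem circ_lift {Ψ Ψ' : ℝ → E 2 × E 2 → E 2 × E 2} {H : ℝ → E 2 × E 2 → ℝ}
    (h : HamIso N1 Ψ Ψ' H) : ∃ γ : ℝ → ℂ, ContDiff ℝ ∞ γ ∧
      (∀ t, γ (t + 2 * Real.pi) = γ t + ((2 * Real.pi : ℝ) : ℂ)) ∧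
      ∀ t : ℝ, ph1 (γ t) = Ψ 1 (ph1 (t : ℂ)) := by
  have hcp : ∀ t : ℝ, ph1 ((t + 2 * Real.pi : ℝ) : ℂ) = ph1 (t : ℂ) := by
    intro t
    symm
    rw [ph1_eq_iff]
    refine ⟨1, ?_⟩
    push_cast
    ring
  have hxp : ∀ t s : ℝ, cic_x Ψ (t + 2 * Real.pi, s) = cic_x Ψ (t, s) := by
    intro t s
    show (Ψ s (ph1 ((t + 2 * Real.pi : ℝ) : ℂ))).1 = (Ψ s (ph1 (t : ℂ))).1
    rw [hcp]
  have hfp : ∀ t s : ℝ, cic_f Ψ (t + 2 * Real.pi, s) = cic_f Ψ (t, s) := by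
    intro t s
    show ⟪deriv (fun s => cic_x Ψ (t + 2 * Real.pi, s)) s, JJ (cic_x Ψ (t + 2 * Real.pi, s))⟫ =
      ⟪deriv (fun s => cic_x Ψ (t, s)) s, JJ (cic_x Ψ (t, s))⟫
    simp only [hxp]
  refine ⟨fun t => ⟨cic_th Ψ (t, 1), ⟪(Ψ 1 (ph1 (t : ℂ))).2, JJ (cic_x Ψ (t, 1))⟫⟩, ?_, ?_, ?_⟩
  · have hpt : ContDiff ℝ ∞ fun t : ℝ => ((t, (1 : ℝ)) : ℝ × ℝ) :=
      contDiff_id.prodMk contDiff_const
    have h1 : ContDiff ℝ ∞ fun t : ℝ => cic_th Ψ (t, 1) :=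
      contDiff_id.add ((Pool.Agent.H86.PL.contDiff_prim (cic_f_smooth h)).comp hpt)
    have h2 : ContDiff ℝ ∞ fun t : ℝ => ⟪(Ψ 1 (ph1 (t : ℂ))).2, JJ (cic_x Ψ (t, 1))⟫ :=
      (contDiff_snd.comp ((cic_x_smooth h).comp hpt)).inner ℝ
        (cc_smooth.2.2.1.comp ((contDiff_fst.comp (cic_x_smooth h)).comp hpt))
    exact Complex.equivRealProdCLM.symm.contDiff.comp (h1.prodMk h2)
  · intro t
    have h1 : cic_th Ψ (t + 2 * Real.pi, 1) = cic_th Ψ (t, 1) + 2 * Real.pi := by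
      show (t + 2 * Real.pi) + ∫ τ in (0 : ℝ)..1, cic_f Ψ (t + 2 * Real.pi, τ) =
        (t + ∫ τ in (0 : ℝ)..1, cic_f Ψ (t, τ)) + 2 * Real.pi
      simp only [hfp]
      ring
    refine Complex.ext ?_ ?_
    · show cic_th Ψ (t + 2 * Real.pi, 1) = _
      rw [h1, Complex.add_re, Complex.ofReal_re]
    · show ⟪(Ψ 1 (ph1 ((t + 2 * Real.pi : ℝ) : ℂ))).2, JJ (cic_x Ψ (t + 2 * Real.pi, 1))⟫ = _
      rw [hcp, hxp, Complex.add_im, Complex.ofReal_im, add_zero]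
  · intro t
    obtain ⟨w, hw⟩ := TN_N1.1 ((h.diffeo 1).maps _ (cic_ph1_mem t))
    have h1 : cc (cic_th Ψ (t, 1)) = (Ψ 1 (ph1 (t : ℂ))).1 := cic_th_eq h t 1
    refine Prod.ext h1 ?_
    show ⟪(Ψ 1 (ph1 (t : ℂ))).2, JJ (cic_x Ψ (t, 1))⟫ • dd (cic_th Ψ (t, 1)) = _
    have h2 : cic_x Ψ (t, 1) = (Ψ 1 (ph1 (t : ℂ))).1 := rfl
    rw [← JJ_cc, h1, h2, hw, (cic_ph1 w).2.2, (cic_ph1 w).2.1, (cic_ph1 w).1]

end Pool.Agent.H73.CO
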