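import Pool.Agent.H73.CO.CiC

/-!
# Module CiD: a periodic parametrisation of the profile (about 110 lines)

PROOF of `exists_per`. `γ` from `circ_iso`, `circ_lift`. `imm`: if `deriv γ t = 0` then `t ↦ Ψ 1 (ph1 t)` has derivative `0` at `t`, so `ph1 t = Ψ' 1 (Ψ 1 (ph1 t))` as well (`Ψ' 1` is smooth), but the derivative of `t ↦ ph1 t = (cc t, 0)` is `(dd t, 0) ≠ 0`.
`inj`: `γ s = γ t` gives `Ψ 1 (ph1 s) = Ψ 1 (ph1 t)`, `ph1 s = ph1 t` (`left`), `t = s + 2 π k` (`ph1_eq_iff`), `γ t = γ s + 2 π k` (`per`, integers), so `k = 0`. `range ⊆ Γ`: `ph1 (γ t) = Ψ 1 (ph1 t) ∈ ph1 '' Γ`: `γ t = w + 2 π k`, `w ∈ Γ` (`ph1_eq_iff`); `Γ + 2 π ℤ = Γ` (`per`, and `neg` for negative `k`).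
`Γ ⊆ range`: `w ∈ Γ`: `ph1 w = Ψ 1 (x, 0)`, `x = cc t`, so `ph1 w = ph1 (γ t)`, `w = γ t + 2 π k = γ (t + 2 π k)`.
-/

set_option autoImplicit false

open scoped ContDiff Topology RealInnerProductSpace
open Set Filter

namespace Pool.Agent.H73.CO

open Pool.Agent.H57.NL Pool.Agent.H2.TG Pool.Agent.H2.TI

theorem exists_per {Γ : Set ℂ} {f : ℂ → ℝ} (h : PlaneSet Γ f) : ∃ γ, PerCurve Γ γ := by
  obtain ⟨Ψ, Ψ', H, hI, him⟩ := circ_iso h
  obtain ⟨γ, hs, hper, hγ⟩ := circ_lift hI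
  have hTN : ∀ w : ℂ, ph1 w ∈ TN N1 := fun w => TN_N1.2 ⟨w, rfl⟩
  have hpi : (0 : ℝ) < 2 * Real.pi := by positivity
  have hΓn : ∀ (n : ℕ) (w : ℂ), w ∈ Γ → w + ((n * (2 * Real.pi) : ℝ) : ℂ) ∈ Γ := by
    intro n
    induction n with
    | zero => intro w hw; simpa using hw
    | succ n ih =>
      intro w hw
      have h1 := h.per _ (ih w hw)
      have e : w + ((((n + 1 : ℕ) : ℝ) * (2 * Real.pi) : ℝ) : ℂ)
          = w + ((n * (2 * Real.pi) : ℝ) : ℂ) + ((2 * Real.pi : ℝ) : ℂ) := by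
        push_cast
        ring
      rw [e]
      exact h1
  have hΓ : ∀ (k : ℤ) (w : ℂ), w ∈ Γ → w + ((k * (2 * Real.pi) : ℝ) : ℂ) ∈ Γ := by
    intro k w hw
    obtain ⟨n, hn | hn⟩ := k.eq_nat_or_neg
    · have h1 := hΓn n w hw
      rw [hn]
      exact_mod_cast h1
    · have h1 := h.neg _ (hΓn n _ (h.neg w hw))
      have e : w + ((k * (2 * Real.pi) : ℝ) : ℂ) = -(-w + ((n * (2 * Real.pi) : ℝ) : ℂ)) := by
        rw [hn]
        push_cast
        ring
      rw [e]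
      exact h1
  have hγn : ∀ (n : ℕ) (t : ℝ),
      γ (t + n * (2 * Real.pi)) = γ t + ((n * (2 * Real.pi) : ℝ) : ℂ) := by
    intro n
    induction n with
    | zero => intro t; simp
    | succ n ih =>
      intro t
      have e : t + ((n + 1 : ℕ) : ℝ) * (2 * Real.pi) = t + n * (2 * Real.pi) + 2 * Real.pi := by
        push_cast
        ring
      rw [e, hper, ih]
      push_cast
      ring
  have hγk : ∀ (k : ℤ) (t : ℝ),
      γ (t + k * (2 * Real.pi)) = γ t + ((k * (2 * Real.pi) : ℝ) : ℂ) := by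
    intro k t
    obtain ⟨n, hn | hn⟩ := k.eq_nat_or_neg
    · have h1 := hγn n t
      rw [hn]
      exact_mod_cast h1
    · have h1 := hγn n (t + k * (2 * Real.pi))
      have e : t + k * (2 * Real.pi) + n * (2 * Real.pi) = t := by
        rw [hn]
        push_cast
        ring
      rw [e] at h1
      rw [h1, hn]
      push_cast
      ring
  have hlin : ∀ t : ℝ, Ψ' 1 (ph1 (γ t)) = ph1 (t : ℂ) := by
    intro t
    rw [hγ]
    exact (hI.diffeo 1).left _ (hTN _)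
  have hph0 : ∀ t : ℝ, ph1 (t : ℂ) = (cc t, 0) := by
    intro t
    simp [ph1]
  refine ⟨γ, hs, hper, ?_, ?_, ?_⟩
  · intro t h0
    have hd : HasDerivAt γ 0 t := by
      have h1 : DifferentiableAt ℝ γ t := (hs.differentiable (by simp)).differentiableAt
      have h2 := h1.hasDerivAt
      rwa [h0] at h2
    have hp : Differentiable ℝ ph1 := cc_smooth.2.2.2.differentiable (by simp)
    have hΨs : ContDiff ℝ ∞ (Ψ' 1) := by
      have h1 := hI.smooth'.comp ((contDiff_const (c := (1 : ℝ))).prodMk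
        (contDiff_id (𝕜 := ℝ) (n := ∞) (E := E 2 × E 2)))
      exact h1
    have hΨd : Differentiable ℝ (Ψ' 1) := hΨs.differentiable (by simp)
    have h3 : HasDerivAt (fun t => Ψ' 1 (ph1 (γ t)))
        (fderiv ℝ (Ψ' 1) (ph1 (γ t)) (fderiv ℝ ph1 (γ t) 0)) t :=
      (hΨd.differentiableAt.hasFDerivAt).comp_hasDerivAt t
        ((hp.differentiableAt.hasFDerivAt).comp_hasDerivAt t hd)
    have h4 : (fun t => Ψ' 1 (ph1 (γ t))) = fun t : ℝ => (cc t, (0 : E 2)) := by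
      funext t
      rw [hlin, hph0]
    rw [h4] at h3
    have h5 : HasDerivAt (fun t : ℝ => (cc t, (0 : E 2))) (dd t, 0) t :=
      (cc_der t).1.prodMk (hasDerivAt_const t (0 : E 2))
    have h6 := h3.unique h5
    have h7 : dd t = 0 := by
      have h8 := congrArg Prod.fst h6
      simpa using h8.symm
    have h9 := dd_norm t
    rw [h7] at h9
    simp at h9
  · intro s t hst
    have h1 : ph1 (s : ℂ) = ph1 (t : ℂ) := by
      rw [← hlin, ← hlin, hst]
    obtain ⟨k, hk⟩ := ph1_eq_iff.1 h1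
    have hk' : t = s + k * (2 * Real.pi) := by exact_mod_cast hk
    have h2 := hγk k s
    rw [← hk', ← hst] at h2
    have h3 : ((k * (2 * Real.pi) : ℝ) : ℂ) = 0 := by
      have h4 : γ s + ((k * (2 * Real.pi) : ℝ) : ℂ) = γ s + 0 := by rw [← h2, add_zero]
      exact add_left_cancel h4
    have h5 : (k * (2 * Real.pi) : ℝ) = 0 := by exact_mod_cast h3
    rw [hk', h5, add_zero]
  · apply Subset.antisymm
    · rintro _ ⟨t, rfl⟩
      have h1 : ph1 (γ t) ∈ ph1 '' Γ := by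
        rw [← him, hγ]
        refine ⟨_, ⟨?_, ?_⟩, rfl⟩
        · rw [hph0]
          exact cc_norm t
        · rw [hph0]
      obtain ⟨w, hw, hwe⟩ := h1
      obtain ⟨k, hk⟩ := ph1_eq_iff.1 hwe
      rw [hk]
      exact hΓ k w hw
    · intro w hw
      have h1 : ph1 w ∈ ph1 '' Γ := ⟨w, hw, rfl⟩
      rw [← him] at h1
      obtain ⟨z, ⟨hz1, hz2⟩, hz⟩ := h1
      obtain ⟨t, ht⟩ := exists_cc hz1
      have hz' : z = ph1 (t : ℂ) := by
        rw [hph0]
        exact Prod.ext ht hz2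
      rw [hz', ← hγ] at hz
      obtain ⟨k, hk⟩ := ph1_eq_iff.1 hz
      exact ⟨t + k * (2 * Real.pi), by rw [hγk, hk]⟩

end Pool.Agent.H73.CO
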