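import Pool.Agent.H73.CO.DefsC

/-!
# Module CiE: symmetrisation (about 200 lines)

PROOFS. `γ` is a `PerCurve` with `-Γ = Γ`.
* `per_int`: `γ (t + 2 π k) = γ t + 2 π k`, `k : ℤ`.
* `exists_sig`: `-γ u ∈ Γ = range γ`, so `-γ u = γ (σ u)` defines `σ` (injectivity). `σ (u + 2 π) = σ u - 2 π`: `γ (σ u - 2 π) = γ (σ u) - 2 π = -γ u - 2 π = -γ (u + 2 π)`. `σ (σ u) = u`.
  Smooth: `γ` is proper: `|(γ t).re - t|` is bounded (periodic continuous). Let `u₀`, `t₀ = σ u₀`. `deriv γ t₀ ≠ 0`: one of the real functions `t ↦ l (γ t)`, `l w = (conj (deriv γ t₀) * w).re`, has nonzero derivative at `t₀`, so there are a neighbourhood `I` of `t₀` and a smooth `ψ` near `l (γ t₀)` with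
  `ψ (l (γ t)) = t` for `t ∈ I` (inverse function theorem in one variable). `σ` is continuous at `u₀`: if `u_k → u₀`, `t_k = σ u_k` is bounded (`γ t_k = -γ u_k` is bounded and `|(γ t).re - t|` is bounded); every limit point `t*` satisfies `γ t* = -γ u₀ = γ t₀`, `t* = t₀`. So near `u₀`: `σ u ∈ I` and `σ u = ψ (l (-γ u))`: smooth.
* `sig_der`: `σ` is injective and continuous, so strictly monotone; `σ (u + 2 π) = σ u - 2 π`: strictly decreasing, `deriv σ u ≤ 0`.
* `exists_odd`: `v u = (u - σ u)/2`: smooth, `deriv v ≥ 1/2`, `v (σ u) = -v u`, `v (u + 2 π) = v u + 2 π`; strictly increasing, onto `ℝ` (it is continuous and `v (u) - u` is bounded, being periodic), the inverse `ω` is smooth (inverse function theorem, `deriv v ≠ 0`; `ω` is continuous as the inverse of an order isomorphism). `γ₁ = γ ∘ ω`: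
  `-v (ω t) = v (σ (ω t))`, so `ω (-t) = σ (ω t)` and `γ₁ (-t) = γ (σ (ω t)) = -γ₁ t`; `ω (t + 2 π) = ω t + 2 π`, so `per`; `imm`: chain rule, `deriv ω ≠ 0`; `inj`: `cos (γ₁ t) = cos (γ₁ u)` gives `γ₁ u = ± γ₁ t + 2 π k = γ₁ (± t + 2 π k)` (`Complex.cos_eq_cos_iff`), `γ₁` injective, `u = ± t + 2 π k`. `range γ₁ = range γ = Γ`.
-/

set_option autoImplicit false

open scoped ContDiff Topology RealInnerProductSpace
open Set Filter

namespace Pool.Agent.H73.CO

open Pool.Agent.H57.NL Pool.Agent.H2.TG Pool.Agent.H2.TI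

private theorem CiE_per_nat {γ : ℝ → ℂ} (h : ∀ t, γ (t + 2 * Real.pi) = γ t + ((2 * Real.pi : ℝ) : ℂ)) (n : ℕ)
    (t : ℝ) : γ (t + n * (2 * Real.pi)) = γ t + ((n * (2 * Real.pi) : ℝ) : ℂ) := by
  induction n generalizing t with
  | zero => simp
  | succ n ih =>
    have e : t + ((n + 1 : ℕ) : ℝ) * (2 * Real.pi) = (t + n * (2 * Real.pi)) + 2 * Real.pi := by
      push_cast
      ring
    rw [e, h, ih]
    push_cast
    ring

private theorem CiE_per {γ : ℝ → ℂ} (h : ∀ t, γ (t + 2 * Real.pi) = γ t + ((2 * Real.pi : ℝ) : ℂ)) (k : ℤ) (t : ℝ) :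
    γ (t + k * (2 * Real.pi)) = γ t + ((k * (2 * Real.pi) : ℝ) : ℂ) := by
  obtain ⟨n, rfl | rfl⟩ := k.eq_nat_or_neg
  · have := CiE_per_nat h n t
    simpa using this
  · have h1 := CiE_per_nat h n (t + ((-(n : ℤ) : ℤ) : ℝ) * (2 * Real.pi))
    have e : t + ((-(n : ℤ) : ℤ) : ℝ) * (2 * Real.pi) + n * (2 * Real.pi) = t := by
      push_cast
      ring
    rw [e] at h1
    rw [h1]
    push_cast
    ring

private theorem CiE_emb {Γ : Set ℂ} {γ : ℝ → ℂ} (h : PerCurve Γ γ) : Topology.IsClosedEmbedding γ := by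
  have hc : Continuous γ := h.smooth.continuous
  have hp : Function.Periodic (fun t : ℝ => γ t - (t : ℂ)) (2 * Real.pi) := by
    intro t
    show γ (t + 2 * Real.pi) - ((t + 2 * Real.pi : ℝ) : ℂ) = γ t - (t : ℂ)
    rw [h.per]
    push_cast
    ring
  have hb := hp.isBounded_of_continuous (by positivity) (hc.sub Complex.continuous_ofReal)
  obtain ⟨C, hC⟩ := hb.exists_norm_le
  have hle : ∀ t : ℝ, ‖t‖ - C ≤ ‖γ t‖ := by
    intro t
    have h1 : ‖γ t - (t : ℂ)‖ ≤ C := hC _ ⟨t, rfl⟩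
    have h2 : ‖(t : ℂ)‖ ≤ ‖γ t‖ + ‖γ t - (t : ℂ)‖ := by
      have h3 := norm_sub_le (γ t) (γ t - (t : ℂ))
      simpa using h3
    have h4 : ‖(t : ℂ)‖ = ‖t‖ := by simp
    linarith
  have ht : Tendsto γ (cocompact ℝ) (cocompact ℂ) := by
    rw [← Metric.cobounded_eq_cocompact (α := ℂ), ← tendsto_norm_atTop_iff_cobounded]
    refine tendsto_atTop_mono hle ?_
    exact tendsto_atTop_add_const_right _ (-C) tendsto_norm_cocompact_atTop
  have hpr : IsProperMap γ := isProperMap_iff_tendsto_cocompact.2 ⟨hc, ht⟩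
  exact Topology.IsClosedEmbedding.of_continuous_injective_isClosedMap hc h.inj hpr.isClosedMap

private theorem CiE_smooth {Γ : Set ℂ} {γ : ℝ → ℂ} (h : PerCurve Γ γ) {σ : ℝ → ℝ} (hσ : ∀ u, γ (σ u) = -γ u) :
    ContDiff ℝ ∞ σ := by
  have hcont : Continuous σ := by
    rw [(CiE_emb h).isInducing.continuous_iff]
    have e : γ ∘ σ = fun u => -γ u := funext hσ
    rw [e]
    exact h.smooth.continuous.neg
  rw [contDiff_iff_contDiffAt]
  intro u₀
  set c : ℂ := deriv γ (σ u₀) with hc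
  have hc0 : c ≠ 0 := h.imm _
  let l : ℂ → ℝ := fun w => ((starRingEnd ℂ) c * w).re
  have hl : ContDiff ℝ ∞ l :=
    Complex.reCLM.contDiff.comp (contDiff_const.mul contDiff_id)
  let φ : ℝ → ℝ := fun t => l (γ t)
  have hφ : ContDiff ℝ ∞ φ := hl.comp h.smooth
  have hd : HasDerivAt φ (((starRingEnd ℂ) c * c).re) (σ u₀) := by
    have h1 : HasDerivAt γ c (σ u₀) := (h.smooth.differentiable (by simp) (σ u₀)).hasDerivAt
    have h2 := h1.const_mul ((starRingEnd ℂ) c)
    exact Complex.reCLM.hasFDerivAt.comp_hasDerivAt (σ u₀) h2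
  have hne : ((starRingEnd ℂ) c * c).re ≠ 0 := by
    rw [mul_comm, Complex.mul_conj, Complex.ofReal_re]
    exact (Complex.normSq_pos.2 hc0).ne'
  have hf' := hd.hasFDerivAt_equiv hne
  have hn : (∞ : WithTop ℕ∞) ≠ 0 := by simp
  have hat : ContDiffAt ℝ ∞ φ (σ u₀) := hφ.contDiffAt
  let e := hat.toOpenPartialHomeomorph φ hf' hn
  have hmem : σ u₀ ∈ e.source := hat.mem_toOpenPartialHomeomorph_source hf' hn
  have hsymm : ContDiffAt ℝ ∞ e.symm (φ (σ u₀)) := hat.to_localInverse hf' hn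
  have hev : ∀ᶠ u in 𝓝 u₀, σ u = e.symm (l (-γ u)) := by
    have h1 : ∀ᶠ u in 𝓝 u₀, σ u ∈ e.source :=
      hcont.continuousAt.eventually (e.open_source.mem_nhds hmem)
    filter_upwards [h1] with u hu
    have h2 : e.symm (e (σ u)) = σ u := e.left_inv hu
    have h3 : e (σ u) = l (-γ u) := by
      show φ (σ u) = _
      show l (γ (σ u)) = l (-γ u)
      rw [hσ]
    rw [← h3, h2]
  have hin : ContDiffAt ℝ ∞ (fun u => l (-γ u)) u₀ := (hl.comp h.smooth.neg).contDiffAt
  have hval : l (-γ u₀) = φ (σ u₀) := by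
    show l (-γ u₀) = l (γ (σ u₀))
    rw [hσ]
  have hcomp : ContDiffAt ℝ ∞ (fun u => e.symm (l (-γ u))) u₀ := by
    refine ContDiffAt.comp u₀ (g := e.symm) (f := fun u => l (-γ u)) ?_ hin
    rw [hval]
    exact hsymm
  exact hcomp.congr_of_eventuallyEq hev

theorem per_int {Γ : Set ℂ} {γ : ℝ → ℂ} (h : PerCurve Γ γ) (k : ℤ) (t : ℝ) :
    γ (t + k * (2 * Real.pi)) = γ t + ((k * (2 * Real.pi) : ℝ) : ℂ) := by
  exact CiE_per h.per k t

theorem exists_sig {Γ : Set ℂ} {γ : ℝ → ℂ} (h : PerCurve Γ γ) (hn : ∀ z ∈ Γ, -z ∈ Γ) :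
    ∃ σ : ℝ → ℝ, ContDiff ℝ ∞ σ ∧ (∀ u, γ (σ u) = -γ u) ∧ (∀ u, σ (σ u) = u) ∧
      ∀ u, σ (u + 2 * Real.pi) = σ u - 2 * Real.pi := by
  have h0 : ∀ u, ∃ t, γ t = -γ u := by
    intro u
    have h1 : γ u ∈ Γ := by
      rw [← h.range]
      exact mem_range_self u
    have h2 := hn _ h1
    rw [← h.range] at h2
    exact h2
  choose σ hσ using h0
  refine ⟨σ, CiE_smooth h hσ, hσ, fun u => ?_, fun u => ?_⟩
  · apply h.inj
    rw [hσ, hσ, neg_neg]
  · apply h.inj
    have h1 := h.per (σ u - 2 * Real.pi)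
    rw [sub_add_cancel] at h1
    have h2 := h.per u
    have h3 : γ (σ u - 2 * Real.pi) = γ (σ u) - ((2 * Real.pi : ℝ) : ℂ) := by
      rw [h1]
      ring
    rw [hσ, h2, h3, hσ]
    ring

theorem exists_odd {Γ : Set ℂ} {γ : ℝ → ℂ} (h : PerCurve Γ γ) {σ : ℝ → ℝ}
    (hσ : ContDiff ℝ ∞ σ) (h1 : ∀ u, γ (σ u) = -γ u) (h2 : ∀ u, σ (σ u) = u)
    (h3 : ∀ u, σ (u + 2 * Real.pi) = σ u - 2 * Real.pi) :
    ∃ γ₁ : ℝ → ℂ, OddCurve γ₁ ∧ range γ₁ = Γ := by
  have hpi := Real.pi_pos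
  have hinj : Function.Injective σ := by
    intro a b hab
    rw [← h2 a, ← h2 b, hab]
  have hanti : StrictAnti σ := by
    rcases hσ.continuous.strictMono_of_inj hinj with hm | hm
    · have h4 := hm (show (0 : ℝ) < 0 + 2 * Real.pi by linarith)
      rw [h3] at h4
      linarith
    · exact hm
  let v : ℝ → ℝ := fun u => (u - σ u) / 2
  have hv : ContDiff ℝ ∞ v := (contDiff_id.sub hσ).div_const 2
  have hvd : ∀ u, HasDerivAt v ((1 - deriv σ u) / 2) u := by
    intro u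
    have h4 : HasDerivAt σ (deriv σ u) u := (hσ.differentiable (by simp) u).hasDerivAt
    exact ((hasDerivAt_id u).sub h4).div_const 2
  have hv0 : ∀ u, (1 - deriv σ u) / 2 ≠ 0 := by
    intro u
    have h4 : deriv σ u ≤ 0 := hanti.antitone.deriv_nonpos
    have h5 : 0 < (1 - deriv σ u) / 2 := by linarith
    exact h5.ne'
  have hvm : StrictMono v := by
    intro a b hab
    have h4 := hanti hab
    show (a - σ a) / 2 < (b - σ b) / 2
    linarith
  have hvs : Function.Surjective v := by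
    refine hv.continuous.surjective ?_ ?_
    · refine tendsto_atTop_mono' _ ?_
        ((tendsto_id.atTop_div_const (show (0 : ℝ) < 2 by norm_num)).atTop_add
          (tendsto_const_nhds (x := -σ 0 / 2)))
      filter_upwards [eventually_ge_atTop (0 : ℝ)] with u hu
      have h4 := hanti.antitone hu
      show u / 2 + -σ 0 / 2 ≤ (u - σ u) / 2
      linarith
    · refine tendsto_atBot_mono' _ ?_
        ((tendsto_id.atBot_div_const (show (0 : ℝ) < 2 by norm_num)).atBot_add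
          (tendsto_const_nhds (x := -σ 0 / 2)))
      filter_upwards [eventually_le_atBot (0 : ℝ)] with u hu
      have h4 := hanti.antitone hu
      show (u - σ u) / 2 ≤ u / 2 + -σ 0 / 2
      linarith
  let o : ℝ ≃o ℝ := StrictMono.orderIsoOfSurjective v hvm hvs
  let F : ℝ ≃ₜ ℝ := o.toHomeomorph
  have hF : ∀ u, F u = v u := fun u => rfl
  let om : ℝ → ℝ := F.symm
  have hvom : ∀ t, v (om t) = t := fun t => F.apply_symm_apply t
  have homv : ∀ t, om (v t) = t := fun t => F.symm_apply_apply t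
  have hom : ContDiff ℝ ∞ om := F.contDiff_symm_deriv hv0 hvd hv
  have hvσ : ∀ u, v (σ u) = -v u := by
    intro u
    show (σ u - σ (σ u)) / 2 = -((u - σ u) / 2)
    rw [h2]
    ring
  have homn : ∀ t, om (-t) = σ (om t) := by
    intro t
    rw [← homv (σ (om t)), hvσ, hvom]
  have homp : ∀ t, om (t + 2 * Real.pi) = om t + 2 * Real.pi := by
    intro t
    have h4 : v (om t + 2 * Real.pi) = t + 2 * Real.pi := by
      show (om t + 2 * Real.pi - σ (om t + 2 * Real.pi)) / 2 = _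
      rw [h3]
      have h5 : (om t - σ (om t)) / 2 = t := hvom t
      linarith
    rw [← h4, homv]
  have hper : ∀ t, (γ ∘ om) (t + 2 * Real.pi) = (γ ∘ om) t + ((2 * Real.pi : ℝ) : ℂ) := by
    intro t
    show γ (om (t + 2 * Real.pi)) = γ (om t) + _
    rw [homp, h.per]
  have hodd : ∀ t, (γ ∘ om) (-t) = -(γ ∘ om) t := by
    intro t
    show γ (om (-t)) = -γ (om t)
    rw [homn, h1]
  have hinj1 : Function.Injective (γ ∘ om) := h.inj.comp F.symm.injective
  refine ⟨γ ∘ om, ⟨h.smooth.comp hom, hodd, hper, fun t => ?_, fun t u htu => ?_⟩, ?_⟩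
  · have h4 : HasDerivAt om (deriv om t) t := (hom.differentiable (by simp) t).hasDerivAt
    have h5 : HasDerivAt γ (deriv γ (om t)) (om t) := (h.smooth.differentiable (by simp) (om t)).hasDerivAt
    have h6 := h5.scomp t h4
    rw [h6.deriv]
    refine smul_ne_zero ?_ (h.imm _)
    intro h7
    have h8 := (hvd (om t)).comp t h4
    have h9 : v ∘ om = id := funext hvom
    rw [h9, h7, mul_zero] at h8
    exact zero_ne_one (h8.unique (hasDerivAt_id t))
  · obtain ⟨k, hk | hk⟩ := Complex.cos_eq_cos_iff.1 htu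
    · have h4 := CiE_per hper k t
      have h5 : (γ ∘ om) u = (γ ∘ om) (t + k * (2 * Real.pi)) := by
        rw [h4, hk]
        push_cast
        ring
      rw [hinj1 h5]
      exact (Real.cos_add_int_mul_two_pi t k).symm
    · have h4 := CiE_per hper k (-t)
      have h5 : (γ ∘ om) u = (γ ∘ om) (-t + k * (2 * Real.pi)) := by
        rw [h4, hodd, hk]
        push_cast
        ring
      rw [hinj1 h5, Real.cos_add_int_mul_two_pi, Real.cos_neg]
  · rw [range_comp, F.symm.surjective.range_eq, image_univ, h.range]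

end Pool.Agent.H73.CO
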