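import Pool.Agent.H73.CO.CiD
import Pool.Agent.H73.CO.CiE

/-!
# The circle step: assembly
-/

set_option autoImplicit false

open scoped ContDiff Topology RealInnerProductSpace
open Set Filter

namespace Pool.Agent.H73.CO

open Pool.Agent.H57.NL Pool.Agent.H2.TG Pool.Agent.H2.TI

theorem curve_of_planeSet {Γ : Set ℂ} {f : ℂ → ℝ} (h : PlaneSet Γ f) :
    ∃ γ, OddCurve γ ∧ range γ = Γ := by
  obtain ⟨γ, hγ⟩ := exists_per h
  obtain ⟨σ, hσ, h1, h2, h3⟩ := exists_sig hγ h.neg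
  exact exists_odd hγ hσ h1 h2 h3

end Pool.Agent.H73.CO
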