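import Pool.Agent.H73.CO.SatN

/-!
# Module ConA: cone points of `S` are limits of other points (about 130 lines)

PROOF of `cone_acc`. `ph c z = (q, 0) =: z₀` with `q = c (z.re)`, `F q = cos z.re = ε`, `ε² = 1`. Suppose that all points of `S` near `z₀` are of the form `ph b w` with `w` a cone point (every point of `S`
is `ph b w`, `mem_MF_iff`). Then for `y ∈ S` near `z₀`: `y.2 = 0` and `F (y.1) ^ 2 = 1`, hence `g (y.1) = 0`. `L = Tan S z₀` is a linear space of dimension `n` (`tan_finrank`) and every `v ∈ L` has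
`v.2 = 0` (curve) and `v.1 ∈ Tan N q` (`tan_fst`; `S ⊆ TN N`). So `v ↦ v.1` maps `L` injectively into `Tan N q`, also of dimension `n`: onto. Take `v = (deriv c z.re, 0) ∈ L` with its curve `γ`:
`g ((γ s).1) = 0` near `0`, so `fderiv ℝ g q (deriv c z.re) = 0`; but it is `-(cos z.re • deriv c z.re) ≠ 0` (`ng_sing`). Contradiction. So for every `ε' > 0` there is `y ∈ S`, `y = ph b w`, `w` not a
cone point, `‖y - z₀‖ < ε'`.
-/

set_option autoImplicit false

open scoped ContDiff Topology RealInnerProductSpace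
open Set Filter

namespace Pool.Agent.H73.CO

open Pool.Agent.H57.NL Pool.Agent.H2.TG Pool.Agent.H2.TI

variable {m n : ℕ} {N : Set (E m)} {Pr : E m → (E m →L[ℝ] E m)} {F : E m → ℝ}
  {g : E m → E m}

variable {S : Set (E m × E m)} {f : E m × E m → ℝ} {c : ℝ → E m}


private theorem ConA_near (h : TD n N Pr F g) (hM : S ⊆ MF N g)
    (hc : NG N Pr F g c) {z : ℂ} {ε : ℝ}
    (hno : ¬ ∃ (b : ℝ → E m) (w : ℂ), NG N Pr F g b ∧ ph b w ∈ S ∧ ¬IsCone w ∧
      ‖ph b w - ph c z‖ < ε) {y : E m × E m} (hy : y ∈ S) (hd : ‖y - ph c z‖ < ε) :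
    y.2 = 0 ∧ g y.1 = 0 := by
  have _ := hc
  obtain ⟨b, w, hb, rfl⟩ := (mem_MF_iff h).1 (hM hy)
  have hw : IsCone w := by
    by_contra hw
    exact hno ⟨b, w, hb, hy, hw, hd⟩
  constructor
  · show w.im • deriv b w.re = 0
    rw [hw.2, zero_smul]
  · show g (b w.re) = 0
    rw [hb.gr, hw.1, zero_smul, neg_zero]

theorem cone_acc (h : TD n N Pr F g) (hL : ExactLag n N ⊥ S f) (hM : S ⊆ MF N g)
    (hc : NG N Pr F g c) {z : ℂ} (hz : IsCone z) (hzS : ph c z ∈ S) {ε : ℝ} (hε : 0 < ε) :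
    ∃ (b : ℝ → E m) (w : ℂ), NG N Pr F g b ∧ ph b w ∈ S ∧ ¬IsCone w ∧ ‖ph b w - ph c z‖ < ε := by
  classical
  by_contra hno
  have hnear := fun y hy hd => ConA_near h hM hc hno (y := y) hy hd
  have hz2 : (ph c z).2 = 0 := by
    show z.im • deriv c z.re = 0
    rw [hz.2, zero_smul]
  have hz1 : (ph c z).1 = c z.re := rfl
  obtain ⟨L, hL1, hL2⟩ := tan_finrank hL.sub hzS
  obtain ⟨L', hL1', hL2'⟩ := tan_finrank h.mfd.sub (hc.mem z.re)
  have hgd : Differentiable ℝ g := h.smooth.differentiable (by simp)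
  have key : ∀ v ∈ L, v.2 = 0 ∧ v.1 ∈ L' ∧ fderiv ℝ g (c z.re) v.1 = 0 := by
    intro v hv
    have hv' : v ∈ Tan S (ph c z) := by
      rw [← hL1]
      exact hv
    obtain ⟨γ, h0, hS, hd⟩ := hv'
    have hcont : ContinuousAt γ 0 := hd.continuousAt
    have hev : ∀ᶠ s in 𝓝 (0 : ℝ), ‖γ s - ph c z‖ < ε := by
      have h1 : Tendsto (fun s => ‖γ s - ph c z‖) (𝓝 0) (𝓝 ‖γ 0 - ph c z‖) :=
        (hcont.sub continuousAt_const).norm
      rw [h0, sub_self, norm_zero] at h1
      exact h1.eventually (gt_mem_nhds hε)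
    have hev2 : ∀ᶠ s in 𝓝 (0 : ℝ), (γ s).2 = 0 ∧ g (γ s).1 = 0 := by
      filter_upwards [hS, hev] with s hs1 hs2
      exact hnear _ hs1 hs2
    have hd1 : HasDerivAt (fun s => (γ s).1) v.1 0 :=
      (hasFDerivAt_fst (𝕜 := ℝ) (p := γ 0)).comp_hasDerivAt 0 hd
    have hd2 : HasDerivAt (fun s => (γ s).2) v.2 0 :=
      (hasFDerivAt_snd (𝕜 := ℝ) (p := γ 0)).comp_hasDerivAt 0 hd
    refine ⟨?_, ?_, ?_⟩
    · have h1 : HasDerivAt (fun s => (γ s).2) 0 0 := by
        refine (hasDerivAt_const (0 : ℝ) (0 : E m)).congr_of_eventuallyEq ?_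
        filter_upwards [hev2] with s hs
        exact hs.1
      exact hd2.unique h1
    · have h1 : v.1 ∈ Tan N (c z.re) := by
        refine ⟨fun s => (γ s).1, ?_, ?_, hd1⟩
        · show (γ 0).1 = c z.re
          rw [h0]
          rfl
        · filter_upwards [hS] with s hs
          exact (hL.subTN hs).1
      rw [← hL1'] at h1
      exact h1
    · have h1 : HasDerivAt (fun s => g (γ s).1) (fderiv ℝ g (γ 0).1 v.1) 0 :=
        (hgd (γ 0).1).hasFDerivAt.comp_hasDerivAt 0 hd1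
      have h2 : HasDerivAt (fun s => g (γ s).1) 0 0 := by
        refine (hasDerivAt_const (0 : ℝ) (0 : E m)).congr_of_eventuallyEq ?_
        filter_upwards [hev2] with s hs
        exact hs.2
      have h3 := h1.unique h2
      rw [h0] at h3
      exact h3
  -- the projection to the first factor
  let T : L →ₗ[ℝ] L' :=
    { toFun := fun v => ⟨v.1.1, (key v.1 v.2).2.1⟩
      map_add' := fun v w => rfl
      map_smul' := fun a v => rfl }
  have hT : Function.Injective T := by
    intro v w hvw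
    have h1 : v.1.1 = w.1.1 := congrArg Subtype.val hvw
    have h2 : v.1.2 = w.1.2 := by rw [(key v.1 v.2).1, (key w.1 w.2).1]
    exact Subtype.ext (Prod.ext h1 h2)
  have hTs : Function.Surjective T :=
    (LinearMap.injective_iff_surjective_of_finrank_eq_finrank (by rw [hL2, hL2'])).1 hT
  have hcT : deriv c z.re ∈ L' := by
    have h1 : deriv c z.re ∈ Tan N (c z.re) := by
      refine ⟨fun s => c (z.re + s), by simp, Eventually.of_forall fun s => hc.mem _, ?_⟩
      have h2 : HasDerivAt c (deriv c z.re) (z.re + 0) := by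
        rw [add_zero]
        exact ((hc.smooth.differentiable (by simp)) z.re).hasDerivAt
      have h3 := h2.scomp (0 : ℝ) ((hasDerivAt_id (0 : ℝ)).const_add z.re)
      rw [one_smul] at h3
      exact h3
    rw [← hL1'] at h1
    exact h1
  obtain ⟨v, hv⟩ := hTs ⟨_, hcT⟩
  have hv1 : v.1.1 = deriv c z.re := congrArg Subtype.val hv
  have h1 := (key v.1 v.2).2.2
  rw [hv1, ng_sing h hc hz.1, neg_eq_zero] at h1
  have h2 : ‖Real.cos z.re • deriv c z.re‖ = |Real.cos z.re| := by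
    rw [norm_smul, hc.unit, mul_one, Real.norm_eq_abs]
  rw [h1, norm_zero] at h2
  have h3 := Real.sin_sq_add_cos_sq z.re
  rw [hz.1, ← sq_abs (Real.cos z.re), ← h2] at h3
  norm_num at h3

end Pool.Agent.H73.CO
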