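import Pool.Agent.H73.CO.SubA

/-!
# Module DZ: a locally constant function on the profile (about 110 lines)

PROOF of `d_zero`. Suppose `z₀ ∈ Γ`, `D z₀ ≠ 0`. Then `sin z₀.re = 0`. `B = {ρ : ℝ | (⟨z₀.re, ρ⟩ : ℂ) ∈ Γ ∧ D ⟨z₀.re, ρ⟩ = D z₀}`. `D` is continuous on `Γ` (`hD`: `D y - D z = o(y - z)`). `B` is closed, not empty (`z₀.im`), bounded (`hb`).
`B` is open: let `ρ₁ ∈ B`, `z₁ = ⟨z₀.re, ρ₁⟩`. Near `z₁`, for `y ∈ Γ`: `D y ≠ 0`, so `sin y.re = 0`, so `y.re = z₀.re` (zeros of `sin` are isolated). `subAt_curve` (from `hsub z₁`, `IsSubmfd` unfolds to `SubAt` at each point): a curve `x` in `Γ` with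
velocity `v ≠ 0` at `z₁`; `(x t).re = z₀.re` near `0`, so `v.re = 0`, `v.im ≠ 0`: `(x t).im` takes all values near `ρ₁` (continuity, intermediate values), so `⟨z₀.re, ρ⟩ ∈ Γ` for all `ρ` in an open interval `J ∋ ρ₁`. On `J` the function
`ρ ↦ D ⟨z₀.re, ρ⟩` has derivative `0` at every point (`hD`), so it is constant. So `J ⊆ B`. `ℝ` connected: `B = ℝ`, not bounded. Contradiction.
-/

set_option autoImplicit false

open scoped ContDiff Topology RealInnerProductSpace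
open Set Filter

namespace Pool.Agent.H73.CO

open Pool.Agent.H57.NL Pool.Agent.H2.TG Pool.Agent.H2.TI

variable {m n : ℕ} {N : Set (E m)} {Pr : E m → (E m →L[ℝ] E m)} {F : E m → ℝ}
  {g : E m → E m}

private lemma dz_cont {Γ : Set ℂ} {D : ℂ → ℝ} {z : ℂ}
    (hD : (fun y : ℂ => D y - D z) =o[𝓝[Γ] z] (fun y => y - z)) : ContinuousWithinAt D Γ z := by
  have h1 : Tendsto (fun y : ℂ => y - z) (𝓝[Γ] z) (𝓝 0) := by
    have h2 : Tendsto (fun y : ℂ => y - z) (𝓝 z) (𝓝 (z - z)) :=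
      (continuous_id.sub continuous_const).tendsto z
    rw [sub_self] at h2
    exact h2.mono_left nhdsWithin_le_nhds
  have h3 := (hD.trans_tendsto h1).add_const (D z)
  rw [zero_add] at h3
  refine h3.congr fun y => ?_
  ring

/-- a function with nonzero derivative has values on both sides -/
private lemma dz_sides {u : ℝ → ℝ} {c : ℝ} (hu : HasDerivAt u c 0) (hc : c ≠ 0) {ε : ℝ} (hε : 0 < ε) :
    ∃ t t' : ℝ, |t| < ε ∧ |t'| < ε ∧ u t < u 0 ∧ u 0 < u t' := by
  have h1 := hasDerivAt_iff_tendsto_slope.mp hu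
  have h2 : ∀ᶠ t in 𝓝[≠] (0 : ℝ), 0 < slope u 0 t * c := by
    have h3 : Tendsto (fun t => slope u 0 t * c) (𝓝[≠] 0) (𝓝 (c * c)) := h1.mul_const c
    exact h3.eventually (lt_mem_nhds (mul_self_pos.mpr hc))
  rw [eventually_nhdsWithin_iff, Metric.eventually_nhds_iff] at h2
  obtain ⟨δ, hδ, h4⟩ := h2
  obtain ⟨t, ht0, htε, htδ⟩ : ∃ t : ℝ, 0 < t ∧ t < ε ∧ t < δ :=
    ⟨min ε δ / 2, by positivity, by have := min_le_left ε δ; linarith [lt_min hε hδ],
      by have := min_le_right ε δ; linarith [lt_min hε hδ]⟩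
  have a1 := h4 (y := t) (by rw [Real.dist_eq, sub_zero, abs_of_pos ht0]; exact htδ) ht0.ne'
  have a2 := h4 (y := -t) (by rw [Real.dist_eq, sub_zero, abs_neg, abs_of_pos ht0]; exact htδ)
    (by simpa using ht0.ne')
  rw [slope_def_field, sub_zero] at a1 a2
  have b1 : 0 < (u t - u 0) * c := by
    have h5 : (u t - u 0) / t * c = ((u t - u 0) * c) / t := by ring
    rw [h5] at a1
    exact (div_pos_iff_of_pos_right ht0).mp a1
  have b2 : (u (-t) - u 0) * c < 0 := by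
    have h5 : (u (-t) - u 0) / (-t) * c = -(((u (-t) - u 0) * c) / t) := by
      rw [div_neg]
      ring
    rw [h5, neg_pos] at a2
    by_contra hcon
    push Not at hcon
    exact absurd (div_nonneg hcon ht0.le) (not_le.mpr a2)
  have e1 : |t| < ε := by rw [abs_of_pos ht0]; exact htε
  have e2 : |(-t)| < ε := by rw [abs_neg]; exact e1
  rcases lt_or_gt_of_ne hc with hc1 | hc1
  · refine ⟨t, -t, e1, e2, ?_, ?_⟩
    · by_contra hcon
      push Not at hcon
      have : (u t - u 0) * c ≤ 0 := mul_nonpos_of_nonneg_of_nonpos (by linarith) hc1.le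
      linarith
    · by_contra hcon
      push Not at hcon
      have : 0 ≤ (u (-t) - u 0) * c := mul_nonneg_of_nonpos_of_nonpos (by linarith) hc1.le
      linarith
  · refine ⟨-t, t, e2, e1, ?_, ?_⟩
    · by_contra hcon
      push Not at hcon
      have : 0 ≤ (u (-t) - u 0) * c := mul_nonneg (by linarith) hc1.le
      linarith
    · by_contra hcon
      push Not at hcon
      have : (u t - u 0) * c ≤ 0 := mul_nonpos_of_nonpos_of_nonneg (by linarith) hc1.le
      linarith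

theorem d_zero {Γ : Set ℂ} {D : ℂ → ℝ} (hcl : IsClosed Γ) (hsub : IsSubmfd 1 Γ)
    (hb : ∃ R : ℝ, ∀ z ∈ Γ, |z.im| ≤ R)
    (hD : ∀ z ∈ Γ, (fun y : ℂ => D y - D z) =o[𝓝[Γ] z] (fun y => y - z))
    (h0 : ∀ z ∈ Γ, Real.sin z.re ≠ 0 → D z = 0) : ∀ z ∈ Γ, D z = 0 := by
  intro z₀ hz₀
  by_contra hne
  have hcont : ContinuousOn D Γ := fun z hz => dz_cont (hD z hz)
  obtain ⟨x₀, hx₀⟩ : ∃ x₀ : ℝ, x₀ = z₀.re := ⟨_, rfl⟩
  have hs₀ : Real.sin x₀ = 0 := by
    by_contra hcon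
    rw [hx₀] at hcon
    exact hne (h0 z₀ hz₀ hcon)
  let f : ℝ → ℂ := fun ρ => ⟨x₀, ρ⟩
  have hf : Continuous f := by
    have h1 : f = fun ρ : ℝ => (x₀ : ℂ) + (ρ : ℂ) * Complex.I := by
      funext ρ
      apply Complex.ext <;> simp [f]
    rw [h1]
    fun_prop
  let B : Set ℝ := f ⁻¹' Γ ∩ (fun ρ => D (f ρ)) ⁻¹' {D z₀}
  have hBcl : IsClosed B := by
    refine ContinuousOn.preimage_isClosed_of_isClosed ?_ (hcl.preimage hf) isClosed_singleton
    exact hcont.comp hf.continuousOn (fun ρ hρ => hρ)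
  have hBne : B.Nonempty := by
    refine ⟨z₀.im, ?_, ?_⟩
    · show f z₀.im ∈ Γ
      have h1 : f z₀.im = z₀ := by
        show (⟨x₀, z₀.im⟩ : ℂ) = z₀
        rw [hx₀]
      rw [h1]
      exact hz₀
    · show D (f z₀.im) = D z₀
      have h1 : f z₀.im = z₀ := by
        show (⟨x₀, z₀.im⟩ : ℂ) = z₀
        rw [hx₀]
      rw [h1]
  have hBop : IsOpen B := by
    rw [isOpen_iff_mem_nhds]
    intro ρ₁ hρ₁
    obtain ⟨hρΓ, hρD⟩ := hρ₁
    have hρΓ : f ρ₁ ∈ Γ := hρΓ
    have hρD : D (f ρ₁) = D z₀ := hρD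
    obtain ⟨z₁, hz₁⟩ : ∃ z₁, z₁ = f ρ₁ := ⟨_, rfl⟩
    rw [← hz₁] at hρΓ hρD
    have hre : ∀ᶠ y in 𝓝[Γ] z₁, y.re = x₀ := by
      have h1 : ∀ᶠ y in 𝓝[Γ] z₁, D y ≠ 0 := by
        refine (hcont z₁ hρΓ).eventually_ne ?_
        rw [hρD]
        exact hne
      have h2 : ∀ᶠ y in 𝓝[Γ] z₁, |y.re - x₀| < Real.pi := by
        have h3 : Tendsto (fun y : ℂ => |y.re - x₀|) (𝓝[Γ] z₁) (𝓝 |z₁.re - x₀|) :=
          ((Complex.continuous_re.sub continuous_const).abs.tendsto z₁).mono_left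
            nhdsWithin_le_nhds
        have h4 : |z₁.re - x₀| < Real.pi := by
          have h5 : z₁.re = x₀ := by rw [hz₁]
          rw [h5, sub_self, abs_zero]
          exact Real.pi_pos
        exact h3.eventually (gt_mem_nhds h4)
      filter_upwards [h1, h2, self_mem_nhdsWithin] with y hy1 hy2 hy3
      have h5 : Real.sin y.re = 0 := by
        by_contra hcon
        exact hy1 (h0 y hy3 hcon)
      have h6 : Real.sin (y.re - x₀) = 0 := by
        rw [Real.sin_sub, h5, hs₀]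
        ring
      have h7 := (Real.sin_eq_zero_iff_of_lt_of_lt (abs_lt.mp hy2).1 (abs_lt.mp hy2).2).mp h6
      linarith
    obtain ⟨x, v, hx0, hxd, hv, hx⟩ := subAt_curve (hsub z₁ hρΓ) hρΓ
    have hxre : ∀ᶠ t in 𝓝 (0 : ℝ), (x t).re = x₀ := by
      have h1 : Tendsto x (𝓝 0) (𝓝[Γ] z₁) := by
        refine tendsto_nhdsWithin_iff.mpr ⟨?_, hx.mono fun t ht => ht.1⟩
        have h2 := hxd.continuousAt.tendsto
        rwa [hx0] at h2
      exact h1.eventually hre
    have hvre : v.re = 0 := by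
      have h1 : HasDerivAt (fun t => (x t).re) v.re 0 :=
        (Complex.reCLM.hasFDerivAt.comp_hasDerivAt 0 hxd)
      have h2 : HasDerivAt (fun _ : ℝ => x₀) v.re 0 :=
        h1.congr_of_eventuallyEq (hxre.mono fun t ht => ht.symm)
      exact h2.unique (hasDerivAt_const 0 x₀)
    have hvim : v.im ≠ 0 := by
      intro h1
      exact hv (Complex.ext hvre h1)
    have hud : HasDerivAt (fun t => (x t).im) v.im 0 :=
      (Complex.imCLM.hasFDerivAt.comp_hasDerivAt 0 hxd)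
    obtain ⟨ε, hε, hball⟩ := Metric.eventually_nhds_iff.mp (hx.and hxre)
    obtain ⟨t, t', ht, ht', hlt, hlt'⟩ := dz_sides hud hvim hε
    have hlt : (x t).im < (x 0).im := hlt
    have hlt' : (x 0).im < (x t').im := hlt'
    have hx0im : (x 0).im = ρ₁ := by rw [hx0, hz₁]
    rw [hx0im] at hlt hlt'
    have hin : ∀ s ∈ uIcc t t', |s| < ε := by
      intro s hs
      rw [mem_uIcc] at hs
      rw [abs_lt] at ht ht' ⊢
      rcases hs with hs | hs
      · exact ⟨by linarith [hs.1], by linarith [hs.2]⟩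
      · exact ⟨by linarith [hs.1], by linarith [hs.2]⟩
    have hb' : ∀ s ∈ uIcc t t', (x s ∈ Γ ∧ ContinuousAt x s) ∧ (x s).re = x₀ := by
      intro s hs
      refine hball ?_
      rw [Real.dist_eq, sub_zero]
      exact hin s hs
    have hJ : ∀ ρ ∈ Ioo (x t).im (x t').im, f ρ ∈ Γ := by
      intro ρ hρ
      have h1 : ContinuousOn (fun s => (x s).im) (uIcc t t') := fun s hs =>
        (Complex.continuous_im.continuousAt.comp (hb' s hs).1.2).continuousWithinAt
      have h2 := intermediate_value_uIcc h1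
      have h3 : ρ ∈ uIcc (x t).im (x t').im := by
        rw [mem_uIcc]
        exact Or.inl ⟨hρ.1.le, hρ.2.le⟩
      obtain ⟨s, hs, hsρ⟩ := h2 h3
      have hsρ : (x s).im = ρ := hsρ
      have h4 : f ρ = x s := by
        apply Complex.ext
        · exact (hb' s hs).2.symm
        · exact hsρ.symm
      rw [h4]
      exact (hb' s hs).1.1
    have hder : ∀ ρ ∈ Ioo (x t).im (x t').im, HasDerivAt (fun ρ => D (f ρ)) 0 ρ := by
      intro ρ hρ
      rw [hasDerivAt_iff_isLittleO]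
      have h1 := hD (f ρ) (hJ ρ hρ)
      have h2 : Tendsto f (𝓝 ρ) (𝓝[Γ] (f ρ)) := by
        refine tendsto_nhdsWithin_iff.mpr ⟨hf.tendsto ρ, ?_⟩
        filter_upwards [Ioo_mem_nhds hρ.1 hρ.2] with ρ' hρ'
        exact hJ ρ' hρ'
      have h3 := h1.comp_tendsto h2
      have h4 : (fun ρ' => D (f ρ') - D (f ρ) - (ρ' - ρ) • (0 : ℝ)) =
          (fun y : ℂ => D y - D (f ρ)) ∘ f := by
        funext ρ'
        simp
      rw [h4]
      refine h3.trans_isBigO ?_
      refine Asymptotics.IsBigO.of_bound 1 (Eventually.of_forall fun ρ' => ?_)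
      have h5 : f ρ' - f ρ = ((ρ' - ρ : ℝ) : ℂ) * Complex.I := by
        apply Complex.ext <;> simp [f]
      show ‖f ρ' - f ρ‖ ≤ 1 * ‖ρ' - ρ‖
      rw [h5, norm_mul, Complex.norm_I, Complex.norm_real, mul_one, one_mul]
    filter_upwards [Ioo_mem_nhds hlt hlt'] with ρ hρ
    refine ⟨hJ ρ hρ, ?_⟩
    have h1 : (fun ρ => D (f ρ)) ρ = (fun ρ => D (f ρ)) ρ₁ :=
      isOpen_Ioo.is_const_of_deriv_eq_zero isPreconnected_Ioo
        (fun s hs => (hder s hs).differentiableAt.differentiableWithinAt)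
        (fun s hs => (hder s hs).deriv) hρ ⟨hlt, hlt'⟩
    show D (f ρ) = D z₀
    have h2 : D (f ρ) = D (f ρ₁) := h1
    rw [h2, ← hz₁]
    exact hρD
  have hun : B = univ := IsClopen.eq_univ ⟨hBcl, hBop⟩ hBne
  obtain ⟨R, hR⟩ := hb
  have h1 : R + 1 ∈ B := by rw [hun]; exact mem_univ _
  have h2 : |(f (R + 1)).im| ≤ R := hR _ h1.1
  have h3 : (f (R + 1)).im = R + 1 := rfl
  rw [h3] at h2
  linarith [le_abs_self (R + 1)]

end Pool.Agent.H73.CO
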