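import Mathlib
import Pool.Agent.H2.TI.IDefs

/-!
# Exact Lagrangians invariant under a cohomogeneity one action: definitions and interfaces

MP_3dbb84_gt, Theorem IV.
-/

set_option autoImplicit false

open scoped ContDiff Topology RealInnerProductSpace
open Set Filter

namespace Pool.Agent.H73.CO

open Pool.Agent.H57.NL Pool.Agent.H2.TG Pool.Agent.H2.TI

variable {m : ℕ}

/-- `F` is a transnormal function on `N` with gradient `g`: `|g|² = 1 - F²` on `N`, the regular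
levels are connected, and `F` is not identically `1` or `-1`. -/
structure Transnormal (N : Set (E m)) (F : E m → ℝ) (g : E m → E m) : Prop where
  smooth : ContDiff ℝ ∞ F
  tan : ∀ q ∈ N, g q ∈ Tan N q
  grad : IsDifferential N F g
  norm : ∀ q ∈ N, ‖g q‖ ^ 2 = 1 - F q ^ 2
  conn : ∀ a : ℝ, |a| < 1 → IsPreconnected {q | q ∈ N ∧ F q = a}
  reg : ∃ q ∈ N, |F q| < 1

/-- The covectors in the direction of `dF`, and their limits. -/
def MF (N : Set (E m)) (g : E m → E m) : Set (E m × E m) :=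
  closure {z | z.1 ∈ N ∧ ∃ t : ℝ, z.2 = t • g z.1}

/-- Data used in the proofs: the projections to the tangent spaces, and the smooth extension
`g q = Pr q (∇F q)` of the gradient. -/
structure TD (n : ℕ) (N : Set (E m)) (Pr : E m → (E m →L[ℝ] E m)) (F : E m → ℝ) (g : E m → E m) :
    Prop where
  mfd : ClosedMfd n N ⊥
  proj : ProjN N Pr
  trans : Transnormal N F g
  smooth : ContDiff ℝ ∞ g

/-- A normal geodesic, parametrised by `θ` with `F = cos θ`. -/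
structure NG (N : Set (E m)) (Pr : E m → (E m →L[ℝ] E m)) (F : E m → ℝ) (g : E m → E m)
    (c : ℝ → E m) : Prop where
  smooth : ContDiff ℝ ∞ c
  mem : ∀ θ, c θ ∈ N
  unit : ∀ θ, ‖deriv c θ‖ = 1
  geod : ∀ θ, deriv (deriv c) θ = fderiv ℝ Pr (c θ) (deriv c θ) (deriv c θ)
  lev : ∀ θ, F (c θ) = Real.cos θ
  gr : ∀ θ, g (c θ) = -(Real.sin θ • deriv c θ)

/-- The covector of length `ρ` along a normal geodesic; `z = θ + iρ`. -/
noncomputable def ph (c : ℝ → E m) (z : ℂ) : E m × E m := (c z.re, z.im • deriv c z.re)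

/-- The invariants `(F(q), ⟨p, g(q)⟩, |p|²)`. -/
noncomputable def QQ (F : E m → ℝ) (g : E m → E m) (z : E m × E m) : ℝ × ℝ × ℝ :=
  (F z.1, ⟪z.2, g z.1⟫, ‖z.2‖ ^ 2)

/-- The invariants in the plane: `(cos θ, -ρ sin θ, ρ²)`. -/
noncomputable def QP (z : ℂ) : ℝ × ℝ × ℝ := (Real.cos z.re, -(z.im * Real.sin z.re), z.im ^ 2)

/-- The profile of `S`. -/
def Prof (c : ℝ → E m) (S : Set (E m × E m)) : Set ℂ := {z | ph c z ∈ S}

/-- Properties of the profile. -/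
structure PlaneSet (Γ : Set ℂ) (f : ℂ → ℝ) : Prop where
  ne : Γ.Nonempty
  sub : IsSubmfd 1 Γ
  closed : IsClosed Γ
  neg : ∀ z ∈ Γ, -z ∈ Γ
  per : ∀ z ∈ Γ, z + ((2 * Real.pi : ℝ) : ℂ) ∈ Γ
  bdd : ∃ R : ℝ, ∀ z ∈ Γ, |z.im| ≤ R
  prim : ∀ z ∈ Γ, (fun y : ℂ => f y - f z - z.im * (y.re - z.re)) =o[𝓝[Γ] z] (fun y => y - z)
  fper : ∀ z ∈ Γ, f (z + ((2 * Real.pi : ℝ) : ℂ)) = f z

/-- A smooth odd curve in the plane with `γ(t + 2π) = γ(t) + 2π`, embedded modulo the group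
generated by `z ↦ -z` and `z ↦ z + 2π`. -/
structure OddCurve (γ : ℝ → ℂ) : Prop where
  smooth : ContDiff ℝ ∞ γ
  odd : ∀ t, γ (-t) = -γ t
  per : ∀ t, γ (t + 2 * Real.pi) = γ t + ((2 * Real.pi : ℝ) : ℂ)
  imm : ∀ t, deriv γ t ≠ 0
  inj : ∀ t u, Complex.cos (γ t) = Complex.cos (γ u) → Real.cos t = Real.cos u

/-- The planar Hamiltonian. -/
noncomputable def hP (K : ℝ → ℝ × ℝ × ℝ → ℝ) (s : ℝ) (z : ℂ) : ℝ := K s (QP z)

/-- The planar Hamiltonian vector field `θ' = ∂h/∂ρ`, `ρ' = -∂h/∂θ`. -/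
noncomputable def XP (K : ℝ → ℝ × ℝ × ℝ → ℝ) (s : ℝ) (z : ℂ) : ℂ :=
  ⟨fderiv ℝ (hP K s) z Complex.I, -fderiv ℝ (hP K s) z 1⟩

/-- A Hamiltonian isotopy in the plane, equivariant, which takes the real line to the curve `γ`,
generated by a smooth function of `(cos θ, -ρ sin θ, ρ²)`. -/
structure PlanarIso (γ : ℝ → ℂ) (K : ℝ → ℝ × ℝ × ℝ → ℝ) (Z : ℝ → ℝ → ℂ) : Prop where
  smooth : ContDiff ℝ ∞ fun x : ℝ × (ℝ × ℝ × ℝ) => K x.1 x.2
  suppS : ∀ s x, 2 ≤ |s| → K s x = 0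
  supp : ∃ R : ℝ, ∀ s x, R ≤ x.2.2 → K s x = 0
  start : ∀ t : ℝ, Z 0 t = (t : ℂ)
  flow : ∀ s t : ℝ, |s| ≤ 1 → HasDerivAt (fun s => Z s t) (XP K s (Z s t)) s
  into : ∀ t, ∃ u, Complex.cos (Z 1 t) = Complex.cos (γ u)
  onto : ∀ u, ∃ t, Complex.cos (Z 1 t) = Complex.cos (γ u)

end Pool.Agent.H73.CO
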