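import Pool.Agent.H73.CO.DefsG

/-!
# Definitions for the circle step
-/

set_option autoImplicit false

open scoped ContDiff Topology RealInnerProductSpace
open Set Filter

namespace Pool.Agent.H73.CO

open Pool.Agent.H57.NL Pool.Agent.H2.TG Pool.Agent.H2.TI

/-- The unit circle. -/
def N1 : Set (E 2) := {x | ‖x‖ = 1}

/-- `(cos t, sin t)`. -/
noncomputable def cc (t : ℝ) : E 2 := !₂[Real.cos t, Real.sin t]

/-- `(-sin t, cos t)`. -/
noncomputable def dd (t : ℝ) : E 2 := !₂[-Real.sin t, Real.cos t]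

/-- The rotation by 90 degrees. -/
noncomputable def JJ (x : E 2) : E 2 := !₂[-x 1, x 0]

/-- The point of `T*S¹` with angle `θ` and momentum `ρ`, `w = θ + iρ`. -/
noncomputable def ph1 (w : ℂ) : E 2 × E 2 := (cc w.re, w.im • dd w.re)

/-- The local inverse of `ph1` near the angle `θ₀`. -/
noncomputable def gh1 (θ₀ : ℝ) (z : E 2 × E 2) : ℂ :=
  ⟨θ₀ + Real.arcsin ⟪z.1, dd θ₀⟫, ⟪z.2, JJ z.1⟫⟩

/-- A curve as in `OddCurve`, but not yet odd. -/
structure PerCurve (Γ : Set ℂ) (γ : ℝ → ℂ) : Prop where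
  smooth : ContDiff ℝ ∞ γ
  per : ∀ t, γ (t + 2 * Real.pi) = γ t + ((2 * Real.pi : ℝ) : ℂ)
  imm : ∀ t, deriv γ t ≠ 0
  inj : Function.Injective γ
  range : range γ = Γ

end Pool.Agent.H73.CO
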