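import Pool.Agent.H73.CO.DefsG
import Pool.Agent.H2.TI.HDefs

/-!
# Definitions for the equivariant form of Theorem IV
-/

set_option autoImplicit false

open scoped ContDiff Topology RealInnerProductSpace
open Set Filter

namespace Pool.Agent.H73.CO

open Pool.Agent.H57.NL Pool.Agent.H2.TG Pool.Agent.H2.TI

variable {m : ℕ}

/-- A closed group of linear isometries of `ℝ^m`, as a set of linear maps. -/
structure RotG (G : Set (E m →L[ℝ] E m)) : Prop where
  one : 1 ∈ G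
  mul : ∀ a ∈ G, ∀ b ∈ G, a * b ∈ G
  inv : ∀ a ∈ G, ∃ b ∈ G, a * b = 1 ∧ b * a = 1
  isom : ∀ a ∈ G, ∀ x, ‖a x‖ = ‖x‖
  closed : IsClosed G

/-- The action on the cotangent bundle. -/
def act (a : E m →L[ℝ] E m) (z : E m × E m) : E m × E m := (a z.1, a z.2)

/-- Limits of secants of the level of `F` through `q`. -/
def LT (N : Set (E m)) (F : E m → ℝ) (q : E m) : Set (E m) :=
  {u | ∃ (b : ℕ → E m) (s : ℕ → ℝ), (∀ k, b k ∈ N ∧ F (b k) = F q ∧ 0 < s k) ∧
    Tendsto s atTop (𝓝 0) ∧ Tendsto (fun k => (s k)⁻¹ • (b k - q)) atTop (𝓝 u)}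

/-- `b` is a linear isometry of `ℝ^m` (maps which preserve the scalar product are linear). -/
def Orth (b : E m → E m) : Prop := ∀ x y, ⟪b x, b y⟫ = ⟪x, y⟫

/-- `G` is a closed group of linear isometries of `ℝ^m` which acts on `N`, and its orbits in `N` are
the levels of `F`. Closed: for pointwise convergence. -/
structure OrbitsAreLevels (G : Set (E m → E m)) (N : Set (E m)) (F : E m → ℝ) : Prop where
  orth : ∀ b ∈ G, Orth b
  one : id ∈ G
  mul : ∀ a ∈ G, ∀ b ∈ G, a ∘ b ∈ G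
  inv : ∀ a ∈ G, ∃ b ∈ G, b ∘ a = id
  closed : IsClosed G
  maps : ∀ b ∈ G, ∀ q ∈ N, b q ∈ N
  finv : ∀ b ∈ G, ∀ q ∈ N, F (b q) = F q
  trans : ∀ q ∈ N, ∀ q' ∈ N, F q = F q' → ∃ b ∈ G, b q = q'

end Pool.Agent.H73.CO
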