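import Pool.Agent.H73.CO.Defs

/-!
# Further definitions for the geometric part of Theorem IV
-/

set_option autoImplicit false

open scoped ContDiff Topology RealInnerProductSpace
open Set Filter

namespace Pool.Agent.H73.CO

open Pool.Agent.H57.NL Pool.Agent.H2.TG Pool.Agent.H2.TI

variable {m : ℕ}

/-- A unit speed geodesic of `N`. -/
structure GC (N : Set (E m)) (Pr : E m → (E m →L[ℝ] E m)) (c : ℝ → E m) : Prop where
  smooth : ContDiff ℝ ∞ c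
  mem : ∀ θ, c θ ∈ N
  unit : ∀ θ, ‖deriv c θ‖ = 1
  geod : ∀ θ, deriv (deriv c) θ = fderiv ℝ Pr (c θ) (deriv c θ) (deriv c θ)

/-- The geodesic flow on the covectors of length at most `R`, extended to a flow. -/
structure Geo (N : Set (E m)) (Pr : E m → (E m →L[ℝ] E m)) (R : ℝ)
    (G : ℝ → E m × E m → E m × E m) : Prop where
  smooth : ContDiff ℝ ∞ fun x : ℝ × (E m × E m) => G x.1 x.2
  zero : ∀ z, G 0 z = z
  add : ∀ s t z, G s (G t z) = G (s + t) z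
  maps : ∀ t, ∀ z ∈ TN N, G t z ∈ TN N
  norm : ∀ t, ∀ z ∈ TN N, ‖z.2‖ ≤ R → ‖(G t z).2‖ = ‖z.2‖
  der : ∀ t, ∀ z ∈ TN N, ‖z.2‖ ≤ R → HasDerivAt (fun t => G t z)
    ((G t z).2, fderiv ℝ Pr (G t z).1 (G t z).2 (G t z).2) t
  uniq : ∀ c : ℝ → E m × E m, (∀ t, c t ∈ TN N ∧ ‖(c t).2‖ ≤ R ∧
    HasDerivAt c ((c t).2, fderiv ℝ Pr (c t).1 (c t).2 (c t).2) t) → ∀ t, c t = G t (c 0)

/-- The defect of a geodesic from being normal. -/
noncomputable def XX (g : E m → E m) (c : ℝ → E m) (θ : ℝ) : E m :=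
  g (c θ) + Real.sin θ • deriv c θ

/-- The second defect. -/
noncomputable def YY (F : E m → ℝ) (c : ℝ → E m) (θ : ℝ) : ℝ := F (c θ) - Real.cos θ

/-- `S` is a submanifold near `x`. -/
def SubAt {V : Type*} [NormedAddCommGroup V] [NormedSpace ℝ V] (n : ℕ) (S : Set V) (x : V) : Prop :=
  ∃ (e : OpenPartialHomeomorph V V) (A : Submodule ℝ V), x ∈ e.source ∧
    ContDiffOn ℝ ∞ e e.source ∧ ContDiffOn ℝ ∞ e.symm e.target ∧ Module.finrank ℝ A = n ∧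
    ∀ y ∈ e.source, (y ∈ S ↔ e y ∈ A)

/-- The shear `(θ, ρ) ↦ (θ + τρ, ρ)`. -/
def shr2 (τ : ℝ) (z : ℂ) : ℂ := ⟨z.re + τ * z.im, z.im⟩

/-- The cone points `(kπ, 0)`. -/
def IsCone (z : ℂ) : Prop := Real.sin z.re = 0 ∧ z.im = 0

/-- The vector field of a function of the planar invariants. -/
noncomputable def XPt (K : ℝ × ℝ × ℝ → ℝ) (z : ℂ) : ℂ :=
  ⟨fderiv ℝ (fun w => K (QP w)) z Complex.I, -fderiv ℝ (fun w => K (QP w)) z 1⟩

end Pool.Agent.H73.CO
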