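import Pool.Agent.H73.CO.DefsG
import Pool.Agent.H2.TI.ICpt

/-!
# Module HamC: the flow of a compactly supported Hamiltonian is a `HamIso` (about 60 lines)

PROOF. As in the last part of `exists_cpt` (`H2/TI/ICpt.lean`): `smooth`, `smooth'` from `CFlow`; `smoothH`; `diffeo`: `symp_of_ex` with `ex_of_cflow`; `zero`: `CFlow.zero`; `ham`: `X = XH Pr (K s) (Φ s z)`, `xh_tan`, `CFlow.deriv`, `xh_om`; `supp`: `r`, `hs` and `CFlow.supp`.
-/

set_option autoImplicit false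

open scoped ContDiff Topology RealInnerProductSpace
open Set Filter

namespace Pool.Agent.H73.CO

open Pool.Agent.H57.NL Pool.Agent.H2.TG Pool.Agent.H2.TI

variable {m n : ℕ} {N : Set (E m)} {Pr : E m → (E m →L[ℝ] E m)} {F : E m → ℝ}
  {g : E m → E m}

theorem cflow_hamIso (hN : IsSubmfd n N) (hPr : ProjN N Pr) {K : ℝ → E m × E m → ℝ} {r : ℝ}
    {Φ Φ' : ℝ → E m × E m → E m × E m}
    (hK : ContDiff ℝ ∞ fun x : ℝ × (E m × E m) => K x.1 x.2)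
    (hs : ∀ s z, 2 ≤ |s| ∨ r ≤ ‖z‖ → K s z = 0) (hΦ : CFlow N Pr K r Φ Φ') :
    HamIso N Φ Φ' K := by
  obtain ⟨G', hex⟩ := ex_of_cflow hN hPr hK hs hΦ
  refine ⟨hΦ.smooth, hΦ.smooth', hK, fun s => symp_of_ex hN hex s, fun z _ => hΦ.zero z, ?_, ?_⟩
  · intro s z hz
    exact ⟨XH Pr (K s) (Φ s z), xh_tan hN hPr (K s) (hΦ.maps s z hz), hΦ.deriv s z,
      fun v hv => xh_om hN hPr (K s) (hΦ.maps s z hz) hv⟩
  · exact ⟨r, fun s z _ hr => ⟨hs s z (Or.inr hr.le), hΦ.supp s z hr⟩⟩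

end Pool.Agent.H73.CO
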