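import Pool.Agent.H73.CO.SubB
import Pool.Agent.H2.TI.IXH

/-!
# Module PhF: the Hamiltonian flow of a function of the invariants (about 110 lines)

PROOF of `ph_flow`. `w = θ + iρ`, `z = ph c w = (q, p)`, `p = ρ c'`. `X = XPt K w = ⟨X₁, X₂⟩`, `X₁ = ∂_ρ k`, `X₂ = -∂_θ k`, `k = K ∘ QP`. By `ph_deriv` the left side is `Y = (X₁ c', X₂ c' + X₁ ρ c'')` with `c'' = fderiv ℝ Pr q c' c'`. `Y ∈ Tan (TN N) z`
(`Tan.map` for `ph c` on `univ`, `ph_TN`, or `tan_mk`). For `v ∈ Tan (TN N) z`, `v.1 ∈ Tan N q` (`tan_fst`): `om Y v = X₂ ⟪c', v.1⟫ - X₁ ⟪v.2, c'⟫` (`dpr_orth`). `fderiv ℝ H z v = DK(QQ z) (DQQ v)` and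
`DQQ(z) v = (⟪g q, v.1⟫, ⟪v.2, g q⟫ + ⟪p, Dg v.1⟫, 2 ⟪p, v.2⟫)` (`TD.dF`). With `g q = -(sin θ • c')` and `⟪p, Dg v.1⟫ = ρ ⟪Dg v.1, c'⟫ = ρ ⟪Dg c', v.1⟫ = -ρ cos θ ⟪c', v.1⟫` (`TD.symm`, `ng_hess`) this is
`⟪c', v.1⟫ • (-sin θ, -ρ cos θ, 0) + ⟪c', v.2⟫ • (0, -sin θ, 2 ρ) = ⟪c', v.1⟫ • DQP(w) 1 + ⟪c', v.2⟫ • DQP(w) I`. So `fderiv ℝ H z v = ⟪c', v.1⟫ ∂_θ k + ⟪c', v.2⟫ ∂_ρ k = -om Y v`. `xh_om`: `om (XH Pr H z) v` is the same. `om_nondeg` for the difference (`xh_tan`).
-/

set_option autoImplicit false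

open scoped ContDiff Topology RealInnerProductSpace
open Set Filter

namespace Pool.Agent.H73.CO

open Pool.Agent.H57.NL Pool.Agent.H2.TG Pool.Agent.H2.TI

variable {m n : ℕ} {N : Set (E m)} {Pr : E m → (E m →L[ℝ] E m)} {F : E m → ℝ}
  {g : E m → E m}

variable {S : Set (E m × E m)} {f : E m × E m → ℝ} {c : ℝ → E m}


private theorem phf_QP (w : ℂ) : HasFDerivAt QP
    ((-(Real.sin w.re) • Complex.reCLM).prod
      ((-(Real.sin w.re • Complex.imCLM + (w.im * Real.cos w.re) • Complex.reCLM)).prod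
        ((2 * w.im) • Complex.imCLM))) w := by
  have hre : HasFDerivAt (fun z : ℂ => z.re) Complex.reCLM w := Complex.reCLM.hasFDerivAt
  have him : HasFDerivAt (fun z : ℂ => z.im) Complex.imCLM w := Complex.imCLM.hasFDerivAt
  have h1 : HasFDerivAt (fun z : ℂ => Real.cos z.re) (-(Real.sin w.re) • Complex.reCLM) w :=
    (Real.hasDerivAt_cos w.re).comp_hasFDerivAt w hre
  have h2 : HasFDerivAt (fun z : ℂ => Real.sin z.re) (Real.cos w.re • Complex.reCLM) w :=
    (Real.hasDerivAt_sin w.re).comp_hasFDerivAt w hre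
  have h3 : HasFDerivAt (fun z : ℂ => z.im * Real.sin z.re)
      (w.im • (Real.cos w.re • Complex.reCLM) + Real.sin w.re • Complex.imCLM) w := him.mul h2
  have h4 : HasFDerivAt (fun z : ℂ => z.im ^ 2) ((2 * w.im) • Complex.imCLM) w := by
    have h := him.pow 2
    refine h.congr_fderiv ?_
    ext ζ
    simp
  have h5 := h1.prodMk (h3.neg.prodMk h4)
  refine h5.congr_fderiv ?_
  ext ζ
  · simp
  · simp
    ring
  · simp

private theorem phf_QQ (h : TD n N Pr F g) (z : E m × E m) : HasFDerivAt (QQ F g)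
    (((fderiv ℝ F z.1).comp (ContinuousLinearMap.fst ℝ (E m) (E m))).prod
      (((innerSL ℝ z.2).comp ((fderiv ℝ g z.1).comp (ContinuousLinearMap.fst ℝ (E m) (E m)))
        + (innerSL ℝ (g z.1)).comp (ContinuousLinearMap.snd ℝ (E m) (E m))).prod
        ((2 : ℝ) • (innerSL ℝ z.2).comp (ContinuousLinearMap.snd ℝ (E m) (E m))))) z := by
  have hf : HasFDerivAt (fun y : E m × E m => y.1) (ContinuousLinearMap.fst ℝ (E m) (E m)) z :=
    hasFDerivAt_fst
  have hs : HasFDerivAt (fun y : E m × E m => y.2) (ContinuousLinearMap.snd ℝ (E m) (E m)) z :=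
    hasFDerivAt_snd
  have hF : HasFDerivAt F (fderiv ℝ F z.1) z.1 :=
    (h.trans.smooth.differentiable (by simp) _).hasFDerivAt
  have hg : HasFDerivAt g (fderiv ℝ g z.1) z.1 := (h.smooth.differentiable (by simp) _).hasFDerivAt
  have h1 := hF.comp z hf
  have h2 := hg.comp z hf
  have h3 := hs.inner ℝ h2
  have h4 := hs.norm_sq
  have h5 := h1.prodMk (h3.prodMk h4)
  refine h5.congr_fderiv ?_
  ext ζ
  all_goals simp [fderivInnerCLM_apply, real_inner_comm]

theorem ph_flow (h : TD n N Pr F g) (hc : NG N Pr F g c) {K : ℝ × ℝ × ℝ → ℝ}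
    (hK : ContDiff ℝ ∞ K) {H : E m × E m → ℝ} (w : ℂ)
    (hH : H =ᶠ[𝓝 (ph c w)] fun y => K (QQ F g y)) :
    fderiv ℝ (ph c) w (XPt K w) = XH Pr H (ph c w) := by
  have hN := h.mfd.sub
  have hPr := h.proj
  have hz := ph_TN hc w
  have hct : deriv c w.re ∈ Tan N (c w.re) := gc_tan hc.gc w.re
  have hY := ph_deriv hc w (XPt K w)
  have hYt : fderiv ℝ (ph c) w (XPt K w) ∈ Tan (TN N) (ph c w) := by
    have h1 := tan_mk hN hPr hz (a := (XPt K w).re • deriv c w.re)
      (b := (XPt K w).im • deriv c w.re) (Tan.smul hct _) (Tan.smul hct _)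
    rw [hY]
    have h2 : fderiv ℝ Pr (ph c w).1 ((XPt K w).re • deriv c w.re) (ph c w).2
        + (XPt K w).im • deriv c w.re = (XPt K w).im • deriv c w.re
        + ((XPt K w).re * w.im) • fderiv ℝ Pr (c w.re) (deriv c w.re) (deriv c w.re) := by
      unfold ph
      simp only [map_smul, ContinuousLinearMap.smul_apply, smul_smul]
      rw [add_comm]
      congr 2
      ring
    rw [h2] at h1
    exact h1
  have hX := xh_tan hN hPr H hz
  have hsub := (TN_submfd hN).tan_sub hz hYt hX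
  have h0 : fderiv ℝ (ph c) w (XPt K w) - XH Pr H (ph c w) = 0 := by
    refine om_nondeg hN hPr hz hsub fun v hv => ?_
    have hv1 : v.1 ∈ Tan N (c w.re) := tan_fst hv
    have e0 : om (fderiv ℝ (ph c) w (XPt K w) - XH Pr H (ph c w)) v =
        om (fderiv ℝ (ph c) w (XPt K w)) v - om (XH Pr H (ph c w)) v := by
      unfold om
      simp only [Prod.snd_sub, Prod.fst_sub, inner_sub_left, inner_sub_right]
      ring
    rw [e0, xh_om hN hPr H hz hv, hH.fderiv_eq]
    have hKd : HasFDerivAt K (fderiv ℝ K (QP w)) (QQ F g (ph c w)) := by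
      rw [QQ_ph hc w]
      exact (hK.differentiable (by simp) _).hasFDerivAt
    have hKd' : HasFDerivAt K (fderiv ℝ K (QP w)) (QP w) :=
      (hK.differentiable (by simp) _).hasFDerivAt
    have e1 := (hKd.comp _ (phf_QQ h (ph c w))).fderiv
    have e2 := (hKd'.comp _ (phf_QP w)).fderiv
    have e1' : fderiv ℝ (fun y => K (QQ F g y)) (ph c w) = _ := e1
    have e2' : fderiv ℝ (fun y => K (QP y)) w = _ := e2
    -- the main computation
    have hgr := hc.gr w.re
    have k1 : fderiv ℝ F (c w.re) v.1 = -(Real.sin w.re) * ⟪deriv c w.re, v.1⟫ := by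
      rw [h.dF (hc.mem _) hv1, hgr, inner_neg_left, inner_smul_left]
      simp
    have k2 : ⟪deriv c w.re, fderiv ℝ g (c w.re) v.1⟫ = -(Real.cos w.re * ⟪deriv c w.re, v.1⟫) := by
      rw [real_inner_comm, h.symm (hc.mem _) hv1 hct, ng_hess h hc w.re hv1]
    have k3 : ⟪g (c w.re), v.2⟫ = -(Real.sin w.re) * ⟪deriv c w.re, v.2⟫ := by
      rw [hgr, inner_neg_left, inner_smul_left]
      simp
    have hvec : ((((fderiv ℝ F (ph c w).1).comp (ContinuousLinearMap.fst ℝ (E m) (E m))).prod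
      (((innerSL ℝ (ph c w).2).comp ((fderiv ℝ g (ph c w).1).comp
        (ContinuousLinearMap.fst ℝ (E m) (E m)))
        + (innerSL ℝ (g (ph c w).1)).comp (ContinuousLinearMap.snd ℝ (E m) (E m))).prod
        ((2 : ℝ) • (innerSL ℝ (ph c w).2).comp (ContinuousLinearMap.snd ℝ (E m) (E m))))) v) =
        ⟪deriv c w.re, v.1⟫ • (((-(Real.sin w.re) • Complex.reCLM).prod
      ((-(Real.sin w.re • Complex.imCLM + (w.im * Real.cos w.re) • Complex.reCLM)).prod
        ((2 * w.im) • Complex.imCLM))) 1) + ⟪deriv c w.re, v.2⟫ •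
        (((-(Real.sin w.re) • Complex.reCLM).prod
      ((-(Real.sin w.re • Complex.imCLM + (w.im * Real.cos w.re) • Complex.reCLM)).prod
        ((2 * w.im) • Complex.imCLM))) Complex.I) := by
      unfold ph
      refine Prod.ext ?_ (Prod.ext ?_ ?_)
      · simp [k1]
        ring
      · simp [inner_smul_left, k2, k3]
        ring
      · simp [inner_smul_left]
        ring
    rw [e1', hY]
    have hXre : (XPt K w).re = fderiv ℝ K (QP w) (((-(Real.sin w.re) • Complex.reCLM).prod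
      ((-(Real.sin w.re • Complex.imCLM + (w.im * Real.cos w.re) • Complex.reCLM)).prod
        ((2 * w.im) • Complex.imCLM))) Complex.I) := by
      show fderiv ℝ (fun y => K (QP y)) w Complex.I = _
      rw [e2']
      rfl
    have hXim : (XPt K w).im = -fderiv ℝ K (QP w) (((-(Real.sin w.re) • Complex.reCLM).prod
      ((-(Real.sin w.re • Complex.imCLM + (w.im * Real.cos w.re) • Complex.reCLM)).prod
        ((2 * w.im) • Complex.imCLM))) 1) := by
      show -fderiv ℝ (fun y => K (QP y)) w 1 = _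
      rw [e2']
      rfl
    rw [ContinuousLinearMap.comp_apply, hvec, map_add, map_smul, map_smul]
    have hor := dpr_orth hN hPr (hc.mem w.re) hct hct hv1
    unfold om
    simp only [inner_add_left, inner_smul_left, inner_smul_right, hor]
    rw [hXre, hXim]
    simp only [smul_eq_mul, real_inner_comm v.2, conj_trivial]
    ring
  exact sub_eq_zero.1 h0

end Pool.Agent.H73.CO
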