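import Pool.Agent.H73.CO.DefsG
import Pool.Agent.H2.TI.SProj

/-!
# Module Red: the gradient may be taken smooth (about 80 lines)

PROOF of `exists_TD`. `exists_proj hN.sub hN.closed` gives `Pr`. Put `g' q = Pr q (vec (fderiv ℝ F q))` (`vec` of `H2/TI/SDefs`, smooth since `F`,
`Pr` are). For `q ∈ N`: `g' q = g q`: both are in `Tan N q`, and for `v ∈ Tan N q`: `⟪g' q, v⟫ = ⟪vec (fderiv ℝ F q), v⟫ = fderiv ℝ F q v = ⟪g q, v⟫`
(`hPr.orth`, `vec_inner`; the last equation as in module Bas, `TD.dF`: both are the derivative of `F` along a curve with velocity `v`; prove it here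
as a private lemma from `IsDifferential`); `tan_unique`. So `Transnormal N F g'` (every field only uses `g` on `N`), and the sets in the definition of
`MF` are equal.
-/

set_option autoImplicit false

open scoped ContDiff Topology RealInnerProductSpace
open Set Filter

namespace Pool.Agent.H73.CO

open Pool.Agent.H57.NL Pool.Agent.H2.TG Pool.Agent.H2.TI

variable {m n : ℕ} {N : Set (E m)} {Pr : E m → (E m →L[ℝ] E m)} {F : E m → ℝ}
  {g : E m → E m}

private lemma Red_dF (hF : Transnormal N F g) {q v : E m} (hq : q ∈ N) (hv : v ∈ Tan N q) :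
    fderiv ℝ F q v = ⟪g q, v⟫ := by
  obtain ⟨γ, h0, hS, hd⟩ := hv
  subst h0
  have H1 : HasDerivAt (fun s => F (γ s)) (fderiv ℝ F (γ 0) v) 0 :=
    ((hF.smooth.differentiable (by simp) (γ 0)).hasFDerivAt).comp_hasDerivAt (0 : ℝ) hd
  have hT : Tendsto γ (𝓝 0) (𝓝[N] (γ 0)) := tendsto_nhdsWithin_iff.2 ⟨hd.continuousAt, hS⟩
  have o1 : (fun s => F (γ s) - F (γ 0) - ⟪g (γ 0), γ s - γ 0⟫) =o[𝓝 0]
      fun s => γ s - γ 0 := (hF.grad (γ 0) hq).comp_tendsto hT
  have o2 : (fun s => γ s - γ 0) =O[𝓝 0] fun s : ℝ => s - 0 := hd.hasFDerivAt.isBigO_sub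
  have o3 := o1.trans_isBigO o2
  have h3 : HasDerivAt (fun s => F (γ s) - ⟪g (γ 0), γ s - γ 0⟫) 0 0 := by
    rw [hasDerivAt_iff_isLittleO]
    refine o3.congr_left fun s => ?_
    simp only [sub_self, inner_zero_right, sub_zero, smul_zero]
    ring
  have h4 : HasDerivAt (fun s => ⟪g (γ 0), γ s - γ 0⟫) ⟪g (γ 0), v⟫ 0 := by
    exact (innerSL ℝ (g (γ 0))).hasFDerivAt.comp_hasDerivAt (0 : ℝ) (hd.sub_const (γ 0))
  have h6 := h3.add h4
  have H2 : HasDerivAt (fun s => F (γ s)) ⟪g (γ 0), v⟫ 0 := by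
    have e : (fun s => F (γ s)) = (fun s => F (γ s) - ⟪g (γ 0), γ s - γ 0⟫) +
        fun s => ⟪g (γ 0), γ s - γ 0⟫ := by
      funext s
      simp
    rw [e]
    simpa using h6
  exact H1.unique H2

private lemma Red_vec : ContDiff ℝ ∞ (fun l : E m →L[ℝ] ℝ => vec l) := by
  apply IsBoundedLinearMap.contDiff
  exact
    { map_add := fun x y => map_add _ x y
      map_smul := fun c x => by
        show (InnerProductSpace.toDual ℝ (E m)).symm (c • x) = _
        rw [map_smulₛₗ]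
        rfl
      bound := ⟨1, one_pos, fun x => by
        rw [one_mul]
        exact le_of_eq (LinearIsometryEquiv.norm_map _ _)⟩ }

theorem exists_TD (hN : ClosedMfd n N ⊥) (hF : Transnormal N F g) :
    ∃ (Pr : E m → (E m →L[ℝ] E m)) (g' : E m → E m), TD n N Pr F g' ∧ (∀ q ∈ N, g' q = g q) ∧
      MF N g' = MF N g := by
  obtain ⟨Pr, hPr⟩ := exists_proj hN.sub hN.closed
  have hg : ∀ q ∈ N, Pr q (vec (fderiv ℝ F q)) = g q := by
    intro q hq
    refine tan_unique hN.sub hq (hPr.mem q hq _) (hF.tan q hq) fun v hv => ?_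
    rw [hPr.orth q hq _ v hv, ← Red_dF hF hq hv]
    exact InnerProductSpace.toDual_symm_apply
  have hsm : ContDiff ℝ ∞ fun q => Pr q (vec (fderiv ℝ F q)) :=
    hPr.smooth.clm_apply (Red_vec.comp (hF.smooth.fderiv_right (m := ∞) (by simp)))
  refine ⟨Pr, fun q => Pr q (vec (fderiv ℝ F q)), ⟨hN, hPr, ?_, hsm⟩, hg, ?_⟩
  · refine ⟨hF.smooth, fun q hq => hPr.mem q hq _, fun q hq => ?_, fun q hq => ?_, hF.conn, hF.reg⟩
    · simp only [hg q hq]
      exact hF.grad q hq
    · rw [hg q hq]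
      exact hF.norm q hq
  · unfold MF
    congr 1
    ext z
    simp only [mem_setOf_eq]
    constructor
    · rintro ⟨hz, t, ht⟩
      exact ⟨hz, t, by rw [ht, hg _ hz]⟩
    · rintro ⟨hz, t, ht⟩
      exact ⟨hz, t, by rw [ht, hg _ hz]⟩

end Pool.Agent.H73.CO
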