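import Pool.Agent.H73.CO.PSet
import Pool.Agent.H73.CO.PhF
import Pool.Agent.H73.CO.HamC
import Pool.Agent.H73.CO.Red
import Pool.Agent.H2.TI.IFlow

/-!
# Module Fin: Theorem IV from its planar parts (about 160 lines)

PROOF of `fin`. `N` is bounded: `N ⊆ closedBall 0 r₀`. `χ` smooth on `E m`, `1` on the ball of radius `r₀ + 1`, `0` outside the ball of radius `r₀ + 2`. `H s z = χ z.1 * K s (QQ F g z)`: smooth; zero if `2 ≤ |s|` or `r ≤ ‖z‖`, where `r` is large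
(`‖z‖ = max ‖z.1‖ ‖z.2‖`; if `‖z.1‖ ≥ r₀ + 2` then `χ = 0`; if `‖z.2‖ ≥ r` then `‖z.2‖² ≥ R` and `K s (..) = 0` by `supp`). `exists_cflow`: `Φ, Φ'`; `cflow_hamIso`.
KEY: for every normal geodesic `c`, `t : ℝ` and `|s| ≤ 1`: `Φ s (c t, 0) = ph c (Z s t)`: the curve `γ s = ph c (Z s t)` has `HasDerivAt γ (fderiv ℝ (ph c) (Z s t) (XP K s (Z s t))) s` (`hZ.flow`; `XP K s = XPt (K s)` by definition) and this is
`XH Pr (H s) (γ s)` (`ph_flow`: `H s = K s ∘ QQ F g` near `γ s`, since `(γ s).1 ∈ N`). `CFlow.uniq`: `γ s = Φ s (γ 0)`, `γ 0 = ph c t = (c t, 0)`.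
(⊆ MF) every `q ∈ N` is `c t` for a normal geodesic `c` (`exists_ng`), so `Φ s (q, 0) = ph c (Z s t) ∈ MF N g` (`ph_mem_MF`) for `|s| ≤ 1`.
(Φ 1 '' 0_N ⊆ S) `cos (Z 1 t) = cos (γ₀ u)`, `γ₀ u ∈ Prof c S`; `ph_change`: `ph c (Z 1 t) = ph c' (γ₀ u)`, in `S` because `γ₀ u ∈ range γ₀ = Prof c₀ S = Prof c' S` (`prof_indep`).
(⊇) `y ∈ S`: `y = ph b w`, `w ∈ Prof b S = range γ₀`, `w = γ₀ u`, `cos (Z 1 t) = cos (γ₀ u)` for some `t` (`onto`); `ph_change`: `ph b' (Z 1 t) = ph b w = y`, so `y = Φ 1 (b' t, 0)`.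
-/

set_option autoImplicit false

open scoped ContDiff Topology RealInnerProductSpace
open Set Filter

namespace Pool.Agent.H73.CO

open Pool.Agent.H57.NL Pool.Agent.H2.TG Pool.Agent.H2.TI

variable {m n : ℕ} {N : Set (E m)} {Pr : E m → (E m →L[ℝ] E m)} {F : E m → ℝ}
  {g : E m → E m}

variable {S : Set (E m × E m)} {f : E m × E m → ℝ} {c : ℝ → E m}


private theorem fin_QQ (h : TD n N Pr F g) : ContDiff ℝ ∞ (QQ F g) := by
  have h1 : ContDiff ℝ ∞ fun z : E m × E m => F z.1 := h.trans.smooth.comp contDiff_fst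
  have h2 : ContDiff ℝ ∞ fun z : E m × E m => (⟪z.2, g z.1⟫ : ℝ) :=
    contDiff_snd.inner ℝ (h.smooth.comp contDiff_fst)
  have h3 : ContDiff ℝ ∞ fun z : E m × E m => ‖z.2‖ ^ 2 := contDiff_snd.norm_sq ℝ
  exact h1.prodMk (h2.prodMk h3)

private theorem fin_zero (b : ℝ → E m) (t : ℝ) : ph b (t : ℂ) = (b t, 0) := by
  unfold ph
  simp

private theorem fin_key (h : TD n N Pr F g) {K : ℝ → ℝ × ℝ × ℝ → ℝ} {Z : ℝ → ℝ → ℂ}
    {γ₀ : ℝ → ℂ} (hZ : PlanarIso γ₀ K Z) {χ : E m → ℝ} {r₀ : ℝ}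
    (hr₀ : N ⊆ Metric.closedBall (0 : E m) r₀)
    (χ1 : ∀ x ∈ Metric.closedBall (0 : E m) (r₀ + 1), χ x = 1) {r : ℝ}
    {Φ Φ' : ℝ → E m × E m → E m × E m}
    (hΦ : CFlow N Pr (fun s z => χ z.1 * K s (QQ F g z)) r Φ Φ') {b : ℝ → E m}
    (hb : NG N Pr F g b) (t s : ℝ) (hs : |s| ≤ 1) : Φ s (b t, 0) = ph b (Z s t) := by
  have hK : ∀ s, ContDiff ℝ ∞ (K s) := fun s => by
    have := hZ.smooth.comp (contDiff_prodMk_right s)
    exact this
  have hd : ∀ s, |s| ≤ 1 → HasDerivAt (fun s => ph b (Z s t))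
      (XH Pr ((fun s z => χ z.1 * K s (QQ F g z)) s) (ph b (Z s t))) s := by
    intro s hs
    have h1 := hZ.flow s t hs
    have h2 : HasFDerivAt (ph b) (fderiv ℝ (ph b) (Z s t)) (Z s t) :=
      ((ph_smooth hb).differentiable (by simp) _).hasFDerivAt
    have h3 := h2.comp_hasDerivAt s h1
    have h4 : XP K s (Z s t) = XPt (K s) (Z s t) := rfl
    have hN : (ph b (Z s t)).1 ∈ N := (ph_TN hb (Z s t)).1
    have hN2 : ‖(ph b (Z s t)).1‖ ≤ r₀ := by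
      have := hr₀ hN
      rwa [Metric.mem_closedBall, dist_zero_right] at this
    have h5 : (fun z : E m × E m => χ z.1 * K s (QQ F g z)) =ᶠ[𝓝 (ph b (Z s t))]
        fun y => K s (QQ F g y) := by
      have ho : ∀ᶠ y : E m × E m in 𝓝 (ph b (Z s t)), ‖y.1‖ < r₀ + 1 := by
        have hcont : Continuous fun y : E m × E m => ‖y.1‖ := continuous_fst.norm
        exact hcont.continuousAt.eventually_lt continuousAt_const (by linarith)
      filter_upwards [ho] with y hy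
      have h6 : χ y.1 = 1 := χ1 _ (by rw [Metric.mem_closedBall, dist_zero_right]; exact hy.le)
      rw [h6, one_mul]
    rw [h4, ph_flow h hb (hK s) (Z s t) h5] at h3
    exact h3
  have h1 := hΦ.uniq (fun s => ph b (Z s t)) hd s hs
  have h2 : ph b (Z 0 t) = (b t, 0) := by rw [hZ.start, fin_zero]
  rw [← h2]
  exact h1.symm

theorem fin (h : TD n N Pr F g) (hL : ExactLag n N ⊥ S f) (hM : S ⊆ MF N g)
    (hc : NG N Pr F g c) {γ₀ : ℝ → ℂ} (hγ : range γ₀ = Prof c S)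
    {K : ℝ → ℝ × ℝ × ℝ → ℝ} {Z : ℝ → ℝ → ℂ} (hZ : PlanarIso γ₀ K Z) :
    ∃ (Ψ Ψ' : ℝ → E m × E m → E m × E m) (H : ℝ → E m × E m → ℝ), HamIso N Ψ Ψ' H ∧
      Ψ 1 '' {z | z.1 ∈ N ∧ z.2 = 0} = S ∧
      (∀ s ∈ Icc (0 : ℝ) 1, Ψ s '' {z | z.1 ∈ N ∧ z.2 = 0} ⊆ MF N g) ∧
      ∃ K : ℝ → ℝ × ℝ × ℝ → ℝ, (ContDiff ℝ ∞ fun x : ℝ × (ℝ × ℝ × ℝ) => K x.1 x.2) ∧
        ∀ s, ∀ z ∈ TN N, H s z = K s (QQ F g z) := by
  obtain ⟨r₀, hr₀⟩ := (closedMfd_compact h.mfd).isBounded.subset_closedBall (0 : E m)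
  obtain ⟨χ, χs, χ0, χ1, -⟩ := exists_cut (V := E m) (s := {y : E m | r₀ + 2 ≤ ‖y‖})
    (t := Metric.closedBall 0 (r₀ + 1)) (isClosed_le continuous_const continuous_norm)
    Metric.isClosed_closedBall (by
      rw [Set.disjoint_left]
      intro y hy hy'
      rw [Metric.mem_closedBall, dist_zero_right] at hy'
      have : r₀ + 2 ≤ ‖y‖ := hy
      linarith)
  obtain ⟨R, hR⟩ := hZ.supp
  obtain ⟨r, hr⟩ : ∃ r : ℝ, r = max (r₀ + 2) (|R| + 1) := ⟨_, rfl⟩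
  have hH : ContDiff ℝ ∞ fun x : ℝ × (E m × E m) =>
      (fun (s : ℝ) (z : E m × E m) => χ z.1 * K s (QQ F g z)) x.1 x.2 := by
    have h1 : ContDiff ℝ ∞ fun x : ℝ × (E m × E m) => χ x.2.1 :=
      χs.comp (contDiff_fst.comp contDiff_snd)
    have h2 : ContDiff ℝ ∞ fun x : ℝ × (E m × E m) => (x.1, QQ F g x.2) :=
      contDiff_fst.prodMk ((fin_QQ h).comp contDiff_snd)
    exact h1.mul (hZ.smooth.comp h2)
  have hs : ∀ (s : ℝ) (z : E m × E m), 2 ≤ |s| ∨ r ≤ ‖z‖ →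
      (fun (s : ℝ) (z : E m × E m) => χ z.1 * K s (QQ F g z)) s z = 0 := by
    intro s z hz
    show χ z.1 * K s (QQ F g z) = 0
    rcases hz with hz | hz
    · rw [hZ.suppS s _ hz, mul_zero]
    · rw [Prod.norm_def] at hz
      rcases le_max_iff.1 hz with h1 | h1
      · have h2 : z.1 ∈ {y : E m | r₀ + 2 ≤ ‖y‖} := by
          show r₀ + 2 ≤ ‖z.1‖
          have := le_max_left (r₀ + 2) (|R| + 1)
          linarith
        rw [χ0 _ h2, zero_mul]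
      · have h2 : |R| + 1 ≤ ‖z.2‖ := by
          have := le_max_right (r₀ + 2) (|R| + 1)
          linarith
        have h3 : R ≤ (QQ F g z).2.2 := by
          show R ≤ ‖z.2‖ ^ 2
          have h4 := le_abs_self R
          have h5 := abs_nonneg R
          nlinarith
        rw [hR s _ h3, mul_zero]
  obtain ⟨Φ, Φ', hΦ⟩ := exists_cflow h.mfd.sub h.mfd.closed h.proj hH hs
  have hI := cflow_hamIso h.mfd.sub h.proj hH hs hΦ
  have key : ∀ (b : ℝ → E m), NG N Pr F g b → ∀ t s : ℝ, |s| ≤ 1 →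
      Φ s (b t, 0) = ph b (Z s t) := fun b hb t s hs => fin_key h hZ hr₀ χ1 hΦ hb t s hs
  refine ⟨Φ, Φ', _, hI, ?_, ?_, K, hZ.smooth, ?_⟩
  · apply Subset.antisymm
    · rintro _ ⟨⟨q, p⟩, ⟨hq, hp⟩, rfl⟩
      have hq' : q ∈ N := hq
      have hp' : p = 0 := hp
      subst hp'
      obtain ⟨b, hb, hbq⟩ := exists_ng h hq'
      rw [← hbq, key b hb _ 1 (by norm_num)]
      obtain ⟨u, hu⟩ := hZ.into (Real.arccos (F q))
      obtain ⟨b', hb', hbb⟩ := ph_change hb hu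
      rw [← hbb]
      have h1 : γ₀ u ∈ Prof c S := by rw [← hγ]; exact mem_range_self u
      rw [prof_indep h hL hM hc hb'] at h1
      exact h1
    · intro y hy
      obtain ⟨b, w, hb, hyw⟩ := (mem_MF_iff h).1 (hM hy)
      have h1 : w ∈ Prof b S := by
        show ph b w ∈ S
        rw [← hyw]
        exact hy
      rw [prof_indep h hL hM hb hc, ← hγ] at h1
      obtain ⟨u, hu⟩ := h1
      obtain ⟨t, ht⟩ := hZ.onto u
      rw [hu] at ht
      obtain ⟨b', hb', hbb⟩ := ph_change hb ht.symm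
      refine ⟨(b' t, 0), ⟨hb'.mem t, rfl⟩, ?_⟩
      rw [key b' hb' t 1 (by norm_num), hbb, ← hyw]
  · rintro s hs _ ⟨⟨q, p⟩, ⟨hq, hp⟩, rfl⟩
    have hq' : q ∈ N := hq
    have hp' : p = 0 := hp
    subst hp'
    obtain ⟨b, hb, hbq⟩ := exists_ng h hq'
    rw [← hbq, key b hb _ s (by rw [abs_of_nonneg hs.1]; exact hs.2)]
    exact ph_mem_MF h hb _
  · intro s z hz
    have h1 : z.1 ∈ Metric.closedBall (0 : E m) (r₀ + 1) := by
      have h2 := hr₀ hz.1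
      rw [Metric.mem_closedBall, dist_zero_right] at h2 ⊢
      linarith
    show χ z.1 * K s (QQ F g z) = K s (QQ F g z)
    rw [χ1 _ h1, one_mul]

end Pool.Agent.H73.CO
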