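import Pool.Agent.H73.CO.DefsE
import Pool.Agent.H2.TI.ICpt

/-!
# Module GEqv: Hamiltonian isotopies of invariant functions are equivariant (about 120 lines)

PROOF of `ham_equiv`. Fix `z ∈ TN N`. `act a` maps `TN N` to `TN N` (`a` linear, `a N ⊆ N`: a curve in `N` is mapped to a curve in `N`) and `Tan (TN N) w` to `Tan (TN N) (act a w)`; the same for `b`. `y s = Ψ' s (act a (Ψ s z)) ∈ TN N`, smooth in `s`; `Ψ s (y s) = act a (Ψ s z)` (`diffeo`).
So `y' s ∈ Tan (TN N) (y s)` (curve in `TN N`). Differentiate `Ψ s (y s) = act a (Ψ s z)` (joint smoothness of `Ψ`): `X₁ + fderiv ℝ (Ψ s) (y s) (y' s) = act a X₂`, where `X₁`, `X₂` are the vectors of `ham` at `y s` and at `z`. `om (act a X₂) v = om X₂ (act b v)` (`a` is an isometry with inverse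
`b`: `⟪a x, y⟫ = ⟪x, b y⟫`) `= -fderiv ℝ (H s) (Ψ s z) (act b v) = -fderiv ℝ (H s) (act a (Ψ s z)) v` for `v ∈ Tan (TN N) (act a (Ψ s z))`: take a curve `κ` in `TN N` with velocity `v`; `H s (κ τ) = H s (act b (κ τ))` (`hinv` at `act b (κ τ)`), differentiate at `0`. So `om (X₁ - act a X₂) v = 0` for all tangent `v`:
`X₁ = act a X₂` (`om_nondeg`, `IsSubmfd.tan_sub`). Hence `fderiv ℝ (Ψ s) (y s) (y' s) = 0`. Since `Ψ' s (Ψ s x) = x` for `x ∈ TN N`: along a curve in `TN N` with velocity `ζ`: `fderiv ℝ (Ψ' s) (Ψ s (y s)) (fderiv ℝ (Ψ s) (y s) ζ) = ζ`, so `y' s = 0` for all `s`; `y s = y 0 = Ψ' 0 (act a z) = act a z` (`zero`, `diffeo`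
at `s = 0`: `Ψ' 0 w = Ψ' 0 (Ψ 0 w) = w`). So `Ψ s (act a z) = Ψ s (y s) = act a (Ψ s z)`. (`om_nondeg`, `xh_tan` etc. are in `H2/TI`.)
PROOF of `QQ_act`. `F (a q) = F q` and `‖a p‖ = ‖p‖`. `g (a q) = a (g q)` for `q ∈ N`: both are in `Tan N (a q)`; for `v ∈ Tan N (a q)` with curve `κ`: `F (b (κ s)) = F (κ s)`, and by `hF.grad` (`IsDifferential`, along the curves, as in `TD.dF` of module Bas) the derivatives at `0` are `⟪g q, b v⟫` and `⟪g (a q), v⟫`, and
`⟪g q, b v⟫ = ⟪a (g q), v⟫`. Take `v = g (a q) - a (g q)` (`IsSubmfd.tan_sub`). Then `⟪a p, g (a q)⟫ = ⟪a p, a (g q)⟫ = ⟪p, g q⟫`. 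
-/

set_option autoImplicit false

open scoped ContDiff Topology RealInnerProductSpace
open Set Filter

namespace Pool.Agent.H73.CO

open Pool.Agent.H57.NL Pool.Agent.H2.TG Pool.Agent.H2.TI

variable {m n : ℕ} {N : Set (E m)} {Pr : E m → (E m →L[ℝ] E m)} {F : E m → ℝ}
  {g : E m → E m}

private lemma geqv_inner {a b : E m →L[ℝ] E m} (hab : a * b = 1) (hi : ∀ x, ‖a x‖ = ‖x‖)
    (x y : E m) : ⟪a x, y⟫ = ⟪x, b y⟫ := by
  have h1 : a (b y) = y := by
    have := congrArg (fun c : E m →L[ℝ] E m => c y) hab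
    simpa using this
  have h2 : ∀ u v : E m, ⟪a u, a v⟫ = ⟪u, v⟫ := fun u v =>
    LinearIsometry.inner_map_map (⟨a.toLinearMap, hi⟩ : E m →ₗᵢ[ℝ] E m) u v
  calc ⟪a x, y⟫ = ⟪a x, a (b y)⟫ := by rw [h1]
    _ = ⟪x, b y⟫ := h2 x (b y)

private lemma geqv_left {a b : E m →L[ℝ] E m} (hba : b * a = 1) (x : E m) : b (a x) = x := by
  have := congrArg (fun c : E m →L[ℝ] E m => c x) hba
  simpa using this

private lemma geqv_act {a b : E m →L[ℝ] E m} (hba : b * a = 1) (z : E m × E m) :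
    act b (act a z) = z := by
  unfold act
  rw [geqv_left hba, geqv_left hba]

private lemma geqv_tan {a : E m →L[ℝ] E m} (ha : ∀ q ∈ N, a q ∈ N) {q v : E m}
    (hv : v ∈ Tan N q) : a v ∈ Tan N (a q) := by
  obtain ⟨γ, h0, hS, hd⟩ := hv
  refine ⟨fun s => a (γ s), by simp only [h0], ?_, ?_⟩
  · filter_upwards [hS] with s hs
    exact ha _ hs
  · exact a.hasFDerivAt.comp_hasDerivAt (0 : ℝ) hd

private lemma geqv_mem {a : E m →L[ℝ] E m} (ha : ∀ q ∈ N, a q ∈ N) {z : E m × E m}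
    (hz : z ∈ TN N) : act a z ∈ TN N :=
  ⟨ha _ hz.1, geqv_tan ha hz.2⟩

private lemma geqv_der {a : E m →L[ℝ] E m} {κ : ℝ → E m × E m} {v : E m × E m} {t : ℝ}
    (hd : HasDerivAt κ v t) : HasDerivAt (fun s => act a (κ s)) (act a v) t := by
  have h1 : HasDerivAt (fun s => a (κ s).1) (a v.1) t :=
    a.hasFDerivAt.comp_hasDerivAt t hd.fst
  have h2 : HasDerivAt (fun s => a (κ s).2) (a v.2) t :=
    a.hasFDerivAt.comp_hasDerivAt t hd.snd
  exact h1.prodMk h2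

private lemma geqv_tanT {a : E m →L[ℝ] E m} (ha : ∀ q ∈ N, a q ∈ N) {z v : E m × E m}
    (hv : v ∈ Tan (TN N) z) : act a v ∈ Tan (TN N) (act a z) := by
  obtain ⟨κ, h0, hS, hd⟩ := hv
  refine ⟨fun s => act a (κ s), by simp only [h0], ?_, geqv_der hd⟩
  filter_upwards [hS] with s hs
  exact geqv_mem ha hs

private lemma geqv_om {a b : E m →L[ℝ] E m} (hab : a * b = 1) (hi : ∀ x, ‖a x‖ = ‖x‖)
    (X v : E m × E m) : om (act a X) v = om X (act b v) := by
  unfold om act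
  rw [geqv_inner hab hi, real_inner_comm (a X.1) v.2, geqv_inner hab hi,
    real_inner_comm (b v.2) X.1]

private lemma geqv_H {H : E m × E m → ℝ} (hH : Differentiable ℝ H) {a b : E m →L[ℝ] E m}
    (hab : a * b = 1) (hba : b * a = 1) (hb : ∀ q ∈ N, b q ∈ N)
    (hinv : ∀ z ∈ TN N, H (act a z) = H z) {w v : E m × E m}
    (hv : v ∈ Tan (TN N) (act a w)) : fderiv ℝ H (act a w) v = fderiv ℝ H w (act b v) := by
  obtain ⟨κ, h0, hS, hd⟩ := hv
  have h1 : HasDerivAt (fun s => H (κ s)) (fderiv ℝ H (κ 0) v) 0 :=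
    ((hH (κ 0)).hasFDerivAt).comp_hasDerivAt (0 : ℝ) hd
  have h2 : HasDerivAt (fun s => H (act b (κ s))) (fderiv ℝ H (act b (κ 0)) (act b v)) 0 :=
    ((hH (act b (κ 0))).hasFDerivAt).comp_hasDerivAt (0 : ℝ) (geqv_der hd)
  have h3 : (fun s => H (κ s)) =ᶠ[𝓝 0] fun s => H (act b (κ s)) := by
    filter_upwards [hS] with s hs
    have := hinv (act b (κ s)) (geqv_mem hb hs)
    rw [geqv_act hab] at this
    exact this
  have h4 := (h2.congr_of_eventuallyEq h3).unique h1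
  rw [h0, geqv_act hba] at h4
  exact h4.symm

private lemma geqv_inj {Ψ Ψ' : E m × E m → E m × E m} (h1 : Differentiable ℝ Ψ)
    (h2 : Differentiable ℝ Ψ') (hl : ∀ z ∈ TN N, Ψ' (Ψ z) = z) {w ζ : E m × E m}
    (hζ : ζ ∈ Tan (TN N) w) (h0 : fderiv ℝ Ψ w ζ = 0) : ζ = 0 := by
  obtain ⟨κ, k0, hS, hd⟩ := hζ
  have h3 : HasDerivAt (fun s => Ψ (κ s)) (fderiv ℝ Ψ (κ 0) ζ) 0 :=
    ((h1 (κ 0)).hasFDerivAt).comp_hasDerivAt (0 : ℝ) hd
  rw [k0, h0] at h3
  have h4 : HasDerivAt (fun s => Ψ' (Ψ (κ s))) (fderiv ℝ Ψ' (Ψ (κ 0)) 0) 0 :=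
    ((h2 (Ψ (κ 0))).hasFDerivAt).comp_hasDerivAt (0 : ℝ) h3
  have h5 : κ =ᶠ[𝓝 0] fun s => Ψ' (Ψ (κ s)) := by
    filter_upwards [hS] with s hs
    exact (hl _ hs).symm
  have h6 := (h4.congr_of_eventuallyEq h5).unique hd
  rw [map_zero] at h6
  exact h6.symm

theorem ham_equiv (hN : IsSubmfd n N) (hPr : ProjN N Pr) {Ψ Ψ' : ℝ → E m × E m → E m × E m}
    {H : ℝ → E m × E m → ℝ} (hH : HamIso N Ψ Ψ' H) {a b : E m →L[ℝ] E m} (hab : a * b = 1)
    (hba : b * a = 1) (hi : ∀ x, ‖a x‖ = ‖x‖) (ha : ∀ q ∈ N, a q ∈ N) (hb : ∀ q ∈ N, b q ∈ N)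
    (hinv : ∀ s, ∀ z ∈ TN N, H s (act a z) = H s z) (s : ℝ) {z : E m × E m} (hz : z ∈ TN N) :
    Ψ s (act a z) = act a (Ψ s z) := by
  have hsm : ∀ t, ContDiff ℝ ∞ (Ψ t) := fun t =>
    hH.smooth.comp (contDiff_const.prodMk contDiff_id)
  have hsm' : ∀ t, ContDiff ℝ ∞ (Ψ' t) := fun t =>
    hH.smooth'.comp (contDiff_const.prodMk contDiff_id)
  have hsH : ∀ t, ContDiff ℝ ∞ (H t) := fun t =>
    hH.smoothH.comp (contDiff_const.prodMk contDiff_id)
  set y : ℝ → E m × E m := fun t => Ψ' t (act a (Ψ t z)) with hy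
  have hyT : ∀ t, y t ∈ TN N := fun t =>
    (hH.diffeo t).maps' _ (geqv_mem ha ((hH.diffeo t).maps z hz))
  have hΨy : ∀ t, Ψ t (y t) = act a (Ψ t z) := fun t =>
    (hH.diffeo t).right _ (geqv_mem ha ((hH.diffeo t).maps z hz))
  have hsz : ContDiff ℝ ∞ fun t => Ψ t z :=
    hH.smooth.comp (contDiff_id.prodMk contDiff_const)
  have hact : ContDiff ℝ ∞ (act a) := by
    unfold act
    exact (a.contDiff.comp contDiff_fst).prodMk (a.contDiff.comp contDiff_snd)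
  have hys : ContDiff ℝ ∞ y :=
    hH.smooth'.comp (contDiff_id.prodMk (hact.comp hsz))
  have hyd : ∀ t, HasDerivAt y (deriv y t) t := fun t =>
    ((hys.differentiable (by simp)) t).hasDerivAt
  have hyTan : ∀ t, deriv y t ∈ Tan (TN N) (y t) := by
    intro t
    have hsh : HasDerivAt (fun r : ℝ => t + r) 1 0 := by
      simpa using (hasDerivAt_id (0 : ℝ)).const_add t
    refine ⟨fun r => y (t + r), by simp, Eventually.of_forall fun r => hyT _, ?_⟩
    have hd' : HasDerivAt y (deriv y t) ((fun r : ℝ => t + r) 0) := by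
      simpa using hyd t
    have := hd'.scomp (0 : ℝ) hsh
    rw [one_smul] at this
    exact this
  have hy0 : ∀ t, deriv y t = 0 := by
    intro t
    obtain ⟨X₁, hX₁, hd₁, ho₁⟩ := hH.ham t (y t) (hyT t)
    obtain ⟨X₂, hX₂, hd₂, ho₂⟩ := hH.ham t z hz
    -- the derivative of `Ψ t (y t)`
    have hJ := ((hH.smooth.differentiable (by simp)) (t, y t)).hasFDerivAt
    have e1 : HasDerivAt (fun r => Ψ r (y r))
        (fderiv ℝ (fun x : ℝ × (E m × E m) => Ψ x.1 x.2) (t, y t) (1, deriv y t)) t := by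
      have g0 : HasDerivAt (fun r : ℝ => (r, y r)) (1, deriv y t) t :=
        (hasDerivAt_id t).prodMk (hyd t)
      have hJ' : HasFDerivAt (fun x : ℝ × (E m × E m) => Ψ x.1 x.2)
          (fderiv ℝ (fun x : ℝ × (E m × E m) => Ψ x.1 x.2) (t, y t))
          ((fun r : ℝ => (r, y r)) t) := hJ
      exact hJ'.comp_hasDerivAt t g0
    have e2 : HasDerivAt (fun r => Ψ r (y t))
        (fderiv ℝ (fun x : ℝ × (E m × E m) => Ψ x.1 x.2) (t, y t) (1, 0)) t := by
      have g0 : HasDerivAt (fun r : ℝ => (r, y t)) (1, 0) t :=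
        (hasDerivAt_id t).prodMk (hasDerivAt_const t (y t))
      have hJ' : HasFDerivAt (fun x : ℝ × (E m × E m) => Ψ x.1 x.2)
          (fderiv ℝ (fun x : ℝ × (E m × E m) => Ψ x.1 x.2) (t, y t))
          ((fun r : ℝ => (r, y t)) t) := hJ
      exact hJ'.comp_hasDerivAt t g0
    have e3 : fderiv ℝ (Ψ t) (y t) (deriv y t) =
        fderiv ℝ (fun x : ℝ × (E m × E m) => Ψ x.1 x.2) (t, y t) (0, deriv y t) := by
      have g1 : HasFDerivAt (fun w : E m × E m => (t, w))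
          (ContinuousLinearMap.inr ℝ ℝ (E m × E m)) (y t) := by
        have := (hasFDerivAt_const t (y t)).prodMk (hasFDerivAt_id (𝕜 := ℝ) (y t))
        exact this
      have g2 : HasFDerivAt (Ψ t)
          ((fderiv ℝ (fun x : ℝ × (E m × E m) => Ψ x.1 x.2) (t, y t)).comp
            (ContinuousLinearMap.inr ℝ ℝ (E m × E m))) (y t) :=
        HasFDerivAt.comp (y t) (f := fun w : E m × E m => (t, w))
          (g := fun x : ℝ × (E m × E m) => Ψ x.1 x.2) hJ g1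
      rw [g2.fderiv]
      simp
    have e4 : X₁ + fderiv ℝ (Ψ t) (y t) (deriv y t) = act a X₂ := by
      have g1 := hd₁.unique e2
      rw [g1, e3, ← map_add]
      have g2 : ((1 : ℝ), (0 : E m × E m)) + (0, deriv y t) = (1, deriv y t) := by simp
      rw [g2]
      have g3 : (fun r => Ψ r (y r)) = fun r => act a (Ψ r z) := funext hΨy
      rw [g3] at e1
      exact e1.unique (geqv_der hd₂)
    have hX₂' : act a X₂ ∈ Tan (TN N) (Ψ t (y t)) := by
      rw [hΨy t]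
      exact geqv_tanT ha hX₂
    have hΨT : Ψ t (y t) ∈ TN N := (hH.diffeo t).maps _ (hyT t)
    have key : X₁ - act a X₂ = 0 := by
      refine om_nondeg hN hPr hΨT ((TN_submfd hN).tan_sub hΨT hX₁ hX₂') ?_
      intro v hv
      have q1 := ho₁ v hv
      have hv' : v ∈ Tan (TN N) (act a (Ψ t z)) := by
        rw [← hΨy t]
        exact hv
      have hv2 : act b v ∈ Tan (TN N) (Ψ t z) := by
        have := geqv_tanT hb hv'
        rwa [geqv_act hba] at this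
      have q2 := ho₂ _ hv2
      have q3 := geqv_H ((hsH t).differentiable (by simp)) hab hba hb (hinv t) hv'
      rw [hΨy t, q3] at q1
      have q4 := geqv_om hab hi X₂ v
      have q5 : om (X₁ - act a X₂) v = om X₁ v - om (act a X₂) v := by
        unfold om
        simp only [Prod.fst_sub, Prod.snd_sub, inner_sub_left, inner_sub_right]
        ring
      rw [q5, q4, q1, q2]
      ring
    have e5 : fderiv ℝ (Ψ t) (y t) (deriv y t) = 0 := by
      have g1 : X₁ = act a X₂ := sub_eq_zero.1 key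
      rw [g1] at e4
      exact add_eq_left.1 e4
    exact geqv_inj ((hsm t).differentiable (by simp)) ((hsm' t).differentiable (by simp))
      (hH.diffeo t).left (hyTan t) e5
  have hconst : y s = y 0 :=
    is_const_of_deriv_eq_zero (hys.differentiable (by simp)) hy0 s 0
  have hyz : y 0 = act a z := by
    have g1 : act a z ∈ TN N := geqv_mem ha hz
    have g2 := (hH.diffeo 0).left _ g1
    rw [hH.zero _ g1] at g2
    rw [hy]
    simp only
    rw [hH.zero z hz, g2]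
  rw [← hyz, ← hconst]
  exact hΨy s

private lemma geqv_dF (hgr : IsDifferential N F g) {γ : ℝ → E m} {v : E m} (hq : γ 0 ∈ N)
    (hS : ∀ᶠ s in 𝓝 (0 : ℝ), γ s ∈ N) (hd : HasDerivAt γ v 0) :
    HasDerivAt (fun s => F (γ s)) ⟪g (γ 0), v⟫ 0 := by
  have hT : Tendsto γ (𝓝 0) (𝓝[N] (γ 0)) := tendsto_nhdsWithin_iff.2 ⟨hd.continuousAt, hS⟩
  have o1 : (fun s => F (γ s) - F (γ 0) - ⟪g (γ 0), γ s - γ 0⟫) =o[𝓝 0]
      fun s => γ s - γ 0 := (hgr (γ 0) hq).comp_tendsto hT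
  have o2 : (fun s => γ s - γ 0) =O[𝓝 0] fun s : ℝ => s - 0 := hd.hasFDerivAt.isBigO_sub
  have o3 := o1.trans_isBigO o2
  have h3 : HasDerivAt (fun s => F (γ s) - ⟪g (γ 0), γ s - γ 0⟫) 0 0 := by
    rw [hasDerivAt_iff_isLittleO]
    refine o3.congr_left fun s => ?_
    simp only [sub_self, inner_zero_right, sub_zero, smul_zero]
    ring
  have h4 : HasDerivAt (fun s => ⟪g (γ 0), γ s - γ 0⟫) ⟪g (γ 0), v⟫ 0 := by
    exact (innerSL ℝ (g (γ 0))).hasFDerivAt.comp_hasDerivAt (0 : ℝ) (hd.sub_const (γ 0))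
  have h6 := h3.add h4
  have e : (fun s => F (γ s)) = (fun s => F (γ s) - ⟪g (γ 0), γ s - γ 0⟫) +
      fun s => ⟪g (γ 0), γ s - γ 0⟫ := by
    funext s
    simp
  rw [e]
  simpa using h6

private lemma geqv_g (hN : IsSubmfd n N) (hF : Transnormal N F g) {a b : E m →L[ℝ] E m}
    (hab : a * b = 1) (hba : b * a = 1) (hi : ∀ x, ‖a x‖ = ‖x‖) (ha : ∀ q ∈ N, a q ∈ N)
    (hb : ∀ q ∈ N, b q ∈ N) (hinv : ∀ q ∈ N, F (a q) = F q) {q : E m} (hq : q ∈ N) :
    g (a q) = a (g q) := by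
  have haq := ha q hq
  have h1 : g (a q) ∈ Tan N (a q) := hF.tan _ haq
  have h2 : a (g q) ∈ Tan N (a q) := geqv_tan ha (hF.tan q hq)
  refine tan_unique hN haq h1 h2 ?_
  intro v hv
  obtain ⟨κ, k0, hS, hd⟩ := hv
  have e1 := geqv_dF hF.grad (by rw [k0]; exact haq) hS hd
  have hd2 : HasDerivAt (fun s => b (κ s)) (b v) 0 := b.hasFDerivAt.comp_hasDerivAt (0 : ℝ) hd
  have hS2 : ∀ᶠ s in 𝓝 (0 : ℝ), b (κ s) ∈ N := by
    filter_upwards [hS] with s hs
    exact hb _ hs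
  have hk : b (κ 0) = q := by rw [k0]; exact geqv_left hba q
  have e2 := geqv_dF hF.grad (γ := fun s => b (κ s)) (by simp only [hk]; exact hq) hS2 hd2
  simp only [hk] at e2
  rw [k0] at e1
  have e3 : (fun s => F (κ s)) =ᶠ[𝓝 0] fun s => F (b (κ s)) := by
    filter_upwards [hS] with s hs
    have := hinv (b (κ s)) (hb _ hs)
    rw [geqv_left hab] at this
    exact this
  have e4 := (e2.congr_of_eventuallyEq e3).unique e1
  rw [← e4, geqv_inner hab hi]

theorem QQ_act (hN : IsSubmfd n N) (hF : Transnormal N F g) {a b : E m →L[ℝ] E m}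
    (hab : a * b = 1) (hba : b * a = 1) (hi : ∀ x, ‖a x‖ = ‖x‖) (ha : ∀ q ∈ N, a q ∈ N)
    (hb : ∀ q ∈ N, b q ∈ N) (hinv : ∀ q ∈ N, F (a q) = F q) {z : E m × E m} (hz : z ∈ TN N) :
    QQ F g (act a z) = QQ F g z := by
  have h1 := geqv_g hN hF hab hba hi ha hb hinv hz.1
  unfold QQ act
  simp only
  rw [hinv _ hz.1, h1, hi, geqv_inner hab hi, geqv_left hba]

end Pool.Agent.H73.CO
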