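import Pool.Agent.H73.CO.DefsE

/-!
# Module GKey: one parameter groups in a closed group (about 100 lines)

PROOF of `exp_mem`. Put `u k = a k - 1`, so `c k • u k → A`, `u k → 0`. First `t ≥ 0`. `j k = ⌊t * c k⌋₊`: `j k / c k → t` (`tendsto_nat_floor_mul_div_atTop` or by hand: `t c k - 1 < j k ≤ t c k`), so
`(j k : ℝ) • u k → t • A` and `(j k : ℝ) * ‖u k‖` is bounded, `j k * ‖u k‖² → 0`. Claim: `(a k)^(j k) - exp ((j k : ℝ) • u k) → 0`. Telescoping: for `‖x‖ ≤ 1`, `1 ≤ M`, `‖y‖ ≤ M`: `‖x^j - y^j‖ ≤ j * M^j * ‖x - y‖` (induction: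
`x^(j+1) - y^(j+1) = x (x^j - y^j) + (x - y) y^j`). Here `x = a k` (`‖a k‖ ≤ 1` by `isom`), `y = exp (u k)`, `M = Real.exp ‖u k‖`, `y^j = exp (j • u k)` (`NormedSpace.exp_nsmul`), `M^j = Real.exp (j ‖u k‖)` is bounded, and
`‖a k - exp (u k)‖ = ‖exp (u k) - 1 - u k‖ = o(‖u k‖)` (`hasStrictFDerivAt_exp_zero` / `hasFDerivAt_exp_zero`), so `j k * ‖a k - exp (u k)‖ → 0`. So `(a k)^(j k) → exp (t • A)` (continuity of `exp`), and the powers are in `G`; `closed`.
`t < 0`: the inverse of `exp (-t • A)` is `exp (t • A)` (`NormedSpace.exp_add_of_commute`); `inv`.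
`exp_deriv`: `hasDerivAt_exp_smul_const` (or `..'`), applied to `x`. `exp_skew`: differentiate `‖exp (t • A) x‖² = ‖x‖²` at `0`. 
-/

set_option autoImplicit false

open scoped ContDiff Topology RealInnerProductSpace
open Set Filter

namespace Pool.Agent.H73.CO

open Pool.Agent.H57.NL Pool.Agent.H2.TG Pool.Agent.H2.TI

variable {m n : ℕ} {N : Set (E m)} {Pr : E m → (E m →L[ℝ] E m)} {F : E m → ℝ}
  {g : E m → E m}

private lemma GKey_tele {x y : E m →L[ℝ] E m} {M : ℝ} (hx : ‖x‖ ≤ 1) (j : ℕ)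
    (hy : ∀ i < j, ‖y ^ i‖ ≤ M) : ‖x ^ j - y ^ j‖ ≤ j * (M * ‖x - y‖) := by
  induction j with
  | zero => simp
  | succ j ih =>
    have h1 := ih fun i hi => hy i (by omega)
    have h2 : x ^ (j + 1) - y ^ (j + 1) = x * (x ^ j - y ^ j) + (x - y) * y ^ j := by
      rw [pow_succ' x, pow_succ' y, mul_sub, sub_mul]
      abel
    have h3 : ‖x * (x ^ j - y ^ j)‖ ≤ 1 * ‖x ^ j - y ^ j‖ :=
      (norm_mul_le _ _).trans (mul_le_mul_of_nonneg_right hx (norm_nonneg _))
    have h4 : ‖(x - y) * y ^ j‖ ≤ ‖x - y‖ * M :=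
      (norm_mul_le _ _).trans (mul_le_mul_of_nonneg_left (hy j (by omega)) (norm_nonneg _))
    rw [h2]
    refine (norm_add_le _ _).trans ?_
    push_cast
    linarith

private lemma GKey_pow {G : Set (E m →L[ℝ] E m)} (hG : RotG G) {x : E m →L[ℝ] E m} (hx : x ∈ G)
    (j : ℕ) : x ^ j ∈ G := by
  induction j with
  | zero => rw [pow_zero]; exact hG.one
  | succ j ih => rw [pow_succ]; exact hG.mul _ ih _ hx

private lemma GKey_cont : Continuous (NormedSpace.exp : (E m →L[ℝ] E m) → (E m →L[ℝ] E m)) := by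
  let _ : NormedAlgebra ℚ (E m →L[ℝ] E m) := .restrictScalars ℚ ℝ (E m →L[ℝ] E m)
  exact NormedSpace.exp_continuous

private lemma GKey_nsmul (j : ℕ) (x : E m →L[ℝ] E m) :
    NormedSpace.exp ((j : ℝ) • x) = NormedSpace.exp x ^ j := by
  let _ : NormedAlgebra ℚ (E m →L[ℝ] E m) := .restrictScalars ℚ ℝ (E m →L[ℝ] E m)
  have h1 : (j : ℝ) • x = j • x := Nat.cast_smul_eq_nsmul ℝ j x
  rw [h1]
  exact NormedSpace.exp_nsmul j x

private lemma GKey_add (s t : ℝ) (x : E m →L[ℝ] E m) :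
    NormedSpace.exp (s • x) * NormedSpace.exp (t • x) = NormedSpace.exp ((s + t) • x) := by
  let _ : NormedAlgebra ℚ (E m →L[ℝ] E m) := .restrictScalars ℚ ℝ (E m →L[ℝ] E m)
  have h1 : (s + t) • x = s • x + t • x := add_smul s t x
  have h2 : Commute (s • x) (t • x) := by
    change (s • x) * (t • x) = (t • x) * (s • x)
    refine ContinuousLinearMap.ext fun v => ?_
    change s • x (t • x v) = t • x (s • x v)
    rw [map_smul, map_smul, smul_comm]
  rw [h1]
  exact (NormedSpace.exp_add_of_commute h2).symm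

private lemma GKey_bound (B : ℝ) : ∃ M : ℝ, ∀ x : E m →L[ℝ] E m, ‖x‖ ≤ B → ‖NormedSpace.exp x‖ ≤ M := by
  have : ProperSpace (E m →L[ℝ] E m) := FiniteDimensional.proper_real _
  obtain ⟨M, hM⟩ := (isCompact_closedBall (0 : E m →L[ℝ] E m) B).exists_bound_of_continuousOn
    (GKey_cont (m := m)).continuousOn
  exact ⟨M, fun x hx => hM x (by rwa [mem_closedBall_zero_iff])⟩

private lemma GKey_floor {c : ℕ → ℝ} (hc : Tendsto c atTop atTop) {t : ℝ} (ht : 0 ≤ t) :
    Tendsto (fun k => (⌊t * c k⌋₊ : ℝ) / c k) atTop (𝓝 t) :=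
  (tendsto_nat_floor_mul_div_atTop ht).comp hc

private lemma GKey_nonneg {G : Set (E m →L[ℝ] E m)} (hG : RotG G) {a : ℕ → (E m →L[ℝ] E m)}
    {c : ℕ → ℝ} {A : E m →L[ℝ] E m} (ha : ∀ k, a k ∈ G) (hc : Tendsto c atTop atTop)
    (hA : Tendsto (fun k => c k • (a k - 1)) atTop (𝓝 A)) {t : ℝ} (ht : 0 ≤ t) :
    NormedSpace.exp (t • A) ∈ G := by
  obtain ⟨j, hj⟩ : ∃ j : ℕ → ℕ, j = fun k => ⌊t * c k⌋₊ := ⟨_, rfl⟩
  obtain ⟨u, hu⟩ : ∃ u : ℕ → (E m →L[ℝ] E m), u = fun k => a k - 1 := ⟨_, rfl⟩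
  have hjc : Tendsto (fun k => (j k : ℝ) / c k) atTop (𝓝 t) := by
    rw [hj]
    exact GKey_floor hc ht
  have hA' : Tendsto (fun k => c k • u k) atTop (𝓝 A) := by
    rw [hu]
    exact hA
  have hc0 : ∀ᶠ k in atTop, c k ≠ 0 := (hc.eventually_gt_atTop 0).mono fun k hk => hk.ne'
  have hju : Tendsto (fun k => (j k : ℝ) • u k) atTop (𝓝 (t • A)) := by
    refine (hjc.smul hA').congr' ?_
    filter_upwards [hc0] with k hk
    rw [smul_smul, div_mul_cancel₀ _ hk]
  have hu0 : Tendsto u atTop (𝓝 0) := by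
    have h1 : Tendsto (fun k => (c k)⁻¹) atTop (𝓝 0) := tendsto_inv_atTop_zero.comp hc
    have h2 := h1.smul hA'
    have h3 : (0 : ℝ) • A = 0 := zero_smul ℝ A
    rw [h3] at h2
    refine h2.congr' ?_
    filter_upwards [hc0] with k hk
    rw [smul_smul, inv_mul_cancel₀ hk, one_smul]
  -- bound for the multiples
  obtain ⟨B, hB⟩ := hju.norm.bddAbove_range
  have hB' : ∀ k, (j k : ℝ) * ‖u k‖ ≤ B := fun k => by
    have h1 := hB (mem_range_self k)
    rwa [norm_smul, Real.norm_natCast] at h1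
  obtain ⟨M, hM⟩ := GKey_bound (m := m) B
  have hpow : ∀ k, ∀ i < j k, ‖NormedSpace.exp (u k) ^ i‖ ≤ M := by
    intro k i hi
    rw [← GKey_nsmul]
    refine hM _ ?_
    rw [norm_smul, Real.norm_natCast]
    have h1 : (i : ℝ) ≤ j k := by exact_mod_cast hi.le
    exact (mul_le_mul_of_nonneg_right h1 (norm_nonneg _)).trans (hB' k)
  have hnorm : ∀ k, ‖a k‖ ≤ 1 := fun k =>
    ContinuousLinearMap.opNorm_le_bound _ zero_le_one fun x => by
      rw [hG.isom _ (ha k), one_mul]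
  have hlit : Tendsto (fun k => (j k : ℝ) * ‖a k - NormedSpace.exp (u k)‖) atTop (𝓝 0) := by
    have h1 : HasFDerivAt (NormedSpace.exp : (E m →L[ℝ] E m) → (E m →L[ℝ] E m))
        (1 : (E m →L[ℝ] E m) →L[ℝ] (E m →L[ℝ] E m)) 0 := hasFDerivAt_exp_zero
    have h2 := (hasFDerivAt_iff_isLittleO_nhds_zero.1 h1).comp_tendsto hu0
    have h3 : (fun k => a k - NormedSpace.exp (u k)) =o[atTop] u := by
      have h4 : (fun k => a k - NormedSpace.exp (u k)) = fun k => -((fun h => NormedSpace.exp (0 + h) -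
          NormedSpace.exp 0 - (1 : (E m →L[ℝ] E m) →L[ℝ] (E m →L[ℝ] E m)) h) (u k)) := by
        funext k
        have h5 : u k = a k - 1 := by rw [hu]
        have h6 : a k = 1 + u k := by rw [h5, add_sub_cancel]
        have h7 : (1 : (E m →L[ℝ] E m) →L[ℝ] (E m →L[ℝ] E m)) (u k) = u k := rfl
        simp only [zero_add, NormedSpace.exp_zero, h7]
        rw [h6, neg_sub, sub_sub_eq_add_sub, add_comm (u k) 1]
      rw [h4]
      exact h2.neg_left
    have h5 : (fun k => (j k : ℝ) * ‖a k - NormedSpace.exp (u k)‖) =o[atTop]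
        fun k => (j k : ℝ) * ‖u k‖ :=
      (Asymptotics.isBigO_refl (fun k => (j k : ℝ)) atTop).mul_isLittleO h3.norm_norm
    have h6 : (fun k => (j k : ℝ) * ‖u k‖) =O[atTop] fun _ => (1 : ℝ) := by
      have h7 : (fun k => (j k : ℝ) * ‖u k‖) = fun k => ‖(j k : ℝ) • u k‖ := by
        funext k
        rw [norm_smul, Real.norm_natCast]
      rw [h7]
      exact hju.norm.isBigO_one ℝ
    exact (Asymptotics.isLittleO_one_iff ℝ).1 (h5.trans_isBigO h6)
  have hdiff : Tendsto (fun k => a k ^ j k - NormedSpace.exp (u k) ^ j k) atTop (𝓝 0) := by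
    have h1 : Tendsto (fun k => M * ((j k : ℝ) * ‖a k - NormedSpace.exp (u k)‖)) atTop (𝓝 0) := by
      have := hlit.const_mul M
      rwa [mul_zero] at this
    refine squeeze_zero_norm (fun k => ?_) h1
    refine (GKey_tele (hnorm k) (j k) (hpow k)).trans (le_of_eq ?_)
    ring
  have hexp : Tendsto (fun k => NormedSpace.exp (u k) ^ j k) atTop
      (𝓝 (NormedSpace.exp (t • A))) := by
    refine (((GKey_cont (m := m)).tendsto (t • A)).comp hju).congr fun k => ?_
    exact GKey_nsmul (j k) (u k)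
  have hlim : Tendsto (fun k => a k ^ j k) atTop (𝓝 (NormedSpace.exp (t • A))) := by
    have := hdiff.add hexp
    rw [zero_add] at this
    refine this.congr fun k => ?_
    abel
  exact hG.closed.mem_of_tendsto hlim (Eventually.of_forall fun k => GKey_pow hG (ha k) (j k))

theorem exp_mem {G : Set (E m →L[ℝ] E m)} (hG : RotG G) {a : ℕ → (E m →L[ℝ] E m)} {c : ℕ → ℝ}
    {A : E m →L[ℝ] E m} (ha : ∀ k, a k ∈ G) (hc : Tendsto c atTop atTop)
    (hA : Tendsto (fun k => c k • (a k - 1)) atTop (𝓝 A)) (t : ℝ) :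
    NormedSpace.exp (t • A) ∈ G := by
  rcases le_total 0 t with ht | ht
  · exact GKey_nonneg hG ha hc hA ht
  · have h1 : NormedSpace.exp ((-t) • A) ∈ G := GKey_nonneg hG ha hc hA (neg_nonneg.2 ht)
    obtain ⟨b, hb, hb1, -⟩ := hG.inv _ h1
    have h2 : NormedSpace.exp (t • A) * NormedSpace.exp ((-t) • A) = 1 := by
      have h0 : (0 : ℝ) • A = 0 := zero_smul ℝ A
      rw [GKey_add, add_neg_cancel, h0, NormedSpace.exp_zero]
    have h3 : NormedSpace.exp (t • A) = b := by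
      calc NormedSpace.exp (t • A) = NormedSpace.exp (t • A) * (NormedSpace.exp ((-t) • A) * b) := by
            rw [hb1, mul_one]
        _ = b := by rw [← mul_assoc, h2, one_mul]
    rw [h3]
    exact hb

theorem exp_deriv (A : E m →L[ℝ] E m) (x : E m) (t : ℝ) :
    HasDerivAt (fun t : ℝ => NormedSpace.exp (t • A) x) (NormedSpace.exp (t • A) (A x)) t ∧
      NormedSpace.exp (t • A) (A x) = A (NormedSpace.exp (t • A) x) := by
  have h1 : HasDerivAt (fun u : ℝ => NormedSpace.exp (u • A)) (NormedSpace.exp (t • A) * A) t :=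
    hasDerivAt_exp_smul_const A t
  have h2 : HasDerivAt (fun u : ℝ => NormedSpace.exp (u • A)) (A * NormedSpace.exp (t • A)) t :=
    hasDerivAt_exp_smul_const' A t
  have h3 := h1.unique h2
  constructor
  · have h4 := h1.clm_apply (hasDerivAt_const t x)
    rw [map_zero, add_zero] at h4
    exact h4
  · exact congrArg (fun L : E m →L[ℝ] E m => L x) h3

end Pool.Agent.H73.CO
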