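import Pool.Agent.H73.CO.NgD
import Pool.Agent.H73.CO.DefsE

/-!
# Module GLev: moving a curve into a level (about 70 lines)

PROOF of `lt_of_curve`. `θ₀ = Real.arccos (F q)`. For every `s` with `γ s ∈ N` choose a normal geodesic `c_s` with `c_s (arccos (F (γ s))) = γ s` (`exists_ng`), `b_s = c_s θ₀ ∈ N`, `F b_s = cos θ₀ = F q` (`NG.lev`; `Real.cos_arccos` with `TD.abs_le`), and
`‖b_s - γ s‖ ≤ |θ₀ - arccos (F (γ s))|` (unit speed: `Convex.norm_image_sub_le_of_norm_deriv_le` on `univ`). Take `s = 1/(k+k₀+1)`, `k₀` large enough for `γ s ∈ N`. `s⁻¹ (b_s - q) = s⁻¹ (b_s - γ s) + s⁻¹ (γ s - γ 0)`: the first summand tends to `0` (`ho`), the second to `u` (`hd`). 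
-/

set_option autoImplicit false

open scoped ContDiff Topology RealInnerProductSpace
open Set Filter

namespace Pool.Agent.H73.CO

open Pool.Agent.H57.NL Pool.Agent.H2.TG Pool.Agent.H2.TI

variable {m n : ℕ} {N : Set (E m)} {Pr : E m → (E m →L[ℝ] E m)} {F : E m → ℝ}
  {g : E m → E m}

private theorem glev_ex (h : TD n N Pr F g) {q x : E m} (hq : q ∈ N) (hx : x ∈ N) :
    ∃ b ∈ N, F b = F q ∧ ‖b - x‖ ≤ |Real.arccos (F x) - Real.arccos (F q)| := by
  obtain ⟨c, hc, hcx⟩ := exists_ng h hx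
  refine ⟨c (Real.arccos (F q)), hc.mem _, ?_, ?_⟩
  · have hF := abs_le.1 (h.abs_le hq)
    rw [hc.lev, Real.cos_arccos hF.1 hF.2]
  · have h1 : ‖c (Real.arccos (F q)) - c (Real.arccos (F x))‖ ≤
        1 * ‖Real.arccos (F q) - Real.arccos (F x)‖ :=
      convex_univ.norm_image_sub_le_of_norm_deriv_le
        (fun t _ => (hc.smooth.differentiable (by simp)) t)
        (fun t _ => (hc.unit t).le) (mem_univ _) (mem_univ _)
    rw [hcx, one_mul, Real.norm_eq_abs, abs_sub_comm] at h1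
    exact h1

theorem lt_of_curve (h : TD n N Pr F g) {q u : E m} {γ : ℝ → E m} (h0 : γ 0 = q)
    (hγ : ∀ᶠ s in 𝓝 (0 : ℝ), γ s ∈ N) (hd : HasDerivAt γ u 0)
    (ho : (fun s => Real.arccos (F (γ s)) - Real.arccos (F q)) =o[𝓝 (0 : ℝ)] fun s => s) :
    u ∈ LT N F q := by
  have hq : q ∈ N := by
    have := hγ.self_of_nhds
    rwa [h0] at this
  obtain ⟨ε, hε, hb⟩ := Metric.eventually_nhds_iff.1 hγ
  have hs0 : Tendsto (fun k : ℕ => ε / 2 * (1 / ((k : ℝ) + 1))) atTop (𝓝 0) := by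
    have := tendsto_one_div_add_atTop_nhds_zero_nat (𝕜 := ℝ)
    simpa using this.const_mul (ε / 2)
  have hspos : ∀ k : ℕ, 0 < ε / 2 * (1 / ((k : ℝ) + 1)) := fun k => by positivity
  have hsN : ∀ k : ℕ, γ (ε / 2 * (1 / ((k : ℝ) + 1))) ∈ N := by
    intro k
    refine hb ?_
    rw [Real.dist_eq, sub_zero, abs_of_pos (hspos k)]
    have h1 : 1 / ((k : ℝ) + 1) ≤ 1 := by
      rw [div_le_one (by positivity)]
      have : (0 : ℝ) ≤ k := Nat.cast_nonneg k
      linarith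
    have h2 : ε / 2 * (1 / ((k : ℝ) + 1)) ≤ ε / 2 * 1 :=
      mul_le_mul_of_nonneg_left h1 (by linarith)
    linarith
  choose b hbN hbF hbd using fun k => glev_ex h hq (hsN k)
  refine ⟨b, fun k => ε / 2 * (1 / ((k : ℝ) + 1)), fun k => ⟨hbN k, hbF k, hspos k⟩, hs0, ?_⟩
  have h1 : Tendsto (fun k : ℕ => (ε / 2 * (1 / ((k : ℝ) + 1)))⁻¹ •
      (γ (ε / 2 * (1 / ((k : ℝ) + 1))) - q)) atTop (𝓝 u) := by
    have h2 := hasDerivAt_iff_tendsto_slope.1 hd
    have h3 : Tendsto (fun k : ℕ => ε / 2 * (1 / ((k : ℝ) + 1))) atTop (𝓝[≠] 0) :=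
      tendsto_nhdsWithin_iff.2 ⟨hs0, Eventually.of_forall fun k => (hspos k).ne'⟩
    have h4 := h2.comp h3
    refine h4.congr fun k => ?_
    simp only [Function.comp, slope_def_module, h0, sub_zero]
  have h5 : Tendsto (fun k : ℕ => (ε / 2 * (1 / ((k : ℝ) + 1)))⁻¹ •
      (b k - γ (ε / 2 * (1 / ((k : ℝ) + 1))))) atTop (𝓝 0) := by
    have h6 := (ho.comp_tendsto hs0).tendsto_div_nhds_zero
    have h7 : Tendsto (fun k : ℕ => |(Real.arccos (F (γ (ε / 2 * (1 / ((k : ℝ) + 1))))) -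
        Real.arccos (F q)) / (ε / 2 * (1 / ((k : ℝ) + 1)))|) atTop (𝓝 0) := by
      have := h6.abs
      rw [abs_zero] at this
      exact this
    refine squeeze_zero_norm (fun k => ?_) h7
    rw [norm_smul, norm_inv, Real.norm_of_nonneg (hspos k).le, abs_div, abs_of_pos (hspos k),
      ← div_eq_inv_mul]
    exact div_le_div_of_nonneg_right (hbd k) (hspos k).le
  have h8 := h5.add h1
  rw [zero_add] at h8
  refine h8.congr fun k => ?_
  rw [← smul_add]
  congr 1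
  abel

end Pool.Agent.H73.CO
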