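import Pool.Agent.H73.CO.GKey

/-!
# Module GMom: the moment map vanishes on invariant exact Lagrangians (about 80 lines)

PROOF of `mom_zero`. `z = (q, p)`, `e t = NormedSpace.exp (t • A)`, `z t = (e t q, e t p) ∈ S`, `z 0 = z`. `φ t = f (z t)` has derivative `⟪e t p, e t (A q)⟫` at `t` (`hL.prim` along the curve `z`, which lies in `S`, with derivative `(e t (A q), e t (A p))`, `exp_deriv`),
and this is `⟪p, A q⟫ =: μ`, as `e t` is a linear isometry (`isom`; `LinearMap.norm_map_iff_inner_map_map` or polarisation). So `φ t = φ 0 + t μ` (constant derivative of `φ t - t μ`). `S` is compact (closed; `N` is bounded by `closedMfd_compact`, `hL.subTN`, `hL.bdd`) and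
`f` is continuous on `S` (from `hL.prim`: `f y - f z = O(y - z)`), so `φ` is bounded; `μ = 0`. 
-/

set_option autoImplicit false

open scoped ContDiff Topology RealInnerProductSpace
open Set Filter

namespace Pool.Agent.H73.CO

open Pool.Agent.H57.NL Pool.Agent.H2.TG Pool.Agent.H2.TI

variable {m n : ℕ} {N : Set (E m)} {Pr : E m → (E m →L[ℝ] E m)} {F : E m → ℝ}
  {g : E m → E m}

private lemma GMom_compact (hN : ClosedMfd n N ⊥) {S : Set (E m × E m)} {f : E m × E m → ℝ}
    (hL : ExactLag n N ⊥ S f) : IsCompact S := by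
  obtain ⟨R₁, hR₁⟩ := hN.cocpt
  obtain ⟨R₂, hR₂⟩ := hL.bdd
  refine Metric.isCompact_of_isClosed_isBounded hL.closed ?_
  rw [isBounded_iff_forall_norm_le]
  refine ⟨max R₁ R₂, fun y hy => ?_⟩
  rw [Prod.norm_def]
  refine max_le_max ?_ (hR₂ y hy)
  obtain ⟨g, hg, h1⟩ := hR₁ y.1 (hL.subTN hy).1
  rw [AddSubgroup.mem_bot] at hg
  rwa [hg, add_zero] at h1

private lemma GMom_cont {S : Set (E m × E m)} {f : E m × E m → ℝ} (hf : IsPrimitive S f) :
    ContinuousOn f S := by
  intro y hy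
  have h2 : Tendsto (fun w : E m × E m => w - y) (𝓝[S] y) (𝓝 0) := by
    have h : Continuous fun w : E m × E m => w - y := continuous_id.sub continuous_const
    have := h.tendsto y
    rw [sub_self] at this
    exact this.mono_left nhdsWithin_le_nhds
  have h3 : Tendsto (fun w : E m × E m => f w - f y - ⟪y.2, w.1 - y.1⟫) (𝓝[S] y) (𝓝 0) :=
    (hf y hy).trans_tendsto h2
  have h4 : Tendsto (fun w : E m × E m => ⟪y.2, w.1 - y.1⟫) (𝓝[S] y) (𝓝 0) := by
    have h : Continuous fun w : E m × E m => ⟪y.2, w.1 - y.1⟫ := by fun_prop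
    have := h.tendsto y
    rw [sub_self, inner_zero_right] at this
    exact this.mono_left nhdsWithin_le_nhds
  have h5 := (h3.add h4).add_const (f y)
  rw [add_zero, zero_add] at h5
  refine h5.congr fun w => ?_
  ring

private lemma GMom_deriv {S : Set (E m × E m)} {f : E m × E m → ℝ} (hf : IsPrimitive S f)
    {c : ℝ → E m × E m} {v : E m × E m} {t : ℝ} (hc : HasDerivAt c v t) (hcS : ∀ s, c s ∈ S) :
    HasDerivAt (fun s => f (c s)) ⟪(c t).2, v.1⟫ t := by
  have h1 : Tendsto c (𝓝 t) (𝓝[S] (c t)) :=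
    tendsto_nhdsWithin_iff.2 ⟨hc.continuousAt.tendsto, Eventually.of_forall hcS⟩
  have h2 : (fun s => f (c s) - f (c t) - ⟪(c t).2, (c s).1 - (c t).1⟫) =o[𝓝 t] fun s => s - t :=
    ((hf (c t) (hcS t)).comp_tendsto h1).trans_isBigO hc.isBigO_sub
  have h3 : HasDerivAt (fun s => (c s).1) v.1 t := hc.fst
  have h4 : HasDerivAt (fun s => ⟪(c t).2, (c s).1⟫) ⟪(c t).2, v.1⟫ t := by
    have := (hasDerivAt_const t (c t).2).inner ℝ h3
    simpa using this
  rw [hasDerivAt_iff_isLittleO] at h4 ⊢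
  refine (h2.add h4).congr_left fun s => ?_
  rw [inner_sub_right]
  ring

theorem mom_zero (hN : ClosedMfd n N ⊥) {S : Set (E m × E m)} {f : E m × E m → ℝ}
    (hL : ExactLag n N ⊥ S f) {G : Set (E m →L[ℝ] E m)} (hG : RotG G)
    (hS : ∀ a ∈ G, ∀ z ∈ S, act a z ∈ S) {A : E m →L[ℝ] E m}
    (hA : ∀ t : ℝ, NormedSpace.exp (t • A) ∈ G) {z : E m × E m} (hz : z ∈ S) :
    ⟪z.2, A z.1⟫ = 0 := by
  set e : ℝ → (E m →L[ℝ] E m) := fun t => NormedSpace.exp (t • A) with he
  set μ : ℝ := ⟪z.2, A z.1⟫ with hμ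
  have hcS : ∀ t, act (e t) z ∈ S := fun t => hS _ (hA t) z hz
  have hd : ∀ t, HasDerivAt (fun s => act (e s) z) (e t (A z.1), e t (A z.2)) t := fun t =>
    (exp_deriv A z.1 t).1.prodMk (exp_deriv A z.2 t).1
  have hin : ∀ t (x y : E m), ⟪e t x, e t y⟫ = ⟪x, y⟫ := by
    intro t x y
    have h1 := hG.isom _ (hA t)
    rw [real_inner_eq_norm_add_mul_self_sub_norm_mul_self_sub_norm_mul_self_div_two,
      real_inner_eq_norm_add_mul_self_sub_norm_mul_self_sub_norm_mul_self_div_two, ← map_add]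
    simp only [he, h1]
  have hφ : ∀ t, HasDerivAt (fun s => f (act (e s) z)) μ t := by
    intro t
    have h1 := GMom_deriv hL.prim (hd t) hcS
    have h2 : ⟪(act (e t) z).2, (e t (A z.1), e t (A z.2)).1⟫ = μ := hin t z.2 (A z.1)
    rwa [h2] at h1
  have hlin : ∀ t, f (act (e t) z) - t * μ = f (act (e 0) z) - 0 * μ := by
    intro t
    have h1 : ∀ s, HasDerivAt (fun s => f (act (e s) z) - s * μ) 0 s := by
      intro s
      have := (hφ s).sub ((hasDerivAt_id s).mul_const μ)
      rw [one_mul, sub_self] at this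
      exact this
    exact is_const_of_deriv_eq_zero (fun s => (h1 s).differentiableAt) (fun s => (h1 s).deriv) t 0
  obtain ⟨B, hB⟩ := (GMom_compact hN hL).exists_bound_of_continuousOn (GMom_cont hL.prim)
  have hle : ∀ t : ℝ, |t * μ| ≤ 2 * B := by
    intro t
    have h1 := hB _ (hcS t)
    have h2 := hB _ (hcS 0)
    rw [Real.norm_eq_abs] at h1 h2
    have h3 : t * μ = f (act (e t) z) - f (act (e 0) z) := by
      have := hlin t
      rw [zero_mul, sub_zero] at this
      linarith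
    rw [h3]
    exact (abs_sub _ _).trans (by linarith)
  by_contra hne
  have hB0 : 0 ≤ 2 * B := (abs_nonneg _).trans (hle 0)
  have h1 := hle ((2 * B + 1) / μ)
  rw [div_mul_cancel₀ _ hne, abs_of_nonneg (by linarith)] at h1
  linarith

end Pool.Agent.H73.CO
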