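import Pool.Agent.H73.CO.GLev

/-!
# Module GReg: covectors orthogonal to a regular level (about 50 lines)

PROOF of `mf_reg`. `‖g q‖² = 1 - F q ^ 2 > 0`. `t = ⟪p, g q⟫ / ‖g q‖²`, `u = p - t • g q ∈ Tan N q` (`IsSubmfd.tan_sub`, `Tan.smul`, `trans.tan`), `⟪g q, u⟫ = 0`. Let `γ` be a curve in `N` with velocity `u` (definition of `Tan`). `F ∘ γ` has derivative `fderiv ℝ F q u = ⟪g q, u⟫ = 0` at `0` (`TD.dF`), and
`arccos` is differentiable at `F q` (`Real.hasDerivAt_arccos`, `F q ≠ ±1`), so `s ↦ arccos (F (γ s))` has derivative `0` at `0`, which is `ho` of `lt_of_curve`. So `u ∈ LT N F q`, `⟪p, u⟫ = 0`, `‖u‖² = ⟪p, u⟫ - t ⟪g q, u⟫ = 0`, `p = t • g q`; `subset_closure`. 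
-/

set_option autoImplicit false

open scoped ContDiff Topology RealInnerProductSpace
open Set Filter

namespace Pool.Agent.H73.CO

open Pool.Agent.H57.NL Pool.Agent.H2.TG Pool.Agent.H2.TI

variable {m n : ℕ} {N : Set (E m)} {Pr : E m → (E m →L[ℝ] E m)} {F : E m → ℝ}
  {g : E m → E m}

theorem mf_reg (h : TD n N Pr F g) {q p : E m} (hq : q ∈ N) (hr : |F q| < 1) (hp : p ∈ Tan N q)
    (hLT : ∀ u ∈ LT N F q, ⟪p, u⟫ = 0) : (q, p) ∈ MF N g := by
  have hn : 0 < ‖g q‖ ^ 2 := by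
    rw [h.trans.norm q hq]
    have := (sq_lt_one_iff_abs_lt_one (F q)).2 hr
    linarith
  have hn' : ‖g q‖ ^ 2 ≠ 0 := hn.ne'
  obtain ⟨t, ht⟩ : ∃ t : ℝ, t = ⟪p, g q⟫ / ‖g q‖ ^ 2 := ⟨_, rfl⟩
  have hut : p - t • g q ∈ Tan N q := h.mfd.sub.tan_sub hq hp (Tan.smul (h.trans.tan q hq) t)
  have hgu : ⟪g q, p - t • g q⟫ = 0 := by
    rw [inner_sub_right, inner_smul_right, real_inner_self_eq_norm_sq, real_inner_comm, ht,
      div_mul_cancel₀ _ hn', sub_self]
  have hLTu : p - t • g q ∈ LT N F q := by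
    have hdF : fderiv ℝ F q (p - t • g q) = 0 := by rw [h.dF hq hut, hgu]
    obtain ⟨γ, h0, hS, hd⟩ := hut
    have hFd : HasDerivAt (fun s => F (γ s)) 0 0 := by
      have h1 : HasFDerivAt F (fderiv ℝ F (γ 0)) (γ 0) :=
        (h.trans.smooth.differentiable (by simp) _).hasFDerivAt
      have h2 := h1.comp_hasDerivAt (0 : ℝ) hd
      rw [h0, hdF] at h2
      exact h2
    have hac : HasDerivAt Real.arccos (-(1 / √(1 - F q ^ 2))) (F q) :=
      Real.hasDerivAt_arccos (ne_of_gt (abs_lt.1 hr).1) (ne_of_lt (abs_lt.1 hr).2)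
    have hacd : HasDerivAt (fun s => Real.arccos (F (γ s))) 0 0 := by
      have h1 : HasDerivAt Real.arccos (-(1 / √(1 - F q ^ 2))) (F (γ 0)) := by
        rw [h0]
        exact hac
      have h2 := h1.comp (0 : ℝ) hFd
      rw [mul_zero] at h2
      exact h2
    refine lt_of_curve h h0 hS hd ?_
    have h3 := hacd.isLittleO
    simp only [h0, sub_zero, smul_zero] at h3
    exact h3
  have h1 := hLT _ hLTu
  have h2 : ⟪p - t • g q, p - t • g q⟫ = 0 := by
    have h3 : ⟪p - t • g q, p - t • g q⟫ = ⟪p, p - t • g q⟫ - t * ⟪g q, p - t • g q⟫ := by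
      rw [inner_sub_left, inner_smul_left]
      simp
    rw [h3, h1, hgu, mul_zero, sub_zero]
  have h4 : p - t • g q = 0 := inner_self_eq_zero.1 h2
  exact subset_closure ⟨hq, t, sub_eq_zero.1 h4⟩

end Pool.Agent.H73.CO
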