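import Pool.Agent.H73.CO.Bas

/-!
# Module Hes: the Hessian of `F` is symmetric (about 120 lines)

PROOF of `TD.symm`. Slice chart `e, A` of `N` at `q` (`h.mfd.sub.slice`). `φ a = e.symm (e q + a)` for `a : A` near `0`: smooth near `0`, `φ 0 = q`,
`φ a ∈ N`. `u = F ∘ φ`. For `a` near `0` and `b : A`: `Dφ(a) b ∈ Tan N (φ a)` (curve `s ↦ φ (a + s b)`), so `Du(a) b = fderiv ℝ F (φ a) (Dφ(a) b) =
⟪g (φ a), Dφ(a) b⟫` (`TD.dF`). Differentiate at `a = 0` in the direction `a'`: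
`D²u(0) a' b = ⟪fderiv ℝ g q (Dφ(0) a'), Dφ(0) b⟫ + ⟪g q, D²φ(0) a' b⟫`. `D²u(0)` and `D²φ(0)` are symmetric
(`second_derivative_symmetric` / `ContDiffAt.isSymmSndFDerivAt`), so `⟪fderiv ℝ g q (Dφ(0) a'), Dφ(0) b⟫` is symmetric in `a', b`. Every
`v ∈ Tan N q` is `Dφ(0) a'` with `a' = fderiv ℝ e q v ∈ A` (`Slice.mem_tan`, `Slice.left`).
* `TD.dg_g`: `TD.symm` with `w = g q` (`h.trans.tan`) and `TD.dgg`.
-/

set_option autoImplicit false

open scoped ContDiff Topology RealInnerProductSpace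
open Set Filter

namespace Pool.Agent.H73.CO

open Pool.Agent.H57.NL Pool.Agent.H2.TG Pool.Agent.H2.TI

variable {m n : ℕ} {N : Set (E m)} {Pr : E m → (E m →L[ℝ] E m)} {F : E m → ℝ}
  {g : E m → E m}

private theorem hes_aux (h : TD n N Pr F g) {e : OpenPartialHomeomorph (E m) (E m)}
    {A : Submodule ℝ (E m)} (hs : Slice n N e A) {q v w : E m} (hqe : q ∈ e.source) (hq : q ∈ N)
    (hv : v ∈ Tan N q) (hw : w ∈ Tan N q) :
    fderiv ℝ (fderiv ℝ (F ∘ e.symm)) (e q) (fderiv ℝ e q v) (fderiv ℝ e q w) =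
      ⟪fderiv ℝ g q v, w⟫ +
        ⟪g q, fderiv ℝ (fderiv ℝ e.symm) (e q) (fderiv ℝ e q v) (fderiv ℝ e q w)⟫ := by
  have haA : fderiv ℝ e q v ∈ A := (hs.mem_tan hqe hq v).1 hv
  have hbA : fderiv ℝ e q w ∈ A := (hs.mem_tan hqe hq w).1 hw
  have hla := hs.left hqe v
  have hlb := hs.left hqe w
  set a := fderiv ℝ e q v with ha
  set b := fderiv ℝ e q w with hb
  have hy : e q ∈ e.target := e.map_source hqe
  have hyA : e q ∈ A := (hs.iff q hqe).1 hq
  have hcs : ContDiffAt ℝ ∞ e.symm (e q) := hs.cd' hy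
  have hcu : ContDiffAt ℝ ∞ (F ∘ e.symm) (e q) := h.trans.smooth.contDiffAt.comp (e q) hcs
  have hline : HasDerivAt (fun s : ℝ => e q + s • a) a 0 := by
    have := ((hasDerivAt_id (0 : ℝ)).smul_const a).const_add (e q)
    simpa using this
  have h0 : (fun s : ℝ => e q + s • a) 0 = e q := by simp
  have d1 : HasFDerivAt (fderiv ℝ (F ∘ e.symm)) (fderiv ℝ (fderiv ℝ (F ∘ e.symm)) (e q))
      ((fun s : ℝ => e q + s • a) 0) := by
    rw [h0]
    exact ((hcu.fderiv_right (m := 1) (by norm_cast)).differentiableAt (by norm_num)).hasFDerivAt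
  have d2 : HasFDerivAt (fderiv ℝ e.symm) (fderiv ℝ (fderiv ℝ e.symm) (e q))
      ((fun s : ℝ => e q + s • a) 0) := by
    rw [h0]
    exact ((hcs.fderiv_right (m := 1) (by norm_cast)).differentiableAt (by norm_num)).hasFDerivAt
  have d3 : HasFDerivAt e.symm (fderiv ℝ e.symm (e q)) ((fun s : ℝ => e q + s • a) 0) := by
    rw [h0]
    exact hs.hd' hy
  have L := (d1.comp_hasDerivAt (0 : ℝ) hline).clm_apply (hasDerivAt_const (0 : ℝ) b)
  have R1 := (d2.comp_hasDerivAt (0 : ℝ) hline).clm_apply (hasDerivAt_const (0 : ℝ) b)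
  have R2 := d3.comp_hasDerivAt (0 : ℝ) hline
  have e0 : (e.symm ∘ fun s : ℝ => e q + s • a) 0 = q := by
    simp [e.left_inv hqe]
  have hg : HasFDerivAt g (fderiv ℝ g q) ((e.symm ∘ fun s : ℝ => e q + s • a) 0) := by
    rw [e0]
    exact ((h.smooth.differentiable (by simp)) q).hasFDerivAt
  have R3 := hg.comp_hasDerivAt (0 : ℝ) R2
  have R := R3.inner ℝ R1
  have hev : (fun s : ℝ => (fderiv ℝ (F ∘ e.symm) ∘ fun s : ℝ => e q + s • a) s b) =ᶠ[𝓝 0]
      fun s : ℝ => ⟪(g ∘ (e.symm ∘ fun s : ℝ => e q + s • a)) s,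
        (fderiv ℝ e.symm ∘ fun s : ℝ => e q + s • a) s b⟫ := by
    have ht : Tendsto (fun s : ℝ => e q + s • a) (𝓝 0) (𝓝 (e q)) := by
      have := hline.continuousAt.tendsto
      rwa [zero_smul, add_zero] at this
    filter_upwards [ht.eventually (e.open_target.mem_nhds hy)] with s hsT
    simp only [Function.comp_apply]
    obtain ⟨y, hyy⟩ : ∃ y, y = e q + s • a := ⟨_, rfl⟩
    rw [← hyy] at hsT ⊢
    have hyA' : y ∈ A := by
      rw [hyy]
      exact A.add_mem hyA (A.smul_mem _ haA)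
    have hx : e.symm y ∈ e.source := e.map_target hsT
    have hxy : e (e.symm y) = y := e.right_inv hsT
    have hxN : e.symm y ∈ N := by
      rw [hs.iff _ hx, hxy]
      exact hyA'
    have htan : fderiv ℝ e.symm y b ∈ Tan N (e.symm y) := by
      rw [hs.mem_tan hx hxN]
      have h1 := hs.right hx b
      rw [hxy] at h1
      rw [h1]
      exact hbA
    have h2 : fderiv ℝ (F ∘ e.symm) y = (fderiv ℝ F (e.symm y)).comp (fderiv ℝ e.symm y) := by
      have h3 : HasFDerivAt F (fderiv ℝ F (e.symm y)) (e.symm y) :=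
        ((h.trans.smooth.differentiable (by simp)) (e.symm y)).hasFDerivAt
      exact (h3.comp y (hs.hd' hsT)).fderiv
    rw [h2]
    exact h.dF hxN htan
  have key := L.unique (R.congr_of_eventuallyEq hev)
  simp only [Function.comp_apply, zero_smul, add_zero, map_zero, e.left_inv hqe, hla, hlb] at key
  rw [key]
  ring

theorem TD.symm (h : TD n N Pr F g) {q v w : E m} (hq : q ∈ N) (hv : v ∈ Tan N q)
    (hw : w ∈ Tan N q) : ⟪fderiv ℝ g q v, w⟫ = ⟪fderiv ℝ g q w, v⟫ := by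
  obtain ⟨e, A, hqe, hs⟩ := h.mfd.sub.slice hq
  have hy : e q ∈ e.target := e.map_source hqe
  have hcs : ContDiffAt ℝ ∞ e.symm (e q) := hs.cd' hy
  have hcu : ContDiffAt ℝ ∞ (F ∘ e.symm) (e q) := h.trans.smooth.contDiffAt.comp (e q) hcs
  have hsm : minSmoothness ℝ 2 ≤ (∞ : WithTop ℕ∞) := by
    rw [minSmoothness_of_isRCLikeNormedField]
    exact WithTop.coe_le_coe.2 le_top
  have s1 := hcs.isSymmSndFDerivAt hsm (fderiv ℝ e q v) (fderiv ℝ e q w)
  have s2 := hcu.isSymmSndFDerivAt hsm (fderiv ℝ e q v) (fderiv ℝ e q w)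
  have h1 := hes_aux h hs hqe hq hv hw
  have h2 := hes_aux h hs hqe hq hw hv
  rw [s2, s1, h2] at h1
  linarith

theorem TD.dg_g (h : TD n N Pr F g) {q v : E m} (hq : q ∈ N) (hv : v ∈ Tan N q) :
    ⟪fderiv ℝ g q (g q), v⟫ = -(F q * ⟪g q, v⟫) := by
  rw [h.symm hq (h.trans.tan q hq) hv]
  exact h.dgg hq hv

end Pool.Agent.H73.CO
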