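import Pool.Agent.H73.CO.DefsG
import Pool.Agent.H2.TI.ITan
import Pool.Agent.H2.TI.STN

/-!
# Module LagT: a vector orthogonal to a Lagrangian subspace is in it (about 130 lines)

PROOF of `lag_tan`. Slice chart of `TN N` (dimension `2 n`, `TN_submfd`) at `z` and slice chart of `S` at `z`: `T = Tan (TN N) z` and `L = Tan S z` are linear subspaces (as sets: images
under the inverse of the derivative of the chart, `Slice.mem_tan`), `finrank T = 2 n`, `finrank L = n`; `L ⊆ T` (curves). The bilinear form `om` on `T` is nondegenerate (`om_nondeg`) and vanishes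
on `L` (`hL.lag`). The orthogonal `L' = {X ∈ T | om X v = 0 for all v ∈ L}` has dimension `2 n - n = n` (e.g. the linear map `T → Dual L`, `X ↦ om X ·`, is onto, because its composition
`T → Dual T → Dual L` is an isomorphism followed by the restriction; or `LinearMap.BilinForm.finrank_orthogonal`), contains `L`, so `L' = L` (`Submodule.eq_of_le_of_finrank_eq`).
* `lag_dim`: for the last statement: if all vectors of `Tan S z` are in the image of an injective-free linear map from a space of dimension `< n`... not needed: only `tan_finrank`: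
  there is a submodule `L` with `(L : Set _) = Tan S z` and `finrank L = n`. The same for any `IsSubmfd`.
-/

set_option autoImplicit false

open scoped ContDiff Topology RealInnerProductSpace
open Set Filter

namespace Pool.Agent.H73.CO

open Pool.Agent.H57.NL Pool.Agent.H2.TG Pool.Agent.H2.TI

variable {m n : ℕ} {N : Set (E m)} {Pr : E m → (E m →L[ℝ] E m)} {F : E m → ℝ}
  {g : E m → E m}

variable {S : Set (E m × E m)} {f : E m × E m → ℝ} {c : ℝ → E m}


theorem tan_finrank {V : Type*} [NormedAddCommGroup V] [NormedSpace ℝ V] [FiniteDimensional ℝ V]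
    {k : ℕ} {T : Set V} (hT : IsSubmfd k T) {x : V} (hx : x ∈ T) :
    ∃ L : Submodule ℝ V, (L : Set V) = Tan T x ∧ Module.finrank ℝ L = k := by
  obtain ⟨e, A, hxe, hs⟩ := hT.slice hx
  obtain ⟨Q, hQ⟩ : ∃ Q : V ≃ₗ[ℝ] V, ∀ v, Q v = fderiv ℝ e x v :=
    ⟨LinearEquiv.ofLinear (fderiv ℝ e x).toLinearMap (fderiv ℝ e.symm (e x)).toLinearMap
      (LinearMap.ext fun v => hs.right hxe v) (LinearMap.ext fun v => hs.left hxe v), fun v => rfl⟩
  refine ⟨A.map (Q.symm : V →ₗ[ℝ] V), ?_, ?_⟩
  · ext v
    rw [hs.mem_tan hxe hx, SetLike.mem_coe, Submodule.mem_map_equiv, LinearEquiv.symm_symm, hQ]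
  · rw [LinearEquiv.finrank_map_eq, hs.fr]

theorem lag_tan (hN : IsSubmfd n N) (hPr : ProjN N Pr) (hL : ExactLag n N ⊥ S f)
    {z X : E m × E m} (hz : z ∈ S) (hX : X ∈ Tan (TN N) z) (h : ∀ v ∈ Tan S z, om X v = 0) :
    X ∈ Tan S z := by
  obtain ⟨T, hT, hTf⟩ := tan_finrank (TN_submfd hN) (hL.subTN hz)
  obtain ⟨L, hLL, hLf⟩ := tan_finrank hL.sub hz
  have hLT : L ≤ T := by
    intro v hv
    have h1 : v ∈ Tan S z := by rw [← hLL]; exact hv
    have h2 : v ∈ Tan (TN N) z := by
      obtain ⟨γ, g0, g1, g2⟩ := h1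
      exact ⟨γ, g0, g1.mono fun s hs => hL.subTN hs, g2⟩
    rw [← hT] at h2
    exact h2
  obtain ⟨B, hB⟩ : ∃ B : LinearMap.BilinForm ℝ T, ∀ X Y : T, B X Y = om (X : E m × E m) Y :=
    ⟨LinearMap.mk₂ ℝ (fun X Y : T => om (X : E m × E m) Y)
      (fun X X' Y => by simp only [om, Submodule.coe_add, Prod.fst_add, Prod.snd_add,
        inner_add_left, inner_add_right]; ring)
      (fun a X Y => by simp only [om, Submodule.coe_smul, Prod.smul_fst, Prod.smul_snd,
        real_inner_smul_left, real_inner_smul_right, smul_eq_mul]; ring)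
      (fun X Y Y' => by simp only [om, Submodule.coe_add, Prod.fst_add, Prod.snd_add,
        inner_add_left, inner_add_right]; ring)
      (fun a X Y => by simp only [om, Submodule.coe_smul, Prod.smul_fst, Prod.smul_snd,
        real_inner_smul_left, real_inner_smul_right, smul_eq_mul]; ring), fun X Y => rfl⟩
  have hanti : ∀ X Y : E m × E m, om X Y = -om Y X := fun X Y => by
    unfold om
    ring
  have hR : B.IsRefl := by
    intro X Y hXY
    rw [hB] at hXY ⊢
    rw [hanti, hXY, neg_zero]
  have hleft : ∀ X : T, (∀ Y : T, B X Y = 0) → X = 0 := by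
    intro X hX
    have h1 : (X : E m × E m) ∈ Tan (TN N) z := by rw [← hT]; exact X.2
    have h2 := om_nondeg hN hPr (hL.subTN hz) h1 fun v hv => by
      rw [← hT] at hv
      have := hX ⟨v, hv⟩
      rw [hB] at this
      exact this
    exact Subtype.ext h2
  have hnd : B.Nondegenerate := by
    refine ⟨fun X hX => hleft X hX, fun Y hY => hleft Y fun X => ?_⟩
    have := hY X
    rw [hB] at this ⊢
    rw [hanti, this, neg_zero]
  have hfo := LinearMap.BilinForm.finrank_orthogonal hnd (L.comap T.subtype)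
  have hcf : Module.finrank ℝ (L.comap T.subtype) = n := by
    rw [← hLf]
    exact (Submodule.comapSubtypeEquivOfLe hLT).finrank_eq
  rw [hcf, hTf] at hfo
  have hle : L.comap T.subtype ≤ B.orthogonal (L.comap T.subtype) := by
    intro X hX
    rw [LinearMap.BilinForm.mem_orthogonal_iff]
    intro Y hY
    show B Y X = 0
    rw [hB]
    have h1 : (Y : E m × E m) ∈ Tan S z := by rw [← hLL]; exact hY
    have h2 : (X : E m × E m) ∈ Tan S z := by rw [← hLL]; exact hX
    exact hL.lag z hz _ h1 _ h2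
  have heq : L.comap T.subtype = B.orthogonal (L.comap T.subtype) :=
    Submodule.eq_of_le_of_finrank_eq hle (by rw [hcf, hfo]; omega)
  have hXT : X ∈ T := by
    rw [← hT] at hX
    exact hX
  have hXo : (⟨X, hXT⟩ : T) ∈ B.orthogonal (L.comap T.subtype) := by
    rw [LinearMap.BilinForm.mem_orthogonal_iff]
    intro Y hY
    show B Y ⟨X, hXT⟩ = 0
    rw [hB, hanti]
    have h1 : (Y : E m × E m) ∈ Tan S z := by rw [← hLL]; exact hY
    rw [h _ h1, neg_zero]
  rw [← heq] at hXo
  rw [← hLL]
  exact hXo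

/-- A tangent vector of a submanifold is the velocity of a smooth curve. -/
theorem tan_smooth {V : Type*} [NormedAddCommGroup V] [NormedSpace ℝ V] [FiniteDimensional ℝ V]
    {k : ℕ} {T : Set V} (hT : IsSubmfd k T) {x v : V} (hx : x ∈ T) (hv : v ∈ Tan T x) :
    ∃ γ : ℝ → V, γ 0 = x ∧ HasDerivAt γ v 0 ∧
      ∀ᶠ t in 𝓝 (0 : ℝ), γ t ∈ T ∧ ContDiffAt ℝ ∞ γ t := by
  obtain ⟨e, A, hxe, hs⟩ := hT.slice hx
  have hv' := (hs.mem_tan hxe hx v).1 hv
  have hline : Tendsto (fun s : ℝ => e x + s • fderiv ℝ e x v) (𝓝 0) (𝓝 (e x)) := by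
    have : Continuous (fun s : ℝ => e x + s • fderiv ℝ e x v) := by fun_prop
    simpa using this.tendsto 0
  have hev := hline.eventually (e.open_target.mem_nhds (e.map_source hxe))
  refine ⟨fun s => e.symm (e x + s • fderiv ℝ e x v), by simp [e.left_inv hxe], ?_, ?_⟩
  · have hl : HasDerivAt (fun s : ℝ => e x + s • fderiv ℝ e x v) (fderiv ℝ e x v) 0 := by
      have := ((hasDerivAt_id (0 : ℝ)).smul_const (fderiv ℝ e x v)).const_add (e x)
      simpa using this
    have h1 : HasFDerivAt e.symm (fderiv ℝ e.symm (e x))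
        ((fun s : ℝ => e x + s • fderiv ℝ e x v) 0) := by
      simpa using hs.hd' (e.map_source hxe)
    have h2 := h1.comp_hasDerivAt (0 : ℝ) hl
    rw [hs.left hxe] at h2
    exact h2
  · filter_upwards [hev] with t ht
    refine ⟨?_, ?_⟩
    · rw [hs.iff _ (e.map_target ht), e.right_inv ht]
      exact A.add_mem ((hs.iff _ hxe).1 hx) (A.smul_mem _ hv')
    · have h1 : ContDiffAt ℝ ∞ (fun s : ℝ => e x + s • fderiv ℝ e x v) t := by fun_prop
      exact (hs.cd' ht).comp t h1

end Pool.Agent.H73.CO
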