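import Pool.Agent.H73.CO.GLev
import Pool.Agent.H73.CO.LagT
import Pool.Agent.H73.CO.Hes

/-!
# Module GSing: covectors orthogonal to a singular level (about 150 lines)

Write `ε = F q`, `ε² = 1`; `g q = 0` (`trans.norm`); `D = fderiv ℝ g q`.
PROOF of `mf_sing`.
(a) `D v ∈ Tan N q` for `v ∈ Tan N q`: let `γ` be a curve in `N` with velocity `v`. `Pr (γ s) (g (γ s)) = g (γ s)` (`proj`: `Pr x` is the identity on `Tan N x`); the derivative at `s = 0` gives `Pr q (D v) = D v` (as `g q = 0`), and `Pr q w ∈ Tan N q` for all `w`.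
(b) `‖D v‖² = -ε ⟪D v, v⟫` for `v ∈ Tan N q`, and for smooth `γ` in `N` with velocity `v` (`tan_smooth`): `φ s = F (γ s)` satisfies `φ s - ε - (s²/2) ⟪D v, v⟫ = o(s²)`. Proof: near `0`: `φ' s = ⟪g (γ s), γ' s⟫` (`TD.dF`; `γ' s ∈ Tan N (γ s)`) `= s ⟪D v, v⟫ + o(s)`, integrate (mean value
inequality for `φ s - (s²/2) ⟪D v, v⟫`). Also `‖g (γ s)‖² = s² ‖D v‖² + o(s²)` and `= 1 - φ s ^ 2 = -ε s² ⟪D v, v⟫ + o(s²)`.
(c) polarisation (`TD.symm`): `⟪D v, D w⟫ = -ε ⟪D v, w⟫` for `v w ∈ Tan N q`.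
(d) `u = p + ε • D p ∈ Tan N q`; `D u = 0`: by (b) it is enough that `⟪D u, u⟫ = 0`, or: `⟪D u, w⟫ = ⟪D p, w⟫ + ε ⟪D (D p), w⟫ = ⟪D p, w⟫ + ε ⟪D w, D p⟫ = ⟪D p, w⟫ - ε² ⟪D p, w⟫ = 0` for `w ∈ Tan N q` (`TD.symm`, (c)); take `w = D u`.
(e) `u ∈ LT N F q` by `lt_of_curve`: for smooth `γ` with velocity `u`: `1 - ε F (γ s) = o(s²)` by (b). `θ s = arccos (F (γ s)) - arccos ε`: `ε cos (arccos ε + θ s) = ε F (γ s)` gives `cos (θ s) = ε F (γ s)` (`arccos 1 = 0`, `arccos (-1) = π`) and `|θ s| ≤ π`,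
so `θ s ² ≤ (π²/2) (1 - cos (θ s)) = o(s²)` (`Real.cos_le_one_sub_mul_cos_sq`, or `Real.mul_abs_le_abs_sin` for the half angle, `1 - cos θ = 2 sin² (θ/2)`, `|sin x| ≥ (2/π) |x|` for `|x| ≤ π/2`).
(f) `0 = ⟪p, u⟫ = ‖p‖² + ε ⟪D p, p⟫` and `‖D p‖² = -ε ⟪D p, p⟫ = ‖p‖²`, so `‖u‖² = ‖p‖² + 2 ε ⟪D p, p⟫ + ‖D p‖² = 0`: `D p = -ε • p`.
(g) let `γ` be a curve in `N` with velocity `p`: `g (γ s) = s • D p + o(s) = -(ε s) • p + o(s)`, so `(γ s, (-ε/s) • g (γ s)) → (q, p)` as `s → 0`, `s ≠ 0` (`ε² = 1`); these points are in the set of which `MF` is the closure. 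
-/

set_option autoImplicit false

open scoped ContDiff Topology RealInnerProductSpace
open Set Filter

namespace Pool.Agent.H73.CO

open Pool.Agent.H57.NL Pool.Agent.H2.TG Pool.Agent.H2.TI

variable {m n : ℕ} {N : Set (E m)} {Pr : E m → (E m →L[ℝ] E m)} {F : E m → ℝ}
  {g : E m → E m}

private theorem gsing_g0 (h : TD n N Pr F g) {q : E m} (hq : q ∈ N) (hr : F q ^ 2 = 1) :
    g q = 0 := by
  have h1 := h.trans.norm q hq
  rw [hr, sub_self] at h1
  have h2 : ‖g q‖ = 0 := by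
    nlinarith [norm_nonneg (g q)]
  exact norm_eq_zero.1 h2

private theorem gsing_D (h : TD n N Pr F g) (q : E m) : HasFDerivAt g (fderiv ℝ g q) q :=
  ((h.smooth.differentiable (by simp)) q).hasFDerivAt

private theorem gsing_tan (h : TD n N Pr F g) {q v : E m} (hq : q ∈ N) (hr : F q ^ 2 = 1)
    (hv : v ∈ Tan N q) : fderiv ℝ g q v ∈ Tan N q := by
  have hg0 := gsing_g0 h hq hr
  obtain ⟨γ, h0, hS, hd⟩ := hv
  have hgd : HasDerivAt (fun s => g (γ s)) (fderiv ℝ g q v) 0 := by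
    have := gsing_D h q
    rw [← h0] at this ⊢
    exact this.comp_hasDerivAt (0 : ℝ) hd
  have hPd : HasDerivAt (fun s => Pr (γ s)) (fderiv ℝ Pr q v) 0 := by
    have := ((h.proj.smooth.differentiable (by simp)) q).hasFDerivAt
    rw [← h0] at this ⊢
    exact this.comp_hasDerivAt (0 : ℝ) hd
  have h1 := hPd.clm_apply hgd
  have h2 : (fun s => Pr (γ s) (g (γ s))) =ᶠ[𝓝 (0 : ℝ)] fun s => g (γ s) := by
    filter_upwards [hS] with s hs
    exact pr_self h.mfd.sub h.proj hs (h.trans.tan _ hs)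
  have h3 := (h2.hasDerivAt_iff.1 h1).unique hgd
  rw [h0, hg0, map_zero, zero_add] at h3
  rw [← h3]
  exact h.proj.mem q hq _

private theorem gsing_lim (h : TD n N Pr F g) {q v : E m} (hq : q ∈ N) (hr : F q ^ 2 = 1)
    {γ : ℝ → E m} (h0 : γ 0 = q) (hd : HasDerivAt γ v 0)
    (hev : ∀ᶠ t in 𝓝 (0 : ℝ), γ t ∈ N ∧ ContDiffAt ℝ ∞ γ t) :
    Tendsto (fun s => (F (γ s) - F q) / s ^ 2) (𝓝[≠] 0) (𝓝 (⟪fderiv ℝ g q v, v⟫ / 2)) := by
  have hg0 := gsing_g0 h hq hr
  have hc0 : ContDiffAt ℝ ∞ γ 0 := hev.self_of_nhds.2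
  have hdd : DifferentiableAt ℝ (deriv γ) 0 := by
    have h1 : ContDiffAt ℝ 1 (deriv γ) 0 := by
      have h2 : ContDiffAt ℝ 1 (fderiv ℝ γ) 0 := hc0.fderiv_right (by norm_cast)
      have h3 : deriv γ = fun t => fderiv ℝ γ t 1 := by
        funext t
        exact (fderiv_apply_one_eq_deriv).symm
      rw [h3]
      exact h2.clm_apply contDiffAt_const
    exact h1.differentiableAt (by norm_num)
  have hgd : HasDerivAt (fun s => g (γ s)) (fderiv ℝ g q v) 0 := by
    have := gsing_D h q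
    rw [← h0] at this ⊢
    exact this.comp_hasDerivAt (0 : ℝ) hd
  have hφ' : HasDerivAt (fun s => ⟪g (γ s), deriv γ s⟫) ⟪fderiv ℝ g q v, v⟫ 0 := by
    have h1 := hgd.inner ℝ hdd.hasDerivAt
    rw [h0, hg0, inner_zero_left, zero_add, hd.deriv] at h1
    exact h1
  have hev2 : ∀ᶠ s in 𝓝 (0 : ℝ), HasDerivAt (fun s => F (γ s)) ⟪g (γ s), deriv γ s⟫ s := by
    filter_upwards [hev.eventually_nhds] with s hs
    have h1 := hs.self_of_nhds
    have h2 : HasDerivAt γ (deriv γ s) s := (h1.2.differentiableAt (by simp)).hasDerivAt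
    have h3 : deriv γ s ∈ Tan N (γ s) := by
      refine ⟨fun t => γ (s + t), by simp, ?_, ?_⟩
      · have h4 : Tendsto (fun t : ℝ => s + t) (𝓝 0) (𝓝 s) := by
          have : Continuous fun t : ℝ => s + t := by fun_prop
          simpa using this.tendsto 0
        exact (h4.eventually hs).mono fun t ht => ht.1
      · have h5 : HasDerivAt γ (deriv γ s) (s + 0) := by simpa using h2
        exact h5.comp_const_add s 0
    rw [← h.dF h1.1 h3]
    exact (((h.trans.smooth.differentiable (by simp)) (γ s)).hasFDerivAt).comp_hasDerivAt s h2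
  refine HasDerivAt.lhopital_zero_nhdsNE (f' := fun s => ⟪g (γ s), deriv γ s⟫)
    (g' := fun s => 2 * s) ?_ ?_ ?_ ?_ ?_ ?_
  · exact eventually_nhdsWithin_of_eventually_nhds (hev2.mono fun s hs => hs.sub_const _)
  · refine Eventually.of_forall fun s => ?_
    have := hasDerivAt_pow 2 s
    simpa using this
  · filter_upwards [self_mem_nhdsWithin] with s hs
    have : s ≠ 0 := hs
    positivity
  · have h1 : ContinuousAt (fun s => F (γ s) - F q) 0 := by
      have h2 := (hev2.self_of_nhds).continuousAt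
      exact h2.sub continuousAt_const
    have h3 := h1.tendsto
    simp only [h0, sub_self] at h3
    exact h3.mono_left nhdsWithin_le_nhds
  · have h1 : Continuous fun s : ℝ => s ^ 2 := by fun_prop
    have h2 := h1.tendsto 0
    simp only [ne_eq, OfNat.ofNat_ne_zero, not_false_eq_true, zero_pow] at h2
    exact h2.mono_left nhdsWithin_le_nhds
  · have h1 := (hasDerivAt_iff_tendsto_slope.1 hφ').div_const 2
    refine h1.congr' ?_
    filter_upwards [self_mem_nhdsWithin] with s hs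
    have hs' : s ≠ 0 := hs
    rw [slope_def_field, h0, hg0, inner_zero_left, sub_zero, sub_zero]
    field_simp

private theorem gsing_sq (h : TD n N Pr F g) {q v : E m} (hq : q ∈ N) (hr : F q ^ 2 = 1)
    (hv : v ∈ Tan N q) : ‖fderiv ℝ g q v‖ ^ 2 = -(F q * ⟪fderiv ℝ g q v, v⟫) := by
  have hg0 := gsing_g0 h hq hr
  obtain ⟨γ, h0, hd, hev⟩ := tan_smooth h.mfd.sub hq hv
  have h1 := gsing_lim h hq hr h0 hd hev
  have hgd : HasDerivAt (fun s => g (γ s)) (fderiv ℝ g q v) 0 := by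
    have := gsing_D h q
    rw [← h0] at this ⊢
    exact this.comp_hasDerivAt (0 : ℝ) hd
  have h2 : Tendsto (fun s => ‖g (γ s)‖ ^ 2 / s ^ 2) (𝓝[≠] 0) (𝓝 (‖fderiv ℝ g q v‖ ^ 2)) := by
    have h3 := ((hasDerivAt_iff_tendsto_slope.1 hgd).norm).pow 2
    refine h3.congr' ?_
    filter_upwards with s
    rw [slope_def_module, h0, hg0, sub_zero, sub_zero, norm_smul, mul_pow, norm_inv,
      Real.norm_eq_abs, inv_pow, sq_abs]
    ring
  have h4 : Tendsto (fun s => F (γ s)) (𝓝[≠] 0) (𝓝 (F q)) := by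
    have h5 : ContinuousAt (fun s => F (γ s)) 0 :=
      (h.trans.smooth.continuous.continuousAt).comp hd.continuousAt
    have h6 := h5.tendsto
    simp only [h0] at h6
    exact h6.mono_left nhdsWithin_le_nhds
  have h7 : Tendsto (fun s => -((F (γ s) - F q) / s ^ 2 * (F (γ s) + F q))) (𝓝[≠] 0)
      (𝓝 (-(⟪fderiv ℝ g q v, v⟫ / 2 * (F q + F q)))) :=
    (h1.mul (h4.add_const _)).neg
  have h8 : Tendsto (fun s => ‖g (γ s)‖ ^ 2 / s ^ 2) (𝓝[≠] 0)
      (𝓝 (-(⟪fderiv ℝ g q v, v⟫ / 2 * (F q + F q)))) := by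
    refine h7.congr' ?_
    filter_upwards [nhdsWithin_le_nhds hev] with s hs
    have h9 := h.trans.norm _ hs.1
    rw [h9, ← hr]
    ring
  have h10 := tendsto_nhds_unique h2 h8
  rw [h10]
  ring

private theorem gsing_add {N : Set (E m)} (hN : IsSubmfd n N) {q v w : E m} (hq : q ∈ N)
    (hv : v ∈ Tan N q) (hw : w ∈ Tan N q) (a : ℝ) : v + a • w ∈ Tan N q := by
  obtain ⟨L, hL, -⟩ := tan_finrank hN hq
  rw [← hL] at hv hw ⊢
  exact L.add_mem hv (L.smul_mem a hw)

private theorem gsing_pol (h : TD n N Pr F g) {q v w : E m} (hq : q ∈ N) (hr : F q ^ 2 = 1)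
    (hv : v ∈ Tan N q) (hw : w ∈ Tan N q) :
    ⟪fderiv ℝ g q v, fderiv ℝ g q w⟫ = -(F q * ⟪fderiv ℝ g q v, w⟫) := by
  have h1 := gsing_sq h hq hr hv
  have h2 := gsing_sq h hq hr hw
  have hvw : v + w ∈ Tan N q := by
    have := gsing_add h.mfd.sub hq hv hw 1
    rwa [one_smul] at this
  have h3 := gsing_sq h hq hr hvw
  rw [map_add, norm_add_sq_real, inner_add_left, inner_add_right, inner_add_right, h1, h2] at h3
  have h4 := h.symm hq hw hv
  rw [h4] at h3
  linarith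

private theorem gsing_ker (h : TD n N Pr F g) {q p : E m} (hq : q ∈ N) (hr : F q ^ 2 = 1)
    (hp : p ∈ Tan N q) : fderiv ℝ g q (p + F q • fderiv ℝ g q p) = 0 := by
  have hDp := gsing_tan h hq hr hp
  have hu := gsing_add h.mfd.sub hq hp hDp (F q)
  have hDu := gsing_tan h hq hr hu
  have key : ∀ w ∈ Tan N q, ⟪fderiv ℝ g q (p + F q • fderiv ℝ g q p), w⟫ = 0 := by
    intro w hw
    rw [map_add, map_smul, inner_add_left, real_inner_smul_left, h.symm hq hDp hw,
      gsing_pol h hq hr hw hp, h.symm hq hw hp]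
    linear_combination (-⟪fderiv ℝ g q p, w⟫) * hr
  have := key _ hDu
  exact inner_self_eq_zero.1 this

theorem mf_sing (h : TD n N Pr F g) {q p : E m} (hq : q ∈ N) (hr : F q ^ 2 = 1) (hp : p ∈ Tan N q)
    (hLT : ∀ u ∈ LT N F q, ⟪p, u⟫ = 0) : (q, p) ∈ MF N g := by
  have hg0 := gsing_g0 h hq hr
  have hDp := gsing_tan h hq hr hp
  have hu := gsing_add h.mfd.sub hq hp hDp (F q)
  have hDu := gsing_ker h hq hr hp
  have hLu : p + F q • fderiv ℝ g q p ∈ LT N F q := by
    obtain ⟨γ, h0, hd, hev⟩ := tan_smooth h.mfd.sub hq hu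
    refine lt_of_curve h h0 (hev.mono fun s hs => hs.1) hd ?_
    have h1 := gsing_lim h hq hr h0 hd hev
    rw [hDu, inner_zero_left, zero_div] at h1
    have hε : F q = 1 ∨ F q = -1 := by
      have h2 : (F q - 1) * (F q + 1) = 0 := by linear_combination hr
      rcases mul_eq_zero.1 h2 with h3 | h3
      · left; linarith
      · right; linarith
    have hb : ∀ᶠ s in 𝓝 (0 : ℝ), (Real.arccos (F (γ s)) - Real.arccos (F q)) ^ 2 ≤
        Real.pi ^ 2 / 2 * |F (γ s) - F q| := by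
      filter_upwards [hev] with s hs
      have hF := abs_le.1 (h.abs_le hs.1)
      have hπ := Real.pi_pos
      have hθ : ∃ c : ℝ, |Real.arccos (F (γ s)) - Real.arccos (F q)| ≤ Real.pi ∧
          Real.cos (Real.arccos (F (γ s)) - Real.arccos (F q)) = c ∧
          1 - c = |F (γ s) - F q| := by
        rcases hε with e | e
        · rw [e, Real.arccos_one, sub_zero]
          refine ⟨F (γ s), ?_, Real.cos_arccos hF.1 hF.2, ?_⟩
          · rw [abs_of_nonneg (Real.arccos_nonneg _)]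
            exact Real.arccos_le_pi _
          · rw [abs_of_nonpos (by linarith)]
            ring
        · rw [e, Real.arccos_neg_one]
          refine ⟨-F (γ s), ?_, ?_, ?_⟩
          · rw [abs_le]
            constructor
            · linarith [Real.arccos_nonneg (F (γ s))]
            · linarith [Real.arccos_le_pi (F (γ s))]
          · rw [Real.cos_sub_pi, Real.cos_arccos hF.1 hF.2]
          · rw [abs_of_nonneg (by linarith)]
            ring
      obtain ⟨c, h2, h3, h4⟩ := hθ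
      have h5 := Real.cos_le_one_sub_mul_cos_sq h2
      rw [h3] at h5
      rw [← h4]
      have h6 : 2 / Real.pi ^ 2 * (Real.arccos (F (γ s)) - Real.arccos (F q)) ^ 2 ≤ 1 - c := by
        linarith
      have h7 := mul_le_mul_of_nonneg_left h6 (show (0 : ℝ) ≤ Real.pi ^ 2 / 2 by positivity)
      calc (Real.arccos (F (γ s)) - Real.arccos (F q)) ^ 2
          = Real.pi ^ 2 / 2 * (2 / Real.pi ^ 2 *
            (Real.arccos (F (γ s)) - Real.arccos (F q)) ^ 2) := by field_simp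
        _ ≤ _ := h7
    have h8 : (fun s => F (γ s) - F q) =o[𝓝 (0 : ℝ)] fun s => s ^ 2 := by
      have h9 : (fun s => F (γ s) - F q) =o[𝓝[≠] (0 : ℝ)] fun s => s ^ 2 := by
        rw [Asymptotics.isLittleO_iff_tendsto']
        · exact h1
        · filter_upwards [self_mem_nhdsWithin] with s hs h0
          exact absurd (pow_eq_zero_iff (two_ne_zero) |>.1 h0) hs
      have h10 : 𝓝 (0 : ℝ) = 𝓝[≠] 0 ⊔ pure 0 := by
        rw [nhdsNE_sup_pure]
      rw [h10]
      refine h9.sup ?_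
      rw [Asymptotics.isLittleO_pure]
      simp [h0]
    have h11 : (fun s => (Real.arccos (F (γ s)) - Real.arccos (F q)) ^ 2) =o[𝓝 (0 : ℝ)]
        fun s => s ^ 2 := by
      refine Asymptotics.IsBigO.trans_isLittleO ?_ h8
      refine Asymptotics.IsBigO.of_bound (Real.pi ^ 2 / 2) ?_
      filter_upwards [hb] with s hs
      rw [Real.norm_of_nonneg (sq_nonneg _), Real.norm_eq_abs]
      exact hs
    exact Asymptotics.IsLittleO.of_pow h11 two_ne_zero
  have hpu := hLT _ hLu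
  rw [inner_add_right, real_inner_smul_right, real_inner_self_eq_norm_sq] at hpu
  have hsq := gsing_sq h hq hr hp
  have hzero : p + F q • fderiv ℝ g q p = 0 := by
    have h1 : ‖p + F q • fderiv ℝ g q p‖ ^ 2 = 0 := by
      rw [norm_add_sq_real, norm_smul, mul_pow, Real.norm_eq_abs, sq_abs, hr, one_mul,
        real_inner_smul_right, hsq]
      rw [real_inner_comm] at hpu
      rw [real_inner_comm]
      linarith
    exact norm_eq_zero.1 (pow_eq_zero_iff (two_ne_zero) |>.1 h1)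
  obtain ⟨γ, h0, hS, hd⟩ := hp
  have hgd : HasDerivAt (fun s => g (γ s)) (fderiv ℝ g q p) 0 := by
    have := gsing_D h q
    rw [← h0] at this ⊢
    exact this.comp_hasDerivAt (0 : ℝ) hd
  have hlim : Tendsto (fun s => (γ s, (-(F q) / s) • g (γ s))) (𝓝[≠] (0 : ℝ)) (𝓝 (q, p)) := by
    refine Tendsto.prodMk_nhds ?_ ?_
    · have := hd.continuousAt.tendsto
      rw [h0] at this
      exact this.mono_left nhdsWithin_le_nhds
    · have h1 := (hasDerivAt_iff_tendsto_slope.1 hgd).const_smul (-(F q))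
      have h2 : -(F q) • fderiv ℝ g q p = p := by
        rw [neg_smul]
        exact (eq_neg_of_add_eq_zero_left hzero).symm
      rw [h2] at h1
      refine h1.congr fun s => ?_
      rw [slope_def_module, h0, hg0, sub_zero, sub_zero, smul_smul, div_eq_mul_inv]
  refine mem_closure_of_tendsto hlim ?_
  filter_upwards [nhdsWithin_le_nhds hS] with s hs
  exact ⟨hs, _, rfl⟩

end Pool.Agent.H73.CO
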