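import Pool.Agent.H73.CO.GKey

/-!
# Module GTan: tangent vectors of orbits (about 130 lines)

PROOF of `orbit_tan`. `G` is compact (closed and bounded, finite dimension). For every `k` choose `α k ∈ G` with `α k q = a k q` which minimises `‖α - 1‖` among all `α ∈ G` with `α q = a k q` (`IsCompact.exists_isMinOn`).
(1) `α k → 1`. Otherwise there are `ε > 0` and a subsequence with `‖α k - 1‖ ≥ ε`, and a further subsequence with `α k → α ∈ G`; `α q = lim a k q = q` (`a k q - q = s k • (..) → 0`). Let `β ∈ G`, `α β = 1 = β α`: `β q = q`, so `α k β ∈ G` maps `q` to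
`a k q`, so `‖α k - 1‖ ≤ ‖α k β - 1‖ → 0`. Contradiction.
(2) `r k = ‖α k - 1‖` satisfies `r k ≤ C s k` for some `C`. Otherwise a subsequence has `s k / r k → 0` (`r k > 0`) and a further one `(r k)⁻¹ • (α k - 1) → A`, `‖A‖ = 1`. `exp_mem` with `c = r⁻¹`: `exp (t • A) ∈ G` for all `t`. `A q = lim (r k)⁻¹ • (α k q - q) =
lim (s k / r k) • ((s k)⁻¹ • (a k q - q)) = 0`, so `exp (t • A) q = q` (derivative `exp (t A) (A q) = 0`, `exp_deriv`). `β k = α k * exp (-(r k) • A) ∈ G` maps `q` to `a k q`, so `r k ≤ ‖β k - 1‖`. But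
`β k - 1 = ((α k - 1) - r k • A) + α k * (exp (-(r k) • A) - 1 + r k • A) - r k • ((α k - 1) * A)` is `o(r k)`. Contradiction.
(3) So `(s k)⁻¹ • (α k - 1)` is bounded; a subsequence converges to some `A`; `exp_mem` with `c = s⁻¹ → ∞`; `A q = lim (s k)⁻¹ • (α k q - q) = p`. 
-/

set_option autoImplicit false

open scoped ContDiff Topology RealInnerProductSpace
open Set Filter

namespace Pool.Agent.H73.CO

open Pool.Agent.H57.NL Pool.Agent.H2.TG Pool.Agent.H2.TI

variable {m n : ℕ} {N : Set (E m)} {Pr : E m → (E m →L[ℝ] E m)} {F : E m → ℝ}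
  {g : E m → E m}

/-- `b k q → q` if the secants converge -/
private theorem GTan_lim {q p : E m} {b : ℕ → E m} {s : ℕ → ℝ} (hs : ∀ k, 0 < s k)
    (hs0 : Tendsto s atTop (𝓝 0)) (hp : Tendsto (fun k => (s k)⁻¹ • (b k - q)) atTop (𝓝 p)) :
    Tendsto b atTop (𝓝 q) := by
  have h1 : Tendsto (fun k => s k • ((s k)⁻¹ • (b k - q)) + q) atTop (𝓝 ((0 : ℝ) • p + q)) :=
    (hs0.smul hp).add tendsto_const_nhds
  rw [zero_smul, zero_add] at h1
  refine h1.congr fun k => ?_
  rw [smul_smul, mul_inv_cancel₀ (hs k).ne', one_smul, sub_add_cancel]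

private theorem GTan_compact {G : Set (E m →L[ℝ] E m)} (hG : RotG G) : IsCompact G := by
  refine Metric.isCompact_of_isClosed_isBounded hG.closed ?_
  refine (Metric.isBounded_iff_subset_closedBall (0 : E m →L[ℝ] E m)).2 ⟨1, fun a ha => ?_⟩
  rw [mem_closedBall_zero_iff]
  refine ContinuousLinearMap.opNorm_le_bound _ zero_le_one fun x => ?_
  rw [hG.isom a ha x, one_mul]

private theorem GTan_zs (A : E m →L[ℝ] E m) : (0 : ℝ) • A = 0 := by
  refine ContinuousLinearMap.ext fun x => ?_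
  change (0 : ℝ) • A x = 0
  exact zero_smul ℝ (A x)

private theorem GTan_fix {A : E m →L[ℝ] E m} {q : E m} (h : A q = 0) (t : ℝ) :
    NormedSpace.exp (t • A) q = q := by
  have h1 : ∀ t : ℝ, HasDerivAt (fun t : ℝ => NormedSpace.exp (t • A) q) 0 t := by
    intro t
    have h2 := (exp_deriv A q t).1
    rwa [h, map_zero] at h2
  have h2 : (fun t : ℝ => NormedSpace.exp (t • A) q) t =
      (fun t : ℝ => NormedSpace.exp (t • A) q) 0 :=
    is_const_of_deriv_eq_zero (fun t => (h1 t).differentiableAt) (fun t => (h1 t).deriv) t 0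
  simp only at h2
  rw [h2, GTan_zs, NormedSpace.exp_zero]
  rfl

private theorem GTan_exp (A : E m →L[ℝ] E m) {r : ℕ → ℝ} (hr : ∀ k, 0 < r k)
    (hr0 : Tendsto r atTop (𝓝 0)) :
    Tendsto (fun k => (r k)⁻¹ • (NormedSpace.exp ((-r k) • A) - 1)) atTop (𝓝 (-A)) := by
  have h1 : HasDerivAt (fun u : ℝ => NormedSpace.exp (u • A)) A 0 := by
    have h := hasDerivAt_exp_smul_const A (0 : ℝ)
    rwa [GTan_zs, NormedSpace.exp_zero, one_mul] at h
  rw [hasDerivAt_iff_tendsto_slope_zero] at h1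
  have h2 : Tendsto (fun k => -r k) atTop (𝓝[≠] (0 : ℝ)) := by
    rw [tendsto_nhdsWithin_iff]
    refine ⟨?_, Eventually.of_forall fun k => ?_⟩
    · simpa using hr0.neg
    · exact neg_ne_zero.2 (hr k).ne'
  have h3 := (h1.comp h2).neg
  refine h3.congr fun k => ?_
  simp only [Function.comp_apply, zero_add]
  rw [GTan_zs, NormedSpace.exp_zero, inv_neg, neg_smul, neg_neg]

theorem orbit_tan {G : Set (E m →L[ℝ] E m)} (hG : RotG G) {q p : E m}
    {a : ℕ → (E m →L[ℝ] E m)} {s : ℕ → ℝ} (ha : ∀ k, a k ∈ G) (hs : ∀ k, 0 < s k)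
    (hs0 : Tendsto s atTop (𝓝 0)) (hp : Tendsto (fun k => (s k)⁻¹ • (a k q - q)) atTop (𝓝 p)) :
    ∃ A : E m →L[ℝ] E m, (∀ t : ℝ, NormedSpace.exp (t • A) ∈ G) ∧ A q = p := by
  have hc := GTan_compact hG
  have hev : ∀ x : E m, Continuous fun α : E m →L[ℝ] E m => α x := fun x => by fun_prop
  have haq : Tendsto (fun k => a k q) atTop (𝓝 q) := GTan_lim hs hs0 hp
  -- the minimisers
  have hmin : ∀ k, ∃ α ∈ G, α q = a k q ∧ ∀ β ∈ G, β q = a k q → ‖α - 1‖ ≤ ‖β - 1‖ := by
    intro k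
    have h1 : IsCompact (G ∩ {α | α q = a k q}) :=
      hc.inter_right (isClosed_eq (hev q) continuous_const)
    obtain ⟨α, hα, hm⟩ := h1.exists_isMinOn ⟨a k, ha k, rfl⟩
      (f := fun α : E m →L[ℝ] E m => ‖α - 1‖) (by fun_prop)
    exact ⟨α, hα.1, hα.2, fun β hβ hβq => hm ⟨hβ, hβq⟩⟩
  choose α hαG hαq hαm using hmin
  -- (1)
  have h1 : Tendsto α atTop (𝓝 1) := by
    refine tendsto_of_subseq_tendsto fun ns hns => ?_
    obtain ⟨α', hα', φ, hφ, hlim⟩ := hc.tendsto_subseq (x := fun k => α (ns k)) fun k => hαG _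
    refine ⟨φ, ?_⟩
    have e1 : Tendsto (fun k => α (ns (φ k)) q) atTop (𝓝 (α' q)) :=
      ((hev q).tendsto α').comp hlim
    have e2 : Tendsto (fun k => α (ns (φ k)) q) atTop (𝓝 q) := by
      have e3 := haq.comp (hns.comp hφ.tendsto_atTop)
      refine e3.congr fun k => ?_
      exact (hαq (ns (φ k))).symm
    have e3 : α' q = q := tendsto_nhds_unique e1 e2
    obtain ⟨β, hβ, hαβ, hβα⟩ := hG.inv α' hα'
    have e4 : β q = q := by
      have h := congrArg (fun f : E m →L[ℝ] E m => f q) hβα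
      change β (α' q) = q at h
      rwa [e3] at h
    have e5 : Tendsto (fun k => ‖α (ns (φ k)) * β - 1‖) atTop (𝓝 0) := by
      have h2 : Tendsto (fun k => α (ns (φ k)) * β - 1) atTop (𝓝 (α' * β - 1)) :=
        (hlim.mul tendsto_const_nhds).sub tendsto_const_nhds
      rw [hαβ, sub_self] at h2
      simpa using h2.norm
    have e6 : Tendsto (fun k => ‖α (ns (φ k)) - 1‖) atTop (𝓝 0) :=
      squeeze_zero (fun k => norm_nonneg _) (fun k => hαm _ _ (hG.mul _ (hαG _) _ hβ) (by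
        change α (ns (φ k)) (β q) = a (ns (φ k)) q
        rw [e4, hαq])) e5
    exact tendsto_iff_norm_sub_tendsto_zero.2 e6
  -- (2)
  have h2 : ∃ C : ℝ, ∀ᶠ k in atTop, ‖α k - 1‖ ≤ C * s k := by
    by_contra hcon
    push Not at hcon
    obtain ⟨φ, hφ, hφr⟩ := extraction_forall_of_frequently
      (P := fun n k => (n : ℝ) * s k < ‖α k - 1‖) fun n => hcon n
    have hrpos : ∀ n, 0 < ‖α (φ n) - 1‖ := fun n =>
      lt_of_le_of_lt (mul_nonneg (Nat.cast_nonneg n) (hs _).le) (hφr n)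
    have hcs : IsCompact (Metric.sphere (0 : E m →L[ℝ] E m) 1) := isCompact_sphere _ _
    obtain ⟨A, hA, ψ, hψ, hlim⟩ := hcs.tendsto_subseq
      (x := fun n => (‖α (φ n) - 1‖)⁻¹ • (α (φ n) - 1)) fun n => by
        rw [mem_sphere_zero_iff_norm, norm_smul, norm_inv, norm_norm,
          inv_mul_cancel₀ (hrpos n).ne']
    obtain ⟨κ, hκ⟩ : ∃ κ : ℕ → ℕ, κ = fun n => φ (ψ n) := ⟨_, rfl⟩
    have hκm : Tendsto κ atTop atTop := by
      rw [hκ]
      exact hφ.tendsto_atTop.comp hψ.tendsto_atTop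
    obtain ⟨r, hr⟩ : ∃ r : ℕ → ℝ, r = fun n => ‖α (κ n) - 1‖ := ⟨_, rfl⟩
    have hr1 : ∀ n, 0 < r n := fun n => by
      rw [hr, hκ]
      exact hrpos (ψ n)
    have hακ : Tendsto (fun n => α (κ n)) atTop (𝓝 1) := h1.comp hκm
    have hr0 : Tendsto r atTop (𝓝 0) := by
      rw [hr]
      exact tendsto_iff_norm_sub_tendsto_zero.1 hακ
    have hw : Tendsto (fun n => (r n)⁻¹ • (α (κ n) - 1)) atTop (𝓝 A) := by
      rw [hr, hκ]
      exact hlim
    have hcinf : Tendsto (fun n => (r n)⁻¹) atTop atTop :=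
      tendsto_inv_nhdsGT_zero.comp
        (tendsto_nhdsWithin_iff.2 ⟨hr0, Eventually.of_forall fun n => hr1 n⟩)
    have hexp := exp_mem hG (fun n => hαG (κ n)) hcinf hw
    have hsr : Tendsto (fun n => (r n)⁻¹ * s (κ n)) atTop (𝓝 0) := by
      have h3 : Tendsto (fun n : ℕ => 1 / ((n : ℝ))) atTop (𝓝 0) := tendsto_one_div_atTop_nhds_zero_nat
      refine squeeze_zero' (Eventually.of_forall fun n =>
        mul_nonneg (inv_nonneg.2 (hr1 n).le) (hs _).le) ?_ (h3.comp hψ.tendsto_atTop)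
      filter_upwards [hψ.tendsto_atTop.eventually_ge_atTop 1] with n hn
      have h4 := hφr (ψ n)
      have h5 : (0 : ℝ) < ψ n := by exact_mod_cast hn
      have h6 : (ψ n : ℝ) * s (κ n) < r n := by
        rw [hr, hκ]
        exact h4
      rw [Function.comp_apply, inv_mul_le_iff₀ (hr1 n), ← div_eq_mul_one_div, le_div_iff₀ h5]
      linarith
    have hAq : A q = 0 := by
      have e1 : Tendsto (fun n => (r n)⁻¹ • (α (κ n) q - q)) atTop (𝓝 (A q)) := by
        have e0 := ((hev q).tendsto A).comp hw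
        exact e0
      have e2 : Tendsto (fun n => (r n)⁻¹ • (α (κ n) q - q)) atTop (𝓝 ((0 : ℝ) • p)) := by
        refine (hsr.smul (hp.comp hκm)).congr fun n => ?_
        rw [Function.comp_apply, smul_smul, mul_assoc, mul_inv_cancel₀ (hs _).ne', mul_one, hαq]
      rw [zero_smul] at e2
      exact tendsto_nhds_unique e1 e2
    have hfix := GTan_fix hAq
    have hlow : ∀ n, r n ≤ ‖α (κ n) * NormedSpace.exp ((-r n) • A) - 1‖ := by
      intro n
      have h3 := hαm (κ n) (α (κ n) * NormedSpace.exp ((-r n) • A))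
        (hG.mul _ (hαG _) _ (hexp _)) (by
          change α (κ n) (NormedSpace.exp ((-r n) • A) q) = a (κ n) q
          rw [hfix, hαq])
      rw [hr]
      rw [hr] at h3
      exact h3
    have hlim0 : Tendsto (fun n => (r n)⁻¹ • (α (κ n) * NormedSpace.exp ((-r n) • A) - 1)) atTop
        (𝓝 (A + 1 * (-A))) := by
      have h3 := hw.add (hακ.mul (GTan_exp A hr1 hr0))
      refine h3.congr fun n => ContinuousLinearMap.ext fun x => ?_
      change (r n)⁻¹ • (α (κ n) x - x) + α (κ n) ((r n)⁻¹ • (NormedSpace.exp ((-r n) • A) x - x)) =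
        (r n)⁻¹ • (α (κ n) (NormedSpace.exp ((-r n) • A) x) - x)
      rw [map_smul, map_sub, ← smul_add]
      congr 1
      abel
    rw [one_mul, add_neg_cancel] at hlim0
    have h3 := hlim0.norm
    rw [norm_zero] at h3
    have h4 : ∀ n, (1 : ℝ) ≤ ‖(r n)⁻¹ • (α (κ n) * NormedSpace.exp ((-r n) • A) - 1)‖ := by
      intro n
      rw [norm_smul, norm_inv, Real.norm_eq_abs, abs_of_pos (hr1 n)]
      rw [← div_eq_inv_mul, le_div_iff₀ (hr1 n), one_mul]
      exact hlow n
    have h5 := ge_of_tendsto' h3 h4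
    linarith
  -- (3)
  obtain ⟨C, hC⟩ := h2
  obtain ⟨A, -, φ, hφ, hlim⟩ := tendsto_subseq_of_frequently_bounded
    (Metric.isBounded_closedBall (x := (0 : E m →L[ℝ] E m)) (r := C))
    (x := fun k => (s k)⁻¹ • (α k - 1)) (by
      refine Eventually.frequently ?_
      filter_upwards [hC] with k hk
      rw [mem_closedBall_zero_iff, norm_smul, norm_inv, Real.norm_eq_abs, abs_of_pos (hs k),
        inv_mul_le_iff₀ (hs k), mul_comm]
      exact hk)
  have hw : Tendsto (fun n => (s (φ n))⁻¹ • (α (φ n) - 1)) atTop (𝓝 A) := hlim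
  have hcinf : Tendsto (fun n => (s (φ n))⁻¹) atTop atTop :=
    tendsto_inv_nhdsGT_zero.comp (tendsto_nhdsWithin_iff.2
      ⟨hs0.comp hφ.tendsto_atTop, Eventually.of_forall fun n => hs _⟩)
  refine ⟨A, exp_mem hG (fun n => hαG (φ n)) hcinf hw, ?_⟩
  have e1 : Tendsto (fun n => (s (φ n))⁻¹ • (α (φ n) q - q)) atTop (𝓝 (A q)) := by
    have e0 := ((hev q).tendsto A).comp hw
    exact e0
  have e2 : Tendsto (fun n => (s (φ n))⁻¹ • (α (φ n) q - q)) atTop (𝓝 p) := by
    refine (hp.comp hφ.tendsto_atTop).congr fun n => ?_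
    rw [Function.comp_apply, hαq]
  exact tendsto_nhds_unique e1 e2

end Pool.Agent.H73.CO
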