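import Pool.Agent.H73.CO.Main
import Pool.Agent.H73.CO.GTan
import Pool.Agent.H73.CO.GMom
import Pool.Agent.H73.CO.GReg
import Pool.Agent.H73.CO.GSing
import Pool.Agent.H73.CO.GEqv

/-!
# Theorem IV for group actions

If the levels of `F` are the orbits of a closed group `G` of linear isometries, then every closed
exact Lagrangian which is invariant under `G` is a union of covectors in the direction of `dF` and of
their limits; so Theorem IV applies, and the isotopy commutes with `G`.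
-/

set_option autoImplicit false

open scoped ContDiff Topology RealInnerProductSpace
open Set Filter

namespace Pool.Agent.H73.CO

open Pool.Agent.H57.NL Pool.Agent.H2.TG Pool.Agent.H2.TI

variable {m n : ℕ} {N : Set (E m)} {F : E m → ℝ} {g : E m → E m} {S : Set (E m × E m)}
  {f : E m × E m → ℝ} {G : Set (E m → E m)}

private theorem orth_zero {u : E m} (h : ⟪u, u⟫ = 0) : u = 0 := inner_self_eq_zero.1 h

/-- Maps which preserve the scalar product are linear isometries. -/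
theorem orth_lin {b : E m → E m} (hb : Orth b) :
    ∃ a : E m →L[ℝ] E m, (∀ x, a x = b x) ∧ ∀ x, ‖a x‖ = ‖x‖ := by
  have hadd : ∀ x y, b (x + y) = b x + b y := by
    intro x y
    have h1 : ⟪b (x + y) - (b x + b y), b (x + y) - (b x + b y)⟫ = 0 := by
      simp only [inner_sub_left, inner_sub_right, inner_add_left, inner_add_right, hb _ _]
      ring
    exact sub_eq_zero.1 (orth_zero h1)
  have hsmul : ∀ (t : ℝ) (x : E m), b (t • x) = t • b x := by
    intro t x
    have h1 : ⟪b (t • x) - t • b x, b (t • x) - t • b x⟫ = 0 := by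
      simp only [inner_sub_left, inner_sub_right, real_inner_smul_left, real_inner_smul_right,
        hb _ _]
      ring
    exact sub_eq_zero.1 (orth_zero h1)
  let l : E m →ₗ[ℝ] E m := { toFun := b, map_add' := hadd, map_smul' := hsmul }
  refine ⟨LinearMap.toContinuousLinearMap l, fun x => rfl, fun x => ?_⟩
  have h2 : ‖b x‖ ^ 2 = ‖x‖ ^ 2 := by
    rw [← real_inner_self_eq_norm_sq, ← real_inner_self_eq_norm_sq, hb]
  exact (sq_eq_sq₀ (norm_nonneg _) (norm_nonneg _)).1 h2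

theorem orth_inv {b : E m → E m} (hb : Orth b) : ∃ a c : E m →L[ℝ] E m,
    a * c = 1 ∧ c * a = 1 ∧ (∀ x, a x = b x) ∧ ∀ x, ‖a x‖ = ‖x‖ := by
  obtain ⟨a, hab, hn⟩ := orth_lin hb
  let l : E m →ₗᵢ[ℝ] E m := { a.toLinearMap with norm_map' := hn }
  let e : E m ≃ₗᵢ[ℝ] E m := l.toLinearIsometryEquiv rfl
  have he : ∀ x, e x = a x := fun x => rfl
  refine ⟨a, (e.symm.toContinuousLinearEquiv : E m →L[ℝ] E m), ?_, ?_, hab, hn⟩
  · ext1 x
    show a (e.symm x) = x
    rw [← he, e.apply_symm_apply]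
  · ext1 x
    show e.symm (a x) = x
    rw [← he, e.symm_apply_apply]

/-- The linear maps in `G`. -/
private def GS (G : Set (E m → E m)) : Set (E m →L[ℝ] E m) := {a | (fun x => a x) ∈ G}

private theorem GS_mem (hG : OrbitsAreLevels G N F) {b : E m → E m} (hb : b ∈ G) :
    ∃ a ∈ GS G, ∀ x, a x = b x := by
  obtain ⟨a, ha, -⟩ := orth_lin (hG.orth b hb)
  refine ⟨a, ?_, ha⟩
  have : (fun x => a x) = b := funext ha
  show (fun x => a x) ∈ G
  rw [this]
  exact hb

private theorem GS_rot (hG : OrbitsAreLevels G N F) : RotG (GS G) where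
  one := hG.one
  mul a ha b hb := hG.mul _ ha _ hb
  inv := by
    intro a ha
    obtain ⟨b, hb, hba⟩ := hG.inv _ ha
    obtain ⟨c, hc, hcb⟩ := hG.inv b hb
    obtain ⟨b', hb', hbb⟩ := GS_mem hG hb
    have h1 : ∀ x, b (a x) = x := fun x => congrFun hba x
    have h2 : ∀ x, c (b x) = x := fun x => congrFun hcb x
    have h3 : ∀ x, c x = a x := by
      intro x
      have := h2 (a x)
      rw [h1] at this
      exact this
    refine ⟨b', hb', ?_, ?_⟩
    · ext1 x
      show a (b' x) = x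
      rw [hbb, ← h3, h2]
    · ext1 x
      show b' (a x) = x
      rw [hbb, h1]
  isom := by
    intro a ha x
    obtain ⟨a', ha', hn⟩ := orth_lin (hG.orth _ ha)
    have h1 := hn x
    rw [ha'] at h1
    exact h1
  closed := by
    have h1 : Continuous fun a : E m →L[ℝ] E m => (fun x => a x : E m → E m) :=
      continuous_pi fun x => (ContinuousLinearMap.apply ℝ (E m) x).continuous
    exact hG.closed.preimage h1

theorem sub_MF (hN : ClosedMfd n N ⊥) (hF : Transnormal N F g) (hG : OrbitsAreLevels G N F)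
    (hL : ExactLag n N ⊥ S f) (hS : ∀ b ∈ G, ∀ z ∈ S, (b z.1, b z.2) ∈ S) : S ⊆ MF N g := by
  obtain ⟨Pr, g', h, -, hMF⟩ := exists_TD hN hF
  rw [← hMF]
  have hR := GS_rot hG
  have hS' : ∀ a ∈ GS G, ∀ z ∈ S, act a z ∈ S := fun a ha z hz => hS _ ha z hz
  rintro ⟨q, p⟩ hz
  have hT := hL.subTN hz
  have hq : q ∈ N := hT.1
  have hp : p ∈ Tan N q := hT.2
  have hLT : ∀ u ∈ LT N F q, ⟪p, u⟫ = 0 := by
    rintro u ⟨b, s, hb, hs, hu⟩
    have h0 : ∀ k, ∃ a ∈ GS G, a q = b k := by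
      intro k
      obtain ⟨a, ha, haq⟩ := hG.trans q hq (b k) (hb k).1 (hb k).2.1.symm
      obtain ⟨a', ha', h1⟩ := GS_mem hG ha
      exact ⟨a', ha', by rw [h1, haq]⟩
    choose a ha haq using h0
    have h1 : Tendsto (fun k => (s k)⁻¹ • (a k q - q)) atTop (𝓝 u) := by
      have h2 : (fun k => (s k)⁻¹ • (a k q - q)) = fun k => (s k)⁻¹ • (b k - q) := by
        funext k
        rw [haq k]
      rw [h2]
      exact hu
    obtain ⟨A, hA, hAq⟩ := orbit_tan hR ha (fun k => (hb k).2.2) hs h1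
    rw [← hAq]
    exact mom_zero hN hL hR hS' hA hz
  rcases (h.abs_le hq).lt_or_eq with hr | hr
  · exact mf_reg h hq hr hp hLT
  · refine mf_sing h hq ?_ hp hLT
    rw [← sq_abs, hr, one_pow]

theorem main_all (hN : ClosedMfd n N ⊥) (hF : Transnormal N F g) (hL : ExactLag n N ⊥ S f)
    (hS : S ⊆ MF N g ∨ ∃ G : Set (E m → E m), OrbitsAreLevels G N F ∧
      ∀ b ∈ G, ∀ z ∈ S, (b z.1, b z.2) ∈ S) :
    ∃ (Ψ Ψ' : ℝ → E m × E m → E m × E m) (H : ℝ → E m × E m → ℝ),
      HamIso N Ψ Ψ' H ∧ Ψ 1 '' {z | z.1 ∈ N ∧ z.2 = 0} = S ∧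
      (∀ s ∈ Icc (0 : ℝ) 1, Ψ s '' {z | z.1 ∈ N ∧ z.2 = 0} ⊆ MF N g) ∧
      ∀ b : E m → E m, Orth b → (∀ q, b q ∈ N ↔ q ∈ N) → (∀ q ∈ N, F (b q) = F q) →
        ∀ s, ∀ z ∈ TN N, Ψ s (b z.1, b z.2) = (b (Ψ s z).1, b (Ψ s z).2) := by
  have hM : S ⊆ MF N g := by
    rcases hS with h | ⟨G, hG, h⟩
    · exact h
    · exact sub_MF hN hF hG hL h
  obtain ⟨Ψ, Ψ', H, h1, h2, h3, K, -, h5⟩ := main_iv hN hF hL hM
  refine ⟨Ψ, Ψ', H, h1, h2, h3, fun b hb hbN hbF s z hz => ?_⟩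
  obtain ⟨Pr, g', h, -, -⟩ := exists_TD hN hF
  obtain ⟨a, c, e1, e2, hab, e3⟩ := orth_inv hb
  have e4 : ∀ q ∈ N, a q ∈ N := fun q hq => by rw [hab]; exact (hbN q).2 hq
  have e5 : ∀ q ∈ N, c q ∈ N := by
    intro q hq
    have h6 : b (c q) = q := by
      rw [← hab]
      exact congrArg (fun l : E m →L[ℝ] E m => l q) e1
    exact (hbN _).1 (by rw [h6]; exact hq)
  have e6 : ∀ q ∈ N, F (a q) = F q := fun q hq => by rw [hab]; exact hbF q hq
  have e7 : ∀ z ∈ TN N, QQ F g (act a z) = QQ F g z := fun z hz =>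
    QQ_act hN.sub hF e1 e2 e3 e4 e5 e6 hz
  have e8 : ∀ z ∈ TN N, act a z ∈ TN N := by
    rintro z ⟨hz1, γ, h0, hγ, hd⟩
    refine ⟨e4 _ hz1, fun s => a (γ s), by simp only [h0]; rfl, ?_, ?_⟩
    · filter_upwards [hγ] with s hs
      exact e4 _ hs
    · exact a.hasFDerivAt.comp_hasDerivAt (0 : ℝ) hd
  have e9 : ∀ s, ∀ z ∈ TN N, H s (act a z) = H s z := by
    intro s z hz
    rw [h5 s _ (e8 z hz), h5 s z hz, e7 z hz]
  have e10 := ham_equiv hN.sub h.proj h1 e1 e2 e3 e4 e5 e9 s hz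
  simp only [act, hab] at e10
  exact e10

end Pool.Agent.H73.CO
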