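import Pool.Agent.H73.CO.DefsG
import Pool.Agent.H2.TI.ITan
import Pool.Agent.H2.TI.IXH
import Pool.Agent.H2.TI.IInv
import Pool.Agent.H2.TI.Main

/-!
# Module GeoX: the geodesic flow (about 150 lines)

PROOF of `exists_geo`. `N ⊆ closedBall 0 r₀` (`closedMfd_compact`). Let `χ` be a `ContDiffBump (0 : E m × E m)` equal to `1` on the closed ball of radius
`ρ₀ = max r₀ |R| + 1` (sup norm of the product) with support in the ball of radius `ρ₀ + 1`, and `Y z = χ z • (z.2, fderiv ℝ Pr z.1 z.2 z.2)`: smooth, compact support, bounded.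
`exists_isFlow` gives `G` with `IsFlow Y G`: `smooth`, `zero`; `add` is `IsFlow.add` (`hΨ.add hX s t x : Ψ s (Ψ t x) = Ψ (s + t) x`).
`maps`: `Y z ∈ Tan (TN N) z` for `z ∈ TN N` (`tan_mk` with `a = z.2`, `b = 0` (`Tan` contains `0`: `IsSubmfd.tan_zero`), `Tan.smul`); a flow of a field tangent to a closed
submanifold preserves it: apply `tflow_maps` (H2/TI/IInv) with `T = TN N` (`TN_submfd`, `TN_closed`), `X (s, z) = Y z` (the flow of `(1, X)` on
`ℝ × (E × E)` is `(t, (s, z)) ↦ (s + t, G t z)`), or prove the closed-open argument again.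
`norm`: for `z ∈ TN N`, `u t = ‖(G t z).2‖²`: `u' = 2 ⟪(G t z).2, χ • fderiv ℝ Pr _ p p⟫ = 0` (`dpr_orth` with `v = p`, `G t z ∈ TN N`). So `u` is constant (no
condition on `R` needed). `der`: for `‖z.2‖ ≤ R` all `G t z` are in the ball where `χ = 1` (`(G t z).1 ∈ N`, norm of the second component `≤ R`), so
`Y (G t z) = (p, fderiv ℝ Pr q p p)`. `uniq`: such a curve satisfies `c' = Y (c t)`, since `χ (c t) = 1`; `IsFlow.unique`.
-/

set_option autoImplicit false

open scoped ContDiff Topology RealInnerProductSpace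
open Set Filter

namespace Pool.Agent.H73.CO

open Pool.Agent.H57.NL Pool.Agent.H2.TG Pool.Agent.H2.TI

variable {m n : ℕ} {N : Set (E m)} {Pr : E m → (E m →L[ℝ] E m)} {F : E m → ℝ}
  {g : E m → E m}

private lemma GeoX_bump {r₀ R : ℝ} : ∃ χ : E m × E m → ℝ, ContDiff ℝ ∞ χ ∧ HasCompactSupport χ ∧
    ∀ z : E m × E m, ‖z.1‖ ≤ r₀ → ‖z.2‖ ≤ R → χ z = 1 := by
  have h0 : 0 < |r₀| + |R| + 1 := by positivity
  let χ : ContDiffBump (0 : E m × E m) := ⟨|r₀| + |R| + 1, |r₀| + |R| + 2, h0, by linarith⟩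
  refine ⟨χ, χ.contDiff, χ.hasCompactSupport, fun z h1 h2 => ?_⟩
  refine χ.one_of_mem_closedBall ?_
  rw [mem_closedBall_zero_iff, Prod.norm_def]
  refine max_le ?_ ?_
  · show ‖z.1‖ ≤ |r₀| + |R| + 1
    have := le_abs_self r₀
    have := abs_nonneg R
    linarith
  · show ‖z.2‖ ≤ |r₀| + |R| + 1
    have := le_abs_self R
    have := abs_nonneg r₀
    linarith

theorem exists_geo (hN : ClosedMfd n N ⊥) (hPr : ProjN N Pr) (R : ℝ) : ∃ G, Geo N Pr R G := by
  obtain ⟨r₀, hr₀⟩ := (closedMfd_compact hN).isBounded.exists_norm_le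
  obtain ⟨χ, hχ1, hχ2, hχ3⟩ := GeoX_bump (m := m) (r₀ := r₀) (R := R)
  set Y : E m × E m → E m × E m := fun z => χ z • (z.2, fderiv ℝ Pr z.1 z.2 z.2) with hY
  have hYs : ContDiff ℝ ∞ Y := by
    have hDP : ContDiff ℝ ∞ (fun x : E m × E m => fderiv ℝ Pr x.1) :=
      (hPr.smooth.fderiv_right (m := ∞) (by simp)).comp contDiff_fst
    exact hχ1.smul (contDiff_snd.prodMk ((hDP.clm_apply contDiff_snd).clm_apply contDiff_snd))
  have hYc : HasCompactSupport Y := HasCompactSupport.smul_right hχ2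
  obtain ⟨K, hK⟩ := hYs.continuous.bounded_above_of_compact_support hYc
  obtain ⟨G, hG⟩ := exists_isFlow hYs hK
  have hYt : ∀ z ∈ TN N, Y z ∈ Tan (TN N) z := by
    intro z hz
    have h1 := tan_mk hN.sub hPr hz hz.2 (hN.sub.tan_zero hz.1)
    rw [add_zero] at h1
    exact Tan.smul h1 _
  have hmaps : ∀ t, ∀ z ∈ TN N, G t z ∈ TN N := by
    intro t z hz
    have hΦ : IsFlow (fun y : ℝ × (E m × E m) => ((1 : ℝ), Y y.2))
        (fun t y => (y.1 + t, G t y.2)) := by
      refine ⟨?_, ?_, ?_⟩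
      · intro y
        rw [add_zero, hG.zero]
      · intro y t
        exact ((hasDerivAt_id t).const_add y.1).prodMk (hG.deriv y.2 t)
      · have h1 : ContDiff ℝ ∞ (fun y : ℝ × (ℝ × (E m × E m)) => G y.1 y.2.2) :=
          hG.smooth.comp (contDiff_fst.prodMk (contDiff_snd.comp contDiff_snd))
        exact ((contDiff_fst.comp contDiff_snd).add contDiff_fst).prodMk h1
    exact tflow_maps (TN_submfd hN.sub) (TN_closed hN.sub hN.closed)
      (X := fun y : ℝ × (E m × E m) => Y y.2) (hYs.comp contDiff_snd) hΦ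
      (fun _ z hz => hYt z hz) t 0 hz
  have hnorm : ∀ t, ∀ z ∈ TN N, ‖(G t z).2‖ = ‖z.2‖ := by
    intro t z hz
    have h1 : ∀ t, HasDerivAt (fun t => ‖(G t z).2‖ ^ 2) 0 t := by
      intro t
      have h2 : HasDerivAt (fun t => (G t z).2) (Y (G t z)).2 t := (hG.deriv z t).snd
      have h3 := h2.norm_sq
      have hm := hmaps t z hz
      have h4 : ⟪(G t z).2, (Y (G t z)).2⟫ = 0 := by
        show ⟪(G t z).2, χ (G t z) • fderiv ℝ Pr (G t z).1 (G t z).2 (G t z).2⟫ = 0
        rw [inner_smul_right, real_inner_comm, dpr_orth hN.sub hPr hm.1 hm.2 hm.2 hm.2, mul_zero]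
      rw [h4, mul_zero] at h3
      exact h3
    have h2 := is_const_of_deriv_eq_zero (fun t => (h1 t).differentiableAt)
      (fun t => (h1 t).deriv) t 0
    simp only [hG.zero] at h2
    exact (sq_eq_sq₀ (norm_nonneg _) (norm_nonneg _)).1 h2
  refine ⟨G, hG.smooth, hG.zero, fun s t z => hG.add hYs s t z, hmaps,
    fun t z hz _ => hnorm t z hz, ?_, ?_⟩
  · intro t z hz hR
    have h1 := hG.deriv z t
    have hm := hmaps t z hz
    have h2 : χ (G t z) = 1 := hχ3 _ (hr₀ _ hm.1) (by rw [hnorm t z hz]; exact hR)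
    have h3 : Y (G t z) = ((G t z).2, fderiv ℝ Pr (G t z).1 (G t z).2 (G t z).2) := by
      show χ (G t z) • _ = _
      rw [h2, one_smul]
    rw [h3] at h1
    exact h1
  · intro c hc t
    refine hG.unique hYs (fun t => ?_) t
    obtain ⟨h1, h2, h3⟩ := hc t
    have h4 : χ (c t) = 1 := hχ3 _ (hr₀ _ h1.1) h2
    have h5 : Y (c t) = ((c t).2, fderiv ℝ Pr (c t).1 (c t).2 (c t).2) := by
      show χ (c t) • _ = _
      rw [h4, one_smul]
    rw [h5]
    exact h3

end Pool.Agent.H73.CO
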