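import Pool.Agent.H73.CO.DefsG

/-!
# Module GrA: two Gronwall lemmas (about 150 lines)

PROOFS.
* `gron_reg`: on `[x₀, b]` the function `w x * exp (-k x)` has derivative `(w' - k w) e^{-kx} ≤ 0`, so it is antitone and `≤ 0`; on `[a, x₀]` the function
  `w x * exp (k x)` has derivative `(w' + k w) e^{kx} ≥ 0`, monotone and `0` at `x₀`. With `0 ≤ w` this gives `w = 0`.
* `gron_sing`. Choose `0 < ε ≤ δ` small (see the end). Put `v x = u x / sin x ^ 2` for `x ∈ (0, ε]`, `v 0 = 0`. By `ho` and `sin x / x → 1`, `v` is continuous at `0`, so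
  `v` is continuous on `[0, ε]`; let `W = max v` on `[0, ε]`, `W ≥ 0`. For `x ∈ (0, ε]`: `|Y' t| ≤ √(u t) ≤ √W sin t ≤ √W sin x` for `t ∈ [0, x]`, so
  `|Y x| ≤ x √W sin x`. Derivative for `x ∈ (0, ε)`:
  `v' = (u' sin x - 2 u cos x)/sin³ x ≤ (2 (1 + C x) u + 2 sin x |Y| √u - 2 u cos x)/sin³ x = 2 v (1 - cos x + C x)/sin x + 2 |Y| √u / sin² x`.
  For `0 < x ≤ 1`: `1 - cos x ≤ x²/2 ≤ x`, `sin x ≥ x/2`, so `(1 - cos x + C x)/sin x ≤ 2 (1 + C)`; `√u = √v sin x ≤ √W sin x`; so
  `v' ≤ 4 (1 + C) W + 2 x W ≤ (4 C + 6) W =: k W`. Hence `x ↦ v x - k W x` is antitone on `[0, ε]` and `v x ≤ k W x ≤ k W ε`. Taking the maximum: `W ≤ k ε W`. With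
  `ε = min δ (1 / (2 k))`: `W ≤ W / 2`, `W = 0`. So `u = 0` on `[0, ε]`, `Y' = 0`, `Y = 0` there.
-/

set_option autoImplicit false

open scoped ContDiff Topology RealInnerProductSpace
open Set Filter

namespace Pool.Agent.H73.CO

open Pool.Agent.H57.NL Pool.Agent.H2.TG Pool.Agent.H2.TI

variable {m n : ℕ} {N : Set (E m)} {Pr : E m → (E m →L[ℝ] E m)} {F : E m → ℝ}
  {g : E m → E m}

private theorem GrA_hd {w w' : ℝ → ℝ} {x s : ℝ} (h1 : HasDerivAt w (w' x) x) :
    HasDerivAt (fun x => w x * Real.exp (s * x)) ((w' x + s * w x) * Real.exp (s * x)) x := by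
  have h2 : HasDerivAt (fun x : ℝ => Real.exp (s * x)) (Real.exp (s * x) * s) x := by
    have := ((hasDerivAt_id x).const_mul s).exp
    simpa using this
  have h3 := h1.mul h2
  have h4 : w' x * Real.exp (s * x) + w x * (Real.exp (s * x) * s) =
      (w' x + s * w x) * Real.exp (s * x) := by ring
  rw [← h4]
  exact h3

theorem gron_reg {w w' : ℝ → ℝ} {k a b x₀ : ℝ} (hx₀ : x₀ ∈ Icc a b)
    (hd : ∀ x ∈ Icc a b, HasDerivAt w (w' x) x) (hk : ∀ x ∈ Icc a b, |w' x| ≤ k * w x)
    (h0 : w x₀ = 0) (hpos : ∀ x ∈ Icc a b, 0 ≤ w x) : ∀ x ∈ Icc a b, w x = 0 := by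
  intro x hx
  rcases le_total x₀ x with h | h
  · have hanti : AntitoneOn (fun x => w x * Real.exp (-k * x)) (Icc x₀ b) := by
      apply antitoneOn_of_deriv_nonpos (convex_Icc _ _)
      · intro y hy
        exact (GrA_hd (s := -k) (hd y ⟨hx₀.1.trans hy.1, hy.2⟩)).continuousAt.continuousWithinAt
      · intro y hy
        rw [interior_Icc] at hy
        exact (GrA_hd (s := -k)
          (hd y ⟨hx₀.1.trans hy.1.le, hy.2.le⟩)).differentiableAt.differentiableWithinAt
      · intro y hy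
        rw [interior_Icc] at hy
        have hy' : y ∈ Icc a b := ⟨hx₀.1.trans hy.1.le, hy.2.le⟩
        rw [(GrA_hd (s := -k) (hd y hy')).deriv]
        apply mul_nonpos_of_nonpos_of_nonneg _ (Real.exp_pos _).le
        have h1 := hk y hy'
        have h2 := le_abs_self (w' y)
        linarith
    have h3 := hanti (left_mem_Icc.2 (h.trans hx.2)) ⟨h, hx.2⟩ h
    simp only [h0, zero_mul] at h3
    have h4 := hpos x hx
    have h5 := Real.exp_pos (-k * x)
    by_contra hne
    have h6 : 0 < w x := lt_of_le_of_ne h4 (Ne.symm hne)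
    have h7 := mul_pos h6 h5
    linarith
  · have hanti : MonotoneOn (fun x => w x * Real.exp (k * x)) (Icc a x₀) := by
      apply monotoneOn_of_deriv_nonneg (convex_Icc _ _)
      · intro y hy
        exact (GrA_hd (s := k) (hd y ⟨hy.1, hy.2.trans hx₀.2⟩)).continuousAt.continuousWithinAt
      · intro y hy
        rw [interior_Icc] at hy
        exact (GrA_hd (s := k)
          (hd y ⟨hy.1.le, hy.2.le.trans hx₀.2⟩)).differentiableAt.differentiableWithinAt
      · intro y hy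
        rw [interior_Icc] at hy
        have hy' : y ∈ Icc a b := ⟨hy.1.le, hy.2.le.trans hx₀.2⟩
        rw [(GrA_hd (s := k) (hd y hy')).deriv]
        apply mul_nonneg _ (Real.exp_pos _).le
        have h1 := hk y hy'
        have h2 := neg_abs_le (w' y)
        linarith
    have h3 := hanti ⟨hx.1, h⟩ (right_mem_Icc.2 (hx.1.trans h)) h
    simp only [h0, zero_mul] at h3
    have h4 := hpos x hx
    have h5 := Real.exp_pos (k * x)
    by_contra hne
    have h6 : 0 < w x := lt_of_le_of_ne h4 (Ne.symm hne)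
    have h7 := mul_pos h6 h5
    linarith

private theorem GrA_sin {x : ℝ} (h0 : 0 ≤ x) (h1 : x ≤ 1) : x / 2 ≤ Real.sin x := by
  rcases h0.eq_or_lt with h | h
  · rw [← h]; simp
  · have h2 := Real.sin_gt_sub_cube h
    have h3 : x ^ 3 ≤ x := by
      have : x ^ 2 ≤ 1 := by nlinarith
      nlinarith
    linarith

theorem gron_sing {u u' Y Y' : ℝ → ℝ} {C δ : ℝ} (hδ : 0 < δ) (hδ1 : δ ≤ 1) (hC : 0 ≤ C)
    (hu : ∀ x ∈ Icc 0 δ, HasDerivAt u (u' x) x) (hY : ∀ x ∈ Icc 0 δ, HasDerivAt Y (Y' x) x)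
    (hpos : ∀ x ∈ Icc 0 δ, 0 ≤ u x)
    (h1 : ∀ x ∈ Ioc 0 δ, Real.sin x * u' x ≤
      2 * (1 + C * x) * u x + 2 * Real.sin x * (|Y x| * √(u x)))
    (h2 : ∀ x ∈ Icc 0 δ, |Y' x| ≤ √(u x)) (hY0 : Y 0 = 0)
    (ho : u =o[𝓝[>] 0] fun x : ℝ => x ^ 2) :
    ∃ ε > 0, ∀ x ∈ Icc 0 ε, u x = 0 ∧ Y x = 0 := by
  -- `u 0 = 0`
  have hlim : Tendsto (fun x : ℝ => u x / x ^ 2) (𝓝[>] 0) (𝓝 0) := ho.tendsto_div_nhds_zero
  have hu0 : u 0 = 0 := by
    have ha : Tendsto u (𝓝[>] 0) (𝓝 (u 0)) :=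
      ((hu 0 ⟨le_rfl, hδ.le⟩).continuousAt.tendsto).mono_left nhdsWithin_le_nhds
    have hb : Tendsto u (𝓝[>] 0) (𝓝 0) := by
      have hc : Tendsto (fun x : ℝ => u x / x ^ 2 * x ^ 2) (𝓝[>] 0) (𝓝 (0 * 0 ^ 2)) := by
        apply hlim.mul
        have hc2 : Continuous fun x : ℝ => x ^ 2 := by fun_prop
        exact (hc2.tendsto 0).mono_left nhdsWithin_le_nhds
      rw [zero_mul] at hc
      refine hc.congr' ?_
      filter_upwards [self_mem_nhdsWithin] with x hx
      have hx' : (x : ℝ) ≠ 0 := ne_of_gt hx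
      field_simp
    exact tendsto_nhds_unique ha hb
  -- the constants
  set k : ℝ := 4 * C + 6 with hk
  have hk0 : 0 < k := by positivity
  obtain ⟨ε, hε0, hεδ, hεk⟩ : ∃ ε : ℝ, 0 < ε ∧ ε ≤ δ ∧ k * ε ≤ 1 / 2 := by
    refine ⟨min δ (1 / (2 * k)), lt_min hδ (by positivity), min_le_left _ _, ?_⟩
    have h3 : min δ (1 / (2 * k)) ≤ 1 / (2 * k) := min_le_right _ _
    calc k * min δ (1 / (2 * k)) ≤ k * (1 / (2 * k)) := mul_le_mul_of_nonneg_left h3 hk0.le
      _ = 1 / 2 := by field_simp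
  have hε1 : ε ≤ 1 := hεδ.trans hδ1
  have hsub : ∀ x ∈ Icc 0 ε, x ∈ Icc 0 δ := fun x hx => ⟨hx.1, hx.2.trans hεδ⟩
  have hsin : ∀ x ∈ Icc 0 ε, x / 2 ≤ Real.sin x := fun x hx => GrA_sin hx.1 (hx.2.trans hε1)
  have hsin0 : ∀ x ∈ Ioc 0 ε, 0 < Real.sin x := by
    intro x hx
    have h3 := hsin x ⟨hx.1.le, hx.2⟩
    have h4 := hx.1
    linarith
  -- the quotient
  set v : ℝ → ℝ := fun x => u x / Real.sin x ^ 2 with hv
  have hv0 : v 0 = 0 := by simp [hv]
  have huv : ∀ x ∈ Icc 0 ε, u x = v x * Real.sin x ^ 2 := by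
    intro x hx
    rcases hx.1.eq_or_lt with h | h
    · rw [← h, hu0]; simp
    · have h3 := (hsin0 x ⟨h, hx.2⟩).ne'
      simp only [hv]
      field_simp
  have hvpos : ∀ x ∈ Icc 0 ε, 0 ≤ v x := fun x hx =>
    div_nonneg (hpos x (hsub x hx)) (sq_nonneg _)
  have hvd : ∀ x ∈ Ioc 0 ε, HasDerivAt v ((u' x * Real.sin x ^ 2 -
      u x * (2 * Real.sin x * Real.cos x)) / (Real.sin x ^ 2) ^ 2) x := by
    intro x hx
    have h3 := (hu x (hsub x ⟨hx.1.le, hx.2⟩))
    have h4 : HasDerivAt (fun y : ℝ => Real.sin y ^ 2) (2 * Real.sin x * Real.cos x) x := by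
      have h5 := (Real.hasDerivAt_sin x).pow 2
      have h6 : ((2 : ℕ) : ℝ) * Real.sin x ^ (2 - 1) * Real.cos x =
          2 * Real.sin x * Real.cos x := by norm_num
      rw [h6] at h5
      exact h5
    exact h3.div h4 (pow_ne_zero 2 (hsin0 x hx).ne')
  have hvc : ContinuousOn v (Icc 0 ε) := by
    intro x hx
    rcases hx.1.eq_or_lt with h | h
    · rw [← h]
      have h3 : Tendsto v (𝓝[>] 0) (𝓝 0) := by
        have h4 : Tendsto (fun x : ℝ => 4 * (u x / x ^ 2)) (𝓝[>] 0) (𝓝 0) := by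
          have := hlim.const_mul 4
          rwa [mul_zero] at this
        have hev : ∀ᶠ x : ℝ in 𝓝[>] 0, x ∈ Ioc 0 ε := Ioc_mem_nhdsGT hε0
        refine tendsto_of_tendsto_of_tendsto_of_le_of_le' tendsto_const_nhds h4 ?_ ?_
        · filter_upwards [hev] with y hy
          exact hvpos y ⟨hy.1.le, hy.2⟩
        · filter_upwards [hev] with y hy
          have h5 := hsin y ⟨hy.1.le, hy.2⟩
          have h6 := hpos y (hsub y ⟨hy.1.le, hy.2⟩)
          have h7 : 0 < y := hy.1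
          have h8 := hsin0 y hy
          simp only [hv]
          rw [← mul_div_assoc, div_le_div_iff₀ (by positivity) (by positivity)]
          have h9 : y ^ 2 ≤ 4 * Real.sin y ^ 2 := by nlinarith
          nlinarith
      have h4 : ContinuousWithinAt v (Ioi 0) 0 := by
        rw [ContinuousWithinAt, hv0]; exact h3
      have h5 : ContinuousWithinAt v (Ici 0) 0 := by
        rw [← Ioi_insert]; exact h4.insert
      exact h5.mono Icc_subset_Ici_self
    · exact (hvd x ⟨h, hx.2⟩).continuousAt.continuousWithinAt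
  -- the maximum
  obtain ⟨z, hz, hmax⟩ := isCompact_Icc.exists_isMaxOn (nonempty_Icc.2 hε0.le) hvc
  set W : ℝ := v z with hW
  have hW0 : 0 ≤ W := hvpos z hz
  have hvW : ∀ x ∈ Icc 0 ε, v x ≤ W := fun x hx => hmax hx
  have hsn : ∀ x ∈ Icc 0 ε, 0 ≤ Real.sin x := by
    intro x hx
    have h3 := hsin x hx
    have h4 := hx.1
    linarith
  have hroot : ∀ x ∈ Icc 0 ε, √(u x) ≤ √W * Real.sin x := by
    intro x hx
    rw [huv x hx, Real.sqrt_mul (hvpos x hx), Real.sqrt_sq (hsn x hx)]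
    exact mul_le_mul_of_nonneg_right (Real.sqrt_le_sqrt (hvW x hx)) (hsn x hx)
  have hYb : ∀ x ∈ Icc 0 ε, |Y x| ≤ √W * Real.sin x * x := by
    intro x hx
    have h3 : ‖Y x - Y 0‖ ≤ (√W * Real.sin x) * ‖x - 0‖ := by
      apply Convex.norm_image_sub_le_of_norm_hasDerivWithin_le (f' := Y') (s := Icc 0 x)
      · intro t ht
        exact (hY t (hsub t ⟨ht.1, ht.2.trans hx.2⟩)).hasDerivWithinAt
      · intro t ht
        have ht' : t ∈ Icc 0 ε := ⟨ht.1, ht.2.trans hx.2⟩
        have h4 : Real.sin t ≤ Real.sin x := by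
          apply Real.sin_le_sin_of_le_of_le_pi_div_two _ _ ht.2
          · have := Real.pi_pos; have := ht.1; linarith
          · have := Real.pi_gt_three; have := hx.2; linarith
        calc ‖Y' t‖ ≤ √(u t) := h2 t (hsub t ht')
          _ ≤ √W * Real.sin t := hroot t ht'
          _ ≤ √W * Real.sin x := mul_le_mul_of_nonneg_left h4 (Real.sqrt_nonneg _)
      · exact convex_Icc _ _
      · exact ⟨le_rfl, hx.1⟩
      · exact ⟨hx.1, le_rfl⟩
    rw [hY0, sub_zero, sub_zero, Real.norm_eq_abs, Real.norm_eq_abs, abs_of_nonneg hx.1] at h3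
    exact h3
  -- the derivative bound
  have hder : ∀ x ∈ Ioc 0 ε, (u' x * Real.sin x ^ 2 -
      u x * (2 * Real.sin x * Real.cos x)) / (Real.sin x ^ 2) ^ 2 ≤ k * W := by
    intro x hx
    have hx' : x ∈ Icc 0 ε := ⟨hx.1.le, hx.2⟩
    have hs := hsin0 x hx
    have hx0 : 0 < x := hx.1
    have hx1 : x ≤ 1 := hx.2.trans hε1
    have h3 := h1 x ⟨hx.1, hx.2.trans hεδ⟩
    have h4 := hsin x hx'
    have h5 := hYb x hx'
    have h6 := hroot x hx'
    have hux : u x ≤ W * Real.sin x ^ 2 := by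
      rw [huv x hx']
      exact mul_le_mul_of_nonneg_right (hvW x hx') (sq_nonneg _)
    have hu0' := hpos x (hsub x hx')
    have hY2 : |Y x| * √(u x) ≤ W * Real.sin x ^ 2 * x := by
      calc |Y x| * √(u x) ≤ (√W * Real.sin x * x) * (√W * Real.sin x) :=
            mul_le_mul h5 h6 (Real.sqrt_nonneg _) (by positivity)
        _ = (√W * √W) * Real.sin x ^ 2 * x := by ring
        _ = W * Real.sin x ^ 2 * x := by rw [Real.mul_self_sqrt hW0]
    have hcos : 1 - Real.cos x ≤ x / 2 := by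
      have := Real.one_sub_sq_div_two_le_cos (x := x)
      nlinarith
    have hkey : Real.sin x * u' x - 2 * u x * Real.cos x ≤ k * W * Real.sin x ^ 3 := by
      have e1 : Real.sin x * u' x - 2 * u x * Real.cos x ≤
          2 * u x * (1 - Real.cos x + C * x) + 2 * Real.sin x * (W * Real.sin x ^ 2 * x) := by
        have : 2 * Real.sin x * (|Y x| * √(u x)) ≤ 2 * Real.sin x * (W * Real.sin x ^ 2 * x) :=
          mul_le_mul_of_nonneg_left hY2 (by positivity)
        nlinarith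
      have e2 : 1 - Real.cos x + C * x ≤ (1 + 2 * C) * Real.sin x := by
        have : C * x ≤ 2 * C * Real.sin x := by nlinarith
        nlinarith
      have e3 : 2 * u x * (1 - Real.cos x + C * x) ≤
          2 * (W * Real.sin x ^ 2) * ((1 + 2 * C) * Real.sin x) := by
        calc 2 * u x * (1 - Real.cos x + C * x) ≤ 2 * u x * ((1 + 2 * C) * Real.sin x) :=
              mul_le_mul_of_nonneg_left e2 (by positivity)
          _ ≤ 2 * (W * Real.sin x ^ 2) * ((1 + 2 * C) * Real.sin x) := by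
              apply mul_le_mul_of_nonneg_right _ (by positivity)
              linarith
      have e4 : 2 * Real.sin x * (W * Real.sin x ^ 2 * x) ≤
          2 * Real.sin x * (W * Real.sin x ^ 2 * 1) := by
        apply mul_le_mul_of_nonneg_left _ (by positivity)
        apply mul_le_mul_of_nonneg_left hx1 (by positivity)
      have e5 : 2 * (W * Real.sin x ^ 2) * ((1 + 2 * C) * Real.sin x) +
          2 * Real.sin x * (W * Real.sin x ^ 2 * 1) ≤ k * W * Real.sin x ^ 3 := by
        have : 0 ≤ W * Real.sin x ^ 3 := by positivity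
        rw [hk]
        nlinarith
      linarith
    rw [div_le_iff₀ (by positivity)]
    calc u' x * Real.sin x ^ 2 - u x * (2 * Real.sin x * Real.cos x)
        = Real.sin x * (Real.sin x * u' x - 2 * u x * Real.cos x) := by ring
      _ ≤ Real.sin x * (k * W * Real.sin x ^ 3) := mul_le_mul_of_nonneg_left hkey hs.le
      _ = k * W * (Real.sin x ^ 2) ^ 2 := by ring
  -- the comparison
  have hanti : AntitoneOn (fun x => v x - k * W * x) (Icc 0 ε) := by
    have hdd : ∀ x ∈ Ioo 0 ε, HasDerivAt (fun x => v x - k * W * x)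
        ((u' x * Real.sin x ^ 2 - u x * (2 * Real.sin x * Real.cos x)) / (Real.sin x ^ 2) ^ 2 -
          k * W) x := by
      intro x hx
      have h3 := (hvd x ⟨hx.1, hx.2.le⟩).sub ((hasDerivAt_id x).const_mul (k * W))
      rw [mul_one] at h3
      exact h3
    apply antitoneOn_of_deriv_nonpos (convex_Icc _ _)
    · exact hvc.sub (by fun_prop)
    · intro y hy
      rw [interior_Icc] at hy
      exact (hdd y hy).differentiableAt.differentiableWithinAt
    · intro y hy
      rw [interior_Icc] at hy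
      rw [(hdd y hy).deriv]
      have := hder y ⟨hy.1, hy.2.le⟩
      linarith
  have hWle : W ≤ k * W * z := by
    have h3 := hanti (left_mem_Icc.2 hε0.le) hz hz.1
    simp only [hv0, mul_zero, sub_zero] at h3
    linarith
  have hWz : W = 0 := by
    have h3 : k * W * z ≤ k * W * ε := mul_le_mul_of_nonneg_left hz.2 (by positivity)
    have h4 : k * W * ε = (k * ε) * W := by ring
    have h5 : (k * ε) * W ≤ 1 / 2 * W := mul_le_mul_of_nonneg_right hεk hW0
    linarith
  refine ⟨ε, hε0, fun x hx => ⟨?_, ?_⟩⟩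
  · rw [huv x hx]
    have h3 := hvW x hx
    have h4 := hvpos x hx
    rw [hWz] at h3
    have h5 : v x = 0 := le_antisymm h3 h4
    rw [h5, zero_mul]
  · have h3 := hYb x hx
    rw [hWz, Real.sqrt_zero, zero_mul, zero_mul] at h3
    exact abs_nonpos_iff.1 h3

end Pool.Agent.H73.CO
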