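import Pool.Agent.H73.CO.NgD

/-!
# Module LvP: short curves in the levels (about 140 lines)

PROOFS.
* `lvPr`: `lvPi G F g a q = (G (arccos a - arccos (F q)) (q, -(√(1 - F q ^ 2))⁻¹ • g q)).1`, where `G` is the geodesic flow (`exists_geo`, `R = 1`). For `q ∈ N`, `|F q| < 1`, `|a| < 1`: with
  `c` from `exists_ng_reg`, `θ₀ = arccos (F q)`, `sin θ₀ = √(1 - F q ^ 2)`, `deriv c θ₀ = -(sin θ₀)⁻¹ • g q` (`ng_der_reg`), so `lvPi .. = c (arccos a)` (`ng_geo`), hence it is in `N`, has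
  `F = a`, and equals `q` if `F q = a`. It is smooth at every `q` with `|F q| < 1` (`arccos` is smooth on `(-1, 1)`, `√` at positive numbers).
* `lev_path`: slice chart `e, A` of `N` at `q₀`; a ball `B` around `e q₀` in `e.target`, so small that `|F (e.symm y)| < 1` for `y ∈ B`. For `q ∈ N` near `q₀`: `e q ∈ B ∩ A`.
  `ζ : ℝ → ℝ` smooth, `0` for `s ≤ 0`, `1` for `s ≥ 1`, values in `[0, 1]` (`Real.smoothTransition`). `κ₀ s = e.symm (e q₀ + ζ s • (e q - e q₀)) ∈ N`; `κ s = lvPi G F g (F q₀) (κ₀ s)`: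
  smooth, in `N`, `F (κ s) = F q₀`, `κ s = q₀` for `s ≤ 0`, `κ s = q` for `s ≥ 1` (`F q = F q₀`).
-/

set_option autoImplicit false

open scoped ContDiff Topology RealInnerProductSpace
open Set Filter

namespace Pool.Agent.H73.CO

open Pool.Agent.H57.NL Pool.Agent.H2.TG Pool.Agent.H2.TI

variable {m n : ℕ} {N : Set (E m)} {Pr : E m → (E m →L[ℝ] E m)} {F : E m → ℝ}
  {g : E m → E m}

private noncomputable def LvP_pi (G : ℝ → E m × E m → E m × E m) (F : E m → ℝ) (g : E m → E m) (a : ℝ)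
    (q : E m) : E m :=
  (G (Real.arccos a - Real.arccos (F q)) (q, -((√(1 - F q ^ 2))⁻¹ • g q))).1

private lemma LvP_pos {x : ℝ} (hx : |x| < 1) : 0 < 1 - x ^ 2 := by
  have h1 := abs_lt.1 hx
  nlinarith [h1.1, h1.2]

private lemma LvP_pi_spec (h : TD n N Pr F g) {G : ℝ → E m × E m → E m × E m} (hG : Geo N Pr 1 G)
    {a : ℝ} (ha : |a| < 1) {q : E m} (hq : q ∈ N) (hr : |F q| < 1) :
    LvP_pi G F g a q ∈ N ∧ F (LvP_pi G F g a q) = a := by
  obtain ⟨c, hc, hcq⟩ := exists_ng_reg h hq hr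
  have hsin : Real.sin (Real.arccos (F q)) = √(1 - F q ^ 2) := Real.sin_arccos _
  have hs0 : 0 < √(1 - F q ^ 2) := Real.sqrt_pos.2 (LvP_pos hr)
  have hder := ng_der_reg hc (θ := Real.arccos (F q)) (by rw [hsin]; exact hs0.ne')
  rw [hsin, hcq] at hder
  have hgeo := ng_geo hG le_rfl hc.gc (Real.arccos (F q)) (Real.arccos a - Real.arccos (F q))
  rw [hder, hcq, add_sub_cancel] at hgeo
  have he : LvP_pi G F g a q = c (Real.arccos a) := (congrArg Prod.fst hgeo).symm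
  rw [he]
  refine ⟨hc.mem _, ?_⟩
  rw [hc.lev, Real.cos_arccos (abs_lt.1 ha).1.le (abs_lt.1 ha).2.le]

private lemma LvP_pi_self {G : ℝ → E m × E m → E m × E m} (hG : Geo N Pr 1 G) {q : E m} {a : ℝ}
    (hq : F q = a) : LvP_pi G F g a q = q := by
  unfold LvP_pi
  rw [hq, sub_self, hG.zero]

private lemma LvP_pi_smooth (h : TD n N Pr F g) {G : ℝ → E m × E m → E m × E m} (hG : Geo N Pr 1 G)
    (a : ℝ) {q : E m} (hr : |F q| < 1) : ContDiffAt ℝ ∞ (LvP_pi G F g a) q := by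
  have hF : ContDiffAt ℝ ∞ F q := h.trans.smooth.contDiffAt
  have hg : ContDiffAt ℝ ∞ g q := h.smooth.contDiffAt
  have h1 : ContDiffAt ℝ ∞ (fun q => Real.arccos (F q)) q :=
    (Real.contDiffAt_arccos (abs_lt.1 hr).1.ne' (abs_lt.1 hr).2.ne).comp q hF
  have h2 : ContDiffAt ℝ ∞ (fun q => √(1 - F q ^ 2)) q :=
    (contDiffAt_const.sub (hF.pow 2)).sqrt (LvP_pos hr).ne'
  have h3 : ContDiffAt ℝ ∞ (fun q => (√(1 - F q ^ 2))⁻¹) q :=
    h2.inv (Real.sqrt_pos.2 (LvP_pos hr)).ne'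
  have h4 : ContDiffAt ℝ ∞ (fun q => (Real.arccos a - Real.arccos (F q),
      (q, -((√(1 - F q ^ 2))⁻¹ • g q)))) q :=
    (contDiffAt_const.sub h1).prodMk (contDiffAt_id.prodMk (h3.smul hg).neg)
  exact contDiff_fst.contDiffAt.comp q (hG.smooth.contDiffAt.comp q h4)

theorem lev_path (h : TD n N Pr F g) {q₀ : E m} (hq₀ : q₀ ∈ N) (hr : |F q₀| < 1) :
    ∀ᶠ q in 𝓝 q₀, q ∈ N → F q = F q₀ → ∃ κ : ℝ → E m, ContDiff ℝ ∞ κ ∧ (∀ s, κ s ∈ N) ∧
      (∀ s, F (κ s) = F q₀) ∧ (∀ s ≤ 0, κ s = q₀) ∧ ∀ s, 1 ≤ s → κ s = q := by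
  obtain ⟨G, hG⟩ := exists_geo h.mfd h.proj 1
  obtain ⟨e, A, he, hsl⟩ := h.mfd.sub.slice hq₀
  have hO : IsOpen (e.target ∩ e.symm ⁻¹' {y | |F y| < 1}) :=
    e.symm.isOpen_inter_preimage (isOpen_lt h.trans.smooth.continuous.abs continuous_const)
  have hmem0 : e q₀ ∈ e.target ∩ e.symm ⁻¹' {y | |F y| < 1} := by
    refine ⟨e.map_source he, ?_⟩
    show |F (e.symm (e q₀))| < 1
    rw [e.left_inv he]
    exact hr
  obtain ⟨δ, hδ, hball⟩ := Metric.isOpen_iff.1 hO _ hmem0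
  have hev1 : ∀ᶠ q in 𝓝 q₀, q ∈ e.source := e.open_source.mem_nhds he
  have hev2 : ∀ᶠ q in 𝓝 q₀, e q ∈ Metric.ball (e q₀) δ :=
    (e.continuousAt he).eventually (Metric.ball_mem_nhds _ hδ)
  filter_upwards [hev1, hev2] with q hq1 hq2 hqN hqF
  set ζ : ℝ → ℝ := Real.smoothTransition with hζ
  have hζs : ContDiff ℝ ∞ ζ := Real.smoothTransition.contDiff
  set y : ℝ → E m := fun s => e q₀ + ζ s • (e q - e q₀) with hy
  have hys : ContDiff ℝ ∞ y := contDiff_const.add (hζs.smul contDiff_const)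
  have hyb : ∀ s, y s ∈ Metric.ball (e q₀) δ := by
    intro s
    rw [Metric.mem_ball, dist_eq_norm] at hq2 ⊢
    have h0 : 0 ≤ ζ s := Real.smoothTransition.nonneg s
    have h1 : ζ s ≤ 1 := Real.smoothTransition.le_one s
    have h2 : y s - e q₀ = ζ s • (e q - e q₀) := add_sub_cancel_left _ _
    rw [h2, norm_smul, Real.norm_eq_abs, abs_of_nonneg h0]
    have h3 := norm_nonneg (e q - e q₀)
    nlinarith
  have hyt : ∀ s, y s ∈ e.target := fun s => (hball (hyb s)).1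
  have hyF : ∀ s, |F (e.symm (y s))| < 1 := fun s => (hball (hyb s)).2
  have hyA : ∀ s, y s ∈ A := by
    intro s
    have h1 : e q₀ ∈ A := (hsl.iff q₀ he).1 hq₀
    have h2 : e q ∈ A := (hsl.iff q hq1).1 hqN
    exact A.add_mem h1 (A.smul_mem _ (A.sub_mem h2 h1))
  have hyN : ∀ s, e.symm (y s) ∈ N := by
    intro s
    rw [hsl.iff _ (e.map_target (hyt s)), e.right_inv (hyt s)]
    exact hyA s
  refine ⟨fun s => LvP_pi G F g (F q₀) (e.symm (y s)), ?_, ?_, ?_, ?_, ?_⟩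
  · rw [contDiff_iff_contDiffAt]
    intro s
    have h1 : ContDiffAt ℝ ∞ e.symm (y s) := hsl.s2.contDiffAt (e.open_target.mem_nhds (hyt s))
    have h2 : ContDiffAt ℝ ∞ (fun s => e.symm (y s)) s := h1.comp s hys.contDiffAt
    exact ContDiffAt.comp (g := LvP_pi G F g (F q₀)) s (LvP_pi_smooth h hG (F q₀) (hyF s)) h2
  · exact fun s => (LvP_pi_spec h hG hr (hyN s) (hyF s)).1
  · exact fun s => (LvP_pi_spec h hG hr (hyN s) (hyF s)).2
  · intro s hs
    have h1 : y s = e q₀ := by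
      simp only [hy, hζ, Real.smoothTransition.zero_of_nonpos hs, zero_smul, add_zero]
    show LvP_pi G F g (F q₀) (e.symm (y s)) = q₀
    rw [h1, e.left_inv he]
    exact LvP_pi_self hG rfl
  · intro s hs
    have h1 : y s = e q := by
      simp only [hy, hζ, Real.smoothTransition.one_of_one_le hs, one_smul, add_sub_cancel]
    show LvP_pi G F g (F q₀) (e.symm (y s)) = q
    rw [h1, e.left_inv hq1]
    exact LvP_pi_self hG hqF

end Pool.Agent.H73.CO
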