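import Pool.Agent.H73.CO.NgD
import Pool.Agent.H73.CO.Alg

/-!
# Module MFm: the points of `MF N g` (about 130 lines)

PROOFS.
* `ph_mem_MF`: if `sin z.re ≠ 0`: `ph c z = (c θ, ρ c' θ)` and `ρ c' θ = (-ρ / sin θ) • g (c θ)` (`ng_der_reg`): in the set. In general `ph c z = lim ph c (z + 1/k)` (real shift), and
  `sin (z.re + 1/k) ≠ 0` for all large `k` (`sin` has isolated zeros), `closure`.
* `mem_MF_iff`, from left to right: `z = lim z_k`, `(z_k).1 = q_k ∈ N`, `(z_k).2 = t_k • g q_k`. `c_k` from `exists_ng` with `c_k θ_k = q_k`, `θ_k = arccos (F q_k) ∈ [0, π]`. By `gr`: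
  `(z_k).2 = -(t_k sin θ_k) • deriv c_k θ_k =: ρ_k • deriv c_k θ_k`, `|ρ_k| = ‖(z_k).2‖` is bounded. Subsequence: `θ_k → θ`, `deriv c_k θ_k → v`, `ρ_k → ρ` (compactness), `ng_limit` gives `c`,
  and `z = (q, ρ v) = ph c ⟨θ, ρ⟩`.
-/

set_option autoImplicit false

open scoped ContDiff Topology RealInnerProductSpace
open Set Filter

namespace Pool.Agent.H73.CO

open Pool.Agent.H57.NL Pool.Agent.H2.TG Pool.Agent.H2.TI

variable {m n : ℕ} {N : Set (E m)} {Pr : E m → (E m →L[ℝ] E m)} {F : E m → ℝ}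
  {g : E m → E m}

variable {c : ℝ → E m}

private lemma MFm_reg (hc : NG N Pr F g c) {z : ℂ} (hz : Real.sin z.re ≠ 0) :
    ph c z ∈ {z : E m × E m | z.1 ∈ N ∧ ∃ t : ℝ, z.2 = t • g z.1} := by
  refine ⟨hc.mem _, -(z.im * (Real.sin z.re)⁻¹), ?_⟩
  show z.im • deriv c z.re = -(z.im * (Real.sin z.re)⁻¹) • g (c z.re)
  rw [ng_der_reg hc hz, smul_neg, smul_smul, neg_smul]

theorem ph_mem_MF (h : TD n N Pr F g) (hc : NG N Pr F g c) (z : ℂ) : ph c z ∈ MF N g := by
  by_cases hz : Real.sin z.re ≠ 0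
  · exact subset_closure (MFm_reg hc hz)
  · rw [not_not] at hz
    have hcos : Real.cos z.re ≠ 0 := by
      intro h0
      have h1 := Real.sin_sq_add_cos_sq z.re
      rw [hz, h0] at h1
      norm_num at h1
    have ht : Tendsto (fun k : ℕ => ((1 / ((k : ℝ) + 1) : ℝ) : ℂ)) atTop (𝓝 ((0 : ℝ) : ℂ)) :=
      (Complex.continuous_ofReal.tendsto 0).comp tendsto_one_div_add_atTop_nhds_zero_nat
    have ht2 : Tendsto (fun k : ℕ => z + ((1 / ((k : ℝ) + 1) : ℝ) : ℂ)) atTop (𝓝 z) := by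
      have h1 := ht.const_add z
      rwa [Complex.ofReal_zero, add_zero] at h1
    have ht3 : Tendsto (fun k : ℕ => ph c (z + ((1 / ((k : ℝ) + 1) : ℝ) : ℂ))) atTop
        (𝓝 (ph c z)) := ((ph_smooth hc).continuous.tendsto z).comp ht2
    refine mem_closure_of_tendsto ht3 (Eventually.of_forall fun k => MFm_reg hc ?_)
    have h0 : (0 : ℝ) < 1 / ((k : ℝ) + 1) := by positivity
    have h1 : 1 / ((k : ℝ) + 1) ≤ 1 := by
      rw [div_le_one (by positivity)]
      have : (0 : ℝ) ≤ k := Nat.cast_nonneg k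
      linarith
    have h2 : 0 < Real.sin (1 / ((k : ℝ) + 1)) :=
      Real.sin_pos_of_pos_of_lt_pi h0 (by linarith [Real.pi_gt_three])
    rw [Complex.add_re, Complex.ofReal_re, Real.sin_add, hz, zero_mul, zero_add]
    exact mul_ne_zero hcos h2.ne'

theorem mem_MF_iff (h : TD n N Pr F g) {z : E m × E m} :
    z ∈ MF N g ↔ ∃ (c : ℝ → E m) (w : ℂ), NG N Pr F g c ∧ z = ph c w := by
  constructor
  · intro hz
    obtain ⟨x, hx, hlim⟩ := mem_closure_iff_seq_limit.1 hz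
    choose hN t ht using hx
    choose cs hcs hcq using fun k => exists_ng h (hN k)
    obtain ⟨θs, hθs⟩ : ∃ θs : ℕ → ℝ, θs = fun k => Real.arccos (F (x k).1) := ⟨_, rfl⟩
    obtain ⟨ρs, hρs⟩ : ∃ ρs : ℕ → ℝ, ρs = fun k => -(t k * Real.sin (θs k)) := ⟨_, rfl⟩
    have hcq' : ∀ k, cs k (θs k) = (x k).1 := fun k => by rw [hθs]; exact hcq k
    have hx2 : ∀ k, (x k).2 = ρs k • deriv (cs k) (θs k) := fun k => by
      rw [ht k, ← hcq' k, (hcs k).gr, hρs, smul_neg, smul_smul, neg_smul]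
    have hnorm : ∀ k, |ρs k| = ‖(x k).2‖ := fun k => by
      rw [hx2 k, norm_smul, (hcs k).unit, mul_one, Real.norm_eq_abs]
    have hl1 : Tendsto (fun k => (x k).1) atTop (𝓝 z.1) := (continuous_fst.tendsto z).comp hlim
    have hl2 : Tendsto (fun k => (x k).2) atTop (𝓝 z.2) := (continuous_snd.tendsto z).comp hlim
    obtain ⟨R, hR⟩ : ∃ R : ℝ, ∀ k, |ρs k| ≤ R := by
      obtain ⟨R, hR⟩ := hl2.norm.bddAbove_range
      refine ⟨R, fun k => ?_⟩
      rw [hnorm k]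
      exact hR ⟨k, rfl⟩
    have hK : IsCompact (Icc (0 : ℝ) Real.pi ×ˢ (Metric.closedBall (0 : E m) 1 ×ˢ Icc (-R) R)) :=
      isCompact_Icc.prod ((isCompact_closedBall _ _).prod isCompact_Icc)
    obtain ⟨a, -, φ, hφ, hφl⟩ := hK.tendsto_subseq
      (x := fun k => (θs k, (deriv (cs k) (θs k), ρs k))) (fun k => by
        refine ⟨?_, ?_, ?_⟩
        · rw [hθs]
          exact ⟨Real.arccos_nonneg _, Real.arccos_le_pi _⟩
        · rw [mem_closedBall_zero_iff]
          exact ((hcs k).unit _).le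
        · exact abs_le.1 (hR k))
    obtain ⟨θ, v, ρ⟩ := a
    have g1 : Tendsto (fun k => θs (φ k)) atTop (𝓝 θ) := (continuous_fst.tendsto _).comp hφl
    have g2 : Tendsto (fun k => deriv (cs (φ k)) (θs (φ k))) atTop (𝓝 v) :=
      ((continuous_fst.comp continuous_snd).tendsto _).comp hφl
    have g3 : Tendsto (fun k => ρs (φ k)) atTop (𝓝 ρ) :=
      ((continuous_snd.comp continuous_snd).tendsto _).comp hφl
    have g4 : Tendsto (fun k => cs (φ k) (θs (φ k))) atTop (𝓝 z.1) := by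
      have h1 := hl1.comp hφ.tendsto_atTop
      refine h1.congr fun k => ?_
      exact (hcq' (φ k)).symm
    obtain ⟨c, hc, hcθ, hcv⟩ := ng_limit h (fun k => hcs (φ k)) g1 g4 g2
    refine ⟨c, ⟨θ, ρ⟩, hc, ?_⟩
    have g5 : Tendsto (fun k => (x (φ k)).2) atTop (𝓝 z.2) := hl2.comp hφ.tendsto_atTop
    have g6 : Tendsto (fun k => (x (φ k)).2) atTop (𝓝 (ρ • v)) := by
      refine (g3.smul g2).congr fun k => ?_
      exact (hx2 (φ k)).symm
    have g7 := tendsto_nhds_unique g5 g6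
    unfold ph
    apply Prod.ext
    · exact hcθ.symm
    · show z.2 = ρ • deriv c θ
      rw [g7, hcv]
  · rintro ⟨c, w, hc, rfl⟩
    exact ph_mem_MF h hc w

end Pool.Agent.H73.CO
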