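import Pool.Agent.H73.CO.Fin
import Pool.Agent.H73.CO.CiF
import Pool.Agent.H86.PL.Main

/-!
# Theorem IV: assembly
-/

set_option autoImplicit false

open scoped ContDiff Topology RealInnerProductSpace
open Set Filter

namespace Pool.Agent.H73.CO

open Pool.Agent.H57.NL Pool.Agent.H2.TG Pool.Agent.H2.TI

variable {m n : ℕ} {N : Set (E m)} {F : E m → ℝ} {g : E m → E m} {S : Set (E m × E m)}
  {f : E m × E m → ℝ}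

theorem main_iv (hN : ClosedMfd n N ⊥) (hF : Transnormal N F g) (hL : ExactLag n N ⊥ S f)
    (hM : S ⊆ MF N g) : ∃ (Ψ Ψ' : ℝ → E m × E m → E m × E m) (H : ℝ → E m × E m → ℝ),
      HamIso N Ψ Ψ' H ∧ Ψ 1 '' {z | z.1 ∈ N ∧ z.2 = 0} = S ∧
      (∀ s ∈ Icc (0 : ℝ) 1, Ψ s '' {z | z.1 ∈ N ∧ z.2 = 0} ⊆ MF N g) ∧
      ∃ K : ℝ → ℝ × ℝ × ℝ → ℝ, (ContDiff ℝ ∞ fun x : ℝ × (ℝ × ℝ × ℝ) => K x.1 x.2) ∧
        ∀ s, ∀ z ∈ TN N, H s z = K s (QQ F g z) := by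
  obtain ⟨Pr, g', h, hg, hMF⟩ := exists_TD hN hF
  have hQ : ∀ z ∈ TN N, QQ F g' z = QQ F g z := by
    intro z hz
    unfold QQ
    rw [hg z.1 hz.1]
  rw [← hMF] at hM ⊢
  obtain ⟨q, hq, -⟩ := hF.reg
  obtain ⟨c, hc, -⟩ := exists_ng h hq
  obtain ⟨γ, hγ, hr⟩ := curve_of_planeSet (prof_planeSet h hL hM hc)
  obtain ⟨K, Z, hZ⟩ := Pool.Agent.H86.PL.planar_main hγ
  obtain ⟨Ψ, Ψ', H, h1, h2, h3, K', h4, h5⟩ := fin h hL hM hc hr hZ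
  exact ⟨Ψ, Ψ', H, h1, h2, h3, K', h4, fun s z hz => by rw [h5 s z hz, hQ z hz]⟩

end Pool.Agent.H73.CO
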