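import Pool.Agent.H73.CO.NgO
import Pool.Agent.H73.CO.GrA
import Pool.Agent.H73.CO.GeoX

/-!
# Module NgQ: the defects vanish near a singular parameter (about 180 lines)

PROOFS.
* `hess_sign`: `q ∈ N`, `F q = ε`, `ε² = 1`, `v ∈ Tan N q`: `ε ⟪fderiv ℝ g q v, v⟫ ≤ 0`. For `v ≠ 0` scale to `‖v‖ = 1` (both sides are homogeneous of degree 2). `g q = 0` (`norm`).
  Geodesic `c` with `c 0 = q`, `c' 0 = v` (`exists_geo` with `R = 1`, `c t = (G t (q, v)).1`; `deriv c t = (G t (q, v)).2`). `a t = ε F (c t) ≤ 1` (`TD.abs_le`) `= a 0`;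
  `a' = ε ⟪g (c t), c' t⟫`, `a'' (0) = ε (⟪Dg v, v⟫ + ⟪g q, c''⟫) = ε ⟪Dg v, v⟫`. If it were positive, `a' > 0` on some `(0, η)`, so `a` would be larger than `1`.
* `ng_sing_loc`. `ε := F (c θ₁) = cos θ₁` (`h1`), `ε² = 1` since `sin θ₁ = 0`. Operators `A θ = ε • Pr (c θ) ∘ fderiv ℝ g (c θ) ∘ Pr (c θ)` (smooth in `θ`, so
  `‖A θ - A θ₁‖ ≤ C |θ - θ₁|` for `|θ - θ₁| ≤ 1`). For `w ∈ Tan N (c θ)`: `⟪A θ w, w⟫ = ε ⟪fderiv ℝ g (c θ) w, w⟫` (`pr_self`, `hPr.orth`). `⟪A θ₁ w, w⟫ ≤ 0` for ALL `w` (`hess_sign` for `Pr w`).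
  So `ε ⟪Dg(c θ) X, X⟫ ≤ C |θ - θ₁| ‖X‖²` for `X = XX g c θ`; `ε F (c θ) ≤ 1`. `sin (θ₁ + x) = ε sin x`, `cos θ₁ = ε`.
  RIGHT SIDE: `u x = ‖XX g c (θ₁ + x)‖²`, `Y x = YY F c (θ₁ + x)`, `u' x = 2 ⟪X, X'⟫`. `XX_ode` times `2 ε`: `sin x u' = 2 ε ⟪Dg X, X⟫ + 2 ε F u - 2 sin x Y ⟪c', X⟫
  ≤ 2 (1 + C x) u + 2 sin x |Y| √u` for `0 < x ≤ 1`. `|Y'| = |⟪X, c'⟫| ≤ √u`. `u = o(x²)`: `XX g c` has value `0` and derivative `0` at `θ₁` (`h2`). `gron_sing` with `δ = 1`.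
  LEFT SIDE: the same for `u(-x)`, `Y(-x)`: with `θ = θ₁ - x`, `sin θ = -ε sin x`, `d/dx ‖X(θ₁ - x)‖² = -2 ⟪X, X'⟫`, so `sin x d/dx u(-x) = 2 ε sin θ ⟪X, X'⟫`, the same estimate.
-/

set_option autoImplicit false

open scoped ContDiff Topology RealInnerProductSpace
open Set Filter

namespace Pool.Agent.H73.CO

open Pool.Agent.H57.NL Pool.Agent.H2.TG Pool.Agent.H2.TI

variable {m n : ℕ} {N : Set (E m)} {Pr : E m → (E m →L[ℝ] E m)} {F : E m → ℝ}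
  {g : E m → E m}

variable {c : ℝ → E m}

theorem hess_sign (h : TD n N Pr F g) {q v : E m} (hq : q ∈ N) (hF : F q ^ 2 = 1)
    (hv : v ∈ Tan N q) : F q * ⟪fderiv ℝ g q v, v⟫ ≤ 0 := by
  have hg0 : g q = 0 := by
    have h1 := h.trans.norm q hq
    rw [hF, sub_self] at h1
    exact norm_eq_zero.1 (pow_eq_zero_iff two_ne_zero |>.1 h1)
  obtain ⟨G, hG⟩ := exists_geo h.mfd h.proj ‖v‖
  have hz : (q, v) ∈ TN N := ⟨hq, hv⟩
  have hT : ∀ t, G t (q, v) ∈ TN N := fun t => hG.maps t _ hz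
  have hder : ∀ t, HasDerivAt (fun t => G t (q, v)) ((G t (q, v)).2,
      fderiv ℝ Pr (G t (q, v)).1 (G t (q, v)).2 (G t (q, v)).2) t :=
    fun t => hG.der t _ hz le_rfl
  have hc1 : ∀ t, HasDerivAt (fun t => (G t (q, v)).1) (G t (q, v)).2 t := fun t => by
    have h1 := (ContinuousLinearMap.fst ℝ (E m) (E m)).hasFDerivAt.comp_hasDerivAt t (hder t)
    exact h1
  have hc2 : ∀ t, HasDerivAt (fun t => (G t (q, v)).2)
      (fderiv ℝ Pr (G t (q, v)).1 (G t (q, v)).2 (G t (q, v)).2) t := fun t => by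
    have h1 := (ContinuousLinearMap.snd ℝ (E m) (E m)).hasFDerivAt.comp_hasDerivAt t (hder t)
    exact h1
  have ha : ∀ t, HasDerivAt (fun t => F q * F (G t (q, v)).1)
      (F q * ⟪g (G t (q, v)).1, (G t (q, v)).2⟫) t := by
    intro t
    have h1 : HasDerivAt (fun t => F (G t (q, v)).1)
        (fderiv ℝ F (G t (q, v)).1 (G t (q, v)).2) t :=
      ((h.trans.smooth.differentiable (by simp) (G t (q, v)).1).hasFDerivAt).comp_hasDerivAt t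
        (hc1 t)
    rw [h.dF (hT t).1 (hT t).2] at h1
    exact h1.const_mul (F q)
  have hd1 : deriv (fun t => F q * F (G t (q, v)).1) =
      fun t => F q * ⟪g (G t (q, v)).1, (G t (q, v)).2⟫ := funext fun t => (ha t).deriv
  have hz0 : G 0 (q, v) = (q, v) := hG.zero _
  have hgc : HasDerivAt (fun t => g (G t (q, v)).1) (fderiv ℝ g q v) 0 := by
    have h1 := ((h.smooth.differentiable (by simp) (G 0 (q, v)).1).hasFDerivAt).comp_hasDerivAt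
      (0 : ℝ) (hc1 0)
    rw [hz0] at h1
    exact h1
  have hd2 : HasDerivAt (fun t => F q * ⟪g (G t (q, v)).1, (G t (q, v)).2⟫)
      (F q * ⟪fderiv ℝ g q v, v⟫) 0 := by
    have h1 := (hgc.inner ℝ (hc2 0)).const_mul (F q)
    rw [hz0] at h1
    simpa [hg0] using h1
  by_contra hneg
  push Not at hneg
  have hdd : deriv (deriv fun t => F q * F (G t (q, v)).1) 0 = F q * ⟪fderiv ℝ g q v, v⟫ := by
    rw [hd1]
    exact hd2.deriv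
  have hd0 : deriv (fun t => F q * F (G t (q, v)).1) 0 = 0 := by
    rw [hd1]
    simp [hz0, hg0]
  have hmin : IsLocalMin (fun t => F q * F (G t (q, v)).1) 0 :=
    isLocalMin_of_deriv_deriv_pos (by rw [hdd]; exact hneg) hd0 (ha 0).continuousAt
  have hle : ∀ t, F q * F (G t (q, v)).1 ≤ 1 := by
    intro t
    have h1 := h.abs_le (hT t).1
    have h2 := h.abs_le hq
    calc F q * F (G t (q, v)).1 ≤ |F q * F (G t (q, v)).1| := le_abs_self _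
      _ = |F q| * |F (G t (q, v)).1| := abs_mul _ _
      _ ≤ 1 * 1 := mul_le_mul h2 h1 (abs_nonneg _) zero_le_one
      _ = 1 := one_mul _
  have hone : F q * F (G 0 (q, v)).1 = 1 := by
    rw [hz0]
    show F q * F q = 1
    rw [← sq, hF]
  have hconst : (fun t => F q * F (G t (q, v)).1) =ᶠ[𝓝 0] fun _ => 1 := by
    have h3 : ∀ᶠ t in 𝓝 (0 : ℝ), F q * F (G 0 (q, v)).1 ≤ F q * F (G t (q, v)).1 := hmin
    filter_upwards [h3] with t ht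
    rw [hone] at ht
    exact le_antisymm (hle t) ht
  have h4 : deriv (deriv fun t => F q * F (G t (q, v)).1) 0 = 0 := by
    rw [(hconst.deriv).deriv_eq]
    simp
  rw [hdd] at h4
  rw [h4] at hneg
  exact lt_irrefl _ hneg

/-- the Hessian at a singular parameter bounds the Hessian at the parameters close to it -/
private lemma ngq_bound (h : TD n N Pr F g) (hc : GC N Pr c) {θ₁ : ℝ}
    (hF : F (c θ₁) ^ 2 = 1) :
    ∃ C : ℝ, 0 ≤ C ∧ ∃ δ : ℝ, 0 < δ ∧ ∀ θ, |θ - θ₁| ≤ δ → ∀ w ∈ Tan N (c θ),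
      F (c θ₁) * ⟪fderiv ℝ g (c θ) w, w⟫ ≤ C * |θ - θ₁| * ‖w‖ ^ 2 := by
  obtain ⟨A, hAdef⟩ : ∃ A : ℝ → (E m →L[ℝ] E m), A = fun θ =>
      (Pr (c θ)).comp ((fderiv ℝ g (c θ)).comp (Pr (c θ))) := ⟨_, rfl⟩
  have hPc : ContDiff ℝ 1 fun θ => Pr (c θ) :=
    (h.proj.smooth.comp hc.smooth).of_le (by exact_mod_cast le_top)
  have hgc : ContDiff ℝ 1 fun θ => fderiv ℝ g (c θ) :=
    ((h.smooth.fderiv_right (m := ∞) (by simp)).comp hc.smooth).of_le (by exact_mod_cast le_top)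
  have hA : ContDiff ℝ 1 A := by
    rw [hAdef]
    exact hPc.clm_comp (hgc.clm_comp hPc)
  have hO := ((hA.differentiable one_ne_zero) θ₁).isBigO_sub
  obtain ⟨C, hC0, hC⟩ := hO.exists_nonneg
  obtain ⟨δ, hδ, hδb⟩ := Metric.eventually_nhds_iff.1 hC.bound
  refine ⟨C, hC0, δ / 2, half_pos hδ, fun θ hθ w hw => ?_⟩
  have hb : ‖A θ - A θ₁‖ ≤ C * |θ - θ₁| := by
    have h1 := hδb (y := θ) (by rw [Real.dist_eq]; linarith)
    rwa [Real.norm_eq_abs] at h1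
  have e1 : ⟪A θ w, w⟫ = ⟪fderiv ℝ g (c θ) w, w⟫ := by
    rw [hAdef]
    show ⟪Pr (c θ) (fderiv ℝ g (c θ) (Pr (c θ) w)), w⟫ = _
    rw [pr_self h.mfd.sub h.proj (hc.mem θ) hw, h.proj.orth _ (hc.mem θ) _ _ hw]
  have e2 : ⟪A θ₁ w, w⟫ = ⟪fderiv ℝ g (c θ₁) (Pr (c θ₁) w), Pr (c θ₁) w⟫ := by
    rw [hAdef]
    show ⟪Pr (c θ₁) (fderiv ℝ g (c θ₁) (Pr (c θ₁) w)), w⟫ = _
    rw [real_inner_comm, ← h.proj.orth _ (hc.mem θ₁) w _ (h.proj.mem _ (hc.mem θ₁) _),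
      real_inner_comm, h.proj.orth _ (hc.mem θ₁) _ _ (h.proj.mem _ (hc.mem θ₁) w)]
  have h3 := hess_sign h (hc.mem θ₁) hF (h.proj.mem _ (hc.mem θ₁) w)
  have hF1 : |F (c θ₁)| ≤ 1 := h.abs_le (hc.mem θ₁)
  have e3 : F (c θ₁) * ⟪fderiv ℝ g (c θ) w, w⟫ =
      F (c θ₁) * ⟪fderiv ℝ g (c θ₁) (Pr (c θ₁) w), Pr (c θ₁) w⟫ +
        F (c θ₁) * ⟪(A θ - A θ₁) w, w⟫ := by
    rw [← e1, ← e2]
    have : (A θ - A θ₁) w = A θ w - A θ₁ w := rfl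
    rw [this, inner_sub_left]
    ring
  have h5 : |⟪(A θ - A θ₁) w, w⟫| ≤ C * |θ - θ₁| * ‖w‖ ^ 2 := by
    calc |⟪(A θ - A θ₁) w, w⟫| ≤ ‖(A θ - A θ₁) w‖ * ‖w‖ := abs_real_inner_le_norm _ _
      _ ≤ (‖A θ - A θ₁‖ * ‖w‖) * ‖w‖ := mul_le_mul_of_nonneg_right
          ((A θ - A θ₁).le_opNorm w) (norm_nonneg _)
      _ ≤ ((C * |θ - θ₁|) * ‖w‖) * ‖w‖ := by gcongr
      _ = C * |θ - θ₁| * ‖w‖ ^ 2 := by ring
  have h6 : F (c θ₁) * ⟪(A θ - A θ₁) w, w⟫ ≤ C * |θ - θ₁| * ‖w‖ ^ 2 := by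
    calc F (c θ₁) * ⟪(A θ - A θ₁) w, w⟫ ≤ |F (c θ₁) * ⟪(A θ - A θ₁) w, w⟫| := le_abs_self _
      _ = |F (c θ₁)| * |⟪(A θ - A θ₁) w, w⟫| := abs_mul _ _
      _ ≤ 1 * |⟪(A θ - A θ₁) w, w⟫| := mul_le_mul_of_nonneg_right hF1 (abs_nonneg _)
      _ = |⟪(A θ - A θ₁) w, w⟫| := one_mul _
      _ ≤ _ := h5
  rw [e3]
  linarith

private lemma ngq_side (h : TD n N Pr F g) (hc : GC N Pr c) {θ₁ σ : ℝ} (hσ : σ ^ 2 = 1)
    (hs : Real.sin θ₁ = 0) (h0 : XX g c θ₁ = 0) (h1 : YY F c θ₁ = 0)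
    (h2 : deriv (XX g c) θ₁ = 0) :
    ∃ ε > 0, ∀ x ∈ Icc (0 : ℝ) ε,
      XX g c (θ₁ + σ * x) = 0 ∧ YY F c (θ₁ + σ * x) = 0 := by
  have hF : F (c θ₁) = Real.cos θ₁ := by
    unfold YY at h1
    linarith
  have hcos : Real.cos θ₁ ^ 2 = 1 := by
    have h3 := Real.sin_sq_add_cos_sq θ₁
    rw [hs] at h3
    linarith
  have hF2 : F (c θ₁) ^ 2 = 1 := by rw [hF, hcos]
  obtain ⟨C, hC0, δ, hδ, hb⟩ := ngq_bound h hc hF2
  have hσa : |σ| = 1 := by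
    have h3 : |σ| ^ 2 = 1 := by rw [sq_abs, hσ]
    exact (pow_eq_one_iff_of_nonneg (abs_nonneg σ) two_ne_zero).1 h3
  have hθ : ∀ x : ℝ, HasDerivAt (fun x : ℝ => θ₁ + σ * x) σ x := fun x => by
    simpa using ((hasDerivAt_id x).const_mul σ).const_add θ₁
  have hd : ∀ x : ℝ, HasDerivAt (fun x : ℝ => XX g c (θ₁ + σ * x))
      (σ • deriv (XX g c) (θ₁ + σ * x)) x := fun x => by
    have h3 := ((XX_der h hc (θ₁ + σ * x)).differentiableAt.hasDerivAt).scomp x (hθ x)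
    exact h3
  have hYd : ∀ x : ℝ, HasDerivAt (fun x : ℝ => YY F c (θ₁ + σ * x))
      (σ * ⟪XX g c (θ₁ + σ * x), deriv c (θ₁ + σ * x)⟫) x := fun x => by
    have h3 := (YY_der h hc (θ₁ + σ * x)).comp x (hθ x)
    rw [mul_comm]
    exact h3
  have hsq : ∀ x : ℝ, √(‖XX g c (θ₁ + σ * x)‖ ^ 2) = ‖XX g c (θ₁ + σ * x)‖ := fun x =>
    Real.sqrt_sq (norm_nonneg _)
  have hin : ∀ x : ℝ, |⟪XX g c (θ₁ + σ * x), deriv c (θ₁ + σ * x)⟫| ≤
      ‖XX g c (θ₁ + σ * x)‖ := fun x => by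
    have h3 := abs_real_inner_le_norm (XX g c (θ₁ + σ * x)) (deriv c (θ₁ + σ * x))
    rwa [hc.unit, mul_one] at h3
  obtain ⟨ε, hε, H⟩ := gron_sing (u := fun x : ℝ => ‖XX g c (θ₁ + σ * x)‖ ^ 2)
    (u' := fun x : ℝ => 2 * ⟪XX g c (θ₁ + σ * x), σ • deriv (XX g c) (θ₁ + σ * x)⟫)
    (Y := fun x : ℝ => YY F c (θ₁ + σ * x))
    (Y' := fun x : ℝ => σ * ⟪XX g c (θ₁ + σ * x), deriv c (θ₁ + σ * x)⟫)
    (C := C) (δ := min δ 1) (lt_min hδ one_pos) (min_le_right _ _) hC0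
    (fun x _ => (hd x).norm_sq) (fun x _ => hYd x) (fun x _ => sq_nonneg _)
    (by
      intro x hx
      have hx0 : 0 < x := hx.1
      have hxδ : x ≤ δ := hx.2.trans (min_le_left _ _)
      have hx1 : x ≤ 1 := hx.2.trans (min_le_right _ _)
      have hsx : 0 < Real.sin x :=
        Real.sin_pos_of_pos_of_lt_pi hx0 (by linarith [Real.pi_gt_three])
      have hdist : |θ₁ + σ * x - θ₁| = x := by
        rw [add_sub_cancel_left, abs_mul, hσa, one_mul, abs_of_pos hx0]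
      have hbx := hb (θ₁ + σ * x) (by rw [hdist]; exact hxδ) _ (XX_tan h hc (θ₁ + σ * x))
      rw [hdist] at hbx
      have hode := XX_ode h hc (θ₁ + σ * x)
      have hFθ := h.abs_le (hc.mem (θ₁ + σ * x))
      have hcx := hin x
      have hsinθ : Real.sin (θ₁ + σ * x) = Real.cos θ₁ * (σ * Real.sin x) := by
        rw [Real.sin_add, hs, zero_mul, zero_add]
        congr 1
        rcases (abs_eq zero_le_one).1 hσa with h3 | h3
        · rw [h3]; simp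
        · rw [h3]; simp
      show Real.sin x * (2 * ⟪XX g c (θ₁ + σ * x), σ • deriv (XX g c) (θ₁ + σ * x)⟫) ≤
        2 * (1 + C * x) * ‖XX g c (θ₁ + σ * x)‖ ^ 2 +
          2 * Real.sin x * (|YY F c (θ₁ + σ * x)| * √(‖XX g c (θ₁ + σ * x)‖ ^ 2))
      rw [hsq, inner_smul_right]
      rw [hsinθ] at hode
      rw [hF] at hbx
      rw [real_inner_comm] at hcx
      obtain ⟨X, hX⟩ : ∃ X : E m, X = XX g c (θ₁ + σ * x) := ⟨_, rfl⟩
      obtain ⟨Y, hY⟩ : ∃ Y : ℝ, Y = YY F c (θ₁ + σ * x) := ⟨_, rfl⟩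
      obtain ⟨D, hD⟩ : ∃ D : ℝ, D = ⟪XX g c (θ₁ + σ * x), deriv (XX g c) (θ₁ + σ * x)⟫ :=
        ⟨_, rfl⟩
      rw [← hD, ← hX, ← hY] at hode
      rw [← hX] at hbx hcx
      rw [← hD, ← hX, ← hY]
      have e1 : Real.sin x * (2 * (σ * D)) =
          2 * (Real.cos θ₁ * ⟪fderiv ℝ g (c (θ₁ + σ * x)) X, X⟫) +
            2 * (Real.cos θ₁ * F (c (θ₁ + σ * x)) * ‖X‖ ^ 2) -
            2 * Real.sin x * (σ * (Y * ⟪deriv c (θ₁ + σ * x), X⟫)) := by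
        have e2 : Real.sin x * (2 * (σ * D)) =
            2 * Real.cos θ₁ * (Real.cos θ₁ * (σ * Real.sin x) * D) := by
          have : 2 * Real.cos θ₁ * (Real.cos θ₁ * (σ * Real.sin x) * D) =
            Real.cos θ₁ ^ 2 * (2 * (σ * Real.sin x * D)) := by ring
          rw [this, hcos]
          ring
        rw [e2, hode]
        have e3 : 2 * Real.cos θ₁ * (⟪fderiv ℝ g (c (θ₁ + σ * x)) X, X⟫ +
            F (c (θ₁ + σ * x)) * ‖X‖ ^ 2 -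
            Real.cos θ₁ * (σ * Real.sin x) * (Y * ⟪deriv c (θ₁ + σ * x), X⟫)) =
            2 * (Real.cos θ₁ * ⟪fderiv ℝ g (c (θ₁ + σ * x)) X, X⟫) +
            2 * (Real.cos θ₁ * F (c (θ₁ + σ * x)) * ‖X‖ ^ 2) -
            Real.cos θ₁ ^ 2 * (2 * Real.sin x * (σ * (Y * ⟪deriv c (θ₁ + σ * x), X⟫))) := by
          ring
        rw [e3, hcos, one_mul]
      have b1 : Real.cos θ₁ * F (c (θ₁ + σ * x)) * ‖X‖ ^ 2 ≤ ‖X‖ ^ 2 := by
        have h4 : Real.cos θ₁ * F (c (θ₁ + σ * x)) ≤ 1 := by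
          calc Real.cos θ₁ * F (c (θ₁ + σ * x)) ≤ |Real.cos θ₁ * F (c (θ₁ + σ * x))| :=
                le_abs_self _
            _ = |Real.cos θ₁| * |F (c (θ₁ + σ * x))| := abs_mul _ _
            _ ≤ 1 * 1 := mul_le_mul (Real.abs_cos_le_one _) hFθ (abs_nonneg _) zero_le_one
            _ = 1 := one_mul _
        exact mul_le_of_le_one_left (sq_nonneg _) h4
      have b2 : -(σ * (Y * ⟪deriv c (θ₁ + σ * x), X⟫)) ≤ |Y| * ‖X‖ := by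
        calc -(σ * (Y * ⟪deriv c (θ₁ + σ * x), X⟫)) ≤
              |σ * (Y * ⟪deriv c (θ₁ + σ * x), X⟫)| := neg_le_abs _
          _ = |Y| * |⟪deriv c (θ₁ + σ * x), X⟫| := by rw [abs_mul, hσa, one_mul, abs_mul]
          _ ≤ |Y| * ‖X‖ := mul_le_mul_of_nonneg_left hcx (abs_nonneg _)
      have b3 : 2 * Real.sin x * -(σ * (Y * ⟪deriv c (θ₁ + σ * x), X⟫)) ≤
          2 * Real.sin x * (|Y| * ‖X‖) :=
        mul_le_mul_of_nonneg_left b2 (by linarith)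
      rw [e1]
      nlinarith [b1, b3, hbx])
    (by
      intro x _
      show |σ * ⟪XX g c (θ₁ + σ * x), deriv c (θ₁ + σ * x)⟫| ≤ √(‖XX g c (θ₁ + σ * x)‖ ^ 2)
      rw [hsq, abs_mul, hσa, one_mul]
      exact hin x)
    (by
      show YY F c (θ₁ + σ * 0) = 0
      rw [mul_zero, add_zero, h1])
    (by
      have h3 := hd 0
      rw [mul_zero, add_zero, h2, smul_zero, hasDerivAt_iff_isLittleO] at h3
      have h4 : (fun x : ℝ => XX g c (θ₁ + σ * x)) =o[𝓝 0] fun x : ℝ => x := by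
        refine (h3.congr_left fun x => ?_).congr_right fun x => ?_
        · simp [h0]
        · simp
      have h5 : (fun x : ℝ => ‖XX g c (θ₁ + σ * x)‖) =o[𝓝 0] fun x : ℝ => x := h4.norm_left
      exact (h5.pow two_pos).mono nhdsWithin_le_nhds)
  refine ⟨ε, hε, fun x hx => ?_⟩
  obtain ⟨h3, h4⟩ := H x hx
  exact ⟨norm_eq_zero.1 (pow_eq_zero_iff two_ne_zero |>.1 h3), h4⟩

theorem ng_sing_loc (h : TD n N Pr F g) (hc : GC N Pr c) {θ₁ : ℝ} (hs : Real.sin θ₁ = 0)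
    (h0 : XX g c θ₁ = 0) (h1 : YY F c θ₁ = 0) (h2 : deriv (XX g c) θ₁ = 0) :
    ∀ᶠ θ in 𝓝 θ₁, XX g c θ = 0 ∧ YY F c θ = 0 := by
  obtain ⟨ε₁, hε₁, H₁⟩ := ngq_side h hc (σ := 1) (by norm_num) hs h0 h1 h2
  obtain ⟨ε₂, hε₂, H₂⟩ := ngq_side h hc (σ := -1) (by norm_num) hs h0 h1 h2
  filter_upwards [Icc_mem_nhds (show θ₁ - ε₂ < θ₁ by linarith)
    (show θ₁ < θ₁ + ε₁ by linarith)] with θ hθ
  rcases le_total θ₁ θ with h3 | h3
  · have h4 := H₁ (θ - θ₁) ⟨by linarith, by linarith [hθ.2]⟩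
    rwa [one_mul, add_sub_cancel] at h4
  · have h4 := H₂ (θ₁ - θ) ⟨by linarith, by linarith [hθ.1]⟩
    rwa [show θ₁ + -1 * (θ₁ - θ) = θ by ring] at h4

end Pool.Agent.H73.CO
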