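import Pool.Agent.H73.CO.NgR
import Pool.Agent.H73.CO.NgQ

/-!
# Module NgC: a geodesic which is normal somewhere is normal (about 60 lines)

PROOF of `ng_of_germ`. `T = {θ | XX g c θ = 0 ∧ YY F c θ = 0 ∧ deriv (XX g c) θ = 0}` is closed (`XX g c` is smooth, so `deriv` is continuous), open (`ng_reg_loc` or `ng_sing_loc` at
each point of `T`; near the point `XX g c` vanishes identically, so its derivative vanishes as well: `eventually_eventually_nhds`) and contains `θ₀` (`ng_reg_loc` at `θ₀` gives the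
third condition). `ℝ` is connected: `IsClopen.eq_univ`. Then `lev` is `YY = 0`, `gr` is `XX = 0` (`g (c θ) = -(sin θ • c' θ)`), the other fields are those of `GC`.
* `NG.gc`: forget. * `NG.XX`, `NG.YY`: zero.
-/

set_option autoImplicit false

open scoped ContDiff Topology RealInnerProductSpace
open Set Filter

namespace Pool.Agent.H73.CO

open Pool.Agent.H57.NL Pool.Agent.H2.TG Pool.Agent.H2.TI

variable {m n : ℕ} {N : Set (E m)} {Pr : E m → (E m →L[ℝ] E m)} {F : E m → ℝ}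
  {g : E m → E m}

variable {c : ℝ → E m}

private theorem NgC_ev {θ : ℝ} (h : ∀ᶠ θ in 𝓝 θ, XX g c θ = 0 ∧ YY F c θ = 0) :
    XX g c θ = 0 ∧ YY F c θ = 0 ∧ deriv (XX g c) θ = 0 := by
  refine ⟨h.self_of_nhds.1, h.self_of_nhds.2, ?_⟩
  have e : XX g c =ᶠ[𝓝 θ] fun _ => (0 : E m) := h.mono fun _ hx => hx.1
  rw [e.deriv_eq, deriv_const]

theorem ng_of_germ (h : TD n N Pr F g) (hc : GC N Pr c) {θ₀ : ℝ} (hs : Real.sin θ₀ ≠ 0)
    (h0 : XX g c θ₀ = 0) (h1 : YY F c θ₀ = 0) : NG N Pr F g c := by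
  have hdc : ContDiff ℝ ∞ (deriv c) := (contDiff_infty_iff_deriv.1 hc.smooth).2
  have hX : ContDiff ℝ ∞ (XX g c) :=
    (h.smooth.comp hc.smooth).add (Real.contDiff_sin.smul hdc)
  have hX' : Continuous (deriv (XX g c)) := (contDiff_infty_iff_deriv.1 hX).2.continuous
  have hY : Continuous (YY F c) :=
    (h.trans.smooth.continuous.comp hc.smooth.continuous).sub Real.continuous_cos
  have hcl : IsClosed {θ | XX g c θ = 0 ∧ YY F c θ = 0 ∧ deriv (XX g c) θ = 0} :=
    (isClosed_eq hX.continuous continuous_const).inter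
      ((isClosed_eq hY continuous_const).inter (isClosed_eq hX' continuous_const))
  have hop : IsOpen {θ | XX g c θ = 0 ∧ YY F c θ = 0 ∧ deriv (XX g c) θ = 0} := by
    refine isOpen_iff_mem_nhds.2 fun θ₁ hθ => ?_
    obtain ⟨a0, a1, a2⟩ := hθ
    have ev : ∀ᶠ θ in 𝓝 θ₁, XX g c θ = 0 ∧ YY F c θ = 0 := by
      by_cases hs1 : Real.sin θ₁ = 0
      · exact ng_sing_loc h hc hs1 a0 a1 a2
      · exact ng_reg_loc h hc hs1 a0 a1
    exact (eventually_eventually_nhds.2 ev).mono fun θ hθ => NgC_ev hθ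
  have hne : {θ | XX g c θ = 0 ∧ YY F c θ = 0 ∧ deriv (XX g c) θ = 0}.Nonempty :=
    ⟨θ₀, NgC_ev (ng_reg_loc h hc hs h0 h1)⟩
  have huniv := IsClopen.eq_univ ⟨hcl, hop⟩ hne
  have hall : ∀ θ, XX g c θ = 0 ∧ YY F c θ = 0 ∧ deriv (XX g c) θ = 0 := fun θ => by
    have : θ ∈ (univ : Set ℝ) := mem_univ θ
    rw [← huniv] at this
    exact this
  refine ⟨hc.smooth, hc.mem, hc.unit, hc.geod, fun θ => ?_, fun θ => ?_⟩
  · exact sub_eq_zero.1 (hall θ).2.1
  · exact eq_neg_of_add_eq_zero_left (hall θ).1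

theorem NG.gc (hc : NG N Pr F g c) : GC N Pr c :=
  ⟨hc.smooth, hc.mem, hc.unit, hc.geod⟩

end Pool.Agent.H73.CO
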