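import Pool.Agent.H73.CO.NgE

/-!
# Module NgD: regular points are dense; a normal geodesic through every point (about 170 lines)

PROOFS.
* `reg_dense`. Let `A = {q ∈ N : |F q| < 1}` and suppose `O = N \ closure A` is not empty. `O` is open in `N` and `F² = 1` on `O` (`TD.abs_le`). `A` is not empty (`h.trans.reg`), so `O ≠ N`.
  `N` is connected (preconnected, as a set): `O` is not closed, so there is `q₁ ∈ N ∩ closure O`, `q₁ ∉ O`, so `q₁ ∈ closure A` (if `closure O ∩ N ⊆ O` then `O` is clopen in `N`: use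
  `isPreconnected_closed_iff` / `isPreconnected_iff_subset_of_disjoint_closed` with `closure A` and `closure O`, both closed, `N ⊆ closure A ∪ closure O`, both meet `N`).
  (1) At `q ∈ O` and `w ∈ Tan N q`: `fderiv ℝ g q w = 0`: near `q` all points of `N` are in `O`, where `g = 0` (`norm`, `F² = 1`); derivative of `g` along a curve. By continuity of
  `q ↦ fderiv ℝ g q (Pr q w)` and `q₁ ∈ closure O`: `fderiv ℝ g q₁ (Pr q₁ w) = 0` for all `w`. (2) `F q₁ ^ 2 = 1` by continuity. (3) `q₁ ∈ closure A`: `q_k → q₁`, `q_k ∈ A`, `c_k` from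
  `exists_ng_reg`, `v_k = deriv c_k θ_k`, `θ_k = arccos (F q_k)`; pass to a subsequence: `v_k → v` (unit sphere compact), `‖v‖ = 1`, `v ∈ Tan N q₁` (`isClosed_tan`).
  `ng_hess` with `v_k`: `⟪fderiv ℝ g q_k v_k, v_k⟫ = -cos θ_k = -F q_k`. Limit: `⟪fderiv ℝ g q₁ v, v⟫ = -F q₁ ≠ 0`, but `fderiv ℝ g q₁ v = 0` by (1) (`Pr q₁ v = v`). Contradiction.
* `exists_ng`: if `|F q| < 1`: `exists_ng_reg`. Otherwise `q = lim q_k`, `|F q_k| < 1` (`reg_dense`), `c_k`, `θ_k = arccos (F q_k) → arccos (F q)` (continuity of `arccos`), a subsequence of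
  `deriv c_k θ_k` converges; `ng_limit`.
-/

set_option autoImplicit false

open scoped ContDiff Topology RealInnerProductSpace
open Set Filter

namespace Pool.Agent.H73.CO

open Pool.Agent.H57.NL Pool.Agent.H2.TG Pool.Agent.H2.TI

variable {m n : ℕ} {N : Set (E m)} {Pr : E m → (E m →L[ℝ] E m)} {F : E m → ℝ}
  {g : E m → E m}

private theorem ngD_prself (h : TD n N Pr F g) {q v : E m} (hq : q ∈ N) (hv : v ∈ Tan N q) :
    Pr q v = v := by
  have h1 : Pr q v - v ∈ Tan N q := h.mfd.sub.tan_sub hq (h.proj.mem q hq v) hv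
  have h2 := h.proj.orth q hq v (Pr q v - v) h1
  have h3 : ⟪Pr q v - v, Pr q v - v⟫ = 0 := by
    rw [inner_sub_left, h2, sub_self]
  exact sub_eq_zero.1 (inner_self_eq_zero.1 h3)

private theorem ngD_seq (h : TD n N Pr F g) {q : E m}
    (hq : q ∈ closure {q | q ∈ N ∧ |F q| < 1}) :
    ∃ (cs : ℕ → ℝ → E m) (θs : ℕ → ℝ) (v : E m), (∀ k, NG N Pr F g (cs k)) ∧
      Tendsto θs atTop (𝓝 (Real.arccos (F q))) ∧ Tendsto (fun k => cs k (θs k)) atTop (𝓝 q) ∧
      Tendsto (fun k => deriv (cs k) (θs k)) atTop (𝓝 v) ∧ ‖v‖ = 1 := by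
  rw [mem_closure_iff_seq_limit] at hq
  obtain ⟨x, hx, hxq⟩ := hq
  choose c hc using fun k => exists_ng_reg h (hx k).1 (hx k).2
  have hsph : ∀ k, deriv (c k) (Real.arccos (F (x k))) ∈ Metric.sphere (0 : E m) 1 := by
    intro k
    rw [mem_sphere_zero_iff_norm]
    exact (hc k).1.unit _
  obtain ⟨v, hv, φ, hφ, hlim⟩ := (isCompact_sphere (0 : E m) 1).tendsto_subseq hsph
  have hxφ : Tendsto (fun k => x (φ k)) atTop (𝓝 q) := hxq.comp hφ.tendsto_atTop
  refine ⟨fun k => c (φ k), fun k => Real.arccos (F (x (φ k))), v, fun k => (hc (φ k)).1, ?_, ?_,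
    hlim, ?_⟩
  · have h1 : Continuous fun y => Real.arccos (F y) :=
      Real.continuous_arccos.comp h.trans.smooth.continuous
    exact (h1.tendsto q).comp hxφ
  · have h2 : (fun k => c (φ k) (Real.arccos (F (x (φ k))))) = fun k => x (φ k) := by
      funext k
      exact (hc (φ k)).2
    rw [h2]
    exact hxφ
  · rw [mem_sphere_zero_iff_norm] at hv
    exact hv

private theorem ngD_sq (h : TD n N Pr F g) {q : E m} (hq : q ∈ N)
    (hA : q ∉ closure {q | q ∈ N ∧ |F q| < 1}) : F q ^ 2 = 1 := by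
  have h1 := h.abs_le hq
  have h2 : ¬ |F q| < 1 := fun h3 => hA (subset_closure ⟨hq, h3⟩)
  have h3 : |F q| = 1 := le_antisymm h1 (not_lt.1 h2)
  rw [← sq_abs, h3, one_pow]

private theorem ngD_zero (h : TD n N Pr F g) {q w : E m}
    (hA : q ∉ closure {q | q ∈ N ∧ |F q| < 1}) (hw : w ∈ Tan N q) : fderiv ℝ g q w = 0 := by
  obtain ⟨γ, h0, hS, hd⟩ := hw
  subst h0
  have H2 : HasDerivAt (fun s => g (γ s)) (fderiv ℝ g (γ 0) w) 0 :=
    ((h.smooth.differentiable (by simp) (γ 0)).hasFDerivAt).comp_hasDerivAt (0 : ℝ) hd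
  have h1 : ∀ᶠ s in 𝓝 (0 : ℝ), γ s ∉ closure {q | q ∈ N ∧ |F q| < 1} :=
    hd.continuousAt.eventually (isClosed_closure.isOpen_compl.mem_nhds hA)
  have e : (fun s => g (γ s)) =ᶠ[𝓝 0] fun _ => (0 : E m) := by
    filter_upwards [hS, h1] with s hs hs2
    have h2 := ngD_sq h hs hs2
    have h3 := h.trans.norm _ hs
    rw [h2, sub_self] at h3
    exact norm_eq_zero.1 (pow_eq_zero_iff (two_ne_zero) |>.1 h3)
  exact H2.unique ((hasDerivAt_const (0 : ℝ) (0 : E m)).congr_of_eventuallyEq e)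

theorem reg_dense (h : TD n N Pr F g) {q : E m} (hq : q ∈ N) :
    q ∈ closure {q | q ∈ N ∧ |F q| < 1} := by
  by_contra hq0
  obtain ⟨A, hA⟩ : ∃ A : Set (E m), A = {q | q ∈ N ∧ |F q| < 1} := ⟨_, rfl⟩
  rw [← hA] at hq0
  have hO : ∀ y, y ∈ N → y ∉ closure A → y ∈ N \ closure A := fun y h1 h2 => ⟨h1, h2⟩
  obtain ⟨a, haN, ha⟩ := h.trans.reg
  have haA : a ∈ A := by
    rw [hA]
    exact ⟨haN, ha⟩
  have hconn := h.mfd.conn.isPreconnected
  rw [isPreconnected_closed_iff] at hconn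
  obtain ⟨q₁, hq₁N, hq₁A, hq₁O⟩ := hconn (closure A) (closure (N \ closure A)) isClosed_closure
    isClosed_closure (by
      intro y hy
      by_cases h1 : y ∈ closure A
      · exact Or.inl h1
      · exact Or.inr (subset_closure ⟨hy, h1⟩))
    ⟨a, haN, subset_closure haA⟩ ⟨q, hq, subset_closure ⟨hq, hq0⟩⟩
  have hgs : Continuous fun y => fderiv ℝ g y := h.smooth.continuous_fderiv (by simp)
  have hz : ∀ w, fderiv ℝ g q₁ (Pr q₁ w) = 0 := by
    intro w
    have hc : Continuous fun y => fderiv ℝ g y (Pr y w) :=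
      hgs.clm_apply (h.proj.smooth.continuous.clm_apply continuous_const)
    have hcl : IsClosed {y | fderiv ℝ g y (Pr y w) = 0} := isClosed_eq hc continuous_const
    have hsub : N \ closure A ⊆ {y | fderiv ℝ g y (Pr y w) = 0} := by
      rintro y ⟨hy1, hy2⟩
      rw [hA] at hy2
      exact ngD_zero h hy2 (h.proj.mem y hy1 w)
    exact (hcl.closure_subset_iff.2 hsub) hq₁O
  have hF1 : F q₁ ^ 2 = 1 := by
    have hcl : IsClosed {y | F y ^ 2 = 1} :=
      isClosed_eq (h.trans.smooth.continuous.pow 2) continuous_const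
    have hsub : N \ closure A ⊆ {y | F y ^ 2 = 1} := by
      rintro y ⟨hy1, hy2⟩
      rw [hA] at hy2
      exact ngD_sq h hy1 hy2
    exact (hcl.closure_subset_iff.2 hsub) hq₁O
  rw [hA] at hq₁A
  obtain ⟨cs, θs, v, hcs, hθ, hcq, hcv, hv1⟩ := ngD_seq h hq₁A
  have hTN : (q₁, v) ∈ {zv : E m × E m | zv.1 ∈ N ∧ zv.2 ∈ Tan N zv.1} := by
    have hcl := h.mfd.sub.isClosed_tan h.mfd.closed
    refine hcl.mem_of_tendsto (hcq.prodMk_nhds hcv) (Eventually.of_forall fun k => ?_)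
    exact ⟨(hcs k).mem _, gc_tan (hcs k).gc _⟩
  have hvT : v ∈ Tan N q₁ := hTN.2
  have h5 : fderiv ℝ g q₁ v = 0 := by
    have h6 := hz v
    rw [ngD_prself h hq₁N hvT] at h6
    exact h6
  have h7 : Tendsto (fun k => ⟪fderiv ℝ g (cs k (θs k)) (deriv (cs k) (θs k)),
      deriv (cs k) (θs k)⟫) atTop (𝓝 ⟪fderiv ℝ g q₁ v, v⟫) := by
    have h8a : Tendsto (fun k => fderiv ℝ g (cs k (θs k))) atTop (𝓝 (fderiv ℝ g q₁)) :=
      (hgs.tendsto q₁).comp hcq
    have h8 : Tendsto (fun k => fderiv ℝ g (cs k (θs k)) (deriv (cs k) (θs k))) atTop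
        (𝓝 (fderiv ℝ g q₁ v)) := by
      have hap : Continuous fun p : (E m →L[ℝ] E m) × E m => p.1 p.2 :=
        continuous_fst.clm_apply continuous_snd
      exact (hap.tendsto (fderiv ℝ g q₁, v)).comp (h8a.prodMk_nhds hcv)
    exact h8.inner hcv
  have h9 : Tendsto (fun k => -(F (cs k (θs k)))) atTop (𝓝 (-(F q₁))) :=
    ((h.trans.smooth.continuous.tendsto q₁).comp hcq).neg
  have h10 : (fun k => ⟪fderiv ℝ g (cs k (θs k)) (deriv (cs k) (θs k)),
      deriv (cs k) (θs k)⟫) = fun k => -(F (cs k (θs k))) := by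
    funext k
    rw [ng_hess h (hcs k) (θs k) (gc_tan (hcs k).gc _), real_inner_self_eq_norm_sq,
      (hcs k).unit, (hcs k).lev]
    ring
  rw [h10] at h7
  have h11 := tendsto_nhds_unique h7 h9
  rw [h5, inner_zero_left] at h11
  have h12 : F q₁ = 0 := by linarith
  rw [h12] at hF1
  norm_num at hF1

theorem exists_ng (h : TD n N Pr F g) {q : E m} (hq : q ∈ N) :
    ∃ c, NG N Pr F g c ∧ c (Real.arccos (F q)) = q := by
  obtain ⟨cs, θs, v, hcs, hθ, hcq, hcv, hv1⟩ := ngD_seq h (reg_dense h hq)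
  obtain ⟨c, hc, hcθ, _⟩ := ng_limit h hcs hθ hcq hcv
  exact ⟨c, hc, hcθ⟩

end Pool.Agent.H73.CO
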