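import Pool.Agent.H73.CO.NgS

/-!
# Module NgE: the normal geodesic through a regular point (about 90 lines)

PROOFS.
* `exists_ng_reg`: `θ₀ = arccos (F q) ∈ (0, π)`, `cos θ₀ = F q`, `sin θ₀ = √(1 - F q ^ 2) = ‖g q‖ > 0` (`norm`). `v = -(sin θ₀)⁻¹ • g q`: unit, tangent. `c` from `gc_of_geo` (`exists_geo` with
  `R = 1`) through `z = (q, v)` at `θ₀`: `c θ₀ = q`, `deriv c θ₀ = v` (`Geo.zero`). `XX g c θ₀ = g q + sin θ₀ • v = 0`, `YY F c θ₀ = 0`. `ng_of_germ`.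
* `ng_der_reg`: `gr` at `θ` divided by `sin θ`.
* `ng_hess`: for `NG` `c` and every `θ`, `v ∈ Tan N (c θ)`: `⟪fderiv ℝ g (c θ) (deriv c θ), v⟫ = -(cos θ * ⟪deriv c θ, v⟫)`: differentiate `gr`: `Dg(c) c' = -(cos θ c' + sin θ c'')` and
  `⟪c'', v⟫ = 0` (`dpr_orth`).
* `ng_sing`: if `sin θ = 0`: `fderiv ℝ g (c θ) (deriv c θ) = -(cos θ • deriv c θ)`: the same derivative with `sin θ = 0`.
-/

set_option autoImplicit false

open scoped ContDiff Topology RealInnerProductSpace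
open Set Filter

namespace Pool.Agent.H73.CO

open Pool.Agent.H57.NL Pool.Agent.H2.TG Pool.Agent.H2.TI

variable {m n : ℕ} {N : Set (E m)} {Pr : E m → (E m →L[ℝ] E m)} {F : E m → ℝ}
  {g : E m → E m}

variable {c : ℝ → E m}

private lemma NgE_der (h : TD n N Pr F g) (hc : NG N Pr F g c) (θ : ℝ) :
    fderiv ℝ g (c θ) (deriv c θ) = -(Real.cos θ • deriv c θ +
      Real.sin θ • fderiv ℝ Pr (c θ) (deriv c θ) (deriv c θ)) := by
  have hXX : XX g c = fun _ => 0 := by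
    funext θ
    unfold XX
    rw [hc.gr]
    exact neg_add_cancel _
  have h1 := XX_der h hc.gc θ
  rw [hXX] at h1
  exact eq_neg_of_add_eq_zero_left (h1.unique (hasDerivAt_const θ 0))

theorem exists_ng_reg (h : TD n N Pr F g) {q : E m} (hq : q ∈ N) (hr : |F q| < 1) :
    ∃ c, NG N Pr F g c ∧ c (Real.arccos (F q)) = q := by
  obtain ⟨h1, h2⟩ := abs_lt.1 hr
  obtain ⟨θ₀, hθ⟩ : ∃ θ₀ : ℝ, θ₀ = Real.arccos (F q) := ⟨_, rfl⟩
  have hcos : Real.cos θ₀ = F q := by rw [hθ, Real.cos_arccos h1.le h2.le]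
  have hsq : 0 < 1 - F q ^ 2 := by nlinarith
  have hsin : Real.sin θ₀ = Real.sqrt (1 - F q ^ 2) := by rw [hθ, Real.sin_arccos]
  have hpos : 0 < Real.sin θ₀ := by
    rw [hsin]
    exact Real.sqrt_pos.2 hsq
  have hnorm : ‖g q‖ = Real.sin θ₀ := by
    rw [hsin, ← h.trans.norm q hq, Real.sqrt_sq (norm_nonneg _)]
  obtain ⟨v, hv⟩ : ∃ v : E m, v = (-(Real.sin θ₀)⁻¹) • g q := ⟨_, rfl⟩
  have hvt : v ∈ Tan N q := by
    rw [hv]
    exact Tan.smul (h.trans.tan q hq) _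
  have hv1 : ‖v‖ = 1 := by
    rw [hv, norm_smul, norm_neg, norm_inv, Real.norm_eq_abs, abs_of_pos hpos, hnorm]
    exact inv_mul_cancel₀ hpos.ne'
  obtain ⟨G, hG⟩ := exists_geo h.mfd h.proj 1
  obtain ⟨hgc, hgd⟩ := gc_of_geo hG le_rfl (z := (q, v)) ⟨hq, hvt⟩ hv1 θ₀
  have hc0 : (G (θ₀ - θ₀) (q, v)).1 = q := by rw [sub_self, hG.zero]
  have hd0 : deriv (fun θ => (G (θ - θ₀) (q, v)).1) θ₀ = v := by rw [hgd, sub_self, hG.zero]
  refine ⟨fun θ => (G (θ - θ₀) (q, v)).1, ng_of_germ h hgc hpos.ne' ?_ ?_, ?_⟩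
  · unfold XX
    rw [hd0]
    show g (G (θ₀ - θ₀) (q, v)).1 + Real.sin θ₀ • v = 0
    rw [hc0, hv, smul_smul, mul_neg, mul_inv_cancel₀ hpos.ne', neg_one_smul, add_neg_cancel]
  · unfold YY
    show F (G (θ₀ - θ₀) (q, v)).1 - Real.cos θ₀ = 0
    rw [hc0, hcos, sub_self]
  · show (G (Real.arccos (F q) - θ₀) (q, v)).1 = q
    rw [← hθ]
    exact hc0

theorem ng_der_reg (hc : NG N Pr F g c) {θ : ℝ} (hs : Real.sin θ ≠ 0) :
    deriv c θ = -((Real.sin θ)⁻¹ • g (c θ)) := by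
  rw [hc.gr, smul_neg, neg_neg, smul_smul, inv_mul_cancel₀ hs, one_smul]

theorem ng_hess (h : TD n N Pr F g) (hc : NG N Pr F g c) (θ : ℝ) {v : E m}
    (hv : v ∈ Tan N (c θ)) :
    ⟪fderiv ℝ g (c θ) (deriv c θ), v⟫ = -(Real.cos θ * ⟪deriv c θ, v⟫) := by
  rw [NgE_der h hc θ, inner_neg_left, inner_add_left, real_inner_smul_left, real_inner_smul_left,
    dpr_orth h.mfd.sub h.proj (hc.mem θ) (gc_tan hc.gc θ) (gc_tan hc.gc θ) hv, mul_zero, add_zero]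

theorem ng_sing (h : TD n N Pr F g) (hc : NG N Pr F g c) {θ : ℝ} (hs : Real.sin θ = 0) :
    fderiv ℝ g (c θ) (deriv c θ) = -(Real.cos θ • deriv c θ) := by
  rw [NgE_der h hc θ, hs, zero_smul, add_zero]

end Pool.Agent.H73.CO
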