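import Pool.Agent.H73.CO.Hes

/-!
# Module NgO: the differential equations of the defects (about 130 lines)

`c` is a unit speed geodesic, `X = XX g c = g (c θ) + sin θ • c' θ`, `Y = YY F c = F (c θ) - cos θ`.
PROOFS.
* `gc_tan`: `deriv c θ ∈ Tan N (c θ)` (curve `s ↦ c (θ + s)`).
* `XX_tan`: `h.trans.tan`, `Tan.smul`, `IsSubmfd.tan_add`.
* `XX_der`: product rule; `deriv (deriv c) θ` from `geod`; `c` is smooth, so `deriv c` is differentiable.
* `YY_der`: derivative of `F ∘ c` is `⟪g (c θ), c' θ⟫` (`TD.dF`) `= ⟪X - sin θ c', c'⟫ = ⟪X, c'⟫ - sin θ` (`‖c'‖ = 1`), and `-cos θ` has derivative `sin θ`.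
* `XX_ode`: `⟪X, X'⟫ = ⟪Dg c', X⟫ + cos θ ⟪c', X⟫ + sin θ ⟪c'', X⟫`, the last term is `0` (`dpr_orth`, `XX_tan`). Multiply by `sin θ` and use `sin θ c' = X - g(c)`:
  `⟪Dg (X - g), X⟫ = ⟪Dg X, X⟫ - ⟪Dg g, X⟫ = ⟪Dg X, X⟫ + F ⟪g, X⟫` (`TD.dg_g`), `⟪g, X⟫ = ‖X‖² - sin θ ⟪c', X⟫`. Sum:
  `⟪Dg X, X⟫ + F ‖X‖² - F sin θ ⟪c', X⟫ + sin θ cos θ ⟪c', X⟫`.
-/

set_option autoImplicit false

open scoped ContDiff Topology RealInnerProductSpace
open Set Filter

namespace Pool.Agent.H73.CO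

open Pool.Agent.H57.NL Pool.Agent.H2.TG Pool.Agent.H2.TI

variable {m n : ℕ} {N : Set (E m)} {Pr : E m → (E m →L[ℝ] E m)} {F : E m → ℝ}
  {g : E m → E m}

variable {c : ℝ → E m}

theorem gc_tan (hc : GC N Pr c) (θ : ℝ) : deriv c θ ∈ Tan N (c θ) := by
  refine ⟨fun s => c (θ + s), by simp, Eventually.of_forall fun s => hc.mem _, ?_⟩
  refine HasDerivAt.comp_const_add θ 0 ?_
  rw [add_zero]
  exact ((hc.smooth.differentiable (by simp)) θ).hasDerivAt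

theorem XX_tan (h : TD n N Pr F g) (hc : GC N Pr c) (θ : ℝ) : XX g c θ ∈ Tan N (c θ) :=
  h.mfd.sub.tan_add (hc.mem θ) (h.trans.tan _ (hc.mem θ)) (Tan.smul (gc_tan hc θ) _)

theorem XX_der (h : TD n N Pr F g) (hc : GC N Pr c) (θ : ℝ) :
    HasDerivAt (XX g c) (fderiv ℝ g (c θ) (deriv c θ) + (Real.cos θ • deriv c θ
      + Real.sin θ • fderiv ℝ Pr (c θ) (deriv c θ) (deriv c θ))) θ := by
  have h1 : HasDerivAt c (deriv c θ) θ := ((hc.smooth.differentiable (by simp)) θ).hasDerivAt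
  have h2 : HasDerivAt (fun θ => g (c θ)) (fderiv ℝ g (c θ) (deriv c θ)) θ :=
    ((h.smooth.differentiable (by simp)) (c θ)).hasFDerivAt.comp_hasDerivAt θ h1
  have h3 : HasDerivAt (deriv c) (deriv (deriv c) θ) θ := by
    have : ContDiff ℝ ∞ (deriv c) := by
      have := hc.smooth
      rw [contDiff_infty_iff_deriv] at this
      exact this.2
    exact ((this.differentiable (by simp)) θ).hasDerivAt
  have h4 := (Real.hasDerivAt_sin θ).smul h3
  rw [hc.geod, add_comm] at h4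
  exact h2.add h4

theorem YY_der (h : TD n N Pr F g) (hc : GC N Pr c) (θ : ℝ) :
    HasDerivAt (YY F c) ⟪XX g c θ, deriv c θ⟫ θ := by
  have h1 : HasDerivAt c (deriv c θ) θ := ((hc.smooth.differentiable (by simp)) θ).hasDerivAt
  have h2 : HasDerivAt (fun θ => F (c θ)) (fderiv ℝ F (c θ) (deriv c θ)) θ :=
    ((h.trans.smooth.differentiable (by simp)) (c θ)).hasFDerivAt.comp_hasDerivAt θ h1
  have h3 := h2.sub (Real.hasDerivAt_cos θ)
  have h4 : fderiv ℝ F (c θ) (deriv c θ) - -Real.sin θ = ⟪XX g c θ, deriv c θ⟫ := by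
    rw [h.dF (hc.mem θ) (gc_tan hc θ)]
    unfold XX
    rw [inner_add_left, real_inner_smul_left, real_inner_self_eq_norm_sq, hc.unit]
    ring
  rw [h4] at h3
  exact h3

theorem XX_ode (h : TD n N Pr F g) (hc : GC N Pr c) (θ : ℝ) :
    Real.sin θ * ⟪XX g c θ, deriv (XX g c) θ⟫ = ⟪fderiv ℝ g (c θ) (XX g c θ), XX g c θ⟫
      + F (c θ) * ‖XX g c θ‖ ^ 2 - Real.sin θ * (YY F c θ * ⟪deriv c θ, XX g c θ⟫) := by
  have h0 := hc.mem θ
  have hX := XX_tan h hc θ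
  have ht := gc_tan hc θ
  rw [(XX_der h hc θ).deriv]
  have h1 : ⟪fderiv ℝ Pr (c θ) (deriv c θ) (deriv c θ), XX g c θ⟫ = 0 :=
    dpr_orth h.mfd.sub h.proj h0 ht ht hX
  have h2 : Real.sin θ • deriv c θ = XX g c θ - g (c θ) := by
    unfold XX
    rw [add_sub_cancel_left]
  have h3 : Real.sin θ * ⟪XX g c θ, fderiv ℝ g (c θ) (deriv c θ)⟫ =
      ⟪fderiv ℝ g (c θ) (XX g c θ), XX g c θ⟫ + F (c θ) * ⟪g (c θ), XX g c θ⟫ := by
    have a1 : Real.sin θ * ⟪XX g c θ, fderiv ℝ g (c θ) (deriv c θ)⟫ =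
        ⟪fderiv ℝ g (c θ) (Real.sin θ • deriv c θ), XX g c θ⟫ := by
      rw [map_smul, real_inner_smul_left, real_inner_comm]
    rw [a1, h2, map_sub, inner_sub_left, h.dg_g h0 hX]
    ring
  have h4 : ⟪g (c θ), XX g c θ⟫ = ‖XX g c θ‖ ^ 2 - Real.sin θ * ⟪deriv c θ, XX g c θ⟫ := by
    have a1 : g (c θ) = XX g c θ - Real.sin θ • deriv c θ := by
      unfold XX
      rw [add_sub_cancel_right]
    have a2 : ⟪g (c θ), XX g c θ⟫ = ⟪XX g c θ - Real.sin θ • deriv c θ, XX g c θ⟫ := by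
      rw [← a1]
    rw [a2, inner_sub_left, real_inner_smul_left, real_inner_self_eq_norm_sq]
  have h5 : ⟪XX g c θ, fderiv ℝ Pr (c θ) (deriv c θ) (deriv c θ)⟫ = 0 := by
    rw [real_inner_comm]
    exact h1
  rw [inner_add_right, inner_add_right, real_inner_smul_right, real_inner_smul_right, h5,
    mul_add, h3, h4, real_inner_comm (deriv c θ) (XX g c θ)]
  unfold YY
  ring

end Pool.Agent.H73.CO
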