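import Pool.Agent.H73.CO.NgO
import Pool.Agent.H73.CO.GrA

/-!
# Module NgR: the defects vanish near a regular parameter (about 90 lines)

PROOF of `ng_reg_loc`. `u θ = ‖XX g c θ‖²`, `w = u + Y²`. `sin ≠ 0` on some `[θ₁ - δ, θ₁ + δ]`, `|sin θ| ≥ s₀ > 0` there, and `‖fderiv ℝ g (c θ)‖ ≤ M` there (continuity,
compactness). By `XX_ode`: `|u'| = 2 |⟪X, X'⟫| ≤ (2/s₀) ((M + 1) u + |Y| √u)` (`|F| ≤ 1`, `|⟪c', X⟫| ≤ √u`, `|sin| ≤ 1`), `|Y √u| ≤ w`; `|(Y²)'| = 2 |Y| |⟪X, c'⟫| ≤ 2 |Y| √u ≤ w + w`.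
So `|w'| ≤ k w`; `gron_reg` on the interval.
-/

set_option autoImplicit false

open scoped ContDiff Topology RealInnerProductSpace
open Set Filter

namespace Pool.Agent.H73.CO

open Pool.Agent.H57.NL Pool.Agent.H2.TG Pool.Agent.H2.TI

variable {m n : ℕ} {N : Set (E m)} {Pr : E m → (E m →L[ℝ] E m)} {F : E m → ℝ}
  {g : E m → E m}

variable {c : ℝ → E m}

/-- the derivative of the defects is controlled by the defects -/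
private lemma ngr_bound (h : TD n N Pr F g) (hc : GC N Pr c) {θ s₀ M : ℝ} (hs₀ : 0 < s₀)
    (hs : s₀ ≤ |Real.sin θ|) (hM : ‖fderiv ℝ g (c θ)‖ ≤ M) :
    |2 * ⟪XX g c θ, deriv (XX g c) θ⟫ + 2 * YY F c θ * ⟪XX g c θ, deriv c θ⟫| ≤
      (2 * (M + 2) / s₀ + 2) * (‖XX g c θ‖ ^ 2 + YY F c θ ^ 2) := by
  have ode := XX_ode h hc θ
  have hF := h.abs_le (hc.mem θ)
  have hu := hc.unit θ
  obtain ⟨X, hX⟩ : ∃ X : E m, X = XX g c θ := ⟨_, rfl⟩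
  obtain ⟨Y, hY⟩ : ∃ Y : ℝ, Y = YY F c θ := ⟨_, rfl⟩
  rw [← hX, ← hY] at ode ⊢
  have hM0 : 0 ≤ M := (norm_nonneg _).trans hM
  have a1 : |⟪fderiv ℝ g (c θ) X, X⟫| ≤ M * ‖X‖ ^ 2 := by
    calc |⟪fderiv ℝ g (c θ) X, X⟫| ≤ ‖fderiv ℝ g (c θ) X‖ * ‖X‖ := abs_real_inner_le_norm _ _
      _ ≤ (M * ‖X‖) * ‖X‖ := mul_le_mul_of_nonneg_right
          (((fderiv ℝ g (c θ)).le_opNorm X).trans
            (mul_le_mul_of_nonneg_right hM (norm_nonneg _))) (norm_nonneg _)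
      _ = M * ‖X‖ ^ 2 := by ring
  have a2 : |⟪deriv c θ, X⟫| ≤ ‖X‖ := by
    have := abs_real_inner_le_norm (deriv c θ) X
    rwa [hu, one_mul] at this
  have a3 : |⟪X, deriv c θ⟫| ≤ ‖X‖ := by rw [real_inner_comm]; exact a2
  have a4 : |Y| * ‖X‖ ≤ ‖X‖ ^ 2 + Y ^ 2 := by
    have h1 := sq_nonneg (|Y| - ‖X‖)
    have h2 := sq_abs Y
    nlinarith [abs_nonneg Y, norm_nonneg X]
  have hw : 0 ≤ ‖X‖ ^ 2 + Y ^ 2 := by positivity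
  have hX2 : ‖X‖ ^ 2 ≤ ‖X‖ ^ 2 + Y ^ 2 := le_add_of_nonneg_right (sq_nonneg _)
  have hsin := Real.abs_sin_le_one θ
  have b1 : |Real.sin θ * ⟪X, deriv (XX g c) θ⟫| ≤ (M + 2) * (‖X‖ ^ 2 + Y ^ 2) := by
    rw [ode]
    have c1 : |F (c θ) * ‖X‖ ^ 2| ≤ ‖X‖ ^ 2 := by
      rw [abs_mul, abs_of_nonneg (sq_nonneg ‖X‖)]
      exact mul_le_of_le_one_left (sq_nonneg _) hF
    have c2 : |Real.sin θ * (Y * ⟪deriv c θ, X⟫)| ≤ |Y| * ‖X‖ := by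
      rw [abs_mul, abs_mul]
      calc |Real.sin θ| * (|Y| * |⟪deriv c θ, X⟫|) ≤ 1 * (|Y| * ‖X‖) :=
            mul_le_mul hsin (mul_le_mul_of_nonneg_left a2 (abs_nonneg _)) (by positivity)
              zero_le_one
        _ = _ := one_mul _
    calc |⟪fderiv ℝ g (c θ) X, X⟫ + F (c θ) * ‖X‖ ^ 2 - Real.sin θ * (Y * ⟪deriv c θ, X⟫)|
        ≤ |⟪fderiv ℝ g (c θ) X, X⟫ + F (c θ) * ‖X‖ ^ 2| +
          |Real.sin θ * (Y * ⟪deriv c θ, X⟫)| := abs_sub _ _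
      _ ≤ (|⟪fderiv ℝ g (c θ) X, X⟫| + |F (c θ) * ‖X‖ ^ 2|) +
          |Real.sin θ * (Y * ⟪deriv c θ, X⟫)| := by gcongr; exact abs_add_le _ _
      _ ≤ (M * ‖X‖ ^ 2 + ‖X‖ ^ 2) + |Y| * ‖X‖ := by gcongr
      _ ≤ (M + 2) * (‖X‖ ^ 2 + Y ^ 2) := by nlinarith [sq_nonneg Y, mul_nonneg hM0 (sq_nonneg Y)]
  have b2 : |⟪X, deriv (XX g c) θ⟫| ≤ (M + 2) / s₀ * (‖X‖ ^ 2 + Y ^ 2) := by
    rw [div_mul_eq_mul_div, le_div_iff₀ hs₀, mul_comm]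
    rw [abs_mul] at b1
    exact (mul_le_mul_of_nonneg_right hs (abs_nonneg _)).trans b1
  calc |2 * ⟪X, deriv (XX g c) θ⟫ + 2 * Y * ⟪X, deriv c θ⟫|
      ≤ |2 * ⟪X, deriv (XX g c) θ⟫| + |2 * Y * ⟪X, deriv c θ⟫| := abs_add_le _ _
    _ = 2 * |⟪X, deriv (XX g c) θ⟫| + 2 * (|Y| * |⟪X, deriv c θ⟫|) := by
        rw [abs_mul, abs_mul, abs_mul, abs_two]
        ring
    _ ≤ 2 * ((M + 2) / s₀ * (‖X‖ ^ 2 + Y ^ 2)) + 2 * (|Y| * ‖X‖) := by gcongr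
    _ ≤ 2 * ((M + 2) / s₀ * (‖X‖ ^ 2 + Y ^ 2)) + 2 * (‖X‖ ^ 2 + Y ^ 2) := by gcongr
    _ = (2 * (M + 2) / s₀ + 2) * (‖X‖ ^ 2 + Y ^ 2) := by ring

theorem ng_reg_loc (h : TD n N Pr F g) (hc : GC N Pr c) {θ₁ : ℝ} (hs : Real.sin θ₁ ≠ 0)
    (h0 : XX g c θ₁ = 0) (h1 : YY F c θ₁ = 0) :
    ∀ᶠ θ in 𝓝 θ₁, XX g c θ = 0 ∧ YY F c θ = 0 := by
  have hs1 : 0 < |Real.sin θ₁| := abs_pos.2 hs
  have hev : ∀ᶠ θ in 𝓝 θ₁, |Real.sin θ₁| / 2 < |Real.sin θ| :=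
    (Real.continuous_sin.abs.continuousAt).eventually (lt_mem_nhds (by linarith))
  obtain ⟨δ, hδ, hδs⟩ := Metric.eventually_nhds_iff.1 hev
  have hI : ∀ θ ∈ Icc (θ₁ - δ / 2) (θ₁ + δ / 2), |Real.sin θ₁| / 2 ≤ |Real.sin θ| := by
    intro θ hθ
    refine (hδs ?_).le
    rw [Real.dist_eq, abs_lt]
    constructor <;> linarith [hθ.1, hθ.2]
  have hcont : ContinuousOn (fun θ => fderiv ℝ g (c θ)) (Icc (θ₁ - δ / 2) (θ₁ + δ / 2)) :=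
    ((h.smooth.continuous_fderiv (by simp)).comp hc.smooth.continuous).continuousOn
  obtain ⟨M, hM⟩ := isCompact_Icc.exists_bound_of_continuousOn hcont
  have hd : ∀ θ ∈ Icc (θ₁ - δ / 2) (θ₁ + δ / 2),
      HasDerivAt (fun θ => ‖XX g c θ‖ ^ 2 + YY F c θ ^ 2)
        (2 * ⟪XX g c θ, deriv (XX g c) θ⟫ + 2 * YY F c θ * ⟪XX g c θ, deriv c θ⟫) θ := by
    intro θ _
    have d1 := (XX_der h hc θ).differentiableAt.hasDerivAt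
    have d2 := YY_der h hc θ
    have e1 := d1.norm_sq
    have e2 := d2.pow 2
    refine (e1.add e2).congr_deriv ?_
    simp
  have hz := gron_reg (x₀ := θ₁) (a := θ₁ - δ / 2) (b := θ₁ + δ / 2)
    ⟨by linarith, by linarith⟩ hd
    (fun θ hθ => ngr_bound h hc (half_pos hs1) (hI θ hθ) (hM θ hθ))
    (by simp only [h0, h1]; simp) (fun θ _ => by positivity)
  filter_upwards [Icc_mem_nhds (show θ₁ - δ / 2 < θ₁ by linarith)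
    (show θ₁ < θ₁ + δ / 2 by linarith)] with θ hθ
  have h2 := hz θ hθ
  have h3 : ‖XX g c θ‖ ^ 2 = 0 := by nlinarith [sq_nonneg ‖XX g c θ‖, sq_nonneg (YY F c θ)]
  have h4 : YY F c θ ^ 2 = 0 := by nlinarith [sq_nonneg ‖XX g c θ‖, sq_nonneg (YY F c θ)]
  exact ⟨norm_eq_zero.1 (pow_eq_zero_iff two_ne_zero |>.1 h3), pow_eq_zero_iff two_ne_zero |>.1 h4⟩

end Pool.Agent.H73.CO
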