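import Pool.Agent.H73.CO.NgC
import Pool.Agent.H73.CO.GeoX

/-!
# Module NgS: normal geodesics: symmetries, geodesic flow, limits (about 200 lines)

PROOFS.
* `ng_neg`: `c₁ θ = c (-θ)`: `deriv c₁ θ = -deriv c (-θ)`, `deriv (deriv c₁) θ = deriv (deriv c) (-θ)`; `gr`: `g (c (-θ)) = -(sin (-θ) • c' (-θ)) = sin θ • c' (-θ) = -(sin θ • c₁' θ)`.
* `ng_add`: `c₁ θ = c (θ + 2 π k)`, `k : ℤ`: periodicity of `sin`, `cos`.
* `ph_neg`, `ph_add`: computation of the two components (`Complex.neg_re`, …).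
* `ng_geo`: the curve `t ↦ (c (θ + t), deriv c (θ + t))` satisfies the hypotheses of `Geo.uniq` (`R ≥ 1`; in `TN N` by `gc_tan`).
* `gc_of_geo`: for `z ∈ TN N`, `‖z.2‖ = 1`, `R ≥ 1`: `c θ = (G (θ - θ₀) z).1` has `deriv c θ = (G (θ - θ₀) z).2` (`Geo.der`), second derivative from `Geo.der`, unit by `Geo.norm`.
* `ng_limit`: `z = (q, v) ∈ TN N` (`IsSubmfd.isClosed_tan`, `N` closed), `‖v‖ = 1`. `c τ = (G (τ - θ) z).1`, `GC` by `gc_of_geo`. For every `τ`:
  `c_k τ = (G (τ - θ_k) (c_k θ_k, c_k' θ_k)).1 → c τ` (`ng_geo`, continuity of `G` in both variables) and `deriv c_k τ → deriv c τ`. So `F (c τ) = lim F (c_k τ) = cos τ`, `g (c τ) = lim g (c_k τ) =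
  -(sin τ • deriv c τ)` (continuity of `F`, `g`).
-/

set_option autoImplicit false

open scoped ContDiff Topology RealInnerProductSpace
open Set Filter

namespace Pool.Agent.H73.CO

open Pool.Agent.H57.NL Pool.Agent.H2.TG Pool.Agent.H2.TI

variable {m n : ℕ} {N : Set (E m)} {Pr : E m → (E m →L[ℝ] E m)} {F : E m → ℝ}
  {g : E m → E m}

variable {c : ℝ → E m}

private lemma ngs_deriv_neg (c : ℝ → E m) (hc : ContDiff ℝ ∞ c) (θ : ℝ) :
    HasDerivAt (fun θ => c (-θ)) (-deriv c (-θ)) θ := by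
  have h1 : HasDerivAt c (deriv c (-θ)) (-θ) := (hc.differentiable (by simp) _).hasDerivAt
  have h2 := h1.scomp θ (hasDerivAt_neg θ)
  rw [neg_one_smul] at h2
  exact h2

theorem ng_neg (hc : NG N Pr F g c) : NG N Pr F g fun θ => c (-θ) := by
  have h1 : deriv (fun θ => c (-θ)) = fun θ => -deriv c (-θ) := by
    funext θ
    exact (ngs_deriv_neg c hc.smooth θ).deriv
  have hd : ContDiff ℝ ∞ (deriv c) := (contDiff_infty_iff_deriv.1 hc.smooth).2
  have h2 : ∀ θ, deriv (deriv fun θ => c (-θ)) θ = deriv (deriv c) (-θ) := by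
    intro θ
    rw [h1]
    have h3 := (ngs_deriv_neg (deriv c) hd θ).neg
    rw [neg_neg] at h3
    exact h3.deriv
  refine ⟨hc.smooth.comp contDiff_neg, fun θ => hc.mem _, ?_, ?_, ?_, ?_⟩
  · intro θ
    rw [h1]
    show ‖-deriv c (-θ)‖ = 1
    rw [norm_neg, hc.unit]
  · intro θ
    rw [h2, h1, hc.geod]
    show fderiv ℝ Pr (c (-θ)) (deriv c (-θ)) (deriv c (-θ)) =
      fderiv ℝ Pr (c (-θ)) (-deriv c (-θ)) (-deriv c (-θ))
    rw [map_neg, map_neg]
    simp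
  · intro θ
    show F (c (-θ)) = Real.cos θ
    rw [hc.lev, Real.cos_neg]
  · intro θ
    rw [h1]
    show g (c (-θ)) = -(Real.sin θ • -deriv c (-θ))
    rw [hc.gr, Real.sin_neg]
    simp

theorem ng_add (hc : NG N Pr F g c) (k : ℤ) : NG N Pr F g fun θ => c (θ + k * (2 * Real.pi)) := by
  have h1 : deriv (fun θ => c (θ + k * (2 * Real.pi))) = fun θ => deriv c (θ + k * (2 * Real.pi)) := by
    funext θ
    exact deriv_comp_add_const _ _ _
  have h2 : ∀ θ, deriv (deriv fun θ => c (θ + k * (2 * Real.pi))) θ =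
      deriv (deriv c) (θ + k * (2 * Real.pi)) := by
    intro θ
    rw [h1]
    exact deriv_comp_add_const _ _ _
  refine ⟨hc.smooth.comp (contDiff_id.add contDiff_const), fun θ => hc.mem _, ?_, ?_, ?_, ?_⟩
  · intro θ
    rw [h1]
    exact hc.unit _
  · intro θ
    rw [h2, h1]
    exact hc.geod _
  · intro θ
    show F (c (θ + k * (2 * Real.pi))) = Real.cos θ
    rw [hc.lev, Real.cos_add_int_mul_two_pi]
  · intro θ
    rw [h1]
    show g (c (θ + k * (2 * Real.pi))) = -(Real.sin θ • deriv c (θ + k * (2 * Real.pi)))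
    rw [hc.gr, Real.sin_add_int_mul_two_pi]

private lemma ngs_deriv_neg' (c : ℝ → E m) (θ : ℝ) : deriv (fun θ => c (-θ)) θ = -deriv c (-θ) :=
  deriv_comp_neg c θ

theorem ph_neg (c : ℝ → E m) (z : ℂ) : ph (fun θ => c (-θ)) z = ph c (-z) := by
  unfold ph
  rw [ngs_deriv_neg', Complex.neg_re, Complex.neg_im]
  simp

theorem ph_add (c : ℝ → E m) (k : ℤ) (z : ℂ) :
    ph (fun θ => c (θ + k * (2 * Real.pi))) z = ph c (z + ((k * (2 * Real.pi) : ℝ) : ℂ)) := by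
  unfold ph
  rw [deriv_comp_add_const, Complex.add_re, Complex.add_im, Complex.ofReal_re, Complex.ofReal_im,
    add_zero]

private lemma ngs_curve (hc : GC N Pr c) (θ t : ℝ) :
    HasDerivAt (fun t => (c (θ + t), deriv c (θ + t)))
      (deriv c (θ + t), fderiv ℝ Pr (c (θ + t)) (deriv c (θ + t)) (deriv c (θ + t))) t := by
  have hd : ContDiff ℝ ∞ (deriv c) := (contDiff_infty_iff_deriv.1 hc.smooth).2
  have h1 : HasDerivAt c (deriv c (θ + t)) (θ + t) :=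
    (hc.smooth.differentiable (by simp) _).hasDerivAt
  have h2 : HasDerivAt (deriv c) (deriv (deriv c) (θ + t)) (θ + t) :=
    (hd.differentiable (by simp) _).hasDerivAt
  rw [hc.geod] at h2
  exact (h1.comp_const_add θ t).prodMk (h2.comp_const_add θ t)

theorem ng_geo {G : ℝ → E m × E m → E m × E m} {R : ℝ} (hG : Geo N Pr R G) (hR : 1 ≤ R)
    (hc : GC N Pr c) (θ t : ℝ) : (c (θ + t), deriv c (θ + t)) = G t (c θ, deriv c θ) := by
  have h := hG.uniq (fun t => (c (θ + t), deriv c (θ + t))) (fun t =>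
    ⟨⟨hc.mem _, gc_tan hc _⟩, by show ‖deriv c (θ + t)‖ ≤ R; rw [hc.unit]; exact hR,
      ngs_curve hc θ t⟩) t
  simp only [add_zero] at h
  exact h

theorem gc_of_geo {G : ℝ → E m × E m → E m × E m} {R : ℝ} (hG : Geo N Pr R G) (hR : 1 ≤ R)
    {z : E m × E m} (hz : z ∈ TN N) (hz1 : ‖z.2‖ = 1) (θ₀ : ℝ) :
    GC N Pr (fun θ => (G (θ - θ₀) z).1) ∧
      ∀ θ, deriv (fun θ => (G (θ - θ₀) z).1) θ = (G (θ - θ₀) z).2 := by
  have hzR : ‖z.2‖ ≤ R := by rw [hz1]; exact hR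
  have h1 : ∀ θ, HasDerivAt (fun θ => G (θ - θ₀) z) ((G (θ - θ₀) z).2,
      fderiv ℝ Pr (G (θ - θ₀) z).1 (G (θ - θ₀) z).2 (G (θ - θ₀) z).2) θ := fun θ =>
    (hG.der (θ - θ₀) z hz hzR).comp_sub_const θ θ₀
  have h2 : ∀ θ, HasDerivAt (fun θ => (G (θ - θ₀) z).1) (G (θ - θ₀) z).2 θ := fun θ => (h1 θ).fst
  have h3 : ∀ θ, HasDerivAt (fun θ => (G (θ - θ₀) z).2)
      (fderiv ℝ Pr (G (θ - θ₀) z).1 (G (θ - θ₀) z).2 (G (θ - θ₀) z).2) θ := fun θ => (h1 θ).snd
  have h4 : deriv (fun θ => (G (θ - θ₀) z).1) = fun θ => (G (θ - θ₀) z).2 := by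
    funext θ
    exact (h2 θ).deriv
  have hsm : ContDiff ℝ ∞ fun θ : ℝ => (G (θ - θ₀) z).1 := by
    have h5 : ContDiff ℝ ∞ fun θ : ℝ => ((θ - θ₀, z) : ℝ × (E m × E m)) :=
      (contDiff_id.sub contDiff_const).prodMk contDiff_const
    exact (hG.smooth.comp h5).fst
  refine ⟨⟨hsm, fun θ => (hG.maps _ z hz).1, ?_, ?_⟩, fun θ => (h2 θ).deriv⟩
  · intro θ
    rw [h4]
    show ‖(G (θ - θ₀) z).2‖ = 1
    rw [hG.norm _ z hz hzR, hz1]
  · intro θ
    rw [h4]
    exact (h3 θ).deriv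

theorem ng_limit (h : TD n N Pr F g) {cs : ℕ → ℝ → E m} (hcs : ∀ k, NG N Pr F g (cs k))
    {θs : ℕ → ℝ} {θ : ℝ} {q v : E m} (h1 : Tendsto θs atTop (𝓝 θ))
    (h2 : Tendsto (fun k => cs k (θs k)) atTop (𝓝 q))
    (h3 : Tendsto (fun k => deriv (cs k) (θs k)) atTop (𝓝 v)) :
    ∃ c, NG N Pr F g c ∧ c θ = q ∧ deriv c θ = v := by
  obtain ⟨G, hG⟩ := exists_geo h.mfd h.proj 1
  have hz : ((q, v) : E m × E m) ∈ TN N := by
    refine (h.mfd.sub.isClosed_tan h.mfd.closed).mem_of_tendsto (h2.prodMk_nhds h3)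
      (Eventually.of_forall fun k => ?_)
    exact ⟨(hcs k).mem _, gc_tan (hcs k).gc _⟩
  have hv : ‖v‖ = 1 := by
    have h4 := h3.norm
    simp only [(hcs _).unit] at h4
    exact tendsto_nhds_unique h4 tendsto_const_nhds |>.symm ▸ rfl
  obtain ⟨hgc, hgd⟩ := gc_of_geo hG le_rfl hz hv θ
  have hGc : Continuous fun x : ℝ × (E m × E m) => G x.1 x.2 := hG.smooth.continuous
  have key : ∀ τ : ℝ, Tendsto (fun k => (cs k τ, deriv (cs k) τ)) atTop (𝓝 (G (τ - θ) (q, v))) := by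
    intro τ
    have h5 : Tendsto (fun k => ((τ - θs k, (cs k (θs k), deriv (cs k) (θs k))) :
        ℝ × (E m × E m))) atTop (𝓝 (τ - θ, (q, v))) :=
      (tendsto_const_nhds.sub h1).prodMk_nhds (h2.prodMk_nhds h3)
    have h6 := (hGc.tendsto (τ - θ, (q, v))).comp h5
    refine h6.congr fun k => ?_
    have h7 := ng_geo hG le_rfl (hcs k).gc (θs k) (τ - θs k)
    rw [add_sub_cancel] at h7
    exact h7.symm
  have k1 : ∀ τ : ℝ, Tendsto (fun k => cs k τ) atTop (𝓝 (G (τ - θ) (q, v)).1) := fun τ =>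
    (continuous_fst.tendsto _).comp (key τ)
  have k2 : ∀ τ : ℝ, Tendsto (fun k => deriv (cs k) τ) atTop (𝓝 (G (τ - θ) (q, v)).2) := fun τ =>
    (continuous_snd.tendsto _).comp (key τ)
  refine ⟨fun τ => (G (τ - θ) (q, v)).1, ⟨hgc.smooth, hgc.mem, hgc.unit, hgc.geod, ?_, ?_⟩, ?_, ?_⟩
  · intro τ
    have h8 := (h.trans.smooth.continuous.tendsto _).comp (k1 τ)
    have h9 : (F ∘ fun k => cs k τ) = fun _ => Real.cos τ := by
      funext k
      exact (hcs k).lev τ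
    rw [h9] at h8
    exact tendsto_nhds_unique h8 tendsto_const_nhds
  · intro τ
    have h8 := (h.smooth.continuous.tendsto _).comp (k1 τ)
    have h9 : (g ∘ fun k => cs k τ) = fun k => -(Real.sin τ • deriv (cs k) τ) := by
      funext k
      exact (hcs k).gr τ
    rw [h9] at h8
    have h10 := ((k2 τ).const_smul (Real.sin τ)).neg
    rw [hgd]
    exact tendsto_nhds_unique h8 h10
  · show (G (θ - θ) (q, v)).1 = q
    rw [sub_self, hG.zero]
  · rw [hgd, sub_self, hG.zero]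

end Pool.Agent.H73.CO
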