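import Pool.Agent.H73.CO.SubA

/-!
# Module SubE: the profile at a cone point (about 150 lines)

PROOF of `subAt_cone`. Chart `e`, `ℓ` of `plane_chart`; `x s = e.symm ⟨s, 0⟩` for `|s| < δ`: smooth, `x 0 = z₀` (`G₀ z₀ = 0`), `G₀ (x s) = 0`, `ℓ (x s - z₀) = s`; every `z` near `z₀` with `G₀ z = 0` is `x (ℓ (z - z₀))`. Take `δ` small:
for `|s| < δ` the hypotheses `hΓ`, `hsub` hold near / at `x s`. `P = {s ∈ (-δ, δ) | x s ∈ Γ}` is closed in `(-δ, δ)` (`Γ` closed).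
For `s ∈ P`, `s ≠ 0`: `x s ≠ z₀`, so `SubAt 1 Γ (x s)`; `subAt_curve` gives `y` with `y 0 = x s`, velocity `v ≠ 0`, `y t ∈ Γ`, so `G₀ (y t) = 0` near `0` and `y t = x (λ t)`, `λ t = ℓ (y t - z₀)`, `λ 0 = s`, `λ' (0) = ℓ v`;
`fderiv ℝ G₀ (x s) v = 0`, so `ℓ v ≠ 0`: `λ` takes all values near `s`, so `P` contains a neighbourhood of `s`. So `P ∩ (0, δ)` and `P ∩ (-δ, 0)` are open and closed in these intervals: each is empty or everything.
`hacc`: points `w ∈ Γ`, `w ≠ z₀`, arbitrarily near `z₀`; `w = x s` with `s = ℓ (w - z₀) ≠ 0` small. So `P` contains `(0, δ)` or `(-δ, 0)`. In the first case put `y t = x t` for `t ≥ 0` and `y t = 2 z₀ - x (-t)` for `t < 0`; in the second case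
`y t = x t` for `t ≤ 0` and `y t = 2 z₀ - x (-t)` for `t > 0`. `y t ∈ Γ` (`hsym`), `y` is continuous near `0` and has derivative `x' (0) ≠ 0` at `0` (both one sided derivatives). `subAt_of_curve`.
-/

set_option autoImplicit false

open scoped ContDiff Topology RealInnerProductSpace
open Set Filter

namespace Pool.Agent.H73.CO

open Pool.Agent.H57.NL Pool.Agent.H2.TG Pool.Agent.H2.TI

variable {m n : ℕ} {N : Set (E m)} {Pr : E m → (E m →L[ℝ] E m)} {F : E m → ℝ}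
  {g : E m → E m}

/-- A function with a nonzero derivative at `0`, continuous near `0`, takes all values near its
value at `0`. -/
theorem image_nhds {l : ℝ → ℝ} {d : ℝ} (hl : HasDerivAt l d 0) (hd : d ≠ 0)
    (hc : ∀ᶠ t in 𝓝 (0 : ℝ), ContinuousAt l t) {T : Set ℝ} (hT : T ∈ 𝓝 (0 : ℝ)) :
    l '' T ∈ 𝓝 (l 0) := by
  have h1 := hasDerivAt_iff_tendsto_slope.1 hl
  have h2 : ∀ᶠ t in 𝓝[≠] (0 : ℝ), 0 < slope l 0 t * d := by
    have h3 : Tendsto (fun t => slope l 0 t * d) (𝓝[≠] 0) (𝓝 (d * d)) := h1.mul_const d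
    exact h3.eventually (lt_mem_nhds (mul_self_pos.2 hd))
  have h4 : ∀ᶠ t in 𝓝 (0 : ℝ), t ≠ 0 → 0 < slope l 0 t * d := by
    simpa [eventually_nhdsWithin_iff] using h2
  obtain ⟨ε, hε, hb⟩ := Metric.mem_nhds_iff.1 (inter_mem (inter_mem hc hT) h4)
  have hmem : ∀ t : ℝ, |t| ≤ ε / 2 → t ∈ Metric.ball (0 : ℝ) ε := by
    intro t ht
    rw [Metric.mem_ball, Real.dist_eq, sub_zero]
    linarith
  have hε2 : 0 < ε / 2 := by linarith
  have ha : |(-(ε / 2))| ≤ ε / 2 := by rw [abs_neg, abs_of_pos hε2]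
  have hb' : |ε / 2| ≤ ε / 2 := by rw [abs_of_pos hε2]
  have p1 := (hb (hmem _ hb')).2 hε2.ne'
  have p2 := (hb (hmem _ ha)).2 (neg_ne_zero.2 hε2.ne')
  rw [slope_def_field, sub_zero] at p1 p2
  have q1 : 0 < (l (ε / 2) - l 0) * d := by
    have : (l (ε / 2) - l 0) * d = (l (ε / 2) - l 0) / (ε / 2) * d * (ε / 2) := by
      rw [div_mul_eq_mul_div, div_mul_cancel₀ _ hε2.ne']
    rw [this]
    exact mul_pos p1 hε2
  have q2 : (l (-(ε / 2)) - l 0) * d < 0 := by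
    have : (l (-(ε / 2)) - l 0) * d = -((l (-(ε / 2)) - l 0) / (-(ε / 2)) * d * (ε / 2)) := by
      rw [div_neg, neg_mul, neg_mul, neg_neg, div_mul_eq_mul_div, div_mul_cancel₀ _ hε2.ne']
    rw [this]
    exact neg_neg_of_pos (mul_pos p2 hε2)
  have hcont : ContinuousOn l (uIcc (-(ε / 2)) (ε / 2)) := by
    intro t ht
    rw [uIcc_of_le (by linarith)] at ht
    exact ((hb (hmem t (abs_le.2 ht))).1.1).continuousWithinAt
  have himg := intermediate_value_uIcc hcont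
  have hsub : uIcc (-(ε / 2)) (ε / 2) ⊆ T := by
    intro t ht
    rw [uIcc_of_le (by linarith)] at ht
    exact (hb (hmem t (abs_le.2 ht))).1.2
  refine mem_of_superset ?_ (himg.trans (image_mono hsub))
  rcases lt_or_gt_of_ne hd with h | h
  · have r1 : l (ε / 2) < l 0 := by nlinarith
    have r2 : l 0 < l (-(ε / 2)) := by nlinarith
    rw [uIcc_of_ge (r1.trans r2).le]
    exact Icc_mem_nhds r1 r2
  · have r1 : l 0 < l (ε / 2) := by nlinarith
    have r2 : l (-(ε / 2)) < l 0 := by nlinarith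
    rw [uIcc_of_le (r2.trans r1).le]
    exact Icc_mem_nhds r2 r1

theorem subAt_cone {Γ : Set ℂ} {z₀ : ℂ} {G₀ : ℂ → ℝ} (hcl : IsClosed Γ) (hz₀ : z₀ ∈ Γ)
    (hsym : ∀ z ∈ Γ, 2 * z₀ - z ∈ Γ) (hG : ∀ᶠ z in 𝓝 z₀, ContDiffAt ℝ ∞ G₀ z)
    (hD : fderiv ℝ G₀ z₀ ≠ 0) (hΓ : ∀ᶠ z in 𝓝 z₀, z ∈ Γ → G₀ z = 0)
    (hsub : ∀ᶠ z in 𝓝[≠] z₀, z ∈ Γ → SubAt 1 Γ z) (hacc : ∃ᶠ w in 𝓝[≠] z₀, w ∈ Γ) :
    SubAt 1 Γ z₀ := by
  obtain ⟨ℓ, e, hz, hes, het, heq, hinj⟩ := plane_chart hG hD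
  have hG0 : G₀ z₀ = 0 := hΓ.self_of_nhds hz₀
  have hez : e z₀ = 0 := by
    rw [heq z₀ hz, hG0, sub_self, map_zero]
    rfl
  have h0t : (0 : ℂ) ∈ e.target := by
    rw [← hez]
    exact e.map_source hz
  set X : ℝ → ℂ := fun s => e.symm (s : ℂ) with hXdef
  have hX0 : X 0 = z₀ := by
    simp only [hXdef, Complex.ofReal_zero]
    rw [← hez]
    exact e.left_inv hz
  -- the good neighbourhood
  have hsub' : ∀ᶠ z in 𝓝 z₀, z ≠ z₀ → z ∈ Γ → SubAt 1 Γ z := by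
    simpa [eventually_nhdsWithin_iff] using hsub
  have hU : ∀ᶠ z in 𝓝 z₀, z ∈ e.source ∧ (z ∈ Γ → G₀ z = 0) ∧
      (z ≠ z₀ → z ∈ Γ → SubAt 1 Γ z) :=
    (e.open_source.eventually_mem hz).and (hΓ.and hsub')
  have hXd : ∀ s : ℝ, (s : ℂ) ∈ e.target → ContDiffAt ℝ ∞ X s := by
    intro s hs
    have h1 : ContDiffAt ℝ ∞ e.symm (s : ℂ) := het.contDiffAt (e.open_target.mem_nhds hs)
    exact h1.comp s Complex.ofRealCLM.contDiff.contDiffAt
  have hXc0 : ContinuousAt X 0 := (hXd 0 (by simpa using h0t)).continuousAt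
  have hev : ∀ᶠ s : ℝ in 𝓝 (0 : ℝ), (s : ℂ) ∈ e.target ∧ ∀ᶠ z in 𝓝 (X s), z ∈ e.source ∧
      (z ∈ Γ → G₀ z = 0) ∧ (z ≠ z₀ → z ∈ Γ → SubAt 1 Γ z) := by
    refine Filter.Eventually.and ?_ ?_
    · have : Tendsto (fun s : ℝ => (s : ℂ)) (𝓝 0) (𝓝 0) := by
        simpa using (Complex.continuous_ofReal.tendsto 0)
      exact this.eventually (e.open_target.mem_nhds h0t)
    · have h1 := hU.eventually_nhds
      exact hXc0.eventually (p := fun x => ∀ᶠ z in 𝓝 x, z ∈ e.source ∧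
        (z ∈ Γ → G₀ z = 0) ∧ (z ≠ z₀ → z ∈ Γ → SubAt 1 Γ z)) (by rw [hX0]; exact h1)
  obtain ⟨δ, hδ, hb⟩ := Metric.mem_nhds_iff.1 hev
  have hδm : ∀ s : ℝ, |s| < δ → (s : ℂ) ∈ e.target ∧ ∀ᶠ z in 𝓝 (X s), z ∈ e.source ∧
      (z ∈ Γ → G₀ z = 0) ∧ (z ≠ z₀ → z ∈ Γ → SubAt 1 Γ z) := by
    intro s hs
    exact hb (by rw [Metric.mem_ball, Real.dist_eq, sub_zero]; exact hs)
  have hsrc : ∀ s : ℝ, |s| < δ → X s ∈ e.source := fun s hs => e.map_target (hδm s hs).1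
  have heX : ∀ s : ℝ, |s| < δ → e (X s) = (s : ℂ) := fun s hs => e.right_inv (hδm s hs).1
  have hℓX : ∀ s : ℝ, |s| < δ → ℓ (X s - z₀) = s := by
    intro s hs
    have h1 := heX s hs
    rw [heq _ (hsrc s hs)] at h1
    simpa using congrArg Complex.re h1
  have hback : ∀ z ∈ e.source, G₀ z = 0 → X (ℓ (z - z₀)) = z := by
    intro z hzs hG
    have h1 : ((ℓ (z - z₀) : ℝ) : ℂ) = e z := by
      rw [heq z hzs, hG]
      rfl
    simp only [hXdef]
    rw [h1]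
    exact e.left_inv hzs
  -- openness
  have hopen : ∀ s : ℝ, |s| < δ → s ≠ 0 → X s ∈ Γ → ∀ᶠ s' in 𝓝 s, X s' ∈ Γ := by
    intro s hs hs0 hsΓ
    have hne : X s ≠ z₀ := by
      intro h
      have := hℓX s hs
      rw [h, sub_self, map_zero] at this
      exact hs0 this.symm
    have hev := (hδm s hs).2
    have hS := hev.self_of_nhds.2.2 hne hsΓ
    obtain ⟨y, v, hy0, hyd, hv, hy⟩ := subAt_curve hS hsΓ
    have hyc : ContinuousAt y 0 := hyd.continuousAt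
    have hyU : ∀ᶠ t in 𝓝 (0 : ℝ), y t ∈ Γ ∧ y t ∈ e.source ∧ G₀ (y t) = 0 := by
      have h1 := hyc.eventually (by rw [hy0]; exact hev)
      filter_upwards [h1, hy] with t ht1 ht2
      exact ⟨ht2.1, ht1.1, ht1.2.1 ht2.1⟩
    have hGd := (hinj (X s) (hsrc s hs)).1
    have hfd : HasFDerivAt G₀ (fderiv ℝ G₀ (X s)) (y 0) := by
      rw [hy0]
      exact (hGd.differentiableAt (by simp)).hasFDerivAt
    have hcomp : HasDerivAt (G₀ ∘ y) (fderiv ℝ G₀ (X s) v) 0 := hfd.comp_hasDerivAt 0 hyd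
    have hzero : HasDerivAt (G₀ ∘ y) 0 0 := by
      have h1 : (G₀ ∘ y) =ᶠ[𝓝 (0 : ℝ)] fun _ => (0 : ℝ) := by
        filter_upwards [hyU] with t ht
        exact ht.2.2
      exact (hasDerivAt_const (0 : ℝ) (0 : ℝ)).congr_of_eventuallyEq h1
    have hGv : fderiv ℝ G₀ (X s) v = 0 := hcomp.unique hzero
    have hℓv : ℓ v ≠ 0 := fun h => hv ((hinj (X s) (hsrc s hs)).2 v hGv h)
    have hld : HasDerivAt (fun t => ℓ (y t - z₀)) (ℓ v) 0 :=
      (ℓ.hasFDerivAt (x := y 0 - z₀)).comp_hasDerivAt 0 (hyd.sub_const z₀)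
    have hlc : ∀ᶠ t in 𝓝 (0 : ℝ), ContinuousAt (fun t => ℓ (y t - z₀)) t := by
      filter_upwards [hy] with t ht
      exact ℓ.continuous.continuousAt.comp (ht.2.sub continuousAt_const)
    have himg := image_nhds hld hℓv hlc hyU
    have hl0 : ℓ (y 0 - z₀) = s := by rw [hy0]; exact hℓX s hs
    simp only [hl0] at himg
    filter_upwards [himg] with s' hs'
    obtain ⟨t, ht, rfl⟩ := hs'
    rw [hback _ ht.2.1 ht.2.2]
    exact ht.1
  -- connectedness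
  have hconn : ∀ I : Set ℝ, IsPreconnected I → (∀ s ∈ I, |s| < δ ∧ s ≠ 0) →
      ∀ s₁ ∈ I, X s₁ ∈ Γ → ∀ s ∈ I, X s ∈ Γ := by
    intro I hI hIs s₁ hs₁ hs₁Γ
    have hint : interior {s | X s ∈ Γ} ⊆ {s | X s ∈ Γ} := interior_subset
    have hmain : I ⊆ interior {s | X s ∈ Γ} := by
      refine hI.subset_of_closure_inter_subset isOpen_interior ⟨s₁, hs₁, ?_⟩ ?_
      · exact mem_interior_iff_mem_nhds.2 (hopen s₁ (hIs s₁ hs₁).1 (hIs s₁ hs₁).2 hs₁Γ)
      · rintro t ⟨ht1, ht2⟩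
        have h1 : ∃ᶠ s' in 𝓝 t, X s' ∈ Γ :=
          (mem_closure_iff_frequently.1 ht1).mono fun s' hs' => hint hs'
        have h2 : X t ∈ Γ := hcl.mem_of_frequently_of_tendsto h1
          (hXd t (hδm t (hIs t ht2).1).1).continuousAt
        exact mem_interior_iff_mem_nhds.2 (hopen t (hIs t ht2).1 (hIs t ht2).2 h2)
    intro s hs
    exact hint (hmain hs)
  -- one side
  obtain ⟨σ, hσ, hside⟩ : ∃ σ : ℝ, (σ = 1 ∨ σ = -1) ∧ ∀ t : ℝ, 0 < t → t < δ → X (σ * t) ∈ Γ := by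
    have hl : ∀ᶠ z in 𝓝 z₀, |ℓ (z - z₀)| < δ := by
      have h1 : Continuous fun z => |ℓ (z - z₀)| := by fun_prop
      have h2 := h1.tendsto z₀
      rw [sub_self, map_zero, abs_zero] at h2
      exact h2.eventually (gt_mem_nhds hδ)
    have h1 : ∃ᶠ w in 𝓝[≠] z₀, w ∈ Γ ∧ ((w ≠ z₀) ∧ (w ∈ e.source ∧ (w ∈ Γ → G₀ w = 0)) ∧
        |ℓ (w - z₀)| < δ) := by
      refine hacc.and_eventually ?_
      have h2 : ∀ᶠ w in 𝓝[≠] z₀, w ≠ z₀ := eventually_mem_nhdsWithin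
      have h3 : ∀ᶠ w in 𝓝[≠] z₀, w ∈ e.source ∧ (w ∈ Γ → G₀ w = 0) :=
        ((e.open_source.eventually_mem hz).and hΓ).filter_mono nhdsWithin_le_nhds
      exact h2.and (h3.and (hl.filter_mono nhdsWithin_le_nhds))
    obtain ⟨w, hw, hwne, ⟨hws, hwG⟩, hwl⟩ := h1.exists
    have hwX := hback w hws (hwG hw)
    have hs0 : ℓ (w - z₀) ≠ 0 := by
      intro h
      rw [h, hX0] at hwX
      exact hwne hwX.symm
    rcases lt_or_gt_of_ne hs0 with h | h
    · refine ⟨-1, Or.inr rfl, fun t ht0 htδ => ?_⟩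
      refine hconn (Ioo (-δ) 0) isPreconnected_Ioo ?_ (ℓ (w - z₀)) ⟨(abs_lt.1 hwl).1, h⟩
        (by rw [hwX]; exact hw) _ ⟨by linarith, by linarith⟩
      rintro s ⟨hs1, hs2⟩
      exact ⟨abs_lt.2 ⟨hs1, by linarith⟩, hs2.ne⟩
    · refine ⟨1, Or.inl rfl, fun t ht0 htδ => ?_⟩
      refine hconn (Ioo 0 δ) isPreconnected_Ioo ?_ (ℓ (w - z₀)) ⟨h, (abs_lt.1 hwl).2⟩
        (by rw [hwX]; exact hw) _ ⟨by linarith, by linarith⟩
      rintro s ⟨hs1, hs2⟩
      exact ⟨abs_lt.2 ⟨by linarith, hs2⟩, hs1.ne'⟩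
  have hσ1 : |σ| = 1 := by
    rcases hσ with h | h
    · rw [h, abs_one]
    · rw [h, abs_neg, abs_one]
  have hσ0 : σ ≠ 0 := by
    intro h
    rw [h, abs_zero] at hσ1
    exact zero_ne_one hσ1
  -- the derivative of `X` at `0`
  have hXd0 : HasDerivAt X (deriv X 0) 0 :=
    ((hXd 0 (by simpa using h0t)).differentiableAt (by simp)).hasDerivAt
  have hℓX' : ℓ (deriv X 0) = 1 := by
    have h1 : HasDerivAt (fun s => ℓ (X s - z₀)) (ℓ (deriv X 0)) 0 :=
      (ℓ.hasFDerivAt (x := X 0 - z₀)).comp_hasDerivAt 0 (hXd0.sub_const z₀)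
    have h2 : HasDerivAt (fun s => ℓ (X s - z₀)) 1 0 := by
      refine (hasDerivAt_id' (0 : ℝ)).congr_of_eventuallyEq ?_
      filter_upwards [Metric.ball_mem_nhds (0 : ℝ) hδ] with s hs
      rw [Metric.mem_ball, Real.dist_eq, sub_zero] at hs
      exact hℓX s hs
    exact h1.unique h2
  have hXσ : ∀ τ : ℝ, HasDerivAt (fun t => X (τ * t)) (τ • deriv X 0) 0 := by
    intro τ
    have h1 : HasDerivAt (fun t : ℝ => τ * t) τ 0 := by
      simpa using (hasDerivAt_id' (0 : ℝ)).const_mul τ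
    have h2 : HasDerivAt X (deriv X 0) (τ * 0) := by rw [mul_zero]; exact hXd0
    exact h2.scomp (0 : ℝ) h1
  set a : ℝ → ℂ := fun t => X (σ * t) with ha
  set b : ℝ → ℂ := fun t => 2 * z₀ - X (-σ * t) with hb'
  have ha0 : a 0 = z₀ := by simp only [ha, mul_zero]; exact hX0
  have hb0 : b 0 = z₀ := by simp only [hb', mul_zero, hX0]; ring
  have had : HasDerivAt a (σ • deriv X 0) 0 := hXσ σ
  have hbd : HasDerivAt b (σ • deriv X 0) 0 := by
    have := (hXσ (-σ)).const_sub (2 * z₀)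
    rw [neg_smul, neg_neg] at this
    exact this
  set y : ℝ → ℂ := fun t => if 0 ≤ t then a t else b t with hydef
  have hy0 : y 0 = z₀ := by simp [hydef, ha0]
  have hyd : HasDerivAt y (σ • deriv X 0) 0 := by
    have h1 : HasDerivWithinAt y (σ • deriv X 0) (Ici 0) 0 := by
      refine had.hasDerivWithinAt.congr (fun t ht => ?_) ?_
      · simp only [hydef]
        rw [if_pos (show (0 : ℝ) ≤ t from ht)]
      · simp [hydef]
    have h2 : HasDerivWithinAt y (σ • deriv X 0) (Iic 0) 0 := by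
      refine hbd.hasDerivWithinAt.congr (fun t ht => ?_) ?_
      · rcases (show t ≤ 0 from ht).lt_or_eq with h | h
        · simp only [hydef]
          rw [if_neg (not_le.2 h)]
        · rw [h, hy0, hb0]
      · rw [hy0, hb0]
    have h3 := h2.union h1
    rw [Iic_union_Ici] at h3
    exact h3.hasDerivAt Filter.univ_mem
  have hv : σ • deriv X 0 ≠ 0 := by
    refine smul_ne_zero hσ0 fun h => ?_
    rw [h, map_zero] at hℓX'
    exact zero_ne_one hℓX'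
  refine subAt_of_curve hG hD hz₀ hΓ hy0 hyd hv ?_
  filter_upwards [Metric.ball_mem_nhds (0 : ℝ) hδ] with t ht
  rw [Metric.mem_ball, Real.dist_eq, sub_zero] at ht
  have hcX : ∀ τ : ℝ, |τ| = 1 → ContinuousAt (fun t => X (τ * t)) t := by
    intro τ hτ
    have h1 : |τ * t| < δ := by rw [abs_mul, hτ, one_mul]; exact ht
    exact ContinuousAt.comp (f := fun t => τ * t) (hXd _ (hδm _ h1).1).continuousAt
      (by fun_prop)
  rcases lt_trichotomy t 0 with h | h | h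
  · refine ⟨?_, ?_⟩
    · have h1 : y t = b t := by
        simp only [hydef]
        rw [if_neg (not_le.2 h)]
      rw [h1]
      refine hsym _ ?_
      have := hside (-t) (by linarith) (by rw [abs_of_neg h] at ht; exact ht)
      rw [mul_neg, ← neg_mul] at this
      exact this
    · have h1 : b =ᶠ[𝓝 t] y := by
        filter_upwards [gt_mem_nhds h] with u hu
        simp only [hydef]
        rw [if_neg (not_le.2 hu)]
      refine ContinuousAt.congr ?_ h1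
      exact continuousAt_const.sub (hcX (-σ) (by rw [abs_neg]; exact hσ1))
  · rw [h]
    exact ⟨by rw [hy0]; exact hz₀, hyd.continuousAt⟩
  · refine ⟨?_, ?_⟩
    · have h1 : y t = a t := by
        simp only [hydef]
        rw [if_pos h.le]
      rw [h1]
      exact hside t h (by rw [abs_of_pos h] at ht; exact ht)
    · have h1 : a =ᶠ[𝓝 t] y := by
        filter_upwards [lt_mem_nhds h] with u hu
        simp only [hydef]
        rw [if_pos hu.le]
      exact ContinuousAt.congr (hcX σ hσ1) h1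

end Pool.Agent.H73.CO
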