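import Pool.Agent.H73.CO.SubC
import Pool.Agent.H73.CO.SubE
import Pool.Agent.H73.CO.DZ

/-!
# Module PSet: the profile of `S` (about 170 lines)

PROOFS.
* `subAt_nc`: `exists_tau` and `exists_shear`: `Prof c S = shr2 τ ⁻¹' Prof c S'` and `shr2 τ z₀` is regular, `subAt_reg` for `S'`; `shr2 τ` is a continuous linear automorphism of `ℂ` over `ℝ` (inverse `shr2 (-τ)`), `subAt_preimage`.
* `prof_planeSet`. `ne`: `prof_ne`. `closed`: `ph c` is continuous. `neg`: `prof_neg`. `per`: `prof_add` with `k = 1`. `bdd`: `|z.im| = ‖(ph c z).2‖ ≤ R` (`hL.bdd`, `unit`).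
  `sub`: `z₀` not a cone point: `subAt_nc`. At a cone point: `subAt_cone` with `def_fun`; `hsym`: `2 z₀ - z = -z + 2 π k` where `z₀ = π k` (`prof_neg`, `prof_add`); near `z₀` there is no other cone point; `prof_acc`.
  `prim`: `f (ph c y) - f (ph c z) - ⟪ρ c' θ, c (y.re) - c (θ)⟫ = o(ph c y - ph c z) = o(y - z)` for `y ∈ Γ` (`hL.prim`, `ph c` is smooth, so `O(y - z)`, continuous), and `⟪ρ c' θ, c (y.re) - c θ⟫ = ρ (y.re - θ) + o(y - z)` since `⟪c', c'⟫ = 1`.
  `fper`: `d_zero` for `D z = f (ph c (z + 2 π)) - f (ph c z)`: `hD`: the difference of two instances of `prim` (at `z + 2 π` and at `z`, the linear parts cancel); `h0`: `sat_reg` with `c₂ θ = c (θ + 2 π)` (`ng_add`, `ph_add` with `k = 1`).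
-/

set_option autoImplicit false

open scoped ContDiff Topology RealInnerProductSpace
open Set Filter

namespace Pool.Agent.H73.CO

open Pool.Agent.H57.NL Pool.Agent.H2.TG Pool.Agent.H2.TI

variable {m n : ℕ} {N : Set (E m)} {Pr : E m → (E m →L[ℝ] E m)} {F : E m → ℝ}
  {g : E m → E m}

variable {S : Set (E m × E m)} {f : E m × E m → ℝ} {c : ℝ → E m}


/-- the shear as a linear automorphism -/
private noncomputable def pset_L (τ : ℝ) : ℂ ≃L[ℝ] ℂ :=
  LinearEquiv.toContinuousLinearEquiv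
    { toFun := shr2 τ
      map_add' := fun z w => by
        unfold shr2
        apply Complex.ext
        · simp only [Complex.add_re, Complex.add_im]
          ring
        · simp only [Complex.add_im]
      map_smul' := fun t z => by
        unfold shr2
        apply Complex.ext
        · simp only [Complex.smul_re, Complex.smul_im, smul_eq_mul, RingHom.id_apply]
          ring
        · simp only [Complex.smul_im, RingHom.id_apply]
      invFun := shr2 (-τ)
      left_inv := fun z => by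
        unfold shr2
        apply Complex.ext
        · simp only
          ring
        · simp only
      right_inv := fun z => by
        unfold shr2
        apply Complex.ext
        · simp only
          ring
        · simp only }

private lemma pset_L_apply (τ : ℝ) (z : ℂ) : pset_L τ z = shr2 τ z := rfl

theorem subAt_nc (h : TD n N Pr F g) (hL : ExactLag n N ⊥ S f) (hM : S ⊆ MF N g)
    (hc : NG N Pr F g c) {z₀ : ℂ} (hs : ¬IsCone z₀) (hz : z₀ ∈ Prof c S) :
    SubAt 1 (Prof c S) z₀ := by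
  obtain ⟨τ, hτ, hsin⟩ := exists_tau hs
  obtain ⟨S', f', hL', hM', hS'⟩ := exists_shear h hL hM hτ
  have e : Prof c S = (pset_L τ) ⁻¹' Prof c S' := by
    ext z
    exact hS' c hc z
  have hz' : shr2 τ z₀ ∈ Prof c S' := (hS' c hc z₀).1 hz
  rw [e]
  exact subAt_preimage (pset_L τ) (subAt_reg h hL' hM' hc hsin hz')

/-- cone points are isolated -/
private lemma pset_iso {z₀ : ℂ} (hz₀ : IsCone z₀) : ∀ᶠ z in 𝓝[≠] z₀, ¬IsCone z := by
  have h1 : ∀ᶠ z in 𝓝 z₀, ‖z - z₀‖ < Real.pi := by
    have h2 : Tendsto (fun z : ℂ => ‖z - z₀‖) (𝓝 z₀) (𝓝 0) := by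
      have h3 : Continuous fun z : ℂ => ‖z - z₀‖ := by fun_prop
      have h4 := h3.tendsto z₀
      simpa using h4
    exact h2.eventually (gt_mem_nhds Real.pi_pos)
  have h1' : ∀ᶠ z in 𝓝[≠] z₀, ‖z - z₀‖ < Real.pi := h1.filter_mono nhdsWithin_le_nhds
  filter_upwards [h1', self_mem_nhdsWithin] with z hz hne hcz
  apply hne
  obtain ⟨a1, a2⟩ := hz₀
  obtain ⟨b1, b2⟩ := hcz
  obtain ⟨k, hk⟩ := Real.sin_eq_zero_iff.1 a1
  obtain ⟨l, hl⟩ := Real.sin_eq_zero_iff.1 b1
  have h5 : |z.re - z₀.re| < Real.pi := by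
    have := Complex.abs_re_le_norm (z - z₀)
    rw [Complex.sub_re] at this
    exact this.trans_lt hz
  rw [← hk, ← hl, ← sub_mul, abs_mul, abs_of_pos Real.pi_pos] at h5
  have h6 : |((l : ℝ) - k)| < 1 := by
    by_contra hcon
    push Not at hcon
    have := mul_le_mul_of_nonneg_right hcon Real.pi_pos.le
    linarith
  have h7 : |(l - k : ℤ)| < 1 := by
    have h8 : ((|(l - k : ℤ)| : ℤ) : ℝ) < ((1 : ℤ) : ℝ) := by
      push_cast
      exact h6
    exact_mod_cast h8
  have h9 : l - k = 0 := Int.abs_lt_one_iff.1 h7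
  have h10 : l = k := by omega
  apply Complex.ext
  · rw [← hk, ← hl, h10]
  · rw [a2, b2]

/-- the primitive on the profile -/
private lemma pset_prim (hL : ExactLag n N ⊥ S f) (hc : NG N Pr F g c) {z : ℂ}
    (hz : z ∈ Prof c S) :
    (fun y : ℂ => f (ph c y) - f (ph c z) - z.im * (y.re - z.re)) =o[𝓝[Prof c S] z]
      fun y => y - z := by
  have hsm := ph_smooth hc
  have hT : Tendsto (ph c) (𝓝[Prof c S] z) (𝓝[S] (ph c z)) :=
    tendsto_nhdsWithin_iff.2 ⟨hsm.continuous.continuousAt.mono_left nhdsWithin_le_nhds,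
      eventually_nhdsWithin_of_forall fun y hy => hy⟩
  have o1 := (hL.prim (ph c z) hz).comp_tendsto hT
  have o2 : (fun y => ph c y - ph c z) =O[𝓝[Prof c S] z] fun y => y - z :=
    ((hsm.differentiable (by simp) z).isBigO_sub).mono nhdsWithin_le_nhds
  have o3 : (fun y : ℂ => f (ph c y) - f (ph c z) - ⟪(ph c z).2, (ph c y).1 - (ph c z).1⟫)
      =o[𝓝[Prof c S] z] fun y => y - z := o1.trans_isBigO o2
  have hcd : HasDerivAt c (deriv c z.re) z.re :=
    (hc.smooth.differentiable (by simp) z.re).hasDerivAt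
  have hG : HasFDerivAt (fun y : ℂ => ⟪(ph c z).2, c y.re⟫) (z.im • Complex.reCLM) z := by
    have h1 : HasFDerivAt (fun y : ℂ => y.re) Complex.reCLM z := Complex.reCLM.hasFDerivAt
    have h2 : HasDerivAt (fun t : ℝ => ⟪(ph c z).2, c t⟫) ⟪(ph c z).2, deriv c z.re⟫ z.re :=
      (innerSL ℝ (ph c z).2).hasFDerivAt.comp_hasDerivAt z.re hcd
    have h3 : ⟪(ph c z).2, deriv c z.re⟫ = z.im := by
      show ⟪z.im • deriv c z.re, deriv c z.re⟫ = z.im
      rw [real_inner_smul_left, real_inner_self_eq_norm_sq, hc.unit]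
      ring
    rw [h3] at h2
    exact h2.comp_hasFDerivAt z h1
  have o4 : (fun y : ℂ => ⟪(ph c z).2, c y.re⟫ - ⟪(ph c z).2, c z.re⟫ -
      (z.im • Complex.reCLM) (y - z)) =o[𝓝[Prof c S] z] fun y => y - z :=
    hG.isLittleO.mono nhdsWithin_le_nhds
  refine (o3.add o4).congr_left fun y => ?_
  have h5 : ⟪(ph c z).2, (ph c y).1 - (ph c z).1⟫ = ⟪(ph c z).2, c y.re⟫ - ⟪(ph c z).2, c z.re⟫ := by
    show ⟪(ph c z).2, c y.re - c z.re⟫ = _
    rw [inner_sub_right]
  have h6 : (z.im • Complex.reCLM) (y - z) = z.im * (y.re - z.re) := by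
    simp
  rw [h5, h6]
  ring

private lemma pset_add (h : TD n N Pr F g) (hL : ExactLag n N ⊥ S f) (hM : S ⊆ MF N g)
    (hc : NG N Pr F g c) {z : ℂ} (hz : z ∈ Prof c S) :
    z + ((2 * Real.pi : ℝ) : ℂ) ∈ Prof c S := by
  have := prof_add h hL hM hc 1 hz
  simpa using this

theorem prof_planeSet (h : TD n N Pr F g) (hL : ExactLag n N ⊥ S f) (hM : S ⊆ MF N g)
    (hc : NG N Pr F g c) : PlaneSet (Prof c S) fun z => f (ph c z) := by
  have hcl : IsClosed (Prof c S) := hL.closed.preimage (ph_smooth hc).continuous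
  have hsub : IsSubmfd 1 (Prof c S) := by
    intro z₀ hz₀
    by_cases hcone : IsCone z₀
    · obtain ⟨G₀, hG, hD, hΓ⟩ := def_fun hL hc hz₀
      refine subAt_cone hcl hz₀ (fun z hz => ?_) hG hD hΓ ?_ (prof_acc h hL hM hc hcone hz₀)
      · obtain ⟨k, hk⟩ := Real.sin_eq_zero_iff.1 hcone.1
        have h1 := prof_add h hL hM hc k (prof_neg h hL hM hc hz)
        have h2 : 2 * z₀ - z = -z + ((k * (2 * Real.pi) : ℝ) : ℂ) := by
          have h3 : z₀ = ((k * Real.pi : ℝ) : ℂ) := by
            apply Complex.ext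
            · rw [Complex.ofReal_re]
              exact hk.symm
            · rw [Complex.ofReal_im]
              exact hcone.2
          rw [h3]
          push_cast
          ring
        rw [h2]
        exact h1
      · filter_upwards [pset_iso hcone] with z hz hzS
        exact subAt_nc h hL hM hc hz hzS
    · exact subAt_nc h hL hM hc hcone hz₀
  have hbdd : ∃ R : ℝ, ∀ z ∈ Prof c S, |z.im| ≤ R := by
    obtain ⟨R, hR⟩ := hL.bdd
    refine ⟨R, fun z hz => ?_⟩
    have h1 := hR _ hz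
    have h2 : ‖(ph c z).2‖ = |z.im| := by
      show ‖z.im • deriv c z.re‖ = |z.im|
      rw [norm_smul, hc.unit, mul_one, Real.norm_eq_abs]
    rw [h2] at h1
    exact h1
  refine ⟨prof_ne h hL hM hc, hsub, hcl, fun z hz => prof_neg h hL hM hc hz,
    fun z hz => pset_add h hL hM hc hz, hbdd, fun z hz => pset_prim hL hc hz, fun z hz => ?_⟩
  have hD := d_zero (Γ := Prof c S)
    (D := fun z => f (ph c (z + ((2 * Real.pi : ℝ) : ℂ))) - f (ph c z)) hcl hsub hbdd ?_ ?_ z hz
  · have hD' : f (ph c (z + ((2 * Real.pi : ℝ) : ℂ))) - f (ph c z) = 0 := hD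
    show f (ph c (z + ((2 * Real.pi : ℝ) : ℂ))) = f (ph c z)
    linarith
  · intro w hw
    have o1 := pset_prim hL hc (pset_add h hL hM hc hw)
    have hT : Tendsto (fun y : ℂ => y + ((2 * Real.pi : ℝ) : ℂ)) (𝓝[Prof c S] w)
        (𝓝[Prof c S] (w + ((2 * Real.pi : ℝ) : ℂ))) := by
      refine tendsto_nhdsWithin_iff.2 ⟨?_, eventually_nhdsWithin_of_forall fun y hy =>
        pset_add h hL hM hc hy⟩
      have h1 : Continuous fun y : ℂ => y + ((2 * Real.pi : ℝ) : ℂ) := by fun_prop
      exact h1.continuousAt.mono_left nhdsWithin_le_nhds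
    have o2 := o1.comp_tendsto hT
    have o3 := pset_prim hL hc hw
    have o4 : (fun y : ℂ => f (ph c (y + ((2 * Real.pi : ℝ) : ℂ))) -
        f (ph c (w + ((2 * Real.pi : ℝ) : ℂ))) - w.im * (y.re - w.re)) =o[𝓝[Prof c S] w]
        fun y => y - w := by
      refine o2.congr (fun y => ?_) fun y => ?_
      · simp only [Function.comp_apply, Complex.add_re, Complex.add_im, Complex.ofReal_re,
          Complex.ofReal_im, add_zero, add_sub_add_right_eq_sub]
      · simp only [Function.comp_apply, add_sub_add_right_eq_sub]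
    refine (o4.sub o3).congr_left fun y => ?_
    ring
  · intro w hw hs
    have h1 := sat_reg h hL hM hc (ng_add hc 1) hs hw
    have h2 := h1.2
    rw [ph_add] at h2
    have h3 : (((1 : ℤ) * (2 * Real.pi) : ℝ) : ℂ) = ((2 * Real.pi : ℝ) : ℂ) := by
      push_cast
      ring
    rw [h3] at h2
    show f (ph c (w + ((2 * Real.pi : ℝ) : ℂ))) - f (ph c w) = 0
    linarith

end Pool.Agent.H73.CO
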