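import Pool.Agent.H73.CO.MFm
import Pool.Agent.H73.CO.LagT
import Pool.Agent.H2.TI.IXH

/-!
# Module PshA: the Hamiltonians which move `S` along the levels (about 170 lines)

`κ` is a smooth curve in the level `{F = a}` of `N`, `|a| < 1`; `lvK a g κ s z = (1 - a²)⁻¹ (‖g q‖² ⟪p, κ' s⟫ - ⟪κ' s, g q⟫ ⟪p, g q⟫)`, `z = (q, p)`.
PROOFS.
* `lvK_MF`: `z = ph c w` (`mem_MF_iff`): `g (c θ) = -(sin θ • c')`, `p = ρ c'`: `sin² ρ ⟪c', κ'⟫ - ⟪κ', c'⟫ sin θ · ρ sin θ = 0`.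
* `lvK_tan`: `X = XH Pr (lvK a g κ s) z`. `xh_tan`, `xh_om`: `om X v = -fderiv ℝ (lvK ..) z v` for `v ∈ Tan (TN N) z`. For `v ∈ Tan S z` take the curve `γ` in `S ⊆ MF N g`: `lvK` vanishes along it, so
  `fderiv ℝ (lvK ..) z v = 0` (`lvK` is smooth in `z`). `lag_tan`.
* `lvK_curve`: `z s = (κ s, t • g (κ s))`. `z' = (κ' s, t • fderiv ℝ g (κ s) (κ' s)) ∈ Tan (TN N) (z s)` (curve in `TN N`; `TN` by `h.trans.tan`, `Tan.smul`). For `v = (u, w) ∈ Tan (TN N) (z s)`,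
  `u ∈ Tan N (κ s)` (`tan_fst`). With `⟪κ', g (κ s)⟫ = 0` (`F (κ s) = a` constant, `TD.dF`) and `‖g (κ s)‖² = 1 - a²`:
  `fderiv (lvK ..) (z s) v = (1 - a²)⁻¹ (2 ⟪Dg u, g⟫ ⟪t g, κ'⟫ + ‖g‖² ⟪w, κ'⟫ - ⟪κ', Dg u⟫ ⟪t g, g⟫ - ⟪κ', g⟫ (…)) = ⟪w, κ'⟫ - t ⟪Dg u, κ'⟫`.
  `om z' v = t ⟪Dg κ', u⟫ - ⟪w, κ'⟫ = -fderiv (lvK ..) (z s) v` by `TD.symm`. So `om (z' - XH ..) v = 0` for all `v`; `om_nondeg` (`om` is additive; `IsSubmfd.tan_sub` for `TN_submfd`).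
-/

set_option autoImplicit false

open scoped ContDiff Topology RealInnerProductSpace
open Set Filter

namespace Pool.Agent.H73.CO

open Pool.Agent.H57.NL Pool.Agent.H2.TG Pool.Agent.H2.TI

variable {m n : ℕ} {N : Set (E m)} {Pr : E m → (E m →L[ℝ] E m)} {F : E m → ℝ}
  {g : E m → E m}

variable {S : Set (E m × E m)} {f : E m × E m → ℝ} {c : ℝ → E m}


noncomputable def lvK (a : ℝ) (g : E m → E m) (κ : ℝ → E m) (s : ℝ) (z : E m × E m) : ℝ :=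
  (1 - a ^ 2)⁻¹ * (‖g z.1‖ ^ 2 * ⟪z.2, deriv κ s⟫ - ⟪deriv κ s, g z.1⟫ * ⟪z.2, g z.1⟫)

theorem lvK_smooth (h : TD n N Pr F g) (a : ℝ) {κ : ℝ → E m} (hκ : ContDiff ℝ ∞ κ) :
    ContDiff ℝ ∞ fun x : ℝ × (E m × E m) => lvK a g κ x.1 x.2 := by
  have hd : ContDiff ℝ ∞ (deriv κ) := (contDiff_infty_iff_deriv.1 hκ).2
  have h1 : ContDiff ℝ ∞ fun x : ℝ × (E m × E m) => deriv κ x.1 := hd.comp contDiff_fst
  have h2 : ContDiff ℝ ∞ fun x : ℝ × (E m × E m) => g x.2.1 :=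
    h.smooth.comp (contDiff_fst.comp contDiff_snd)
  have h3 : ContDiff ℝ ∞ fun x : ℝ × (E m × E m) => x.2.2 := contDiff_snd.comp contDiff_snd
  exact contDiff_const.mul
    (((h2.norm_sq ℝ).mul (h3.inner ℝ h1)).sub ((h1.inner ℝ h2).mul (h3.inner ℝ h2)))

private lemma psha_smooth (h : TD n N Pr F g) (a : ℝ) {κ : ℝ → E m} (hκ : ContDiff ℝ ∞ κ) (s : ℝ) :
    ContDiff ℝ ∞ (lvK a g κ s) := by
  have h1 : ContDiff ℝ ∞ fun z : E m × E m => ((s, z) : ℝ × (E m × E m)) :=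
    contDiff_const.prodMk contDiff_id
  have h2 := (lvK_smooth h a hκ).comp h1
  have h3 : ((fun x : ℝ × (E m × E m) => lvK a g κ x.1 x.2) ∘
      fun z : E m × E m => ((s, z) : ℝ × (E m × E m))) = fun z => lvK a g κ s z := rfl
  rw [h3] at h2
  exact h2

theorem lvK_MF (h : TD n N Pr F g) (a : ℝ) (κ : ℝ → E m) (s : ℝ) {z : E m × E m}
    (hz : z ∈ MF N g) : lvK a g κ s z = 0 := by
  obtain ⟨c, w, hc, rfl⟩ := (mem_MF_iff h).1 hz
  have h1 : g (ph c w).1 = -(Real.sin w.re • deriv c w.re) := hc.gr w.re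
  have h2 : (ph c w).2 = w.im • deriv c w.re := rfl
  have h3 := hc.unit w.re
  have h4 : ⟪deriv c w.re, deriv c w.re⟫ = 1 := by rw [real_inner_self_eq_norm_sq, h3]; norm_num
  unfold lvK
  rw [h1, h2, norm_neg, norm_smul, h3, mul_one, Real.norm_eq_abs, sq_abs]
  simp only [inner_neg_right, real_inner_smul_left, real_inner_smul_right, h4]
  rw [real_inner_comm (deriv κ s) (deriv c w.re)]
  ring

theorem lvK_tan (h : TD n N Pr F g) (hL : ExactLag n N ⊥ S f) (hM : S ⊆ MF N g) (a : ℝ)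
    {κ : ℝ → E m} (hκ : ContDiff ℝ ∞ κ) (s : ℝ) {z : E m × E m} (hz : z ∈ S) :
    XH Pr (lvK a g κ s) z ∈ Tan S z := by
  have hzT : z ∈ TN N := hL.subTN hz
  refine lag_tan h.mfd.sub h.proj hL hz (xh_tan h.mfd.sub h.proj _ hzT) fun v hv => ?_
  obtain ⟨γ, h0, hγ, hd⟩ := hv
  have hvT : v ∈ Tan (TN N) z := ⟨γ, h0, hγ.mono fun s hs => hL.subTN hs, hd⟩
  rw [xh_om h.mfd.sub h.proj _ hzT hvT]
  have h1 : HasFDerivAt (lvK a g κ s) (fderiv ℝ (lvK a g κ s) z) (γ 0) := by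
    rw [h0]
    exact ((psha_smooth h a hκ s).differentiable (by simp) _).hasFDerivAt
  have h2 := h1.comp_hasDerivAt (0 : ℝ) hd
  have h3 : (lvK a g κ s ∘ γ) =ᶠ[𝓝 0] fun _ => 0 := by
    filter_upwards [hγ] with t ht
    exact lvK_MF h a κ s (hM ht)
  have h4 : fderiv ℝ (lvK a g κ s) z v = 0 :=
    (h2.congr_of_eventuallyEq h3.symm).unique (hasDerivAt_const (0 : ℝ) (0 : ℝ))
  rw [h4, neg_zero]

/-- the derivative of `lvK` -/
private lemma psha_fderiv (h : TD n N Pr F g) (a : ℝ) {κ : ℝ → E m} (hκ : ContDiff ℝ ∞ κ) (s : ℝ)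
    (q p u w : E m) : fderiv ℝ (lvK a g κ s) (q, p) (u, w) =
      (1 - a ^ 2)⁻¹ * ((2 * ⟪g q, fderiv ℝ g q u⟫ * ⟪p, deriv κ s⟫ + ‖g q‖ ^ 2 * ⟪w, deriv κ s⟫) -
        (⟪deriv κ s, fderiv ℝ g q u⟫ * ⟪p, g q⟫ +
          ⟪deriv κ s, g q⟫ * (⟪p, fderiv ℝ g q u⟫ + ⟪w, g q⟫))) := by
  have l1 : HasDerivAt (fun τ : ℝ => q + τ • u) u 0 := by
    have := ((hasDerivAt_id (0 : ℝ)).smul_const u).const_add q
    rwa [one_smul] at this
  have l2 : HasDerivAt (fun τ : ℝ => p + τ • w) w 0 := by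
    have := ((hasDerivAt_id (0 : ℝ)).smul_const w).const_add p
    rwa [one_smul] at this
  have e0 : q + (0 : ℝ) • u = q := by rw [zero_smul, add_zero]
  have e1 : p + (0 : ℝ) • w = p := by rw [zero_smul, add_zero]
  have lg : HasDerivAt (fun τ : ℝ => g (q + τ • u)) (fderiv ℝ g q u) 0 := by
    have hg : HasFDerivAt g (fderiv ℝ g q) (q + (0 : ℝ) • u) := by
      rw [e0]
      exact (h.smooth.differentiable (by simp) _).hasFDerivAt
    exact hg.comp_hasDerivAt (0 : ℝ) l1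
  have hK : HasFDerivAt (lvK a g κ s) (fderiv ℝ (lvK a g κ s) (q, p))
      (q + (0 : ℝ) • u, p + (0 : ℝ) • w) := by
    rw [e0, e1]
    exact ((psha_smooth h a hκ s).differentiable (by simp) _).hasFDerivAt
  have d1 := hK.comp_hasDerivAt (0 : ℝ) (l1.prodMk l2)
  have d2 : HasDerivAt (fun τ : ℝ => (1 - a ^ 2)⁻¹ * (‖g (q + τ • u)‖ ^ 2 *
      ⟪p + τ • w, deriv κ s⟫ - ⟪deriv κ s, g (q + τ • u)⟫ * ⟪p + τ • w, g (q + τ • u)⟫)) _ 0 :=
    ((lg.norm_sq.mul (l2.inner ℝ (hasDerivAt_const (0 : ℝ) (deriv κ s)))).sub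
      (((hasDerivAt_const (0 : ℝ) (deriv κ s)).inner ℝ lg).mul (l2.inner ℝ lg))).const_mul
        ((1 - a ^ 2)⁻¹)
  have d3 := d1.unique d2
  rw [d3, e0, e1]
  simp only [inner_zero_right, inner_zero_left, add_zero, zero_add]

theorem lvK_curve (h : TD n N Pr F g) {a : ℝ} (ha : |a| < 1) {κ : ℝ → E m}
    (hκ : ContDiff ℝ ∞ κ) (hκN : ∀ s, κ s ∈ N) (hκF : ∀ s, F (κ s) = a) (t s : ℝ) :
    HasDerivAt (fun s => (κ s, t • g (κ s))) (XH Pr (lvK a g κ s) (κ s, t • g (κ s))) s := by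
  have hκd : ∀ s, HasDerivAt κ (deriv κ s) s := fun s =>
    (hκ.differentiable (by simp) s).hasDerivAt
  have hgd : ∀ s, HasDerivAt (fun s => g (κ s)) (fderiv ℝ g (κ s) (deriv κ s)) s := fun s =>
    (h.smooth.differentiable (by simp) (κ s)).hasFDerivAt.comp_hasDerivAt s (hκd s)
  have hzd : HasDerivAt (fun s => (κ s, t • g (κ s)))
      (deriv κ s, t • fderiv ℝ g (κ s) (deriv κ s)) s := (hκd s).prodMk ((hgd s).const_smul t)
  have hzN : ∀ s, (κ s, t • g (κ s)) ∈ TN N := fun s =>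
    ⟨hκN s, Tan.smul (h.trans.tan _ (hκN s)) t⟩
  have hkT : deriv κ s ∈ Tan N (κ s) := by
    refine ⟨fun r => κ (s + r), by simp, Eventually.of_forall fun r => hκN _, ?_⟩
    have h1 := (hκd (s + 0)).comp_const_add s 0
    rwa [add_zero] at h1
  have hzT : (deriv κ s, t • fderiv ℝ g (κ s) (deriv κ s)) ∈ Tan (TN N) (κ s, t • g (κ s)) := by
    refine ⟨fun r => (κ (s + r), t • g (κ (s + r))), by simp,
      Eventually.of_forall fun r => hzN _, ?_⟩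
    have hz0 : HasDerivAt (fun s => (κ s, t • g (κ s)))
        (deriv κ s, t • fderiv ℝ g (κ s) (deriv κ s)) (s + 0) := by rw [add_zero]; exact hzd
    exact hz0.comp_const_add s 0
  have horth : ⟪deriv κ s, g (κ s)⟫ = 0 := by
    have h1 : HasDerivAt (fun s => F (κ s)) (fderiv ℝ F (κ s) (deriv κ s)) s :=
      (h.trans.smooth.differentiable (by simp) (κ s)).hasFDerivAt.comp_hasDerivAt s (hκd s)
    have h2 : (fun s => F (κ s)) = fun _ => a := funext hκF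
    rw [h2] at h1
    have h3 := h1.unique (hasDerivAt_const s a)
    rw [h.dF (hκN s) hkT] at h3
    rw [real_inner_comm]
    exact h3
  have hng : ‖g (κ s)‖ ^ 2 = 1 - a ^ 2 := by rw [h.trans.norm _ (hκN s), hκF]
  have ha2 : 1 - a ^ 2 ≠ 0 := by
    have := sq_lt_one_iff_abs_lt_one a |>.2 ha
    linarith
  have hX := xh_tan h.mfd.sub h.proj (lvK a g κ s) (hzN s)
  have heq : (deriv κ s, t • fderiv ℝ g (κ s) (deriv κ s)) -
      XH Pr (lvK a g κ s) (κ s, t • g (κ s)) = 0 := by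
    refine om_nondeg h.mfd.sub h.proj (hzN s)
      ((TN_submfd h.mfd.sub).tan_sub (hzN s) hzT hX) fun v hv => ?_
    have q2 := xh_om h.mfd.sub h.proj (lvK a g κ s) (hzN s) hv
    obtain ⟨u, w⟩ := v
    have hu : u ∈ Tan N (κ s) := tan_fst hv
    have hsym := h.symm (hκN s) hkT hu
    rw [psha_fderiv h a hκ] at q2
    have e1 : ⟪t • g (κ s), deriv κ s⟫ = 0 := by
      rw [real_inner_smul_left, real_inner_comm, horth, mul_zero]
    have e2 : ⟪t • g (κ s), g (κ s)⟫ = t * (1 - a ^ 2) := by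
      rw [real_inner_smul_left, real_inner_self_eq_norm_sq, hng]
    rw [e1, e2, horth, hng] at q2
    have e3 : (1 - a ^ 2)⁻¹ * ((2 * ⟪g (κ s), fderiv ℝ g (κ s) u⟫ * 0 +
        (1 - a ^ 2) * ⟪w, deriv κ s⟫) - (⟪deriv κ s, fderiv ℝ g (κ s) u⟫ * (t * (1 - a ^ 2)) +
          0 * (⟪t • g (κ s), fderiv ℝ g (κ s) u⟫ + ⟪w, g (κ s)⟫))) =
        ⟪w, deriv κ s⟫ - t * ⟪deriv κ s, fderiv ℝ g (κ s) u⟫ := by
      field_simp
      ring
    rw [e3] at q2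
    unfold om at q2 ⊢
    simp only [Prod.fst_sub, Prod.snd_sub, inner_sub_left, inner_sub_right]
    simp only at q2
    rw [real_inner_smul_left, hsym, real_inner_comm (fderiv ℝ g (κ s) u) (deriv κ s)] at *
    linarith
  rw [← sub_eq_zero.1 heq]
  exact hzd

end Pool.Agent.H73.CO
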