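import Pool.Agent.H73.CO.PshA
import Pool.Agent.H2.TI.IInv
import Pool.Agent.H2.TI.Main

/-!
# Module PshB: moving along a level (about 150 lines)

PROOF of `lev_push`. `z s = (κ s, t • g (κ s))` stays in a compact set: `κ` is constant for `s ≤ 0` and for `s ≥ 1`, so `‖z s‖ ≤ r` for all `s`. Let `χ` be a `ContDiffBump (0 : E m × E m)`,
`1` on the ball of radius `r + 1`, and `X (s, z) = χ z • XH Pr (lvK a g κ s) z` (smooth: `xh_smooth`); it is bounded: `0` for `z` outside a ball, and `0` for `s ∉ [0, 1]` because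
`deriv κ s = 0` there, so `lvK a g κ s = 0` identically (`xh_zero`); continuous on a compact set. Flow `Φ` of `(1, X)` (`exists_isFlow`). `X (s, z) ∈ Tan S z` for `z ∈ S` (`lvK_tan`, `Tan.smul`), so
`(Φ t' (s, z)).2 ∈ S` for `z ∈ S` (`tflow_maps` with `T = S`). `s ↦ (s, z s)` is an integral curve of `(1, X)` (`lvK_curve`, `χ (z s) = 1`), so `(s, z s) = Φ s (0, z 0)` (`IsFlow.unique`). Hence
`z s ∈ S` for all `s`, in particular `z 1`.
`f`: `s ↦ f (z s)` has derivative `⟪z.2, κ'⟫ = t ⟪g (κ s), κ' s⟫ = 0` at every `s` (`hL.prim` composed with the curve `z` in `S`; `⟪g, κ'⟫ = 0` since `F ∘ κ` is constant), so `f (z 1) = f (z 0)`.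
-/

set_option autoImplicit false

open scoped ContDiff Topology RealInnerProductSpace
open Set Filter

namespace Pool.Agent.H73.CO

open Pool.Agent.H57.NL Pool.Agent.H2.TG Pool.Agent.H2.TI

variable {m n : ℕ} {N : Set (E m)} {Pr : E m → (E m →L[ℝ] E m)} {F : E m → ℝ}
  {g : E m → E m}

variable {S : Set (E m × E m)} {f : E m × E m → ℝ} {c : ℝ → E m}

private lemma PshB_orth (h : TD n N Pr F g) {a : ℝ} {κ : ℝ → E m}
    (hκ : ContDiff ℝ ∞ κ) (hκN : ∀ s, κ s ∈ N) (hκF : ∀ s, F (κ s) = a) (s : ℝ) :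
    ⟪g (κ s), deriv κ s⟫ = 0 := by
  have hκd : ∀ s, HasDerivAt κ (deriv κ s) s := fun s =>
    (hκ.differentiable (by simp) s).hasDerivAt
  have hkT : deriv κ s ∈ Tan N (κ s) := by
    refine ⟨fun r => κ (s + r), by simp, Eventually.of_forall fun r => hκN _, ?_⟩
    have h1 := (hκd (s + 0)).comp_const_add s 0
    rwa [add_zero] at h1
  have h1 : HasDerivAt (fun s => F (κ s)) (fderiv ℝ F (κ s) (deriv κ s)) s :=
    (h.trans.smooth.differentiable (by simp) (κ s)).hasFDerivAt.comp_hasDerivAt s (hκd s)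
  have h2 : (fun s => F (κ s)) = fun _ => a := funext hκF
  rw [h2] at h1
  have h3 := h1.unique (hasDerivAt_const s a)
  rw [h.dF (hκN s) hkT] at h3
  exact h3

private lemma PshB_lvK_zero {a : ℝ} {κ : ℝ → E m} {s : ℝ} (hs : deriv κ s = 0) (z : E m × E m) :
    XH Pr (lvK a g κ s) z = 0 := by
  apply xh_zero
  have h1 : lvK a g κ s = fun _ => 0 := by
    funext z
    unfold lvK
    rw [hs]
    simp
  rw [h1]
  simp

theorem lev_push (h : TD n N Pr F g) (hL : ExactLag n N ⊥ S f) (hM : S ⊆ MF N g) {a : ℝ}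
    (ha : |a| < 1) {κ : ℝ → E m} (hκ : ContDiff ℝ ∞ κ) (hκN : ∀ s, κ s ∈ N)
    (hκF : ∀ s, F (κ s) = a) (hc0 : ∀ s ≤ 0, κ s = κ 0) (hc1 : ∀ s, 1 ≤ s → κ s = κ 1) {t : ℝ}
    (h0 : (κ 0, t • g (κ 0)) ∈ S) :
    (κ 1, t • g (κ 1)) ∈ S ∧ f (κ 1, t • g (κ 1)) = f (κ 0, t • g (κ 0)) := by
  set z : ℝ → E m × E m := fun s => (κ s, t • g (κ s)) with hz
  have hzd : ∀ s, HasDerivAt z (XH Pr (lvK a g κ s) (z s)) s := fun s =>
    lvK_curve h ha hκ hκN hκF t s
  have hzc : Continuous z := continuous_iff_continuousAt.2 fun s => (hzd s).continuousAt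
  -- the curve is bounded
  obtain ⟨r0, hr0⟩ : ∃ r : ℝ, ∀ s ∈ Icc (0 : ℝ) 1, ‖z s‖ ≤ r :=
    isCompact_Icc.exists_bound_of_continuousOn hzc.continuousOn
  have hr0' : ∀ s, ‖z s‖ ≤ r0 := by
    intro s
    rcases le_total s 0 with hs | hs
    · have : z s = z 0 := by simp only [hz]; rw [hc0 s hs]
      rw [this]
      exact hr0 0 ⟨le_rfl, zero_le_one⟩
    · rcases le_total s 1 with hs1 | hs1
      · exact hr0 s ⟨hs, hs1⟩
      · have : z s = z 1 := by simp only [hz]; rw [hc1 s hs1]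
        rw [this]
        exact hr0 1 ⟨zero_le_one, le_rfl⟩
  have hr0n : 0 ≤ r0 := (norm_nonneg _).trans (hr0' 0)
  let χ : ContDiffBump (0 : E m × E m) := ⟨r0 + 1, r0 + 2, by linarith, by linarith⟩
  have hχ1 : ∀ s, χ (z s) = 1 := by
    intro s
    apply χ.one_of_mem_closedBall
    rw [mem_closedBall_zero_iff]
    have : χ.rIn = r0 + 1 := rfl
    rw [this]
    linarith [hr0' s]
  have hχ0 : ∀ y : E m × E m, r0 + 2 ≤ ‖y‖ → χ y = 0 := by
    intro y hy
    apply χ.zero_of_le_dist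
    rw [dist_zero_right]
    exact hy
  have hd0 : ∀ s, s ∉ Icc (0 : ℝ) 1 → deriv κ s = 0 := by
    intro s hs
    rw [mem_Icc, not_and_or, not_le, not_le] at hs
    rcases hs with hs | hs
    · have : κ =ᶠ[𝓝 s] fun _ => κ 0 := by
        filter_upwards [Iio_mem_nhds hs] with u hu
        exact hc0 u (le_of_lt hu)
      rw [this.deriv_eq]
      simp
    · have : κ =ᶠ[𝓝 s] fun _ => κ 1 := by
        filter_upwards [Ioi_mem_nhds hs] with u hu
        exact hc1 u (le_of_lt hu)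
      rw [this.deriv_eq]
      simp
  let X : ℝ × (E m × E m) → E m × E m := fun x => χ x.2 • XH Pr (lvK a g κ x.1) x.2
  have hXs : ContDiff ℝ ∞ X :=
    ContDiff.smul (χ.contDiff.comp contDiff_snd) (xh_smooth h.proj (lvK_smooth h a hκ))
  obtain ⟨K0, hK0⟩ : ∃ K0 : ℝ, ∀ x ∈ Icc (0 : ℝ) 1 ×ˢ Metric.closedBall (0 : E m × E m) (r0 + 2),
      ‖X x‖ ≤ K0 :=
    (isCompact_Icc.prod (isCompact_closedBall _ _)).exists_bound_of_continuousOn
      hXs.continuous.continuousOn
  have hK0n : 0 ≤ K0 := (norm_nonneg _).trans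
    (hK0 (0, 0) ⟨⟨le_rfl, zero_le_one⟩, by simp; linarith⟩)
  have hXb : ∀ x, ‖X x‖ ≤ K0 := by
    intro x
    by_cases h1 : x.1 ∈ Icc (0 : ℝ) 1
    · by_cases h2 : ‖x.2‖ ≤ r0 + 2
      · exact hK0 x ⟨h1, by rw [mem_closedBall_zero_iff]; exact h2⟩
      · have : X x = 0 := by
          simp only [X]
          rw [hχ0 _ (not_le.1 h2).le, zero_smul]
        rw [this, norm_zero]
        exact hK0n
    · have : X x = 0 := by
        simp only [X]
        rw [PshB_lvK_zero (hd0 _ h1), smul_zero]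
      rw [this, norm_zero]
      exact hK0n
  have hYs : ContDiff ℝ ∞ (fun y : ℝ × (E m × E m) => ((1 : ℝ), X y)) :=
    contDiff_const.prodMk hXs
  obtain ⟨Φ, hΦ⟩ := exists_isFlow hYs (K := max 1 K0) fun x => by
    rw [Prod.norm_def]
    exact max_le_max (by simp) (hXb x)
  have hmaps := tflow_maps hL.sub hL.closed hXs hΦ
    (fun s y hy => Tan.smul (lvK_tan h hL hM a hκ s hy) (χ y))
  have hcur : ∀ s, HasDerivAt (fun s => ((s, z s) : ℝ × (E m × E m)))
      ((1 : ℝ), X (s, z s)) s := by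
    intro s
    have h1 : X (s, z s) = XH Pr (lvK a g κ s) (z s) := by
      simp only [X]
      rw [hχ1, one_smul]
    rw [h1]
    exact (hasDerivAt_id s).prodMk (hzd s)
  have hzS : ∀ s, z s ∈ S := by
    intro s
    have h1 := hΦ.unique hYs (γ := fun s => ((s, z s) : ℝ × (E m × E m))) hcur s
    have h2 := hmaps s 0 h0
    have h3 : z s = (Φ s (0, z 0)).2 := by
      have := congrArg Prod.snd h1
      exact this
    rw [h3]
    exact h2
  -- the primitive
  have hfd : ∀ s, HasDerivAt (fun s => f (z s)) 0 s := by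
    intro s
    have hp := hL.prim (z s) (hzS s)
    have htend : Tendsto z (𝓝 s) (𝓝[S] (z s)) :=
      tendsto_nhdsWithin_iff.2 ⟨hzc.continuousAt, Eventually.of_forall hzS⟩
    have h1 := hp.comp_tendsto htend
    have h2 : (fun u => z u - z s) =O[𝓝 s] fun u => u - s := (hzd s).isBigO_sub
    have h3 := h1.trans_isBigO h2
    have hκd : HasDerivAt κ (deriv κ s) s := (hκ.differentiable (by simp) s).hasDerivAt
    have h4 : HasDerivAt (fun u => ⟪(z s).2, κ u - κ s⟫) 0 s := by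
      have h5 := (hasDerivAt_const s (z s).2).inner ℝ (hκd.sub_const (κ s))
      have h6 : ⟪(z s).2, deriv κ s⟫ = 0 := by
        change ⟪t • g (κ s), deriv κ s⟫ = 0
        rw [real_inner_smul_left, PshB_orth h hκ hκN hκF s, mul_zero]
      rw [h6, inner_zero_left, add_zero] at h5
      exact h5
    have h7 := hasDerivAt_iff_isLittleO.1 h4
    refine hasDerivAt_iff_isLittleO.2 ((h3.add h7).congr_left fun u => ?_)
    simp only [Function.comp, smul_zero, sub_self, inner_zero_right, sub_zero]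
    simp only [hz]
    ring
  refine ⟨hzS 1, ?_⟩
  exact is_const_of_deriv_eq_zero (fun s => (hfd s).differentiableAt) (fun s => (hfd s).deriv) 1 0

end Pool.Agent.H73.CO
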