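import Pool.Agent.H73.CO.ConA

/-!
# Module SatA: saturation (about 140 lines)

PROOFS.
* `cone_seq`: for every `δ > 0` there is `w' : ℂ` with `w' ≠ z`, `‖w' - z‖ < δ`, not a cone point, `ph c₂ w' ∈ S` for EVERY normal geodesic `c₂`. Let `ph b w` be from `cone_acc` with small `ε`.
  `|cos w.re - cos z.re| = |F - F|` is small and `|w.im| = ‖(ph b w).2‖ < ε` (`(ph c z).2 = 0`). `cos z.re = ±1`; continuity of `arccos`: `w.re` is within `δ/2` of `σ z.re + 2 π k`, `σ = ±1`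
  (for `cos z.re = 1`: `arccos (cos w.re)` is small and `w.re = ± arccos (cos w.re) + 2 π k`; similarly at `-1`). So `w' = σ w + 2 π k'` is within `δ` of `z` (`z.re ∈ π ℤ`), `cos w' = cos w` (complex), so
  `ph b' w' = ph b w ∈ S` for some `b'` (`ph_change`), `w'` is not a cone point (`IsCone` is invariant), `sat_nc`.
* `sat`: if `z` is not a cone point: `sat_nc`. Otherwise `w'_k → z` by `cone_seq`, `ph c₂ w'_k ∈ S`, `ph c₂` continuous, `S` closed: `ph c₂ z ∈ S`.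
* `prof_acc`: `cone_seq` with `c₂ = c`.
* `prof_indep`: `sat` in both directions. `prof_ne`: `S ∋ y = ph b w` (`mem_MF_iff`), `sat`.
* `prof_neg`, `prof_add`: `ph c (-z) = ph (c ∘ neg) z` (`ph_neg`, `ng_neg`) and `sat`; the same with `ph_add`, `k = 1`.
-/

set_option autoImplicit false

open scoped ContDiff Topology RealInnerProductSpace
open Set Filter

namespace Pool.Agent.H73.CO

open Pool.Agent.H57.NL Pool.Agent.H2.TG Pool.Agent.H2.TI

variable {m n : ℕ} {N : Set (E m)} {Pr : E m → (E m →L[ℝ] E m)} {F : E m → ℝ}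
  {g : E m → E m}

variable {S : Set (E m × E m)} {f : E m × E m → ℝ} {c : ℝ → E m}


private lemma SatA_cos {x y δ : ℝ} (hδ : 0 < δ) (hs : Real.sin y = 0)
    (h : |Real.cos x - Real.cos y| < 2 / Real.pi ^ 2 * δ ^ 2) :
    ∃ k : ℤ, |x - k * (2 * Real.pi) - y| < δ := by
  have hπ := Real.pi_pos
  refine ⟨round ((x - y) / (2 * Real.pi)), ?_⟩
  set k : ℤ := round ((x - y) / (2 * Real.pi)) with hk
  have h1 : |(x - y) / (2 * Real.pi) - k| ≤ 1 / 2 := abs_sub_round _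
  have h2 : |x - k * (2 * Real.pi) - y| ≤ Real.pi := by
    have e : x - k * (2 * Real.pi) - y = ((x - y) / (2 * Real.pi) - k) * (2 * Real.pi) := by
      field_simp
      ring
    rw [e, abs_mul, abs_of_pos (by positivity : (0 : ℝ) < 2 * Real.pi)]
    nlinarith
  have h3 := Real.cos_le_one_sub_mul_cos_sq h2
  have h4 : Real.cos (x - k * (2 * Real.pi) - y) = Real.cos x * Real.cos y := by
    rw [show x - k * (2 * Real.pi) - y = (x - y) - k * (2 * Real.pi) by ring,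
      Real.cos_sub_int_mul_two_pi, Real.cos_sub, hs, mul_zero, add_zero]
  have h5 : Real.cos y ^ 2 = 1 := by
    have := Real.sin_sq_add_cos_sq y
    rw [hs] at this
    linarith
  have h6 : 1 - Real.cos x * Real.cos y ≤ |Real.cos x - Real.cos y| := by
    have e : 1 - Real.cos x * Real.cos y = (Real.cos x - Real.cos y) * (-Real.cos y) := by
      linear_combination -h5
    rw [e]
    refine (le_abs_self _).trans ?_
    rw [abs_mul, abs_neg]
    exact mul_le_of_le_one_right (abs_nonneg _) (Real.abs_cos_le_one y)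
  rw [h4] at h3
  have h7 : 2 / Real.pi ^ 2 * (x - k * (2 * Real.pi) - y) ^ 2 < 2 / Real.pi ^ 2 * δ ^ 2 := by
    linarith
  have h8 : (x - k * (2 * Real.pi) - y) ^ 2 < δ ^ 2 :=
    lt_of_mul_lt_mul_left h7 (by positivity)
  exact abs_lt_of_sq_lt_sq h8 hδ.le

private lemma SatA_seq (h : TD n N Pr F g) (hL : ExactLag n N ⊥ S f) (hM : S ⊆ MF N g)
    (hc : NG N Pr F g c) {z : ℂ} (hz : IsCone z) (hzS : ph c z ∈ S) {δ : ℝ} (hδ : 0 < δ) :
    ∃ w' : ℂ, w' ≠ z ∧ dist w' z < δ ∧ ∀ c₂, NG N Pr F g c₂ → ph c₂ w' ∈ S := by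
  have hπ := Real.pi_pos
  have hη : 0 < 2 / Real.pi ^ 2 * (δ / 2) ^ 2 := by positivity
  have hF : ContinuousAt F (c z.re) := h.trans.smooth.continuous.continuousAt
  obtain ⟨ε₁, hε₁, hF'⟩ := Metric.continuousAt_iff.1 hF _ hη
  obtain ⟨b, w, hb, hbS, hwc, hd⟩ := cone_acc h hL hM hc hz hzS
    (ε := min ε₁ (δ / 2)) (lt_min hε₁ (by linarith))
  have a1 : ‖b w.re - c z.re‖ < ε₁ := by
    have := norm_fst_le (ph b w - ph c z)
    exact (this.trans_lt hd).trans_le (min_le_left _ _)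
  have a2 : |w.im| < δ / 2 := by
    have h1 := norm_snd_le (ph b w - ph c z)
    have h2 : (ph b w - ph c z).2 = w.im • deriv b w.re := by
      show w.im • deriv b w.re - z.im • deriv c z.re = _
      rw [hz.2, zero_smul, sub_zero]
    rw [h2, norm_smul, hb.unit, mul_one, Real.norm_eq_abs] at h1
    exact (h1.trans_lt hd).trans_le (min_le_right _ _)
  have a3 : |Real.cos w.re - Real.cos z.re| < 2 / Real.pi ^ 2 * (δ / 2) ^ 2 := by
    have h1 := hF' (x := b w.re) (by rw [dist_eq_norm]; exact a1)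
    rwa [Real.dist_eq, hb.lev, hc.lev] at h1
  obtain ⟨k, hk⟩ := SatA_cos (by linarith : 0 < δ / 2) hz.1 a3
  refine ⟨w - ((k * (2 * Real.pi) : ℝ) : ℂ), ?_, ?_, ?_⟩
  · intro he
    apply hwc
    rw [← he] at hz
    obtain ⟨h1, h2⟩ := hz
    simp only [Complex.sub_re, Complex.ofReal_re, Complex.sub_im, Complex.ofReal_im,
      sub_zero] at h1 h2
    rw [Real.sin_sub_int_mul_two_pi] at h1
    exact ⟨h1, h2⟩
  · rw [dist_eq_norm]
    refine (Complex.norm_le_abs_re_add_abs_im _).trans_lt ?_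
    simp only [Complex.sub_re, Complex.ofReal_re, Complex.sub_im, Complex.ofReal_im, hz.2,
      sub_zero]
    linarith
  · intro c₂ hc₂
    have hb' := ng_add hb k
    have e : ph (fun θ => b (θ + k * (2 * Real.pi))) (w - ((k * (2 * Real.pi) : ℝ) : ℂ)) =
        ph b w := by
      rw [ph_add, sub_add_cancel]
    refine sat_nc h hL hM hb' hc₂ ?_ (by rw [e]; exact hbS)
    rintro ⟨h1, h2⟩
    apply hwc
    simp only [Complex.sub_re, Complex.ofReal_re, Complex.sub_im, Complex.ofReal_im,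
      sub_zero] at h1 h2
    rw [Real.sin_sub_int_mul_two_pi] at h1
    exact ⟨h1, h2⟩


theorem sat (h : TD n N Pr F g) (hL : ExactLag n N ⊥ S f) (hM : S ⊆ MF N g) {c₂ : ℝ → E m}
    (hc : NG N Pr F g c) (hc₂ : NG N Pr F g c₂) {z : ℂ} (hz : ph c z ∈ S) : ph c₂ z ∈ S := by
  by_cases hz' : IsCone z
  · by_contra hn
    have ho : IsOpen ((ph c₂) ⁻¹' Sᶜ) :=
      hL.closed.isOpen_compl.preimage (ph_smooth hc₂).continuous
    obtain ⟨δ, hδ, hb⟩ := Metric.isOpen_iff.1 ho z hn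
    obtain ⟨w', -, h2, h3⟩ := SatA_seq h hL hM hc hz' hz hδ
    exact hb (Metric.mem_ball.2 h2) (h3 c₂ hc₂)
  · exact sat_nc h hL hM hc hc₂ hz' hz

theorem prof_acc (h : TD n N Pr F g) (hL : ExactLag n N ⊥ S f) (hM : S ⊆ MF N g)
    (hc : NG N Pr F g c) {z : ℂ} (hz : IsCone z) (hzS : ph c z ∈ S) :
    ∃ᶠ w in 𝓝[≠] z, w ∈ Prof c S := by
  intro hev
  rw [eventually_nhdsWithin_iff, Metric.eventually_nhds_iff] at hev
  obtain ⟨δ, hδ, hb⟩ := hev
  obtain ⟨w', h1, h2, h3⟩ := SatA_seq h hL hM hc hz hzS hδ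
  exact hb h2 h1 (h3 c hc)

theorem prof_indep (h : TD n N Pr F g) (hL : ExactLag n N ⊥ S f) (hM : S ⊆ MF N g)
    {c₂ : ℝ → E m} (hc : NG N Pr F g c) (hc₂ : NG N Pr F g c₂) : Prof c S = Prof c₂ S := by
  ext z
  exact ⟨fun hz => sat h hL hM hc hc₂ hz, fun hz => sat h hL hM hc₂ hc hz⟩

theorem prof_ne (h : TD n N Pr F g) (hL : ExactLag n N ⊥ S f) (hM : S ⊆ MF N g)
    (hc : NG N Pr F g c) : (Prof c S).Nonempty := by
  obtain ⟨y, hy⟩ := hL.ne
  obtain ⟨b, w, hb, rfl⟩ := (mem_MF_iff h).1 (hM hy)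
  exact ⟨w, sat h hL hM hb hc hy⟩

theorem prof_neg (h : TD n N Pr F g) (hL : ExactLag n N ⊥ S f) (hM : S ⊆ MF N g)
    (hc : NG N Pr F g c) {z : ℂ} (hz : z ∈ Prof c S) : -z ∈ Prof c S := by
  show ph c (-z) ∈ S
  rw [← ph_neg]
  exact sat h hL hM hc (ng_neg hc) hz

theorem prof_add (h : TD n N Pr F g) (hL : ExactLag n N ⊥ S f) (hM : S ⊆ MF N g)
    (hc : NG N Pr F g c) (k : ℤ) {z : ℂ} (hz : z ∈ Prof c S) :
    z + ((k * (2 * Real.pi) : ℝ) : ℂ) ∈ Prof c S := by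
  show ph c (z + ((k * (2 * Real.pi) : ℝ) : ℂ)) ∈ S
  rw [← ph_add]
  exact sat h hL hM hc (ng_add hc k) hz

end Pool.Agent.H73.CO
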