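import Pool.Agent.H73.CO.MFm
import Pool.Agent.H73.CO.LagT
import Pool.Agent.H2.TI.IEx
import Pool.Agent.H2.TI.IFlow
import Pool.Agent.H2.TI.Main
import Pool.Agent.H99.TW.TExL

/-!
# Module Shr: the image of `S` under the geodesic flow (about 200 lines)

PROOF of `exists_shear`. `S` is compact (`compactS` in `H2/TI/NReg` or `ExactLag.bdd` and `closedMfd_compact`): `‖z.2‖ ≤ R₀` on `S`, `N ⊆ closedBall 0 r₀`. `ρ₀ = max r₀ R₀ + 1`.
`K s z = η s * χ z * (‖z.2‖² / 2)`, `χ` a bump function equal to `1` on the closed ball of radius `ρ₀` and `0` outside the ball of radius `ρ₀ + 1`, `η` a smooth function of `s`, `1` for `|s| ≤ 1`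
(even for `|s| < 3/2`), `0` for `|s| ≥ 2`. `exists_cflow` gives `Φ, Φ'`, `CFlow N Pr K (ρ₀ + 1) Φ Φ'`; `ex_of_cflow` gives `G` with `ExIso N Φ Φ' G`. Then `ExactL N (Φ τ) (Φ' τ) (G τ)` (`loc` with
`O = univ`), so `exactL_lag` gives `ExactLag n N ⊥ (Φ τ '' S) f'`. Put `S' = Φ τ '' S`.
(1) For a normal geodesic `c`, `w : ℂ` with `|w.im| ≤ ρ₀` and `|s| ≤ 1`: `Φ s (ph c w) = ph c (shr2 s w)`: the curve `γ s = ph c (shr2 s w) = (c (θ + s ρ), ρ c' (θ + s ρ))` has derivative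
`(ρ c', ρ² c'')` and `XH Pr (K s) (γ s)` is equal to it: near `γ s` (norm `≤ ρ₀`; use `χ = 1` in a neighbourhood, so take the radius where `χ = 1` a little larger) `K s = ‖z.2‖²/2`, whose
derivative is `v ↦ ⟪p, v.2⟫`; in the formula for `XH`: first component `Pr q p = p`, second `fderiv ℝ Pr q p p - Pr q (vec (⟪p, DPr(·) p⟫)) `, and the last term is `0` since
`⟪vec (..), τ⟫ = ⟪p, fderiv ℝ Pr q τ p⟫ = 0` for `τ ∈ Tan N q` (`dpr_orth`, `tan_unique`). Or: both vectors are in `Tan (TN N)`, compare `om` with all tangent `v` (`xh_om`, `om_nondeg`):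
`om (ρ c', ρ² c'') v = ρ² ⟪c'', v.1⟫ - ρ ⟪v.2, c'⟫ = -⟪p, v.2⟫` (`dpr_orth`). `CFlow.uniq`.
(2) `S' ⊆ MF N g`: a point of `S` is `ph c w` with `|w.im| = ‖(ph c w).2‖ ≤ R₀`, its image is `ph c (shr2 τ w)`; `ph_mem_MF`.
(3) `ph c z ∈ S → ph c (shr2 τ z) ∈ S'` by (1). Conversely let `ph c (shr2 τ z) = Φ τ y`, `y ∈ S`. Then `‖y.2‖ ≤ R₀`; `y = ph b w`, so `Φ τ y = ph b (shr2 τ w)` has second component of norm
`|w.im| ≤ R₀`, so `|z.im| ≤ R₀`, and `ph c (shr2 τ z) = Φ τ (ph c z)` by (1); `Φ τ` is injective (`CFlow.left`): `ph c z = y ∈ S`.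
-/

set_option autoImplicit false

open scoped ContDiff Topology RealInnerProductSpace
open Set Filter

namespace Pool.Agent.H73.CO

open Pool.Agent.H57.NL Pool.Agent.H2.TG Pool.Agent.H2.TI

variable {m n : ℕ} {N : Set (E m)} {Pr : E m → (E m →L[ℝ] E m)} {F : E m → ℝ}
  {g : E m → E m}

variable {S : Set (E m × E m)} {f : E m × E m → ℝ} {c : ℝ → E m}

private lemma shr_norm (hc : NG N Pr F g c) (w : ℂ) : ‖(ph c w).2‖ = |w.im| := by
  show ‖w.im • deriv c w.re‖ = |w.im|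
  rw [norm_smul, hc.unit, mul_one, Real.norm_eq_abs]

private lemma shr_tan (hc : NG N Pr F g c) (θ : ℝ) : deriv c θ ∈ Tan N (c θ) := by
  refine ⟨fun t => c (θ + t), by simp, Eventually.of_forall fun t => hc.mem _, ?_⟩
  have h1 : HasDerivAt c (deriv c θ) θ := ((hc.smooth.differentiable (by simp)) θ).hasDerivAt
  have h2 : HasDerivAt (fun t : ℝ => θ + t) 1 0 := by
    simpa using (hasDerivAt_id (0 : ℝ)).const_add θ
  have h3 : HasDerivAt (fun t : ℝ => c (θ + t)) ((1 : ℝ) • deriv c θ) 0 :=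
    HasDerivAt.scomp (h := fun t : ℝ => θ + t) (0 : ℝ) (by rw [add_zero]; exact h1) h2
  rwa [one_smul] at h3

/-- the velocity of the sheared curve -/
private lemma shr_der (hc : NG N Pr F g c) (w : ℂ) (s : ℝ) :
    HasDerivAt (fun s => ph c (shr2 s w)) (w.im • deriv c (w.re + s * w.im),
      w.im • w.im • deriv (deriv c) (w.re + s * w.im)) s := by
  have h2 : HasDerivAt (fun s : ℝ => w.re + s * w.im) w.im s := by
    simpa using ((hasDerivAt_id s).mul_const w.im).const_add w.re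
  have h1 : HasDerivAt c (deriv c (w.re + s * w.im)) (w.re + s * w.im) :=
    ((hc.smooth.differentiable (by simp)) _).hasDerivAt
  have hd : ContDiff ℝ ∞ (deriv c) := by
    have := hc.smooth.iterate_deriv 1
    simpa using this
  have h3 : HasDerivAt (deriv c) (deriv (deriv c) (w.re + s * w.im)) (w.re + s * w.im) :=
    ((hd.differentiable (by simp)) _).hasDerivAt
  exact (HasDerivAt.scomp s h1 h2).prodMk ((HasDerivAt.scomp s h3 h2).const_smul w.im)

private lemma shr_XH (h : TD n N Pr F g) (hc : NG N Pr F g c) {K : E m × E m → ℝ} (w : ℂ) (s : ℝ)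
    (hK : K =ᶠ[𝓝 (ph c (shr2 s w))] fun z => ‖z.2‖ ^ 2 / 2) :
    XH Pr K (ph c (shr2 s w)) = (w.im • deriv c (w.re + s * w.im),
      w.im • w.im • deriv (deriv c) (w.re + s * w.im)) := by
  have hN := h.mfd.sub
  have hPr := h.proj
  have hz : ph c (shr2 s w) ∈ TN N := ph_TN hc _
  set θ := w.re + s * w.im with hθ
  have hq : c θ ∈ N := hc.mem θ
  have t1 : XH Pr K (ph c (shr2 s w)) ∈ Tan (TN N) (ph c (shr2 s w)) := xh_tan hN hPr K hz
  have t2 : ((w.im • deriv c θ, w.im • w.im • deriv (deriv c) θ) : E m × E m) ∈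
      Tan (TN N) (ph c (shr2 s w)) := by
    refine ⟨fun t => ph c (shr2 (s + t) w), by simp, Eventually.of_forall fun t => ph_TN hc _, ?_⟩
    have h1 := shr_der hc w s
    have h2 : HasDerivAt (fun t : ℝ => s + t) 1 0 := by
      simpa using (hasDerivAt_id (0 : ℝ)).const_add s
    have h3 := HasDerivAt.scomp (0 : ℝ) (by simpa using h1) h2
    rw [one_smul] at h3
    exact h3
  have hd : fderiv ℝ K (ph c (shr2 s w)) =
      (innerSL ℝ (w.im • deriv c θ)).comp (ContinuousLinearMap.snd ℝ (E m) (E m)) := by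
    rw [hK.fderiv_eq]
    have h1 : HasFDerivAt (fun z : E m × E m => z.2) (ContinuousLinearMap.snd ℝ (E m) (E m))
        (ph c (shr2 s w)) := hasFDerivAt_snd
    have h2 := (h1.norm_sq).const_mul (1 / 2 : ℝ)
    have h3 : HasFDerivAt (fun z : E m × E m => ‖z.2‖ ^ 2 / 2)
        ((1 / 2 : ℝ) • (2 • (innerSL ℝ (ph c (shr2 s w)).2).comp
          (ContinuousLinearMap.snd ℝ (E m) (E m)))) (ph c (shr2 s w)) := by
      refine h2.congr_of_eventuallyEq (Eventually.of_forall fun z => ?_)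
      show ‖z.2‖ ^ 2 / 2 = 1 / 2 * ‖z.2‖ ^ 2
      ring
    rw [h3.fderiv]
    ext v
    · simp
    · simp [ph, shr2, hθ]
  have key : XH Pr K (ph c (shr2 s w)) - (w.im • deriv c θ, w.im • w.im • deriv (deriv c) θ) = 0 := by
    refine om_nondeg hN hPr hz ((TN_submfd hN).tan_sub hz t1 t2) fun v hv => ?_
    have e1 := xh_om hN hPr K hz hv
    rw [hd] at e1
    have hv1 : v.1 ∈ Tan N (c θ) := tan_fst hv
    have e2 : ⟪fderiv ℝ Pr (c θ) (deriv c θ) (deriv c θ), v.1⟫ = 0 :=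
      dpr_orth hN hPr hq (shr_tan hc θ) (shr_tan hc θ) hv1
    rw [← hc.geod θ] at e2
    have e3 : om (XH Pr K (ph c (shr2 s w))) v = -⟪w.im • deriv c θ, v.2⟫ := by
      rw [e1]
      rfl
    unfold om at e3 ⊢
    simp only [Prod.fst_sub, Prod.snd_sub, inner_sub_left, inner_sub_right]
    simp only [real_inner_smul_left, real_inner_smul_right] at e3 ⊢
    rw [e2, mul_zero, mul_zero, real_inner_comm (deriv c θ) v.2]
    linarith
  exact sub_eq_zero.1 key

theorem exists_shear (h : TD n N Pr F g) (hL : ExactLag n N ⊥ S f) (hM : S ⊆ MF N g) {τ : ℝ}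
    (hτ : |τ| ≤ 1) : ∃ (S' : Set (E m × E m)) (f' : E m × E m → ℝ), ExactLag n N ⊥ S' f' ∧
      S' ⊆ MF N g ∧ ∀ c, NG N Pr F g c → ∀ z, ph c z ∈ S ↔ ph c (shr2 τ z) ∈ S' := by
  have hN := h.mfd.sub
  have hPr := h.proj
  have hcpt : IsCompact N := closedMfd_compact h.mfd
  obtain ⟨R₀, hR₀⟩ := hL.bdd
  obtain ⟨r₀, hr₀⟩ := hcpt.isBounded.exists_norm_le
  set b : ℝ := max (max r₀ R₀) 0 with hb
  have hb0 : 0 ≤ b := le_max_right _ _
  have hbr : r₀ ≤ b := (le_max_left _ _).trans (le_max_left _ _)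
  have hbR : R₀ ≤ b := (le_max_right _ _).trans (le_max_left _ _)
  let χ : ContDiffBump (0 : E m × E m) := ⟨b + 1, b + 2, by linarith, by linarith⟩
  let η : ContDiffBump (0 : ℝ) := ⟨3 / 2, 2, by norm_num, by norm_num⟩
  let K : ℝ → E m × E m → ℝ := fun s z => η s * (χ z * (‖z.2‖ ^ 2 / 2))
  have hK : ContDiff ℝ ∞ fun x : ℝ × (E m × E m) => K x.1 x.2 := by
    have h1 : ContDiff ℝ ∞ fun x : ℝ × (E m × E m) => η x.1 := η.contDiff.comp contDiff_fst
    have h2 : ContDiff ℝ ∞ fun x : ℝ × (E m × E m) => χ x.2 := χ.contDiff.comp contDiff_snd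
    have h3 : ContDiff ℝ ∞ fun x : ℝ × (E m × E m) => ‖x.2.2‖ ^ 2 / 2 :=
      ((contDiff_snd.comp contDiff_snd).norm_sq ℝ).div_const 2
    exact h1.mul (h2.mul h3)
  have hs : ∀ s z, 2 ≤ |s| ∨ b + 2 ≤ ‖z‖ → K s z = 0 := by
    intro s z hsz
    show η s * (χ z * (‖z.2‖ ^ 2 / 2)) = 0
    rcases hsz with h1 | h1
    · have : η s = 0 := η.zero_of_le_dist (by simpa using h1)
      rw [this, zero_mul]
    · have : χ z = 0 := χ.zero_of_le_dist (by simpa using h1)
      rw [this, zero_mul, mul_zero]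
  obtain ⟨Φ, Φ', hC⟩ := exists_cflow hN h.mfd.closed hPr hK hs
  obtain ⟨G, hG⟩ := ex_of_cflow hN hPr hK hs hC
  have hsm : ∀ s, ContDiff ℝ ∞ (Φ s) := fun s => hG.smooth.comp (contDiff_const.prodMk contDiff_id)
  have hsm' : ∀ s, ContDiff ℝ ∞ (Φ' s) := fun s => hG.smooth'.comp (contDiff_const.prodMk contDiff_id)
  have hsG : ∀ s, ContDiff ℝ ∞ (G s) := fun s => hG.smoothG.comp (contDiff_const.prodMk contDiff_id)
  have hEL : Pool.Agent.H99.TW.ExactL N (Φ τ) (Φ' τ) (G τ) :=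
    { maps := hG.maps τ
      maps' := hG.maps' τ
      left := hG.left τ
      right := hG.right τ
      smooth' := fun x _ => ⟨Φ' τ, univ, isOpen_univ, mem_univ _, (hsm' τ).contDiffOn, fun _ _ => rfl⟩
      loc := fun z₀ _ => ⟨univ, Φ τ, G τ, isOpen_univ, mem_univ _, (hsm τ).contDiffOn,
        (hsG τ).contDiffOn, fun _ _ => ⟨rfl, rfl⟩, fun z hz ζ hζ => hG.exact τ z hz.2 ζ hζ⟩ }
  obtain ⟨f', hf'⟩ := Pool.Agent.H99.TW.exactL_lag hEL hN hcpt hL
  have key : ∀ c, NG N Pr F g c → ∀ w : ℂ, |w.im| ≤ b → ∀ s, |s| ≤ 1 →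
      ph c (shr2 s w) = Φ s (ph c w) := by
    intro c hc w hw s hs1
    have h1 := hC.uniq (fun s => ph c (shr2 s w)) (fun s hs1 => ?_) s hs1
    · have e : ph c (shr2 0 w) = ph c w := by
        congr 1
        apply Complex.ext <;> simp [shr2]
      rw [← e]
      exact h1
    · have hKs : K s =ᶠ[𝓝 (ph c (shr2 s w))] fun z => ‖z.2‖ ^ 2 / 2 := by
        have hη : η s = 1 := η.one_of_mem_closedBall (by
          rw [Metric.mem_closedBall, dist_zero_right, Real.norm_eq_abs]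
          show |s| ≤ 3 / 2
          linarith)
        have hball : ph c (shr2 s w) ∈ Metric.ball (0 : E m × E m) (b + 1) := by
          rw [Metric.mem_ball, dist_zero_right, Prod.norm_def]
          refine max_lt ?_ ?_
          · exact lt_of_le_of_lt ((hr₀ _ (hc.mem _)).trans hbr) (by linarith)
          · rw [shr_norm hc]
            show |w.im| < b + 1
            linarith
        filter_upwards [χ.eventuallyEq_one_of_mem_ball hball] with z hz
        show η s * (χ z * (‖z.2‖ ^ 2 / 2)) = ‖z.2‖ ^ 2 / 2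
        rw [hη, hz]
        simp
      show HasDerivAt (fun s => ph c (shr2 s w)) (XH Pr (K s) (ph c (shr2 s w))) s
      rw [shr_XH h hc w s hKs]
      exact shr_der hc w s
  refine ⟨Φ τ '' S, f', hf', ?_, fun c hc z => ⟨fun hz => ?_, ?_⟩⟩
  · rintro y ⟨x, hx, rfl⟩
    obtain ⟨c, w, hc, rfl⟩ := (mem_MF_iff h).1 (hM hx)
    have hw : |w.im| ≤ b := by
      rw [← shr_norm hc w]
      exact (hR₀ _ hx).trans hbR
    rw [← key c hc w hw τ hτ]
    exact ph_mem_MF h hc _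
  · have hw : |z.im| ≤ b := by
      rw [← shr_norm hc z]
      exact (hR₀ _ hz).trans hbR
    rw [key c hc z hw τ hτ]
    exact ⟨_, hz, rfl⟩
  · rintro ⟨y, hy, hyz⟩
    obtain ⟨e, w, he, rfl⟩ := (mem_MF_iff h).1 (hM hy)
    have hw : |w.im| ≤ b := by
      rw [← shr_norm he w]
      exact (hR₀ _ hy).trans hbR
    rw [← key e he w hw τ hτ] at hyz
    have h1 : |w.im| = |z.im| := by
      have h2 := congrArg (fun x : E m × E m => ‖x.2‖) hyz
      change ‖(ph e (shr2 τ w)).2‖ = ‖(ph c (shr2 τ z)).2‖ at h2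
      rw [shr_norm he, shr_norm hc] at h2
      exact h2
    have hz : |z.im| ≤ b := by
      rw [← h1]
      exact hw
    rw [key e he w hw τ hτ, key c hc z hz τ hτ] at hyz
    have h3 := congrArg (Φ' τ) hyz
    rw [hC.left, hC.left] at h3
    rw [← h3]
    exact hy

end Pool.Agent.H73.CO
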