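import Pool.Agent.H73.CO.SatR
import Pool.Agent.H73.CO.Shr

/-!
# Module SatN: saturation off the cone points (about 60 lines)

PROOF. If `sin z.re ≠ 0`: `sat_reg`. Otherwise `z.im ≠ 0`. Choose `τ ∈ (0, 1]` with `sin (z.re + τ z.im) ≠ 0` (`z.re = k π`; `τ = min 1 (1 / |z.im|)`: `0 < |τ z.im| ≤ 1 < π`).
`exists_shear`: `ph c (shr2 τ z) ∈ S'`, `sat_reg` for `S'` gives `ph c₂ (shr2 τ z) ∈ S'`, hence `ph c₂ z ∈ S`.
-/

set_option autoImplicit false

open scoped ContDiff Topology RealInnerProductSpace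
open Set Filter

namespace Pool.Agent.H73.CO

open Pool.Agent.H57.NL Pool.Agent.H2.TG Pool.Agent.H2.TI

variable {m n : ℕ} {N : Set (E m)} {Pr : E m → (E m →L[ℝ] E m)} {F : E m → ℝ}
  {g : E m → E m}

variable {S : Set (E m × E m)} {f : E m × E m → ℝ} {c : ℝ → E m}


private lemma SatN_tau {z : ℂ} (hs : ¬IsCone z) : ∃ τ : ℝ, |τ| ≤ 1 ∧ Real.sin (shr2 τ z).re ≠ 0 := by
  by_cases h1 : Real.sin z.re = 0
  · have h2 : z.im ≠ 0 := fun h => hs ⟨h1, h⟩
    have h3 : 0 < |z.im| := abs_pos.2 h2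
    have hc : Real.cos z.re ≠ 0 := by
      intro h
      have := Real.sin_sq_add_cos_sq z.re
      rw [h1, h] at this
      norm_num at this
    set τ : ℝ := min 1 (1 / |z.im|) with hτ
    have h0 : 0 < τ := by positivity
    refine ⟨τ, by rw [abs_of_pos h0]; exact min_le_left _ _, ?_⟩
    show Real.sin (z.re + τ * z.im) ≠ 0
    rw [Real.sin_add, h1, zero_mul, zero_add]
    refine mul_ne_zero hc ?_
    have h4 : |τ * z.im| ≤ 1 := by
      rw [abs_mul, abs_of_pos h0]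
      calc τ * |z.im| ≤ 1 / |z.im| * |z.im| :=
            mul_le_mul_of_nonneg_right (min_le_right _ _) h3.le
        _ = 1 := by field_simp
    have h5 := abs_le.1 h4
    have hpi := Real.pi_gt_three
    rw [Ne, Real.sin_eq_zero_iff_of_lt_of_lt (by linarith [h5.1]) (by linarith [h5.2])]
    exact mul_ne_zero h0.ne' h2
  · refine ⟨0, by simp, ?_⟩
    show Real.sin (z.re + 0 * z.im) ≠ 0
    rwa [zero_mul, add_zero]

theorem sat_nc (h : TD n N Pr F g) (hL : ExactLag n N ⊥ S f) (hM : S ⊆ MF N g) {c₂ : ℝ → E m}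
    (hc : NG N Pr F g c) (hc₂ : NG N Pr F g c₂) {z : ℂ} (hs : ¬IsCone z)
    (hz : ph c z ∈ S) : ph c₂ z ∈ S := by
  obtain ⟨τ, hτ, hsin⟩ := SatN_tau hs
  obtain ⟨S', f', hL', hM', key⟩ := exists_shear h hL hM hτ
  exact (key c₂ hc₂ z).2 (sat_reg h hL' hM' hc hc₂ hsin ((key c hc z).1 hz)).1

/-- Some shear moves a point off the focal fibres. -/
theorem exists_tau {z : ℂ} (hs : ¬IsCone z) : ∃ τ : ℝ, |τ| ≤ 1 ∧ Real.sin (shr2 τ z).re ≠ 0 := by
  exact SatN_tau hs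

end Pool.Agent.H73.CO
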