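import Pool.Agent.H73.CO.PshB
import Pool.Agent.H73.CO.LvP

/-!
# Module SatR: saturation over the regular levels (about 110 lines)

PROOFS.
* `sat_lev`: `a = F q`, `Λ = {x ∈ N | F x = a}`, preconnected (`h.trans.conn`). `A = {x ∈ Λ | (x, t • g x) ∈ S ∧ f (x, t • g x) = f (q, t • g q)}`. `A` is open in `Λ`: for `x ∈ A` and `y ∈ Λ` near `x`
  `lev_path` gives `κ` from `x` to `y`, `lev_push`. The complement `Λ \ A` is open in `Λ`: for `x ∈ Λ \ A` and `y ∈ A` near `x` the curve from `x` to `y` (from `lev_path` at `x`), run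
  backwards (`κ (1 - s)`), and `lev_push` from `y` to `x` would give `x ∈ A`. `Λ` preconnected and `q ∈ A`: `A = Λ`.
* `sat_reg`: `ph c z = (c θ, ρ c' θ)` with `ρ c' θ = t • g (c θ)`, `t = -ρ / sin θ` (`ng_der_reg`), the same `t` for `c₂`; `F (c θ) = cos θ = F (c₂ θ)`, `|cos θ| < 1`. `sat_lev`.
-/

set_option autoImplicit false

open scoped ContDiff Topology RealInnerProductSpace
open Set Filter

namespace Pool.Agent.H73.CO

open Pool.Agent.H57.NL Pool.Agent.H2.TG Pool.Agent.H2.TI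

variable {m n : ℕ} {N : Set (E m)} {Pr : E m → (E m →L[ℝ] E m)} {F : E m → ℝ}
  {g : E m → E m}

variable {S : Set (E m × E m)} {f : E m × E m → ℝ} {c : ℝ → E m}


theorem sat_lev (h : TD n N Pr F g) (hL : ExactLag n N ⊥ S f) (hM : S ⊆ MF N g) {q q' : E m}
    (hq : q ∈ N) (hq' : q' ∈ N) (hF : F q' = F q) (hr : |F q| < 1) {t : ℝ}
    (hz : (q, t • g q) ∈ S) :
    (q', t • g q') ∈ S ∧ f (q', t • g q') = f (q, t • g q) := by
  refine (h.trans.conn (F q) hr).induction₂' (fun x y => (x, t • g x) ∈ S →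
    (y, t • g y) ∈ S ∧ f (y, t • g y) = f (x, t • g x)) ?_ ?_ ⟨hq, rfl⟩ ⟨hq', hF⟩ hz
  · rintro x ⟨hxN, hxF⟩
    have hr' : |F x| < 1 := by rw [hxF]; exact hr
    have h1 := lev_path h hxN hr'
    filter_upwards [nhdsWithin_le_nhds h1, self_mem_nhdsWithin] with y hy hyΛ
    obtain ⟨κ, k1, k2, k3, k4, k5⟩ := hy hyΛ.1 (hyΛ.2.trans hxF.symm)
    have e0 : κ 0 = x := k4 0 le_rfl
    have e1 : κ 1 = y := k5 1 le_rfl
    constructor
    · intro hx
      have h2 := lev_push h hL hM hr' k1 k2 k3 (fun s hs => by rw [k4 s hs, e0])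
        (fun s hs => by rw [k5 s hs, e1]) (t := t) (by rw [e0]; exact hx)
      rwa [e0, e1] at h2
    · intro hy2
      have h3 : ContDiff ℝ ∞ fun s : ℝ => κ (1 - s) :=
        k1.comp (contDiff_const.sub contDiff_id)
      have h2 := lev_push h hL hM hr' h3 (fun s => k2 (1 - s)) (fun s => k3 (1 - s))
        (fun s hs => by
          show κ (1 - s) = κ (1 - 0)
          rw [k5 (1 - s) (by linarith), sub_zero, e1])
        (fun s hs => by
          show κ (1 - s) = κ (1 - 1)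
          rw [k4 (1 - s) (by linarith), sub_self, e0]) (t := t)
        (by
          show (κ (1 - 0), t • g (κ (1 - 0))) ∈ S
          rw [sub_zero, e1]
          exact hy2)
      simp only [sub_zero, sub_self, e0, e1] at h2
      exact h2
  · intro x y z _ _ _ hxy hyz hx
    obtain ⟨h1, h2⟩ := hxy hx
    obtain ⟨h3, h4⟩ := hyz h1
    exact ⟨h3, h4.trans h2⟩

theorem sat_reg (h : TD n N Pr F g) (hL : ExactLag n N ⊥ S f) (hM : S ⊆ MF N g) {c₂ : ℝ → E m}
    (hc : NG N Pr F g c) (hc₂ : NG N Pr F g c₂) {z : ℂ} (hs : Real.sin z.re ≠ 0)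
    (hz : ph c z ∈ S) : ph c₂ z ∈ S ∧ f (ph c₂ z) = f (ph c z) := by
  have key : ∀ {c : ℝ → E m}, NG N Pr F g c →
      ph c z = (c z.re, (-(z.im * (Real.sin z.re)⁻¹)) • g (c z.re)) := by
    intro c hc
    unfold ph
    rw [ng_der_reg hc hs, smul_neg, smul_smul, neg_smul]
  have hr : |F (c z.re)| < 1 := by
    rw [hc.lev, ← sq_lt_one_iff_abs_lt_one]
    have h1 := Real.sin_sq_add_cos_sq z.re
    have h2 : 0 < Real.sin z.re ^ 2 := by positivity
    linarith
  rw [key hc] at hz ⊢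
  rw [key hc₂]
  exact sat_lev h hL hM (hc.mem _) (hc₂.mem _) (by rw [hc.lev, hc₂.lev]) hr hz

end Pool.Agent.H73.CO
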