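import Pool.Agent.H73.CO.DefsG
import Pool.Agent.H57.NL.Loc

/-!
# Module SubA: one dimensional submanifolds of the plane (about 180 lines)

PROOFS.
* `plane_chart`. `fderiv ℝ G₀ z₀ ≠ 0`: there is `a : ℂ`, `a ≠ 0`, with `fderiv ℝ G₀ z₀ ζ = a.re * ζ.re + a.im * ζ.im`. Put `ℓ ζ = -a.im * ζ.re + a.re * ζ.im` and `Φ z = ⟨ℓ (z - z₀), G₀ z⟩ : ℂ`. The derivative of
  `Φ` at `z₀` is injective (determinant `-(a.re² + a.im²)` up to sign). `smooth_inverse` (`H57/NL/Loc`) gives an open partial homeomorphism; restrict it to an open set on which everything is smooth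
  (source and target).
* `subAt_of_curve`. `G₀ z₀ = 0`. Chart `e` of `plane_chart`, `A = ℝ·1 ⊆ ℂ` (`Submodule.span ℝ {1}`, finrank 1; `w ∈ A ↔ w.im = 0`). `λ t = ℓ (x t - z₀)`: continuous near `0`, `λ 0 = 0`, `HasDerivAt λ (ℓ v) 0`; `G₀ (x t) = 0` near `0`
  gives `fderiv ℝ G₀ z₀ v = 0`, so `ℓ v ≠ 0` (`v ≠ 0`). So the image under `λ` of every neighbourhood of `0` contains a neighbourhood of `0` (the values at `±t` have opposite signs; intermediate value
  theorem). Restrict `e` to an open `O ∋ z₀` on which `hΓ` holds and such that for `y ∈ O` there is `t` near `0` (`x t ∈ e.source`, `x t ∈ Γ`) with `λ t = ℓ (y - z₀)`. For `y ∈ O`: `y ∈ Γ ⇒ G₀ y = 0 ⇒ (e y).im = 0`;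
  conversely `(e y).im = 0` and `λ t = ℓ (y - z₀)` give `e (x t) = e y`, `y = x t ∈ Γ`.
* `subAt_curve`: a `SubAt 1` set contains near the point a smooth curve with nonzero velocity: `e.symm (e x + t a)`, `a ∈ A`, `a ≠ 0`.
* `subAt_preimage`: compose the chart with `L`.
-/

set_option autoImplicit false

open scoped ContDiff Topology RealInnerProductSpace
open Set Filter

namespace Pool.Agent.H73.CO

open Pool.Agent.H57.NL Pool.Agent.H2.TG Pool.Agent.H2.TI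

variable {m n : ℕ} {N : Set (E m)} {Pr : E m → (E m →L[ℝ] E m)} {F : E m → ℝ}
  {g : E m → E m}

/-- Restriction of a chart to a smaller open set. -/
private theorem subA_restr {e : OpenPartialHomeomorph ℂ ℂ} {O : Set ℂ} (hO : IsOpen O)
    (h1 : ContDiffOn ℝ ∞ e e.source) (h2 : ContDiffOn ℝ ∞ e.symm e.target) :
    ∃ e' : OpenPartialHomeomorph ℂ ℂ, e'.source = e.source ∩ O ∧ (∀ z, e' z = e z) ∧
      ContDiffOn ℝ ∞ e' e'.source ∧ ContDiffOn ℝ ∞ e'.symm e'.target := by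
  refine ⟨e.restrOpen O hO, ?_, fun z => rfl, ?_, ?_⟩
  · rw [OpenPartialHomeomorph.restrOpen_source]
  · rw [OpenPartialHomeomorph.restrOpen_source]
    exact h1.mono inter_subset_left
  · refine ContDiffOn.mono h2 ?_
    intro y hy
    exact hy.1

private theorem subA_mem (w : ℂ) : w ∈ Submodule.span ℝ ({1} : Set ℂ) ↔ w.im = 0 := by
  rw [Submodule.mem_span_singleton]
  constructor
  · rintro ⟨a, rfl⟩
    simp
  · intro h
    refine ⟨w.re, ?_⟩
    apply Complex.ext <;> simp [h]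

private theorem subA_lin (D : ℂ →L[ℝ] ℝ) (v : ℂ) : D v = v.re * D 1 + v.im * D Complex.I := by
  have h : v = v.re • (1 : ℂ) + v.im • Complex.I := by
    apply Complex.ext <;> simp
  conv_lhs => rw [h]
  rw [map_add, map_smul, map_smul, smul_eq_mul, smul_eq_mul]

theorem plane_chart {z₀ : ℂ} {G₀ : ℂ → ℝ} (hG : ∀ᶠ z in 𝓝 z₀, ContDiffAt ℝ ∞ G₀ z)
    (hD : fderiv ℝ G₀ z₀ ≠ 0) : ∃ (ℓ : ℂ →L[ℝ] ℝ) (e : OpenPartialHomeomorph ℂ ℂ), z₀ ∈ e.source ∧
      ContDiffOn ℝ ∞ e e.source ∧ ContDiffOn ℝ ∞ e.symm e.target ∧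
      (∀ z ∈ e.source, e z = ⟨ℓ (z - z₀), G₀ z⟩) ∧
      (∀ z ∈ e.source, ContDiffAt ℝ ∞ G₀ z ∧ ∀ v, fderiv ℝ G₀ z v = 0 → ℓ v = 0 → v = 0) := by
  set D := fderiv ℝ G₀ z₀ with hDdef
  set p : ℝ := D 1 with hp
  set q : ℝ := D Complex.I with hq
  set a : ℂ := ⟨p, q⟩ with ha
  have hpq : p ^ 2 + q ^ 2 ≠ 0 := by
    intro h
    apply hD
    have hp0 : p = 0 := by nlinarith [sq_nonneg p, sq_nonneg q]
    have hq0 : q = 0 := by nlinarith [sq_nonneg p, sq_nonneg q]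
    ext v
    rw [subA_lin D v, ← hp, ← hq, hp0, hq0]
    simp
  set ℓ : ℂ →L[ℝ] ℝ := (-q) • Complex.reCLM + p • Complex.imCLM with hℓ
  have hℓv : ∀ v : ℂ, ℓ v = -q * v.re + p * v.im := by
    intro v
    simp [hℓ]
  have hline : ∀ v : ℂ, ℓ v = 0 → v = ((p * v.re + q * v.im) / (p ^ 2 + q ^ 2)) • a := by
    intro v hv
    rw [hℓv] at hv
    apply Complex.ext
    · simp only [Complex.real_smul, Complex.mul_re, Complex.ofReal_re, Complex.ofReal_im, ha]
      field_simp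
      linear_combination (-q) * hv
    · simp only [Complex.real_smul, Complex.mul_im, Complex.ofReal_re, Complex.ofReal_im, ha]
      field_simp
      linear_combination p * hv
  have hDa : D a = p ^ 2 + q ^ 2 := by
    rw [subA_lin D a, ← hp, ← hq]
    simp only [ha]
    ring
  set c : ℂ → ℂ := fun z => Complex.equivRealProdCLM.symm (ℓ (z - z₀), G₀ z) with hc
  have hcz : ∀ z, c z = ⟨ℓ (z - z₀), G₀ z⟩ := by
    intro z
    simp only [hc]
    rw [Complex.equivRealProdCLM_symm_apply]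
    apply Complex.ext <;> simp
  have hcs : ∀ z, ContDiffAt ℝ ∞ G₀ z → ContDiffAt ℝ ∞ c z := by
    intro z hz
    have h1 : ContDiffAt ℝ ∞ (fun z => ℓ (z - z₀)) z :=
      ℓ.contDiff.contDiffAt.comp z (contDiffAt_id.sub contDiffAt_const)
    exact Complex.equivRealProdCLM.symm.contDiff.contDiffAt.comp z (h1.prodMk hz)
  have hG0 := hG.self_of_nhds
  have hder : HasFDerivAt c ((Complex.equivRealProdCLM.symm : ℝ × ℝ →L[ℝ] ℂ).comp (ℓ.prod D)) z₀ := by
    have h1 : HasFDerivAt (fun z => ℓ (z - z₀)) ℓ z₀ := by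
      have h2 : HasFDerivAt (fun z : ℂ => z - z₀) (ContinuousLinearMap.id ℝ ℂ) z₀ :=
        (hasFDerivAt_id z₀).sub_const z₀
      have h3 := ℓ.hasFDerivAt.comp z₀ h2
      exact h3
    have h4 : HasFDerivAt G₀ D z₀ := (hG0.differentiableAt (by simp)).hasFDerivAt
    have h5 := h1.prodMk h4
    exact (Complex.equivRealProdCLM.symm : ℝ × ℝ →L[ℝ] ℂ).hasFDerivAt.comp z₀ h5
  have hinj : Function.Injective (fderiv ℝ c z₀) := by
    rw [hder.fderiv]
    rw [injective_iff_map_eq_zero]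
    intro v hv
    have h1 : (ℓ v, D v) = (0 : ℝ × ℝ) := by
      have h2 : Complex.equivRealProdCLM.symm (ℓ v, D v) = 0 := hv
      exact (map_eq_zero_iff _ Complex.equivRealProdCLM.symm.injective).1 h2
    have hl : ℓ v = 0 := congrArg Prod.fst h1
    have hd : D v = 0 := congrArg Prod.snd h1
    have h3 := hline v hl
    have h4 : p * v.re + q * v.im = 0 := by
      have := subA_lin D v
      rw [← hp, ← hq, hd] at this
      linarith
    rw [h3, h4]
    simp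
  obtain ⟨Φ, hΦ, hz₀, hsym⟩ := smooth_inverse (X := ℂ) (Y := ℂ) rfl (hG.mono fun z hz => hcs z hz)
    hinj
  have hcont : ContinuousAt (fun z => fderiv ℝ G₀ z a) z₀ := by
    have h1 : ContinuousAt (fun z => fderiv ℝ G₀ z) z₀ :=
      (hG0.fderiv_right (m := 0) (by simp)).continuousAt
    exact (ContinuousLinearMap.apply ℝ ℝ a).continuous.continuousAt.comp h1
  have hne : ∀ᶠ z in 𝓝 z₀, fderiv ℝ G₀ z a ≠ 0 := by
    apply hcont.eventually_ne
    show D a ≠ 0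
    rw [hDa]
    exact hpq
  obtain ⟨U, hU1, hUo, hUz⟩ := mem_nhds_iff.1 (hG.and hne)
  obtain ⟨W, hW1, hWo, hWz⟩ := mem_nhds_iff.1 hsym
  have hO : IsOpen (Φ.source ∩ Φ ⁻¹' W) := Φ.isOpen_inter_preimage hWo
  set O := Φ.source ∩ Φ ⁻¹' W ∩ U with hOdef
  have hOo : IsOpen O := hO.inter hUo
  have hzO : z₀ ∈ O := by
    refine ⟨⟨hz₀, ?_⟩, hUz⟩
    rw [mem_preimage, hΦ]
    exact hWz
  refine ⟨ℓ, Φ.restrOpen O hOo, ?_, ?_, ?_, ?_, ?_⟩
  · rw [OpenPartialHomeomorph.restrOpen_source]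
    exact ⟨hz₀, hzO⟩
  · intro z hz
    rw [OpenPartialHomeomorph.restrOpen_source] at hz
    have h1 := (hU1 hz.2.2).1
    have h2 : ContDiffAt ℝ ∞ (Φ.restrOpen O hOo) z := by
      have h3 : ((Φ.restrOpen O hOo : OpenPartialHomeomorph ℂ ℂ) : ℂ → ℂ) = c := hΦ
      rw [h3]
      exact hcs z h1
    exact h2.contDiffWithinAt
  · intro y hy
    have hy1 : y ∈ Φ.target := hy.1
    have hy2 : Φ.symm y ∈ O := hy.2
    have hy3 : y ∈ W := by
      have := hy2.1.2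
      rw [mem_preimage, Φ.right_inv hy1] at this
      exact this
    have h2 : ContDiffAt ℝ ∞ ((Φ.restrOpen O hOo).symm) y := hW1 hy3
    exact h2.contDiffWithinAt
  · intro z _
    have h3 : ((Φ.restrOpen O hOo : OpenPartialHomeomorph ℂ ℂ) : ℂ → ℂ) = c := hΦ
    rw [h3]
    exact hcz z
  · intro z hz
    rw [OpenPartialHomeomorph.restrOpen_source] at hz
    have h1 := hU1 hz.2.2
    refine ⟨h1.1, ?_⟩
    intro v hv1 hv2
    have h3 := hline v hv2
    set t : ℝ := (p * v.re + q * v.im) / (p ^ 2 + q ^ 2) with ht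
    rw [h3, map_smul, smul_eq_mul] at hv1
    rcases mul_eq_zero.1 hv1 with h4 | h4
    · rw [h3, h4, zero_smul]
    · exact absurd h4 h1.2

theorem subAt_of_curve {Γ : Set ℂ} {z₀ : ℂ} {G₀ : ℂ → ℝ}
    (hG : ∀ᶠ z in 𝓝 z₀, ContDiffAt ℝ ∞ G₀ z) (hD : fderiv ℝ G₀ z₀ ≠ 0) (hz₀ : z₀ ∈ Γ)
    (hΓ : ∀ᶠ z in 𝓝 z₀, z ∈ Γ → G₀ z = 0) {x : ℝ → ℂ} {v : ℂ} (hx0 : x 0 = z₀)
    (hxd : HasDerivAt x v 0) (hv : v ≠ 0) (hx : ∀ᶠ t in 𝓝 (0 : ℝ), x t ∈ Γ ∧ ContinuousAt x t) :
    SubAt 1 Γ z₀ := by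
  obtain ⟨ℓ, e, hze, he1, he2, he3, he4⟩ := plane_chart hG hD
  have hxc : Tendsto x (𝓝 0) (𝓝 z₀) := by
    have := hxd.continuousAt.tendsto
    rwa [hx0] at this
  have hG0t : ∀ᶠ t in 𝓝 (0 : ℝ), G₀ (x t) = 0 := by
    filter_upwards [hxc.eventually hΓ, hx] with t h1 h2 using h1 h2.1
  have hGd : HasFDerivAt G₀ (fderiv ℝ G₀ z₀) (x 0) := by
    rw [hx0]
    exact (hG.self_of_nhds.differentiableAt (by simp)).hasFDerivAt
  have hDv : fderiv ℝ G₀ z₀ v = 0 := by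
    have h1 : HasDerivAt (fun t => G₀ (x t)) (fderiv ℝ G₀ z₀ v) 0 :=
      hGd.comp_hasDerivAt (0 : ℝ) hxd
    have h2 : HasDerivAt (fun t => G₀ (x t)) 0 0 :=
      (hasDerivAt_const (0 : ℝ) (0 : ℝ)).congr_of_eventuallyEq hG0t
    exact h1.unique h2
  have hℓv : ℓ v ≠ 0 := fun h => hv ((he4 z₀ hze).2 v hDv h)
  set lam : ℝ → ℝ := fun t => ℓ (x t - z₀) with hlam
  have hld : HasDerivAt lam (ℓ v) 0 := by
    have h1 : HasDerivAt (fun t => x t - z₀) v 0 := hxd.sub_const z₀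
    exact ℓ.hasFDerivAt.comp_hasDerivAt (0 : ℝ) h1
  have hl0 : lam 0 = 0 := by simp [hlam, hx0]
  have hlit : ∀ᶠ t in 𝓝 (0 : ℝ), |lam t - t * ℓ v| ≤ |ℓ v| / 2 * |t| := by
    have h1 := hld.isLittleO
    have h2 := h1.def (c := |ℓ v| / 2) (by positivity)
    filter_upwards [h2] with t ht
    simpa [hl0] using ht
  have hsrc : ∀ᶠ t in 𝓝 (0 : ℝ), x t ∈ e.source :=
    hxc.eventually (e.open_source.mem_nhds hze)
  obtain ⟨δ, hδ, hball⟩ := Metric.eventually_nhds_iff.1 (((hx.and hG0t).and hlit).and hsrc)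
  set s : ℝ := δ / 2 with hs
  have hs0 : 0 < s := by positivity
  have hin : ∀ t ∈ Icc (-s) s, (((x t ∈ Γ ∧ ContinuousAt x t) ∧ G₀ (x t) = 0) ∧
      |lam t - t * ℓ v| ≤ |ℓ v| / 2 * |t|) ∧ x t ∈ e.source := by
    intro t ht
    apply hball
    rw [Real.dist_eq, sub_zero, abs_lt]
    constructor <;> linarith [ht.1, ht.2]
  have hcontOn : ContinuousOn lam (Icc (-s) s) := by
    intro t ht
    have h1 : ContinuousAt x t := (hin t ht).1.1.1.2
    have h2 : ContinuousAt lam t :=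
      ℓ.continuous.continuousAt.comp (h1.sub continuousAt_const)
    exact h2.continuousWithinAt
  have hsI : s ∈ Icc (-s) s := ⟨by linarith, le_refl _⟩
  have hmI : -s ∈ Icc (-s) s := ⟨le_refl _, by linarith⟩
  have hb1 := (hin s hsI).1.2
  have hb2 := (hin (-s) hmI).1.2
  set r : ℝ := |ℓ v| / 2 * s with hr
  have hr0 : 0 < r := by positivity
  have hIVT : ∀ ρ : ℝ, |ρ| < r → ∃ t ∈ Icc (-s) s, lam t = ρ := by
    intro ρ hρ
    rw [abs_lt] at hρ
    have e1 := abs_le.1 hb1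
    have e2 := abs_le.1 hb2
    rw [abs_neg] at e2
    rw [abs_of_pos hs0] at e1 e2
    rcases lt_or_gt_of_ne hℓv with hneg | hpos
    · rw [abs_of_neg hneg] at e1 e2 hr
      have h1 : lam s ≤ ρ := by nlinarith [e1.2, hρ.1]
      have h2 : ρ ≤ lam (-s) := by nlinarith [e2.1, hρ.2]
      have h3 := intermediate_value_Icc' (by linarith : -s ≤ s) hcontOn
      obtain ⟨t, ht, hte⟩ := h3 ⟨h1, h2⟩
      exact ⟨t, ht, hte⟩
    · rw [abs_of_pos hpos] at e1 e2 hr
      have h1 : lam (-s) ≤ ρ := by nlinarith [e2.2, hρ.1]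
      have h2 : ρ ≤ lam s := by nlinarith [e1.1, hρ.2]
      have h3 := intermediate_value_Icc (by linarith : -s ≤ s) hcontOn
      obtain ⟨t, ht, hte⟩ := h3 ⟨h1, h2⟩
      exact ⟨t, ht, hte⟩
  obtain ⟨U, hU1, hUo, hUz⟩ := mem_nhds_iff.1 hΓ
  have hOo : IsOpen {z : ℂ | |ℓ (z - z₀)| < r} := by
    apply isOpen_lt _ continuous_const
    exact (ℓ.continuous.comp (continuous_id.sub continuous_const)).abs
  obtain ⟨e', hs', hee, hc1, hc2⟩ := subA_restr (hUo.inter hOo) he1 he2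
  refine ⟨e', Submodule.span ℝ {1}, ?_, hc1, hc2, finrank_span_singleton one_ne_zero, ?_⟩
  · rw [hs']
    refine ⟨hze, hUz, ?_⟩
    show |ℓ (z₀ - z₀)| < r
    simpa using hr0
  · intro y hy
    rw [hs'] at hy
    obtain ⟨hy1, hy2, hy3⟩ := hy
    rw [hee, he3 y hy1, subA_mem]
    constructor
    · intro h
      exact hU1 hy2 h
    · intro h
      obtain ⟨t, ht, hte⟩ := hIVT (ℓ (y - z₀)) hy3
      have h1 := hin t ht
      have h2 : e (x t) = e y := by
        rw [he3 _ h1.2, he3 y hy1]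
        apply Complex.ext
        · exact hte
        · show G₀ (x t) = G₀ y
          rw [h1.1.1.2]
          exact h.symm
      have h3 : x t = y := e.injOn h1.2 hy1 h2
      rw [← h3]
      exact h1.1.1.1.1

theorem subAt_curve {Γ : Set ℂ} {z₀ : ℂ} (h : SubAt 1 Γ z₀) (hz₀ : z₀ ∈ Γ) :
    ∃ (x : ℝ → ℂ) (v : ℂ), x 0 = z₀ ∧ HasDerivAt x v 0 ∧ v ≠ 0 ∧
      ∀ᶠ t in 𝓝 (0 : ℝ), x t ∈ Γ ∧ ContinuousAt x t := by
  obtain ⟨e, A, hze, he1, he2, hA, hmem⟩ := h
  have hnt : ∃ a ∈ A, a ≠ 0 := by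
    by_contra hcon
    push Not at hcon
    have : A = ⊥ := by
      rw [Submodule.eq_bot_iff]
      exact hcon
    rw [this, finrank_bot] at hA
    exact absurd hA (by norm_num)
  obtain ⟨a, haA, ha0⟩ := hnt
  have hez : e z₀ ∈ A := (hmem z₀ hze).1 hz₀
  have htz : e z₀ ∈ e.target := e.map_source hze
  set g : ℝ → ℂ := fun t => e z₀ + t • a with hg
  have hg0 : g 0 = e z₀ := by simp [hg]
  have hgd : ∀ t, HasDerivAt g a t := by
    intro t
    have h1 : HasDerivAt (fun t : ℝ => t • a) ((1 : ℝ) • a) t := (hasDerivAt_id t).smul_const a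
    rw [one_smul] at h1
    exact h1.const_add (e z₀)
  have hgc : Continuous g := continuous_iff_continuousAt.2 fun t => (hgd t).continuousAt
  have hsymd : HasFDerivAt e.symm (fderiv ℝ e.symm (e z₀)) (g 0) := by
    rw [hg0]
    exact ((he2.contDiffAt (e.open_target.mem_nhds htz)).differentiableAt
      (by simp)).hasFDerivAt
  have hxd : HasDerivAt (fun t => e.symm (g t)) (fderiv ℝ e.symm (e z₀) a) 0 :=
    hsymd.comp_hasDerivAt (0 : ℝ) (hgd 0)
  have htgt : ∀ᶠ t in 𝓝 (0 : ℝ), g t ∈ e.target := by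
    apply hgc.continuousAt.tendsto.eventually
    rw [hg0]
    exact e.open_target.mem_nhds htz
  refine ⟨fun t => e.symm (g t), fderiv ℝ e.symm (e z₀) a, ?_, hxd, ?_, ?_⟩
  · show e.symm (g 0) = z₀
    rw [hg0]
    exact e.left_inv hze
  · intro hv
    have hed : HasFDerivAt e (fderiv ℝ e z₀) (e.symm (g 0)) := by
      rw [hg0, e.left_inv hze]
      exact ((he1.contDiffAt (e.open_source.mem_nhds hze)).differentiableAt
        (by simp)).hasFDerivAt
    have h1 : HasDerivAt (fun t => e (e.symm (g t)))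
        (fderiv ℝ e z₀ (fderiv ℝ e.symm (e z₀) a)) 0 := hed.comp_hasDerivAt (0 : ℝ) hxd
    have h2 : HasDerivAt (fun t => e (e.symm (g t))) a 0 := by
      refine (hgd 0).congr_of_eventuallyEq ?_
      filter_upwards [htgt] with t ht using e.right_inv ht
    rw [hv, map_zero] at h1
    exact ha0 (h2.unique h1)
  · filter_upwards [htgt] with t ht
    refine ⟨?_, ?_⟩
    · rw [hmem _ (e.map_target ht), e.right_inv ht]
      exact A.add_mem hez (A.smul_mem t haA)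
    · exact (e.continuousAt_symm ht).comp hgc.continuousAt

theorem subAt_preimage {Γ : Set ℂ} (L : ℂ ≃L[ℝ] ℂ) {z₀ : ℂ} (h : SubAt 1 Γ (L z₀)) :
    SubAt 1 (L ⁻¹' Γ) z₀ := by
  obtain ⟨e, A, hze, he1, he2, hA, hmem⟩ := h
  refine ⟨L.toHomeomorph.transOpenPartialHomeomorph e, A, hze, ?_, ?_, hA, ?_⟩
  · intro z hz
    have h1 : ContDiffAt ℝ ∞ e (L z) := he1.contDiffAt (e.open_source.mem_nhds hz)
    have h2 : ContDiffAt ℝ ∞ (fun z => e (L z)) z := h1.comp z L.contDiff.contDiffAt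
    exact h2.contDiffWithinAt
  · intro y hy
    have h1 : ContDiffAt ℝ ∞ e.symm y := he2.contDiffAt (e.open_target.mem_nhds hy)
    have h2 : ContDiffAt ℝ ∞ (fun y => L.symm (e.symm y)) y :=
      L.symm.contDiff.contDiffAt.comp y h1
    exact h2.contDiffWithinAt
  · intro y hy
    exact hmem (L y) hy

end Pool.Agent.H73.CO
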