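import Pool.Agent.H73.CO.MFm
import Pool.Agent.H73.CO.LagT

/-!
# Module SubB: the profile is locally contained in a smooth curve (about 110 lines)

PROOF of `def_fun`. Slice chart `e, A` of `S` at `z = ph c z₀`. `D = fderiv ℝ (ph c) z₀ : ℂ →L[ℝ] E m × E m`, `D 1 = (c' θ, ρ • c'' θ)`, `D I = (0, c' θ)`. If `fderiv ℝ e z (D ζ) ∈ A` for `ζ = 1` and `ζ = I`, then both
vectors are in `Tan S z` (`Slice.mem_tan`), so `om (D 1) (D I) = 0` (`hL.lag`); but `om (D 1) (D I) = ⟪ρ c'', 0⟫ - ⟪c', c'⟫ = -1`. So some `ζ` has `fderiv ℝ e z (D ζ) ∉ A`; there is a linear form `l` on `E m × E m` with `l = 0` on `A` and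
`l (fderiv ℝ e z (D ζ)) ≠ 0` (`Submodule.exists_le_ker_of_notMem` or `Submodule.exists_dual_map_eq_bot`; continuous, finite dimension). `G₀ = l ∘ e ∘ ph c`.
-/

set_option autoImplicit false

open scoped ContDiff Topology RealInnerProductSpace
open Set Filter

namespace Pool.Agent.H73.CO

open Pool.Agent.H57.NL Pool.Agent.H2.TG Pool.Agent.H2.TI

variable {m n : ℕ} {N : Set (E m)} {Pr : E m → (E m →L[ℝ] E m)} {F : E m → ℝ}
  {g : E m → E m}

variable {S : Set (E m × E m)} {f : E m × E m → ℝ} {c : ℝ → E m}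


private lemma SubB_smooth (hc : NG N Pr F g c) : ContDiff ℝ ∞ (ph c) := by
  have h1 : ContDiff ℝ ∞ (deriv c) := (contDiff_infty_iff_deriv.1 hc.smooth).2
  have hre : ContDiff ℝ ∞ (fun z : ℂ => z.re) := Complex.reCLM.contDiff
  have him : ContDiff ℝ ∞ (fun z : ℂ => z.im) := Complex.imCLM.contDiff
  exact (hc.smooth.comp hre).prodMk (him.smul (h1.comp hre))

theorem ph_deriv (hc : NG N Pr F g c) (z ζ : ℂ) : fderiv ℝ (ph c) z ζ =
    (ζ.re • deriv c z.re,
      ζ.im • deriv c z.re + (ζ.re * z.im) • fderiv ℝ Pr (c z.re) (deriv c z.re) (deriv c z.re)) := by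
  have hd1 : ContDiff ℝ ∞ (deriv c) := (contDiff_infty_iff_deriv.1 hc.smooth).2
  have hre : HasFDerivAt (fun z : ℂ => z.re) Complex.reCLM z := Complex.reCLM.hasFDerivAt
  have him : HasFDerivAt (fun z : ℂ => z.im) Complex.imCLM z := Complex.imCLM.hasFDerivAt
  have hc1 : HasDerivAt c (deriv c z.re) z.re :=
    ((hc.smooth.differentiable (by simp)) z.re).hasDerivAt
  have hc2 : HasDerivAt (deriv c) (deriv (deriv c) z.re) z.re :=
    ((hd1.differentiable (by simp)) z.re).hasDerivAt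
  have e1 := hc1.hasFDerivAt.comp z hre
  have e2 := hc2.hasFDerivAt.comp z hre
  have e3 := him.smul e2
  have e4 := e1.prodMk e3
  have e5 : HasFDerivAt (ph c) _ z := e4
  rw [e5.fderiv]
  rw [← hc.geod]
  refine Prod.ext ?_ ?_
  · simp
  · simp only [ContinuousLinearMap.prod_apply, Function.comp_apply]
    simp [smul_smul]
    rw [add_comm, mul_comm]

theorem def_fun (hL : ExactLag n N ⊥ S f) (hc : NG N Pr F g c) {z₀ : ℂ}
    (hz : ph c z₀ ∈ S) : ∃ G₀ : ℂ → ℝ, (∀ᶠ z in 𝓝 z₀, ContDiffAt ℝ ∞ G₀ z) ∧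
      fderiv ℝ G₀ z₀ ≠ 0 ∧ ∀ᶠ z in 𝓝 z₀, z ∈ Prof c S → G₀ z = 0 := by
  obtain ⟨e, A, hxe, hs⟩ := hL.sub.slice hz
  have hsm := SubB_smooth hc
  have hphd : HasFDerivAt (ph c) (fderiv ℝ (ph c) z₀) z₀ :=
    ((hsm.differentiable (by simp)) z₀).hasFDerivAt
  have hex : ∃ ζ : ℂ, fderiv ℝ e (ph c z₀) (fderiv ℝ (ph c) z₀ ζ) ∉ A := by
    by_contra hcon
    push Not at hcon
    have a1 := (hs.mem_tan hxe hz _).2 (hcon 1)
    have a2 := (hs.mem_tan hxe hz _).2 (hcon Complex.I)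
    have a3 := hL.lag _ hz _ a1 _ a2
    rw [ph_deriv hc, ph_deriv hc] at a3
    have hu := hc.unit z₀.re
    simp [om] at a3
    rw [a3, norm_zero] at hu
    exact zero_ne_one hu
  obtain ⟨ζ, hζ⟩ := hex
  obtain ⟨l, hl1, hl2⟩ := Submodule.exists_le_ker_of_notMem hζ
  set L : (E m × E m) →L[ℝ] ℝ := LinearMap.toContinuousLinearMap l with hLdef
  have hLl : ∀ x, L x = l x := fun x => rfl
  have hsrc : ∀ᶠ z in 𝓝 z₀, ph c z ∈ e.source :=
    hsm.continuous.continuousAt.tendsto.eventually (e.open_source.mem_nhds hxe)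
  refine ⟨fun z => L (e (ph c z)), ?_, ?_, ?_⟩
  · filter_upwards [hsrc] with z hz1
    exact L.contDiff.contDiffAt.comp z ((hs.cd hz1).comp z hsm.contDiffAt)
  · intro h0
    have h1 : HasFDerivAt (fun z => L (e (ph c z)))
        (L.comp ((fderiv ℝ e (ph c z₀)).comp (fderiv ℝ (ph c) z₀))) z₀ :=
      L.hasFDerivAt.comp z₀ ((hs.hd hxe).comp z₀ hphd)
    have h2 := h1.fderiv
    rw [h0] at h2
    have h3 := congrArg (fun T : ℂ →L[ℝ] ℝ => T ζ) h2
    simp only [ContinuousLinearMap.comp_apply] at h3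
    exact hl1 (by rw [← hLl]; simpa using h3.symm)
  · filter_upwards [hsrc] with z hz1 hz2
    have h1 : e (ph c z) ∈ A := (hs.iff _ hz1).1 hz2
    have h2 := hl2 h1
    rw [LinearMap.mem_ker] at h2
    show L (e (ph c z)) = 0
    rw [hLl]
    exact h2

end Pool.Agent.H73.CO
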