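import Pool.Agent.H73.CO.SubA
import Pool.Agent.H73.CO.SubB
import Pool.Agent.H73.CO.SatA

/-!
# Module SubC: the profile at a regular point (about 200 lines)

Write `z = ph c z₀ = (q₀, p₀)`, `θ₀ = z₀.re`, `ρ₀ = z₀.im`, `sin θ₀ ≠ 0`; `p₀ = t₀ • g q₀`, `t₀ = -ρ₀/sin θ₀`; for points `y = (q, p)` near `z`: `b y = ⟪p, g q⟫`.
PROOFS.
* `reg_vec`: there is `w ∈ Tan S z` with `⟪g q₀, w.1⟫ ≠ 0` or `⟪w.2, g q₀⟫ + ⟪p₀, fderiv ℝ g q₀ w.1⟫ ≠ 0` (the derivatives of `F` and `b`). Suppose that both vanish for all `w ∈ Tan S z`. Let `γ` be a curve in `S` with velocity `w`.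
  Points of `S ⊆ MF N g` over regular points are of the form `(q, τ • g q)` with `τ = b/‖g q‖²` (`mem_MF_iff`, `ng_der_reg`). Along `γ`: `τ (s) = b (γ s)/‖g (q s)‖²`, `τ (0) = t₀`, derivative at `0`: numerator and denominator (`1 - F²`) have derivative
  `0`, so `τ' (0) = 0` and `w.2 = t₀ • fderiv ℝ g q₀ w.1`. So `w ↦ w.1` is injective on `Tan S z` (dimension `n`) with values in `{u ∈ Tan N q₀ | ⟪g q₀, u⟫ = 0}`, of dimension `n - 1` (`g q₀ ∈ Tan N q₀` is not `0`: a proper subspace of `Tan N q₀`, `tan_finrank`).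
  Contradiction (`finrank` of a proper subspace is smaller).
* `subAt_reg`: take `w` from `reg_vec` and the smooth curve `γ = (q (s), p (s))` of `tan_smooth`. `θ₀ = σ arccos (cos θ₀) + 2 k π` with `σ = ±1` (`Real.cos_eq_cos_iff`). `θ s = σ arccos (F (q s)) + 2 k π`: `cos (θ s) = F (q s)`,
  `θ 0 = θ₀`, differentiable at `0`, continuous near `0`, `sin (θ s) ≠ 0`; `ρ s = -b (γ s)/sin (θ s)`, `ρ 0 = ρ₀`. `x s = ⟨θ s, ρ s⟩`. `x s ∈ Prof c S`: `γ s = ph b w'` (`mem_MF_iff`), `QQ F g (γ s) = QP w'` (`QQ_ph`); `QP (x s) = (F, b, b²/sin²)`, and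
  `‖p s‖² = b²/‖g‖² = b²/(1 - F²)`, as `p s` is a multiple of `g (q s)`. So `QP (x s) = QP w'`, `QP_iff`, `ph_change`, `sat`. Velocity of `x` at `0`: `θ' = -F'/sin θ₀`; if `F' = 0` then `θ' = 0` and `ρ' = -b'/sin θ₀ ≠ 0`. `subAt_of_curve` with `def_fun`.
-/

set_option autoImplicit false

open scoped ContDiff Topology RealInnerProductSpace
open Set Filter

namespace Pool.Agent.H73.CO

open Pool.Agent.H57.NL Pool.Agent.H2.TG Pool.Agent.H2.TI

variable {m n : ℕ} {N : Set (E m)} {Pr : E m → (E m →L[ℝ] E m)} {F : E m → ℝ}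
  {g : E m → E m}

variable {S : Set (E m × E m)} {f : E m × E m → ℝ} {c : ℝ → E m}


/-- a branch of `arccos` -/
private theorem subC_branch {θ₀ : ℝ} (hs : Real.sin θ₀ ≠ 0) : ∃ Θ : ℝ → ℝ, Continuous Θ ∧
    (∀ x, |x| ≤ 1 → Real.cos (Θ x) = x) ∧ Θ (Real.cos θ₀) = θ₀ ∧
    HasDerivAt Θ (-(Real.sin θ₀)⁻¹) (Real.cos θ₀) := by
  have hsc := Real.sin_sq_add_cos_sq θ₀
  have hs2 : 0 < Real.sin θ₀ ^ 2 := by positivity
  have hne1 : Real.cos θ₀ ≠ -1 := by
    intro h
    rw [h] at hsc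
    nlinarith
  have hne2 : Real.cos θ₀ ≠ 1 := by
    intro h
    rw [h] at hsc
    nlinarith
  have hsa := Real.sin_arccos (Real.cos θ₀)
  have hd := Real.hasDerivAt_arccos hne1 hne2
  have hc : Real.cos (Real.arccos (Real.cos θ₀)) = Real.cos θ₀ :=
    Real.cos_arccos (Real.neg_one_le_cos θ₀) (Real.cos_le_one θ₀)
  rw [← hsa] at hd
  obtain ⟨k, hk | hk⟩ := Real.cos_eq_cos_iff.1 hc
  · refine ⟨fun x => 2 * k * Real.pi + Real.arccos x, continuous_const.add Real.continuous_arccos,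
      fun x hx => ?_, hk.symm, ?_⟩
    · have e : 2 * (k : ℝ) * Real.pi + Real.arccos x = Real.arccos x + k * (2 * Real.pi) := by ring
      show Real.cos (2 * (k : ℝ) * Real.pi + Real.arccos x) = x
      rw [e, Real.cos_add_int_mul_two_pi]
      exact Real.cos_arccos (abs_le.1 hx).1 (abs_le.1 hx).2
    · have e : Real.sin θ₀ = Real.sin (Real.arccos (Real.cos θ₀)) := by
        conv_lhs => rw [hk]
        have e' : 2 * (k : ℝ) * Real.pi + Real.arccos (Real.cos θ₀) =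
          Real.arccos (Real.cos θ₀) + k * (2 * Real.pi) := by ring
        rw [e', Real.sin_add_int_mul_two_pi]
      have h3 := hd.const_add (2 * (k : ℝ) * Real.pi)
      rw [e]
      rw [one_div] at h3
      exact h3
  · refine ⟨fun x => 2 * k * Real.pi - Real.arccos x, continuous_const.sub Real.continuous_arccos,
      fun x hx => ?_, hk.symm, ?_⟩
    · have e : 2 * (k : ℝ) * Real.pi - Real.arccos x = -Real.arccos x + k * (2 * Real.pi) := by ring
      show Real.cos (2 * (k : ℝ) * Real.pi - Real.arccos x) = x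
      rw [e, Real.cos_add_int_mul_two_pi, Real.cos_neg]
      exact Real.cos_arccos (abs_le.1 hx).1 (abs_le.1 hx).2
    · have e : Real.sin θ₀ = -Real.sin (Real.arccos (Real.cos θ₀)) := by
        conv_lhs => rw [hk]
        have e' : 2 * (k : ℝ) * Real.pi - Real.arccos (Real.cos θ₀) =
          -Real.arccos (Real.cos θ₀) + k * (2 * Real.pi) := by ring
        rw [e', Real.sin_add_int_mul_two_pi, Real.sin_neg]
      have h3 := hd.const_sub (2 * (k : ℝ) * Real.pi)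
      rw [e, inv_neg]
      rw [one_div] at h3
      exact h3

/-- points of `MF N g` over regular points -/
private theorem subC_form (h : TD n N Pr F g) {y : E m × E m} (hy : y ∈ MF N g)
    (hF : F y.1 ^ 2 ≠ 1) : y.2 = (⟪y.2, g y.1⟫ / (1 - F y.1 ^ 2)) • g y.1 := by
  obtain ⟨b, w, hb, rfl⟩ := (mem_MF_iff h).1 hy
  have hF' : F (ph b w).1 = Real.cos w.re := hb.lev _
  have hsc := Real.sin_sq_add_cos_sq w.re
  have hs : Real.sin w.re ≠ 0 := by
    intro h0
    rw [h0] at hsc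
    apply hF
    rw [hF']
    linarith
  have e1 : (ph b w).2 = (-(w.im / Real.sin w.re)) • g (ph b w).1 := by
    show w.im • deriv b w.re = (-(w.im / Real.sin w.re)) • g (b w.re)
    rw [ng_der_reg hb hs, smul_neg, smul_smul, neg_smul, div_eq_mul_inv]
  have e2 : ⟪(ph b w).2, g (ph b w).1⟫ = -(w.im / Real.sin w.re) * (1 - F (ph b w).1 ^ 2) := by
    rw [e1, real_inner_smul_left, real_inner_self_eq_norm_sq]
    congr 1
    exact h.trans.norm _ (hb.mem _)
  have e3 : 1 - F (ph b w).1 ^ 2 ≠ 0 := fun h0 => hF (by linarith)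
  rw [e2, mul_div_cancel_right₀ _ e3]
  exact e1

private theorem subC_q (h : TD n N Pr F g) (hc : NG N Pr F g c) {z₀ : ℂ}
    (hs : Real.sin z₀.re ≠ 0) : F (ph c z₀).1 ^ 2 ≠ 1 := by
  have hF : F (ph c z₀).1 = Real.cos z₀.re := hc.lev _
  have hsc := Real.sin_sq_add_cos_sq z₀.re
  have hs2 : 0 < Real.sin z₀.re ^ 2 := by positivity
  rw [hF]
  intro h0
  linarith

/-- the derivatives of `F` and of `⟪p, g⟫` along a curve -/
private theorem subC_dF (h : TD n N Pr F g) {γ : ℝ → E m × E m} {w : E m × E m}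
    (hd : HasDerivAt γ w 0) (hq : (γ 0).1 ∈ N) (hw : w.1 ∈ Tan N (γ 0).1) :
    HasDerivAt (fun s => F (γ s).1) ⟪g (γ 0).1, w.1⟫ 0 := by
  have h1 : HasDerivAt (fun s => (γ s).1) w.1 0 := hd.fst
  have h2 := (h.trans.smooth.differentiable (by simp) (γ 0).1).hasFDerivAt.comp_hasDerivAt (0 : ℝ) h1
  rw [h.dF hq hw] at h2
  exact h2

private theorem subC_db (h : TD n N Pr F g) {γ : ℝ → E m × E m} {w : E m × E m}
    (hd : HasDerivAt γ w 0) :
    HasDerivAt (fun s => ⟪(γ s).2, g (γ s).1⟫)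
      (⟪w.2, g (γ 0).1⟫ + ⟪(γ 0).2, fderiv ℝ g (γ 0).1 w.1⟫) 0 := by
  have h1 : HasDerivAt (fun s => (γ s).1) w.1 0 := hd.fst
  have h2 : HasDerivAt (fun s => (γ s).2) w.2 0 := hd.snd
  have h3 := (h.smooth.differentiable (by simp) (γ 0).1).hasFDerivAt.comp_hasDerivAt (0 : ℝ) h1
  have h4 := h2.inner ℝ h3
  refine h4.congr_deriv ?_
  simp only [Function.comp]
  ring

theorem reg_vec (h : TD n N Pr F g) (hL : ExactLag n N ⊥ S f) (hM : S ⊆ MF N g)
    (hc : NG N Pr F g c) {z₀ : ℂ} (hs : Real.sin z₀.re ≠ 0) (hz : ph c z₀ ∈ S) :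
    ∃ w ∈ Tan S (ph c z₀), ⟪g (c z₀.re), w.1⟫ ≠ 0 ∨
      ⟪w.2, g (c z₀.re)⟫ + ⟪(ph c z₀).2, fderiv ℝ g (c z₀.re) w.1⟫ ≠ 0 := by
  by_contra hcon
  push Not at hcon
  have hq : c z₀.re ∈ N := hc.mem _
  have hT : ∀ w ∈ Tan S (ph c z₀), w.1 ∈ Tan N (c z₀.re) := fun w hw => by
    obtain ⟨γ, h0, hS, hd⟩ := hw
    exact tan_fst (z := ph c z₀) ⟨γ, h0, hS.mono fun s hs => hL.subTN hs, hd⟩
  have key : ∀ w ∈ Tan S (ph c z₀), w.2 =
      (⟪(ph c z₀).2, g (c z₀.re)⟫ / (1 - F (c z₀.re) ^ 2)) • fderiv ℝ g (c z₀.re) w.1 := by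
    intro w hw
    have hw1 := hT w hw
    obtain ⟨e1, e2⟩ := hcon w hw
    obtain ⟨γ, h0, hS, hd⟩ := hw
    have hγ1 : (γ 0).1 = c z₀.re := by rw [h0]; rfl
    have hγ2 : (γ 0).2 = (ph c z₀).2 := by rw [h0]
    have d1 := subC_dF h hd (by rw [hγ1]; exact hq) (by rw [hγ1]; exact hw1)
    have d2 := subC_db h hd
    rw [hγ1, e1] at d1
    rw [hγ1, hγ2, e2] at d2
    have hF0 : 1 - F (γ 0).1 ^ 2 ≠ 0 := by
      have := subC_q h hc hs
      rw [h0]
      intro h1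
      exact this (by linarith)
    have d3 : HasDerivAt (fun s => 1 - F (γ s).1 ^ 2) 0 0 := by
      have := (d1.pow 2).const_sub 1
      refine this.congr_deriv ?_
      simp
    have d4 := d2.div d3 hF0
    have d4' : HasDerivAt (fun s => ⟪(γ s).2, g (γ s).1⟫ / (1 - F (γ s).1 ^ 2)) 0 0 := by
      refine d4.congr_deriv ?_
      simp
    have d5 : HasDerivAt (fun s => g (γ s).1) (fderiv ℝ g (c z₀.re) w.1) 0 := by
      have h1 : HasDerivAt (fun s => (γ s).1) w.1 0 := hd.fst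
      have h3 := (h.smooth.differentiable (by simp) (γ 0).1).hasFDerivAt.comp_hasDerivAt (0 : ℝ) h1
      rw [hγ1] at h3
      exact h3
    have d6 := d4'.smul d5
    have hcF : ContinuousAt (fun s => F (γ s).1 ^ 2) 0 :=
      (d1.continuousAt).pow 2
    have hev : (fun s => (γ s).2) =ᶠ[𝓝 0]
        fun s => (⟪(γ s).2, g (γ s).1⟫ / (1 - F (γ s).1 ^ 2)) • g (γ s).1 := by
      have hne : F (γ 0).1 ^ 2 ≠ 1 := fun h1 => hF0 (by linarith)
      filter_upwards [hS, hcF.eventually_ne hne] with s h1 h2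
      exact subC_form h (hM h1) h2
    have d7 : HasDerivAt (fun s => (γ s).2) w.2 0 := hd.snd
    have d8 := d7.unique (d6.congr_of_eventuallyEq hev)
    rw [d8, zero_smul, add_zero, hγ1, hγ2]
  obtain ⟨L, hL1, hL2⟩ := tan_finrank hL.sub hz
  obtain ⟨M, hM1, hM2⟩ := tan_finrank h.mfd.sub hq
  have hLm : ∀ w : L, (w : E m × E m) ∈ Tan S (ph c z₀) := fun w => by
    rw [← hL1]
    exact w.2
  have hmem : ∀ w : L, (w : E m × E m).1 ∈ M := fun w => by
    have : (w : E m × E m).1 ∈ (M : Set (E m)) := by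
      rw [hM1]
      exact hT _ (hLm w)
    exact this
  let φ : L →ₗ[ℝ] M :=
    { toFun := fun w => ⟨(w : E m × E m).1, hmem w⟩
      map_add' := fun a b => rfl
      map_smul' := fun a b => rfl }
  have hinj : Function.Injective φ := by
    rw [← LinearMap.ker_eq_bot, LinearMap.ker_eq_bot']
    intro w hw
    have h1 : (w : E m × E m).1 = 0 := congrArg Subtype.val hw
    have h2 := key _ (hLm w)
    rw [h1, map_zero, smul_zero] at h2
    exact Subtype.ext (Prod.ext h1 h2)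
  have hsur : Function.Surjective φ :=
    (LinearMap.injective_iff_surjective_of_finrank_eq_finrank (hL2.trans hM2.symm)).1 hinj
  have hg : g (c z₀.re) ∈ M := by
    have : g (c z₀.re) ∈ (M : Set (E m)) := by
      rw [hM1]
      exact h.trans.tan _ hq
    exact this
  obtain ⟨w, hw⟩ := hsur ⟨g (c z₀.re), hg⟩
  have hw1 : (w : E m × E m).1 = g (c z₀.re) := congrArg Subtype.val hw
  have h1 := (hcon _ (hLm w)).1
  rw [hw1, real_inner_self_eq_norm_sq, h.trans.norm _ hq] at h1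
  exact subC_q h hc hs (by
    show F (c z₀.re) ^ 2 = 1
    linarith)

theorem subAt_reg (h : TD n N Pr F g) (hL : ExactLag n N ⊥ S f) (hM : S ⊆ MF N g)
    (hc : NG N Pr F g c) {z₀ : ℂ} (hs : Real.sin z₀.re ≠ 0) (hz : z₀ ∈ Prof c S) :
    SubAt 1 (Prof c S) z₀ := by
  have hz' : ph c z₀ ∈ S := hz
  obtain ⟨w, hw, hor⟩ := reg_vec h hL hM hc hs hz'
  have hw1 : w.1 ∈ Tan N (ph c z₀).1 := by
    obtain ⟨γ, h0, hS, hd⟩ := hw
    exact tan_fst (z := ph c z₀) ⟨γ, h0, hS.mono fun s hs => hL.subTN hs, hd⟩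
  obtain ⟨γ, h0, hd, hev⟩ := tan_smooth hL.sub hz' hw
  obtain ⟨G₀, hG1, hG2, hG3⟩ := def_fun hL hc hz'
  obtain ⟨Θ, hΘc, hΘ1, hΘ2, hΘ3⟩ := subC_branch hs
  have hγ1 : (γ 0).1 = c z₀.re := by rw [h0]; rfl
  have hF0 : F (γ 0).1 = Real.cos z₀.re := by rw [hγ1]; exact hc.lev _
  have hb0 : ⟪(γ 0).2, g (γ 0).1⟫ = -(z₀.im * Real.sin z₀.re) := by
    have := QQ_ph (F := F) (g := g) hc z₀
    unfold QQ QP at this
    rw [h0]
    exact (Prod.ext_iff.1 (Prod.ext_iff.1 this).2).1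
  have hΘ0 : Θ (F (γ 0).1) = z₀.re := by rw [hF0, hΘ2]
  have d1 := subC_dF h hd (by rw [hγ1]; exact hc.mem _) (by rw [hγ1]; exact hw1)
  have d2 := subC_db h hd
  set D1 : ℝ := ⟪g (γ 0).1, w.1⟫ with hD1
  set D2 : ℝ := ⟪w.2, g (γ 0).1⟫ + ⟪(γ 0).2, fderiv ℝ g (γ 0).1 w.1⟫ with hD2
  have hor' : D1 ≠ 0 ∨ D2 ≠ 0 := by
    rw [hD1, hD2, h0]
    exact hor
  -- the angle
  have dΘ : HasDerivAt (fun s => Θ (F (γ s).1)) (-(Real.sin z₀.re)⁻¹ * D1) 0 := by
    have h3 : HasDerivAt Θ (-(Real.sin z₀.re)⁻¹) (F (γ 0).1) := by rw [hF0]; exact hΘ3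
    exact h3.comp (0 : ℝ) d1
  have dsin : HasDerivAt (fun s => Real.sin (Θ (F (γ s).1)))
      (Real.cos z₀.re * (-(Real.sin z₀.re)⁻¹ * D1)) 0 := by
    have := dΘ.sin
    rwa [hΘ0] at this
  have hsin0 : Real.sin (Θ (F (γ 0).1)) ≠ 0 := by rw [hΘ0]; exact hs
  have dρ := (d2.neg).div dsin hsin0
  set R : ℝ → ℝ := fun s => -⟪(γ s).2, g (γ s).1⟫ / Real.sin (Θ (F (γ s).1)) with hR
  have hR0 : R 0 = z₀.im := by
    rw [hR]
    simp only
    rw [hb0, hΘ0, neg_neg, mul_div_cancel_right₀ _ hs]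
  set ρ' : ℝ := (-D2 * Real.sin (Θ (F (γ 0).1)) - -⟪(γ 0).2, g (γ 0).1⟫ *
    (Real.cos z₀.re * (-(Real.sin z₀.re)⁻¹ * D1))) / Real.sin (Θ (F (γ 0).1)) ^ 2 with hρ'
  have dρ' : HasDerivAt R ρ' 0 := dρ
  set x : ℝ → ℂ := fun s => ((Θ (F (γ s).1) : ℝ) : ℂ) + ((R s : ℝ) : ℂ) * Complex.I with hx
  have hxre : ∀ s, (x s).re = Θ (F (γ s).1) := fun s => by
    simp only [hx, Complex.add_re, Complex.ofReal_re, Complex.mul_re, Complex.ofReal_im,
      Complex.I_re, Complex.I_im, mul_zero, zero_mul, sub_zero, add_zero]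
  have hxim : ∀ s, (x s).im = R s := fun s => by
    simp only [hx, Complex.add_im, Complex.ofReal_im, Complex.mul_im, Complex.ofReal_re,
      Complex.I_re, Complex.I_im, mul_zero, mul_one, zero_add, add_zero]
  have hx0 : x 0 = z₀ := Complex.ext (by rw [hxre, hΘ0]) (by rw [hxim, hR0])
  set v : ℂ := ((-(Real.sin z₀.re)⁻¹ * D1 : ℝ) : ℂ) + ((ρ' : ℝ) : ℂ) * Complex.I with hv
  have hvre : v.re = -(Real.sin z₀.re)⁻¹ * D1 := by
    simp only [hv, Complex.add_re, Complex.ofReal_re, Complex.mul_re, Complex.ofReal_im,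
      Complex.I_re, Complex.I_im, mul_zero, zero_mul, sub_zero, add_zero]
  have hvim : v.im = ρ' := by
    simp only [hv, Complex.add_im, Complex.ofReal_im, Complex.mul_im, Complex.ofReal_re,
      Complex.I_re, Complex.I_im, mul_zero, mul_one, zero_add, add_zero]
  have hxd : HasDerivAt x v 0 := dΘ.ofReal_comp.add (dρ'.ofReal_comp.mul_const Complex.I)
  have hv0 : v ≠ 0 := by
    intro h1
    have h2 : v.re = 0 := by rw [h1]; rfl
    have h3 : v.im = 0 := by rw [h1]; rfl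
    rw [hvre] at h2
    have h4 : D1 = 0 := by
      rcases mul_eq_zero.1 h2 with h5 | h5
      · exact absurd h5 (neg_ne_zero.2 (inv_ne_zero hs))
      · exact h5
    rw [hvim, hρ', h4, mul_zero, mul_zero, mul_zero, sub_zero, hΘ0] at h3
    have h5 : D2 = 0 := by
      rcases div_eq_zero_iff.1 h3 with h6 | h6
      · rcases mul_eq_zero.1 h6 with h7 | h7
        · exact neg_eq_zero.1 h7
        · exact absurd h7 hs
      · exact absurd h6 (pow_ne_zero 2 hs)
    rcases hor' with h6 | h6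
    · exact h6 h4
    · exact h6 h5
  refine subAt_of_curve hG1 hG2 hz hG3 hx0 hxd hv0 ?_
  have hsc : ∀ᶠ s in 𝓝 (0 : ℝ), Real.sin (Θ (F (γ s).1)) ≠ 0 :=
    dsin.continuousAt.eventually_ne hsin0
  filter_upwards [hev, hsc] with s h1 h2
  obtain ⟨h1S, h1c⟩ := h1
  constructor
  · obtain ⟨b, w', hb, hbw⟩ := (mem_MF_iff h).1 (hM h1S)
    have hQ := QQ_ph (F := F) (g := g) hb w'
    rw [← hbw] at hQ
    unfold QQ QP at hQ
    have q1 : F (γ s).1 = Real.cos w'.re := (Prod.ext_iff.1 hQ).1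
    have q2 : ⟪(γ s).2, g (γ s).1⟫ = -(w'.im * Real.sin w'.re) :=
      (Prod.ext_iff.1 (Prod.ext_iff.1 hQ).2).1
    have c1 : Real.cos (Θ (F (γ s).1)) = Real.cos w'.re := by
      rw [hΘ1 _ (h.abs_le ((hL.subTN h1S).1)), q1]
    have s1 : Real.sin (Θ (F (γ s).1)) ^ 2 = Real.sin w'.re ^ 2 := by
      have e1 := Real.sin_sq_add_cos_sq (Θ (F (γ s).1))
      have e2 := Real.sin_sq_add_cos_sq w'.re
      rw [c1] at e1
      linarith
    have hQP : QP w' = QP (x s) := by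
      unfold QP
      rw [hxre, hxim]
      refine Prod.ext ?_ (Prod.ext ?_ ?_)
      · exact c1.symm
      · show -(w'.im * Real.sin w'.re) = -(R s * Real.sin (Θ (F (γ s).1)))
        rw [hR]
        simp only
        rw [div_mul_cancel₀ _ h2, q2, neg_neg]
      · show w'.im ^ 2 = R s ^ 2
        rw [hR]
        simp only
        rw [q2, neg_neg, div_pow, mul_pow, ← s1, mul_div_cancel_right₀ _ (pow_ne_zero 2 h2)]
    obtain ⟨b', hb', hbb⟩ := ph_change hb (QP_iff.1 hQP)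
    have hS' : ph b' (x s) ∈ S := by
      rw [hbb, ← hbw]
      exact h1S
    exact sat h hL hM hb' hc hS'
  · have c0 : ContinuousAt γ s := h1c.continuousAt
    have c1 : ContinuousAt (fun s => F (γ s).1) s :=
      (h.trans.smooth.continuous.continuousAt).comp (continuous_fst.continuousAt.comp c0)
    have c2 : ContinuousAt (fun s => Θ (F (γ s).1)) s := (hΘc.continuousAt).comp c1
    have c3 : ContinuousAt (fun s => g (γ s).1) s :=
      (h.smooth.continuous.continuousAt).comp (continuous_fst.continuousAt.comp c0)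
    have c4 : ContinuousAt (fun s => (γ s).2) s := continuous_snd.continuousAt.comp c0
    have c5 : ContinuousAt R s :=
      ((c4.inner c3).neg).div (Real.continuous_sin.continuousAt.comp c2) h2
    exact (Complex.continuous_ofReal.continuousAt.comp c2).add
      ((Complex.continuous_ofReal.continuousAt.comp c5).mul continuousAt_const)

end Pool.Agent.H73.CO
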